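import Mathlib

set_option autoImplicit false

/-!
# The completely additive function attached to the iterated totient
-/

namespace Pool.Agent.IterTotient

/-- The completely additive function with `F 2 = 1` and `F p = F (p - 1)` for odd primes `p`. -/
def F (n : ℕ) : ℕ :=
  (n.primeFactorsList.attach.map (fun p => if p.1 = 2 then 1 else F (p.1 - 1))).sum
termination_by n
decreasing_by
  have h1 := Nat.prime_of_mem_primeFactorsList p.2
  have h2 := Nat.le_of_mem_primeFactorsList p.2
  have h3 := h1.two_le
  omega

lemma F_eq (n : ℕ) :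
    F n = (n.primeFactorsList.map (fun p => if p = 2 then 1 else F (p - 1))).sum := by
  rw [F]
  congr 1
  exact List.attach_map_val (f := fun p => if p = 2 then 1 else F (p - 1))

@[simp] lemma F_zero : F 0 = 0 := by rw [F_eq]; simp

@[simp] lemma F_one : F 1 = 0 := by rw [F_eq]; simp

lemma F_prime {p : ℕ} (hp : p.Prime) : F p = if p = 2 then 1 else F (p - 1) := by
  rw [F_eq, Nat.primeFactorsList_prime hp]; simp

@[simp] lemma F_two : F 2 = 1 := by rw [F_prime Nat.prime_two]; simp

lemma F_mul {m n : ℕ} (hm : m ≠ 0) (hn : n ≠ 0) : F (m * n) = F m + F n := by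
  rw [F_eq, F_eq m, F_eq n, ← List.sum_append, ← List.map_append]
  exact ((Nat.perm_primeFactorsList_mul hm hn).map _).sum_eq

lemma F_pow (m k : ℕ) (hm : m ≠ 0) : F (m ^ k) = k * F m := by
  induction k with
  | zero => simp
  | succ k ih => rw [pow_succ, F_mul (pow_ne_zero _ hm) hm, ih]; ring

lemma F_prime_odd {p : ℕ} (hp : p.Prime) (h2 : p ≠ 2) : F p = F (p - 1) := by
  rw [F_prime hp, if_neg h2]

/-- `p` odd prime: `F p = 1 + F ((p-1)/2)`. -/
lemma F_prime_half {p : ℕ} (hp : p.Prime) (h2 : p ≠ 2) : F p = 1 + F ((p - 1) / 2) := by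
  rw [F_prime_odd hp h2]
  have hodd := hp.odd_of_ne_two h2
  obtain ⟨k, hk⟩ := hodd
  have hk0 : k ≠ 0 := by rintro rfl; simp at hk; exact hp.one_lt.ne' hk
  have h1 : p - 1 = 2 * k := by omega
  rw [h1, F_mul (by norm_num) hk0, F_two]
  congr 2; omega

/-- `F` of the totient. -/
lemma F_totient (n : ℕ) (hn : n ≠ 0) : F (Nat.totient n) + (if Even n then 1 else 0) = F n := by
  induction n using induction_on_primes with
  | zero => exact absurd rfl hn
  | one => simp
  | prime_mul p m hp ih =>
    have hm : m ≠ 0 := by rintro rfl; simp at hn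
    have ih := ih hm
    have htm : Nat.totient m ≠ 0 := by
      rw [Ne, Nat.totient_eq_zero]; exact hm
    have hp1 : p - 1 ≠ 0 := by have := hp.two_le; omega
    by_cases hd : p ∣ m
    · rw [Nat.totient_mul_of_prime_of_dvd hp hd, F_mul hp.ne_zero htm, F_mul hp.ne_zero hm]
      have he : Even (p * m) ↔ Even m := by
        rw [Nat.even_mul]
        constructor
        · rintro (h | h)
          · have : p = 2 := (Nat.Prime.even_iff hp).mp h
            rw [this] at hd; exact even_iff_two_dvd.mpr hd
          · exact h
        · intro h; exact Or.inr h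
      simp only [he]
      omega
    · rw [Nat.totient_mul_of_prime_of_not_dvd hp hd, F_mul hp1 htm, F_mul hp.ne_zero hm]
      by_cases h2 : p = 2
      · subst h2
        have hmodd : ¬ Even m := fun h => hd (even_iff_two_dvd.mp h)
        have he : Even (2 * m) := even_two_mul m
        rw [if_pos he]
        rw [if_neg hmodd] at ih
        simp only [F_two]
        norm_num
        omega
      · have he : Even (p * m) ↔ Even m := by
          rw [Nat.even_mul]
          constructor
          · rintro (h | h)
            · exact absurd ((Nat.Prime.even_iff hp).mp h) h2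
            · exact h
          · intro h; exact Or.inr h
        simp only [he]
        rw [F_prime_odd hp h2]
        omega

lemma totient_iterate_ne_zero (k n : ℕ) (hn : n ≠ 0) : Nat.totient^[k] n ≠ 0 := by
  induction k generalizing n with
  | zero => simpa using hn
  | succ k ih =>
    rw [Function.iterate_succ_apply]
    apply ih
    rw [Ne, Nat.totient_eq_zero]; exact hn

/-- Lower bound for the number of iterations. -/
lemma F_le_of_iterate_eq_one (k n : ℕ) (hn : n ≠ 0) (h : Nat.totient^[k] n = 1) : F n ≤ k := by
  induction k generalizing n with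
  | zero => simp at h; simp [h]
  | succ k ih =>
    rw [Function.iterate_succ_apply] at h
    have h1 := ih (Nat.totient n) (by rw [Ne, Nat.totient_eq_zero]; exact hn) h
    have h2 := F_totient n hn
    split_ifs at h2 <;> omega

lemma iterate_even (n : ℕ) (hn : n ≠ 0) (he : Even n) : Nat.totient^[F n] n = 1 := by
  induction n using Nat.strong_induction_on with
  | _ n ih =>
    have h2 := F_totient n hn
    rw [if_pos he] at h2
    rw [← h2, Function.iterate_succ_apply]
    have hn2 : 2 ≤ n := by
      rcases he with ⟨c, hc⟩; omega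
    rcases Nat.lt_or_ge 2 n with h | h
    · apply ih _ (Nat.totient_lt n (by omega))
      · rw [Ne, Nat.totient_eq_zero]; exact hn
      · exact Nat.totient_even h
    · obtain rfl : n = 2 := by omega
      simp

lemma iterate_succ (n : ℕ) (hn : n ≠ 0) : Nat.totient^[F n + 1] n = 1 := by
  by_cases he : Even n
  · rw [Function.iterate_succ_apply', iterate_even n hn he]; simp
  · have h2 := F_totient n hn
    rw [if_neg he, add_zero] at h2
    rw [Function.iterate_succ_apply]
    rcases Nat.lt_or_ge 2 n with h | h
    · rw [← h2]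
      apply iterate_even
      · rw [Ne, Nat.totient_eq_zero]; exact hn
      · exact Nat.totient_even h
    · have : n = 1 := by
        have : n ≠ 2 := by rintro rfl; exact he (by decide)
        omega
      subst this; simp

/-- The stopping time of the iterated totient: least `k ≥ 1` with `φ_k(n) = 1`. -/
noncomputable def stop (n : ℕ) : ℕ := sInf {k : ℕ | 1 ≤ k ∧ Nat.totient^[k] n = 1}

lemma F_le_stop (n : ℕ) (hn : n ≠ 0) : F n ≤ stop n := by
  have hne : {k : ℕ | 1 ≤ k ∧ Nat.totient^[k] n = 1}.Nonempty :=
    ⟨F n + 1, by omega, iterate_succ n hn⟩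
  have := Nat.sInf_mem hne
  exact F_le_of_iterate_eq_one _ n hn this.2

lemma stop_le (n : ℕ) (hn : n ≠ 0) : stop n ≤ F n + 1 :=
  Nat.sInf_le ⟨by omega, iterate_succ n hn⟩

/-- `n ≤ 3 ^ F n` -/
lemma le_three_pow (n : ℕ) : n ≤ 3 ^ F n := by
  induction n using Nat.strong_induction_on with
  | _ n ih =>
    rcases Nat.lt_or_ge n 2 with h | h
    · interval_cases n <;> simp
    · by_cases hp : n.Prime
      · by_cases h2 : n = 2
        · subst h2; simp
        · rw [F_prime_half hp h2, pow_add, pow_one]
          have h3 := ih ((n - 1) / 2) (by omega)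
          have hodd := hp.odd_of_ne_two h2
          obtain ⟨k, hk⟩ := hodd
          have : (n - 1) / 2 = k := by omega
          rw [this] at h3 ⊢
          omega
      · obtain ⟨a, b, ha, hb, hab⟩ : ∃ a b, a < n ∧ b < n ∧ n = a * b := by
          obtain ⟨a, ha1, ha2, ha3⟩ := Nat.exists_dvd_of_not_prime2 h hp
          obtain ⟨b, hb⟩ := ha1
          refine ⟨a, b, ha3, ?_, hb⟩
          rw [hb]
          nlinarith [Nat.pos_of_ne_zero (by rintro rfl; omega : b ≠ 0)]
        have ha0 : a ≠ 0 := by rintro rfl; omega
        have hb0 : b ≠ 0 := by rintro rfl; omega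
        rw [hab, F_mul ha0 hb0, pow_add]
        exact Nat.mul_le_mul (ih a ha) (ih b hb)

end Pool.Agent.IterTotient
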