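import Mathlib

set_option autoImplicit false
open Finset

namespace Pool.Agent.RDT3

/-- One diagonal band `k z = j y + d` of dyadic levels. -/
theorem band {α β : Type*} (G : Finset α) (H : Finset β) (M : α → β → ℝ)
    (κ : ℝ) (hκ : 0 ≤ κ)
    (hres : ∀ B ⊆ G, ∀ C ⊆ H,
      ∑ y ∈ B, ∑ z ∈ C, M y z ≤ κ * (Real.sqrt (B.card : ℝ) * Real.sqrt (C.card : ℝ)))
    (j : α → ℤ) (k : β → ℤ) (d : ℤ) :
    ∑ y ∈ G, ∑ z ∈ H, (if k z = j y + d then M y z * ((2:ℝ)^(j y) * (2:ℝ)^(k z)) else 0)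
      ≤ κ * (Real.sqrt (∑ y ∈ G, ((2:ℝ)^(j y))^2) * Real.sqrt (∑ z ∈ H, ((2:ℝ)^(k z))^2)) := by
  classical
  set J := G.image j with hJ
  have h1 : ∑ y ∈ G, ∑ z ∈ H,
        (if k z = j y + d then M y z * ((2:ℝ)^(j y) * (2:ℝ)^(k z)) else 0)
      = ∑ i ∈ J, ((2:ℝ)^i * (2:ℝ)^(i+d)) *
          ∑ y ∈ G.filter (fun y => j y = i), ∑ z ∈ H.filter (fun z => k z = i + d), M y z := by
    rw [← Finset.sum_fiberwise_of_maps_to (s := G) (t := J) (g := j)
      (fun y hy => Finset.mem_image_of_mem j hy)]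
    refine Finset.sum_congr rfl fun i hi => ?_
    rw [Finset.mul_sum]
    refine Finset.sum_congr rfl fun y hy => ?_
    rw [Finset.mul_sum, Finset.sum_filter]
    have hjy : j y = i := (Finset.mem_filter.mp hy).2
    refine Finset.sum_congr rfl fun z hz => ?_
    rw [hjy]
    split_ifs with h
    · rw [h]; ring
    · rfl
  rw [h1]
  have h2 : ∑ i ∈ J, ((2:ℝ)^i * (2:ℝ)^(i+d)) *
          ∑ y ∈ G.filter (fun y => j y = i), ∑ z ∈ H.filter (fun z => k z = i + d), M y z
      ≤ ∑ i ∈ J, κ * (((2:ℝ)^i * Real.sqrt ((G.filter (fun y => j y = i)).card : ℝ)) *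
          ((2:ℝ)^(i+d) * Real.sqrt ((H.filter (fun z => k z = i + d)).card : ℝ))) := by
    refine Finset.sum_le_sum fun i hi => ?_
    have hpos : (0:ℝ) ≤ (2:ℝ)^i * (2:ℝ)^(i+d) := by positivity
    have := mul_le_mul_of_nonneg_left
      (hres (G.filter (fun y => j y = i)) (Finset.filter_subset _ _)
        (H.filter (fun z => k z = i + d)) (Finset.filter_subset _ _)) hpos
    refine this.trans (le_of_eq ?_)
    ring
  refine h2.trans ?_
  rw [← Finset.mul_sum]
  refine mul_le_mul_of_nonneg_left ?_ hκ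
  refine (Real.sum_mul_le_sqrt_mul_sqrt _ _ _).trans ?_
  refine mul_le_mul ?_ ?_ (Real.sqrt_nonneg _) (Real.sqrt_nonneg _)
  · apply Real.sqrt_le_sqrt
    rw [← Finset.sum_fiberwise_of_maps_to (s := G) (t := J) (g := j)
      (fun y hy => Finset.mem_image_of_mem j hy)]
    refine Finset.sum_le_sum fun i hi => ?_
    rw [mul_pow, Real.sq_sqrt (Nat.cast_nonneg _)]
    rw [Finset.card_eq_sum_ones, Nat.cast_sum, Finset.mul_sum]
    refine Finset.sum_le_sum fun y hy => ?_
    have hjy : j y = i := (Finset.mem_filter.mp hy).2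
    rw [hjy]; simp
  · apply Real.sqrt_le_sqrt
    have h3 : ∀ i : ℤ, ((2:ℝ)^(i+d) * Real.sqrt ((H.filter (fun z => k z = i + d)).card : ℝ))^2
        = ∑ z ∈ H, (if k z = i + d then ((2:ℝ)^(k z))^2 else 0) := by
      intro i
      rw [mul_pow, Real.sq_sqrt (Nat.cast_nonneg _)]
      rw [Finset.card_eq_sum_ones, Nat.cast_sum, Finset.mul_sum, Finset.sum_filter]
      refine Finset.sum_congr rfl fun z hz => ?_
      split_ifs with h
      · rw [h]; simp
      · rfl
    simp_rw [h3]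
    rw [Finset.sum_comm]
    refine Finset.sum_le_sum fun z hz => ?_
    have h4 : ∀ i ∈ J, (if k z = i + d then ((2:ℝ)^(k z))^2 else 0)
        = (if k z - d = i then ((2:ℝ)^(k z))^2 else 0) := by
      intro i hi
      by_cases h : k z = i + d
      · rw [if_pos h, if_pos (by omega)]
      · rw [if_neg h, if_neg (by omega)]
    rw [Finset.sum_congr rfl h4, Finset.sum_ite_eq]
    split_ifs
    · exact le_rfl
    · positivity

/-- Restricted bounds plus trivial row and column bounds give a strong bilinear bound,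
unnormalised additive form, for strictly positive functions. -/
theorem bilin_pos {α β : Type*} (G : Finset α) (H : Finset β) (M : α → β → ℝ)
    (hM : ∀ y z, 0 ≤ M y z) (R : ℕ) (κ : ℝ) (hκ : 0 ≤ κ)
    (hrow : ∀ y ∈ G, ∑ z ∈ H, M y z ≤ 2^R) (hcol : ∀ z ∈ H, ∑ y ∈ G, M y z ≤ 2^R)
    (hres : ∀ B ⊆ G, ∀ C ⊆ H,
      ∑ y ∈ B, ∑ z ∈ C, M y z ≤ κ * (Real.sqrt (B.card : ℝ) * Real.sqrt (C.card : ℝ)))
    (b : α → ℝ) (c : β → ℝ) (hb : ∀ y ∈ G, 0 < b y) (hc : ∀ z ∈ H, 0 < c z) :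
    ∑ y ∈ G, ∑ z ∈ H, M y z * (b y * c z) ≤
      ∑ y ∈ G, b y ^ 2 + ∑ z ∈ H, c z ^ 2 +
        4 * (2 * R + 1) * κ * (Real.sqrt (∑ y ∈ G, b y ^ 2) * Real.sqrt (∑ z ∈ H, c z ^ 2)) := by
  classical
  set j : α → ℤ := fun y => Int.log 2 (b y) with hj
  set k : β → ℤ := fun z => Int.log 2 (c z) with hk
  have hjle : ∀ y ∈ G, (2:ℝ)^(j y) ≤ b y := fun y hy => by
    have := Int.zpow_log_le_self (b := 2) (r := b y) one_lt_two (hb y hy)
    exact_mod_cast this
  have hkle : ∀ z ∈ H, (2:ℝ)^(k z) ≤ c z := fun z hz => by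
    have := Int.zpow_log_le_self (b := 2) (r := c z) one_lt_two (hc z hz)
    exact_mod_cast this
  have hjlt : ∀ y, b y < (2:ℝ)^(j y + 1) := fun y => by
    have := Int.lt_zpow_succ_log_self (b := 2) one_lt_two (b y)
    exact_mod_cast this
  have hklt : ∀ z, c z < (2:ℝ)^(k z + 1) := fun z => by
    have := Int.lt_zpow_succ_log_self (b := 2) one_lt_two (c z)
    exact_mod_cast this
  have h2 : (2:ℝ) ≠ 0 := two_ne_zero
  -- pointwise decomposition
  have hpt : ∀ y ∈ G, ∀ z ∈ H, M y z * (b y * c z) ≤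
      M y z * ((2:ℝ)^R)⁻¹ * b y ^ 2 + M y z * ((2:ℝ)^R)⁻¹ * c z ^ 2
        + ∑ d ∈ Finset.Icc (-(R:ℤ)) R,
          4 * (if k z = j y + d then M y z * ((2:ℝ)^(j y) * (2:ℝ)^(k z)) else 0) := by
    intro y hy z hz
    have hbp := hb y hy
    have hcp := hc z hz
    have hMp := hM y z
    have hsum_nonneg : 0 ≤ ∑ d ∈ Finset.Icc (-(R:ℤ)) R,
          4 * (if k z = j y + d then M y z * ((2:ℝ)^(j y) * (2:ℝ)^(k z)) else 0) := by
      refine Finset.sum_nonneg fun d hd => ?_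
      split_ifs
      · positivity
      · simp
    have t1 : 0 ≤ M y z * ((2:ℝ)^R)⁻¹ * b y ^ 2 := by positivity
    have t2 : 0 ≤ M y z * ((2:ℝ)^R)⁻¹ * c z ^ 2 := by positivity
    rcases lt_or_ge (k z) (j y - R) with h | h
    · -- c is much smaller than b
      have hcb : c z ≤ ((2:ℝ)^R)⁻¹ * b y := by
        calc c z ≤ (2:ℝ)^(k z + 1) := (hklt z).le
          _ ≤ (2:ℝ)^(j y - R) := zpow_le_zpow_right₀ one_le_two (by omega)
          _ = ((2:ℝ)^R)⁻¹ * (2:ℝ)^(j y) := by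
              rw [zpow_sub₀ h2, zpow_natCast]; field_simp
          _ ≤ ((2:ℝ)^R)⁻¹ * b y := by gcongr; exact hjle y hy
      have : M y z * (b y * c z) ≤ M y z * ((2:ℝ)^R)⁻¹ * b y ^ 2 := by
        calc M y z * (b y * c z) ≤ M y z * (b y * (((2:ℝ)^R)⁻¹ * b y)) := by gcongr
          _ = _ := by ring
      linarith
    · rcases lt_or_ge (j y + R) (k z) with h' | h'
      · have hcb : b y ≤ ((2:ℝ)^R)⁻¹ * c z := by
          calc b y ≤ (2:ℝ)^(j y + 1) := (hjlt y).le
            _ ≤ (2:ℝ)^(k z - R) := zpow_le_zpow_right₀ one_le_two (by omega)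
            _ = ((2:ℝ)^R)⁻¹ * (2:ℝ)^(k z) := by
                rw [zpow_sub₀ h2, zpow_natCast]; field_simp
            _ ≤ ((2:ℝ)^R)⁻¹ * c z := by gcongr; exact hkle z hz
        have : M y z * (b y * c z) ≤ M y z * ((2:ℝ)^R)⁻¹ * c z ^ 2 := by
          calc M y z * (b y * c z) ≤ M y z * ((((2:ℝ)^R)⁻¹ * c z) * c z) := by gcongr
            _ = _ := by ring
        linarith
      · have hmem : k z - j y ∈ Finset.Icc (-(R:ℤ)) R := by
          rw [Finset.mem_Icc]; constructor <;> omega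
        have hle : 4 * (if k z = j y + (k z - j y) then
              M y z * ((2:ℝ)^(j y) * (2:ℝ)^(k z)) else 0) ≤ ∑ d ∈ Finset.Icc (-(R:ℤ)) R,
            4 * (if k z = j y + d then M y z * ((2:ℝ)^(j y) * (2:ℝ)^(k z)) else 0) := by
          refine Finset.single_le_sum (f := fun d => 4 * (if k z = j y + d then
            M y z * ((2:ℝ)^(j y) * (2:ℝ)^(k z)) else 0)) ?_ hmem
          intro d hd
          split_ifs
          · positivity
          · simp
        rw [if_pos (by ring)] at hle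
        have : M y z * (b y * c z) ≤ 4 * (M y z * ((2:ℝ)^(j y) * (2:ℝ)^(k z))) := by
          have hb2 : b y ≤ 2 * (2:ℝ)^(j y) := by
            have := (hjlt y).le
            rwa [zpow_add_one₀ h2, mul_comm] at this
          have hc2 : c z ≤ 2 * (2:ℝ)^(k z) := by
            have := (hklt z).le
            rwa [zpow_add_one₀ h2, mul_comm] at this
          calc M y z * (b y * c z) ≤ M y z * ((2 * (2:ℝ)^(j y)) * (2 * (2:ℝ)^(k z))) := by gcongr
            _ = _ := by ring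
        linarith
  -- sum up
  have hsum : ∑ y ∈ G, ∑ z ∈ H, M y z * (b y * c z) ≤
      ∑ y ∈ G, ∑ z ∈ H, M y z * ((2:ℝ)^R)⁻¹ * b y ^ 2
      + ∑ y ∈ G, ∑ z ∈ H, M y z * ((2:ℝ)^R)⁻¹ * c z ^ 2
      + ∑ d ∈ Finset.Icc (-(R:ℤ)) R, 4 * ∑ y ∈ G, ∑ z ∈ H,
          (if k z = j y + d then M y z * ((2:ℝ)^(j y) * (2:ℝ)^(k z)) else 0) := by
    have : ∑ d ∈ Finset.Icc (-(R:ℤ)) R, 4 * ∑ y ∈ G, ∑ z ∈ H,
          (if k z = j y + d then M y z * ((2:ℝ)^(j y) * (2:ℝ)^(k z)) else 0)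
        = ∑ y ∈ G, ∑ z ∈ H, ∑ d ∈ Finset.Icc (-(R:ℤ)) R,
          4 * (if k z = j y + d then M y z * ((2:ℝ)^(j y) * (2:ℝ)^(k z)) else 0) := by
      simp_rw [Finset.mul_sum]
      rw [Finset.sum_comm]
      refine Finset.sum_congr rfl fun y hy => ?_
      rw [Finset.sum_comm]
    rw [this, ← Finset.sum_add_distrib, ← Finset.sum_add_distrib]
    refine Finset.sum_le_sum fun y hy => ?_
    rw [← Finset.sum_add_distrib, ← Finset.sum_add_distrib]
    exact Finset.sum_le_sum fun z hz => hpt y hy z hz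
  have hfar1 : ∑ y ∈ G, ∑ z ∈ H, M y z * ((2:ℝ)^R)⁻¹ * b y ^ 2 ≤ ∑ y ∈ G, b y ^ 2 := by
    refine Finset.sum_le_sum fun y hy => ?_
    rw [← Finset.sum_mul, ← Finset.sum_mul]
    have : (∑ z ∈ H, M y z) * ((2:ℝ)^R)⁻¹ ≤ 1 := by
      rw [← div_eq_mul_inv, div_le_one (by positivity)]
      exact hrow y hy
    calc _ ≤ 1 * b y ^ 2 := by gcongr
      _ = _ := one_mul _
  have hfar2 : ∑ y ∈ G, ∑ z ∈ H, M y z * ((2:ℝ)^R)⁻¹ * c z ^ 2 ≤ ∑ z ∈ H, c z ^ 2 := by
    rw [Finset.sum_comm]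
    refine Finset.sum_le_sum fun z hz => ?_
    rw [← Finset.sum_mul, ← Finset.sum_mul]
    have : (∑ y ∈ G, M y z) * ((2:ℝ)^R)⁻¹ ≤ 1 := by
      rw [← div_eq_mul_inv, div_le_one (by positivity)]
      exact hcol z hz
    calc _ ≤ 1 * c z ^ 2 := by gcongr
      _ = _ := one_mul _
  have hnear : ∑ d ∈ Finset.Icc (-(R:ℤ)) R, 4 * ∑ y ∈ G, ∑ z ∈ H,
          (if k z = j y + d then M y z * ((2:ℝ)^(j y) * (2:ℝ)^(k z)) else 0)
      ≤ 4 * (2 * R + 1) * κ *
        (Real.sqrt (∑ y ∈ G, b y ^ 2) * Real.sqrt (∑ z ∈ H, c z ^ 2)) := by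
    have hle : ∀ d ∈ Finset.Icc (-(R:ℤ)) R, 4 * ∑ y ∈ G, ∑ z ∈ H,
          (if k z = j y + d then M y z * ((2:ℝ)^(j y) * (2:ℝ)^(k z)) else 0)
        ≤ 4 * (κ * (Real.sqrt (∑ y ∈ G, b y ^ 2) * Real.sqrt (∑ z ∈ H, c z ^ 2))) := by
      intro d hd
      refine mul_le_mul_of_nonneg_left ?_ (by norm_num)
      refine (band G H M κ hκ hres j k d).trans ?_
      have e1 : ∑ y ∈ G, ((2:ℝ)^(j y))^2 ≤ ∑ y ∈ G, b y ^ 2 :=
        Finset.sum_le_sum fun y hy => by
          have := hjle y hy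
          gcongr
      have e2 : ∑ z ∈ H, ((2:ℝ)^(k z))^2 ≤ ∑ z ∈ H, c z ^ 2 :=
        Finset.sum_le_sum fun z hz => by
          have := hkle z hz
          gcongr
      gcongr
    refine (Finset.sum_le_sum hle).trans ?_
    rw [Finset.sum_const, Int.card_Icc, nsmul_eq_mul]
    have : ((((R:ℤ) + 1 - -(R:ℤ)).toNat : ℕ) : ℝ) = 2 * R + 1 := by
      have h : ((R:ℤ) + 1 - -(R:ℤ)).toNat = 2 * R + 1 := by omega
      rw [h]; push_cast; ring
    rw [this]
    apply le_of_eq; ring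
  linarith

/-- Homogeneous form for nonnegative functions. -/
theorem bilin {α β : Type*} (G : Finset α) (H : Finset β) (M : α → β → ℝ)
    (hM : ∀ y z, 0 ≤ M y z) (R : ℕ) (κ : ℝ) (hκ : 0 ≤ κ)
    (hrow : ∀ y ∈ G, ∑ z ∈ H, M y z ≤ 2^R) (hcol : ∀ z ∈ H, ∑ y ∈ G, M y z ≤ 2^R)
    (hres : ∀ B ⊆ G, ∀ C ⊆ H,
      ∑ y ∈ B, ∑ z ∈ C, M y z ≤ κ * (Real.sqrt (B.card : ℝ) * Real.sqrt (C.card : ℝ)))
    (b : α → ℝ) (c : β → ℝ) (hb : ∀ y, 0 ≤ b y) (hc : ∀ z, 0 ≤ c z) :
    ∑ y ∈ G, ∑ z ∈ H, M y z * (b y * c z) ≤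
      (2 + 4 * (2 * R + 1) * κ) *
        (Real.sqrt (∑ y ∈ G, b y ^ 2) * Real.sqrt (∑ z ∈ H, c z ^ 2)) := by
  classical
  set nb := Real.sqrt (∑ y ∈ G, b y ^ 2) with hnb
  set nc := Real.sqrt (∑ z ∈ H, c z ^ 2) with hnc
  have hnb2 : nb ^ 2 = ∑ y ∈ G, b y ^ 2 := Real.sq_sqrt (Finset.sum_nonneg fun y _ => sq_nonneg _)
  have hnc2 : nc ^ 2 = ∑ z ∈ H, c z ^ 2 := Real.sq_sqrt (Finset.sum_nonneg fun y _ => sq_nonneg _)
  have hnb0 : 0 ≤ nb := Real.sqrt_nonneg _
  have hnc0 : 0 ≤ nc := Real.sqrt_nonneg _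
  rcases hnb0.eq_or_lt with hb0 | hbpos
  · have hz : ∀ y ∈ G, b y = 0 := by
      have : ∑ y ∈ G, b y ^ 2 = 0 := by rw [← hnb2, ← hb0]; norm_num
      intro y hy
      have := (Finset.sum_eq_zero_iff_of_nonneg (fun y _ => sq_nonneg (b y))).mp this y hy
      exact pow_eq_zero_iff (two_ne_zero) |>.mp this
    have : ∑ y ∈ G, ∑ z ∈ H, M y z * (b y * c z) = 0 :=
      Finset.sum_eq_zero fun y hy => Finset.sum_eq_zero fun z _ => by rw [hz y hy]; ring
    rw [this, ← hb0]; simp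
  rcases hnc0.eq_or_lt with hc0 | hcpos
  · have hz : ∀ z ∈ H, c z = 0 := by
      have : ∑ z ∈ H, c z ^ 2 = 0 := by rw [← hnc2, ← hc0]; norm_num
      intro y hy
      have := (Finset.sum_eq_zero_iff_of_nonneg (fun y _ => sq_nonneg (c y))).mp this y hy
      exact pow_eq_zero_iff (two_ne_zero) |>.mp this
    have : ∑ y ∈ G, ∑ z ∈ H, M y z * (b y * c z) = 0 :=
      Finset.sum_eq_zero fun y _ => Finset.sum_eq_zero fun z hz' => by rw [hz z hz']; ring
    rw [this, ← hc0]; simp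
  -- restrict to the supports and normalise
  set G' := G.filter (fun y => b y ≠ 0) with hG'
  set H' := H.filter (fun z => c z ≠ 0) with hH'
  have hG'sub : G' ⊆ G := Finset.filter_subset _ _
  have hH'sub : H' ⊆ H := Finset.filter_subset _ _
  have key := bilin_pos G' H' M hM R κ hκ
    (fun y hy => (Finset.sum_le_sum_of_subset_of_nonneg hH'sub
      (fun z _ _ => hM y z)).trans (hrow y (hG'sub hy)))
    (fun z hz => (Finset.sum_le_sum_of_subset_of_nonneg hG'sub
      (fun y _ _ => hM y z)).trans (hcol z (hH'sub hz)))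
    (fun B hB C hC => hres B (hB.trans hG'sub) C (hC.trans hH'sub))
    (fun y => b y / nb) (fun z => c z / nc)
    (fun y hy => div_pos (lt_of_le_of_ne (hb y) (Finset.mem_filter.mp hy).2.symm) hbpos)
    (fun z hz => div_pos (lt_of_le_of_ne (hc z) (Finset.mem_filter.mp hz).2.symm) hcpos)
  have e1 : ∑ y ∈ G', (b y / nb) ^ 2 ≤ 1 := by
    have h : ∑ y ∈ G', (b y / nb) ^ 2 ≤ ∑ y ∈ G, (b y / nb) ^ 2 :=
      Finset.sum_le_sum_of_subset_of_nonneg hG'sub (fun y _ _ => sq_nonneg _)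
    refine h.trans (le_of_eq ?_)
    simp_rw [div_pow]
    rw [← Finset.sum_div, ← hnb2]
    exact div_self (by positivity)
  have e2 : ∑ z ∈ H', (c z / nc) ^ 2 ≤ 1 := by
    have h : ∑ z ∈ H', (c z / nc) ^ 2 ≤ ∑ z ∈ H, (c z / nc) ^ 2 :=
      Finset.sum_le_sum_of_subset_of_nonneg hH'sub (fun y _ _ => sq_nonneg _)
    refine h.trans (le_of_eq ?_)
    simp_rw [div_pow]
    rw [← Finset.sum_div, ← hnc2]
    exact div_self (by positivity)
  have e3 : Real.sqrt (∑ y ∈ G', (b y / nb) ^ 2) * Real.sqrt (∑ z ∈ H', (c z / nc) ^ 2) ≤ 1 := by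
    have a1 : Real.sqrt (∑ y ∈ G', (b y / nb) ^ 2) ≤ 1 := by
      have := Real.sqrt_le_sqrt e1
      rwa [Real.sqrt_one] at this
    have a2 : Real.sqrt (∑ z ∈ H', (c z / nc) ^ 2) ≤ 1 := by
      have := Real.sqrt_le_sqrt e2
      rwa [Real.sqrt_one] at this
    calc _ ≤ (1:ℝ) * 1 := mul_le_mul a1 a2 (Real.sqrt_nonneg _) zero_le_one
      _ = 1 := one_mul 1
  have key2 : ∑ y ∈ G', ∑ z ∈ H', M y z * (b y / nb * (c z / nc)) ≤ 2 + 4 * (2 * R + 1) * κ := by
    have : 4 * (2 * (R:ℝ) + 1) * κ * (Real.sqrt (∑ y ∈ G', (b y / nb) ^ 2) *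
        Real.sqrt (∑ z ∈ H', (c z / nc) ^ 2)) ≤ 4 * (2 * (R:ℝ) + 1) * κ * 1 :=
      mul_le_mul_of_nonneg_left e3 (by positivity)
    linarith
  have e4 : ∑ y ∈ G, ∑ z ∈ H, M y z * (b y * c z)
      = (∑ y ∈ G', ∑ z ∈ H', M y z * (b y / nb * (c z / nc))) * (nb * nc) := by
    have s1 : ∑ y ∈ G, ∑ z ∈ H, M y z * (b y * c z)
        = ∑ y ∈ G', ∑ z ∈ H', M y z * (b y * c z) := by
      rw [hG', Finset.sum_filter]
      refine Finset.sum_congr rfl fun y _ => ?_
      rw [hH', Finset.sum_filter]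
      split_ifs with h
      · refine Finset.sum_congr rfl fun z _ => ?_
        split_ifs with h'
        · rfl
        · have : c z = 0 := by simpa using h'
          rw [this]; ring
      · have : b y = 0 := by simpa using h
        exact Finset.sum_eq_zero fun z _ => by rw [this]; ring
    rw [s1, Finset.sum_mul]
    refine Finset.sum_congr rfl fun y _ => ?_
    rw [Finset.sum_mul]
    refine Finset.sum_congr rfl fun z _ => ?_
    field_simp
  rw [e4]
  exact mul_le_mul_of_nonneg_right key2 (by positivity)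

/-- The trilinear estimate from the restricted one. -/
theorem trilin {Γ : Type*} [Group Γ] [DecidableEq Γ] (F G H : Finset Γ) (R : ℕ)
    (hF : F.card ≤ 2 ^ R) (K : ℝ) (hK : 0 ≤ K)
    (hT : ∀ A ⊆ F, ∀ B C : Finset Γ,
      (((A ×ˢ B ×ˢ C).filter (fun t => t.1 * t.2.1 * t.2.2 = 1)).card : ℝ)
            ≤ K * Real.sqrt ((A.card : ℝ) * B.card * C.card))
    (a b c : Γ → ℝ) (ha : ∀ x, 0 ≤ a x) (hb : ∀ x, 0 ≤ b x) (hc : ∀ x, 0 ≤ c x) :
    ∑ x ∈ F, ∑ y ∈ G, ∑ z ∈ H, (if x * y * z = 1 then a x * b y * c z else 0)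
      ≤ (1 + 2 * (R + 1) * (2 + 4 * (2 * R + 1) * K)) *
        (Real.sqrt (∑ x ∈ F, a x ^ 2) * Real.sqrt (∑ y ∈ G, b y ^ 2) *
                Real.sqrt (∑ z ∈ H, c z ^ 2)) := by
  classical
  set nb := Real.sqrt (∑ y ∈ G, b y ^ 2) with hnb
  set nc := Real.sqrt (∑ z ∈ H, c z ^ 2) with hnc
  set na := Real.sqrt (∑ x ∈ F, a x ^ 2) with hna
  have hna2 : na ^ 2 = ∑ y ∈ F, a y ^ 2 := Real.sq_sqrt (Finset.sum_nonneg fun y _ => sq_nonneg _)
  have hna0 : 0 ≤ na := Real.sqrt_nonneg _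
  have hnb0 : 0 ≤ nb := Real.sqrt_nonneg _
  have hnc0 : 0 ≤ nc := Real.sqrt_nonneg _
  set ν : Γ → ℝ := fun x => ∑ y ∈ G, ∑ z ∈ H, (if x * y * z = 1 then b y * c z else 0) with hν
  have hν0 : ∀ x, 0 ≤ ν x := fun x => Finset.sum_nonneg fun y _ => Finset.sum_nonneg fun z _ => by
    split_ifs
    · exact mul_nonneg (hb y) (hc z)
    · exact le_rfl
  have hL : ∑ x ∈ F, ∑ y ∈ G, ∑ z ∈ H, (if x * y * z = 1 then a x * b y * c z else 0)
      = ∑ x ∈ F, a x * ν x := by
    refine Finset.sum_congr rfl fun x _ => ?_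
    rw [hν]; simp only [Finset.mul_sum]
    refine Finset.sum_congr rfl fun y _ => ?_
    refine Finset.sum_congr rfl fun z _ => ?_
    split_ifs
    · ring
    · simp
  rw [hL]
  -- the restricted estimate for subsets of F
  have hA : ∀ A ⊆ F, ∑ x ∈ A, ν x ≤
      (2 + 4 * (2 * R + 1) * (K * Real.sqrt (A.card : ℝ))) * (nb * nc) := by
    intro A hAF
    set M : Γ → Γ → ℝ := fun y z => ∑ x ∈ A, (if x * y * z = 1 then 1 else 0) with hM
    have hM0 : ∀ y z, 0 ≤ M y z := fun y z => Finset.sum_nonneg fun x _ => by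
      split_ifs <;> norm_num
    have hAc : (A.card : ℝ) ≤ 2 ^ R := by
      have := (Finset.card_le_card hAF).trans hF
      exact_mod_cast this
    have hrow : ∀ y ∈ G, ∑ z ∈ H, M y z ≤ 2^R := by
      intro y _
      rw [hM]; simp only
      rw [Finset.sum_comm]
      have : ∀ x ∈ A, ∑ z ∈ H, (if x * y * z = 1 then (1:ℝ) else 0) ≤ 1 := by
        intro x _
        have h : ∀ z ∈ H, (if x * y * z = 1 then (1:ℝ) else 0)
            = if (x * y)⁻¹ = z then (1:ℝ) else 0 := by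
          intro z _
          have : x * y * z = 1 ↔ (x * y)⁻¹ = z := by
            rw [inv_eq_iff_mul_eq_one]
          simp [this]
        rw [Finset.sum_congr rfl h, Finset.sum_ite_eq]
        split_ifs <;> norm_num
      refine (Finset.sum_le_sum this).trans ?_
      simpa using hAc
    have hcol : ∀ z ∈ H, ∑ y ∈ G, M y z ≤ 2^R := by
      intro z _
      rw [hM]; simp only
      rw [Finset.sum_comm]
      have : ∀ x ∈ A, ∑ y ∈ G, (if x * y * z = 1 then (1:ℝ) else 0) ≤ 1 := by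
        intro x _
        have h : ∀ y ∈ G, (if x * y * z = 1 then (1:ℝ) else 0)
            = if x⁻¹ * z⁻¹ = y then (1:ℝ) else 0 := by
          intro y _
          have : x * y * z = 1 ↔ x⁻¹ * z⁻¹ = y := by
            rw [mul_eq_one_iff_eq_inv, inv_mul_eq_iff_eq_mul]
            exact eq_comm
          simp [this]
        rw [Finset.sum_congr rfl h, Finset.sum_ite_eq]
        split_ifs <;> norm_num
      refine (Finset.sum_le_sum this).trans ?_
      simpa using hAc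
    have hres : ∀ B ⊆ G, ∀ C ⊆ H, ∑ y ∈ B, ∑ z ∈ C, M y z ≤
        (K * Real.sqrt (A.card : ℝ)) * (Real.sqrt (B.card : ℝ) * Real.sqrt (C.card : ℝ)) := by
      intro B _ C _
      have := hT A hAF B C
      have e : ∑ y ∈ B, ∑ z ∈ C, M y z
          = (((A ×ˢ B ×ˢ C).filter (fun t => t.1 * t.2.1 * t.2.2 = 1)).card : ℝ) := by
        rw [Finset.card_filter]
        push_cast
        rw [Finset.sum_product]
        simp_rw [Finset.sum_product]
        rw [hM]; simp only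
        rw [Finset.sum_comm]
        rw [Finset.sum_congr rfl (fun z _ => Finset.sum_comm)]
        rw [Finset.sum_comm]
        refine Finset.sum_congr rfl fun x _ => ?_
        rw [Finset.sum_comm]
      rw [e]
      refine this.trans (le_of_eq ?_)
      rw [Real.sqrt_mul (by positivity), Real.sqrt_mul (by positivity)]
      ring
    have := bilin G H M hM0 R (K * Real.sqrt (A.card : ℝ)) (by positivity) hrow hcol hres b c hb hc
    refine le_trans (le_of_eq ?_) this
    rw [hν, hM]; simp only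
    rw [Finset.sum_comm]
    refine Finset.sum_congr rfl fun y _ => ?_
    rw [Finset.sum_comm]
    refine Finset.sum_congr rfl fun z _ => ?_
    rw [Finset.sum_mul]
    refine Finset.sum_congr rfl fun x _ => ?_
    split_ifs <;> simp
  have hA' : ∀ A ⊆ F, ∑ x ∈ A, ν x ≤
      (2 + 4 * (2 * R + 1) * K) * Real.sqrt (A.card : ℝ) * (nb * nc) := by
    intro A hAF
    rcases A.eq_empty_or_nonempty with rfl | hne
    · simp
    · refine (hA A hAF).trans ?_
      have h1 : 1 ≤ Real.sqrt (A.card : ℝ) := by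
        rw [Real.one_le_sqrt]
        exact_mod_cast hne.card_pos
      refine mul_le_mul_of_nonneg_right ?_ (by positivity)
      nlinarith
  rcases hna0.eq_or_lt with h0 | hpos
  · have hz : ∀ x ∈ F, a x = 0 := by
      have : ∑ y ∈ F, a y ^ 2 = 0 := by rw [← hna2, ← h0]; norm_num
      intro y hy
      have := (Finset.sum_eq_zero_iff_of_nonneg (fun y _ => sq_nonneg (a y))).mp this y hy
      exact pow_eq_zero_iff (two_ne_zero) |>.mp this
    rw [Finset.sum_eq_zero (fun x hx => by rw [hz x hx]; ring), ← h0]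
    simp
  have hale : ∀ x ∈ F, a x ≤ na := by
    intro x hx
    have : a x ^ 2 ≤ na ^ 2 := by
      rw [hna2]
      exact Finset.single_le_sum (f := fun x => a x ^ 2) (fun y _ => sq_nonneg _) hx
    exact (pow_le_pow_iff_left₀ (ha x) hna0 two_ne_zero).mp this
  -- level
  set lv : Γ → ℤ := fun x => Int.log 2 (a x / na) with hlv
  have h2 : (2:ℝ) ≠ 0 := two_ne_zero
  have hlvlt : ∀ x, a x < na * (2:ℝ)^(lv x + 1) := fun x => by
    have := Int.lt_zpow_succ_log_self (b := 2) one_lt_two (a x / na)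
    rw [div_lt_iff₀ hpos] at this
    rw [mul_comm]
    exact_mod_cast this
  have hlvle : ∀ x, 0 < a x → na * (2:ℝ)^(lv x) ≤ a x := fun x hx => by
    have := Int.zpow_log_le_self (b := 2) (r := a x / na) one_lt_two (div_pos hx hpos)
    rw [le_div_iff₀ hpos] at this
    rw [mul_comm]
    exact_mod_cast this
  have hlv0 : ∀ x ∈ F, 0 < a x → lv x ≤ 0 := by
    intro x hx hxp
    by_contra hcon
    have : 1 ≤ lv x := by omega
    have h3 : (2:ℝ)^(1:ℤ) ≤ (2:ℝ)^(lv x) := zpow_le_zpow_right₀ one_le_two this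
    have h4 := hlvle x hxp
    have h5 := hale x hx
    rw [zpow_one] at h3
    nlinarith
  -- pointwise decomposition
  have hpt : ∀ x ∈ F, a x * ν x ≤ na * ((2:ℝ)^R)⁻¹ * (nb * nc) +
      ∑ e ∈ Finset.Icc (-(R:ℤ)) 0, (if 0 < a x ∧ lv x = e then na * (2:ℝ)^(e+1) * ν x else 0) := by
    intro x hx
    have hsum0 : 0 ≤ ∑ e ∈ Finset.Icc (-(R:ℤ)) 0,
        (if 0 < a x ∧ lv x = e then na * (2:ℝ)^(e+1) * ν x else 0) := by
      refine Finset.sum_nonneg fun e _ => ?_
      have := hν0 x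
      split_ifs
      · positivity
      · exact le_rfl
    have hfirst : 0 ≤ na * ((2:ℝ)^R)⁻¹ * (nb * nc) := by positivity
    rcases (ha x).eq_or_lt with hax | hax
    · have h0' : a x * ν x = 0 := by rw [← hax, zero_mul]
      linarith
    rcases lt_or_ge (lv x) (-(R:ℤ)) with h | h
    · -- small values
      have h3 : a x ≤ na * ((2:ℝ)^R)⁻¹ := by
        refine (hlvlt x).le.trans ?_
        refine mul_le_mul_of_nonneg_left ?_ hna0
        calc (2:ℝ)^(lv x + 1) ≤ (2:ℝ)^(-(R:ℤ)) := zpow_le_zpow_right₀ one_le_two (by omega)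
          _ = ((2:ℝ)^R)⁻¹ := by rw [zpow_neg, zpow_natCast]
      have h4 : ν x ≤ nb * nc := by
        -- single x
        have hinj : ν x = ∑ y ∈ G, b y * (∑ z ∈ H, if x * y * z = 1 then c z else 0) := by
          rw [hν]; simp only [Finset.mul_sum]
          refine Finset.sum_congr rfl fun y _ => Finset.sum_congr rfl fun z _ => ?_
          split_ifs <;> simp
        rw [hinj]
        refine (Real.sum_mul_le_sqrt_mul_sqrt _ _ _).trans ?_
        refine mul_le_mul_of_nonneg_left ?_ hnb0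
        apply Real.sqrt_le_sqrt
        have h5 : ∀ y ∈ G, (∑ z ∈ H, if x * y * z = 1 then c z else 0) ^ 2
            = ∑ z ∈ H, if x * y * z = 1 then c z ^ 2 else 0 := by
          intro y _
          have h : ∀ z ∈ H, (if x * y * z = 1 then c z else 0)
            = if (x * y)⁻¹ = z then c z else 0 := by
            intro z _
            have : x * y * z = 1 ↔ (x * y)⁻¹ = z := by
              rw [inv_eq_iff_mul_eq_one]
            simp [this]
          have h' : ∀ z ∈ H, (if x * y * z = 1 then c z ^ 2 else 0)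
            = if (x * y)⁻¹ = z then c z ^ 2 else 0 := by
            intro z _
            have : x * y * z = 1 ↔ (x * y)⁻¹ = z := by
              rw [inv_eq_iff_mul_eq_one]
            simp [this]
          rw [Finset.sum_congr rfl h, Finset.sum_ite_eq, Finset.sum_congr rfl h', Finset.sum_ite_eq]
          split_ifs <;> simp
        rw [Finset.sum_congr rfl h5, Finset.sum_comm]
        refine Finset.sum_le_sum fun z _ => ?_
        have h : ∀ y ∈ G, (if x * y * z = 1 then c z ^ 2 else 0)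
            = if x⁻¹ * z⁻¹ = y then c z ^ 2 else 0 := by
          intro y _
          have : x * y * z = 1 ↔ x⁻¹ * z⁻¹ = y := by
            rw [mul_eq_one_iff_eq_inv, inv_mul_eq_iff_eq_mul]
            exact eq_comm
          simp [this]
        rw [Finset.sum_congr rfl h, Finset.sum_ite_eq]
        split_ifs
        · exact le_rfl
        · positivity
      have : a x * ν x ≤ na * ((2:ℝ)^R)⁻¹ * (nb * nc) :=
        mul_le_mul h3 h4 (hν0 x) (by positivity)
      linarith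
    · have hmem : lv x ∈ Finset.Icc (-(R:ℤ)) 0 := Finset.mem_Icc.mpr ⟨h, hlv0 x hx hax⟩
      have hle : (if 0 < a x ∧ lv x = lv x then na * (2:ℝ)^(lv x+1) * ν x else 0) ≤
          ∑ e ∈ Finset.Icc (-(R:ℤ)) 0,
            (if 0 < a x ∧ lv x = e then na * (2:ℝ)^(e+1) * ν x else 0) := by
        refine Finset.single_le_sum (f := fun e => (if 0 < a x ∧ lv x = e then
          na * (2:ℝ)^(e+1) * ν x else 0)) ?_ hmem
        intro e _
        have := hν0 x
        split_ifs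
        · positivity
        · exact le_rfl
      rw [if_pos ⟨hax, rfl⟩] at hle
      have : a x * ν x ≤ na * (2:ℝ)^(lv x+1) * ν x :=
        mul_le_mul_of_nonneg_right (hlvlt x).le (hν0 x)
      linarith
  refine (Finset.sum_le_sum hpt).trans ?_
  rw [Finset.sum_add_distrib, Finset.sum_const, Finset.sum_comm]
  have hI : (F.card : ℝ) * ((2:ℝ)^R)⁻¹ ≤ 1 := by
    rw [← div_eq_mul_inv, div_le_one (by positivity)]
    exact_mod_cast hF
  have hfirst : F.card • (na * ((2:ℝ)^R)⁻¹ * (nb * nc)) ≤ na * nb * nc := by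
    rw [nsmul_eq_mul]
    have : (F.card : ℝ) * (na * ((2:ℝ)^R)⁻¹ * (nb * nc))
        = ((F.card : ℝ) * ((2:ℝ)^R)⁻¹) * (na * nb * nc) := by ring
    rw [this]
    exact mul_le_of_le_one_left (by positivity) hI
  have hsecond : ∑ e ∈ Finset.Icc (-(R:ℤ)) 0, ∑ x ∈ F,
      (if 0 < a x ∧ lv x = e then na * (2:ℝ)^(e+1) * ν x else 0)
      ≤ 2 * (R + 1) * (2 + 4 * (2 * R + 1) * K) * (na * nb * nc) := by
    have hle : ∀ e ∈ Finset.Icc (-(R:ℤ)) 0, ∑ x ∈ F,
      (if 0 < a x ∧ lv x = e then na * (2:ℝ)^(e+1) * ν x else 0)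
        ≤ 2 * (2 + 4 * (2 * R + 1) * K) * (na * nb * nc) := by
      intro e _
      rw [← Finset.sum_filter, ← Finset.mul_sum]
      set A := F.filter (fun x => 0 < a x ∧ lv x = e) with hAdef
      have hb1 := hA' A (Finset.filter_subset _ _)
      have hb2 : na * (2:ℝ)^e * Real.sqrt (A.card : ℝ) ≤ na := by
        rw [← Real.sqrt_sq (show 0 ≤ na * (2:ℝ)^e by positivity),
          ← Real.sqrt_mul (sq_nonneg _)]
        rw [hna]
        apply Real.sqrt_le_sqrt
        rw [← hna]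
        calc (na * (2:ℝ)^e)^2 * (A.card : ℝ) = ∑ x ∈ A, (na * (2:ℝ)^e)^2 := by
              rw [Finset.sum_const, nsmul_eq_mul, mul_comm]
          _ ≤ ∑ x ∈ A, a x ^ 2 := by
              refine Finset.sum_le_sum fun x hx => ?_
              obtain ⟨_, hxp, hxe⟩ := Finset.mem_filter.mp hx
              have := hlvle x hxp
              rw [hxe] at this
              gcongr
          _ ≤ ∑ x ∈ F, a x ^ 2 :=
              Finset.sum_le_sum_of_subset_of_nonneg (Finset.filter_subset _ _)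
                (fun x _ _ => sq_nonneg _)
      calc na * (2:ℝ)^(e+1) * ∑ x ∈ A, ν x
          ≤ na * (2:ℝ)^(e+1) *
            ((2 + 4 * (2 * R + 1) * K) * Real.sqrt (A.card : ℝ) * (nb * nc)) :=
            mul_le_mul_of_nonneg_left hb1 (by positivity)
        _ = 2 * (2 + 4 * (2 * R + 1) * K) * (nb * nc) *
              (na * (2:ℝ)^e * Real.sqrt (A.card : ℝ)) := by
            rw [zpow_add_one₀ h2]; ring
        _ ≤ 2 * (2 + 4 * (2 * R + 1) * K) * (nb * nc) * na :=
            mul_le_mul_of_nonneg_left hb2 (by positivity)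
        _ = _ := by ring
    refine (Finset.sum_le_sum hle).trans ?_
    rw [Finset.sum_const, Int.card_Icc, nsmul_eq_mul]
    have : (((0 + 1 - -(R:ℤ)).toNat : ℕ) : ℝ) = R + 1 := by
      have h : (0 + 1 - -(R:ℤ)).toNat = R + 1 := by omega
      rw [h]; push_cast; ring
    rw [this]
    apply le_of_eq; ring
  calc _ ≤ na * nb * nc + 2 * (R + 1) * (2 + 4 * (2 * R + 1) * K) * (na * nb * nc) :=
        add_le_add hfirst hsecond
    _ = _ := by ring

end Pool.Agent.RDT3
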