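import Pool.Statements.S01235
import Pool.Agent.MP3bbc5b.Core

set_option autoImplicit false
open Polynomial
open Pool Pool.MP_3bbc5b_al

namespace Pool.Agent.S01235

open Pool.Agent.MP3bbc5b

lemma eq_zero_of_range {a b f : ℂ[X]} (ha0 : a ≠ 0)
    (ha : ∀ τ, a.eval τ = 0 → (derivative a).eval τ ≠ 0)
    (hab : ∀ τ, a.eval τ = 0 → ∀ j : ℕ, ((j : ℂ) + 1) * (derivative a).eval τ + b.eval τ ≠ 0)
    (h1 : ∀ g, E a b g ≠ 1)
    (hm : ∀ m : ℕ, 1 ≤ m → ∃ g, f ^ m = E a b g) : f = 0 := by
  let T : ℂ[X] →ₗ[ℂ] ℂ[X] :=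
    { toFun := E a b
      map_add' := by intro x y; unfold E; rw [mul_add, derivative_add]; ring
      map_smul' := by
        intro c x
        unfold E
        simp only [RingHom.id_apply, smul_eq_C_mul]
        have : a * (C c * x) = C c * (a * x) := by ring
        rw [this, derivative_C_mul]
        ring }
  have hT : ∀ g, T g = E a b g := fun g => rfl
  have hx : (1 : ℂ[X]) ∉ LinearMap.range T := by
    rintro ⟨g, hg⟩
    exact h1 g hg
  obtain ⟨L, hL1, hL2⟩ := Submodule.exists_dual_map_eq_bot_of_notMem hx inferInstance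
  have hL : ∀ g, L (E a b g) = 0 := by
    intro g
    have : L (T g) ∈ (LinearMap.range T).map L := ⟨T g, ⟨g, rfl⟩, rfl⟩
    rw [hL2] at this
    exact (Submodule.mem_bot _).mp this
  apply eq_zero_of_moments (L := L) (a := a) (b := b) hL hL1 ha0 ha hab
  intro m hm'
  obtain ⟨g, hg⟩ := hm m hm'
  rw [hg]; exact hL g

lemma surj_of_triangular (T : ℂ[X] →ₗ[ℂ] ℂ[X])
    (h : ∀ n : ℕ, ∃ c : ℂ, c ≠ 0 ∧ T (X ^ n) = C c * X ^ n + C (n : ℂ) * X ^ (n - 1)) :
    ∀ p, ∃ g, T g = p := by
  have key : ∀ n : ℕ, (X ^ n : ℂ[X]) ∈ LinearMap.range T := by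
    intro n
    induction n with
    | zero =>
      obtain ⟨c, hc, h0⟩ := h 0
      refine ⟨C c⁻¹ * X ^ 0, ?_⟩
      rw [← smul_eq_C_mul, map_smul, h0, smul_eq_C_mul]
      simp only [pow_zero, mul_one, Nat.cast_zero, map_zero, zero_mul, add_zero]
      rw [← C_mul, inv_mul_cancel₀ hc, C_1]
    | succ n ih =>
      obtain ⟨c, hc, h0⟩ := h (n + 1)
      have e : (X ^ (n + 1) : ℂ[X]) = c⁻¹ • (T (X ^ (n + 1)) - ((n + 1 : ℕ) : ℂ) • X ^ n) := by
        rw [h0, smul_eq_C_mul, smul_eq_C_mul, Nat.add_sub_cancel, add_sub_cancel_right, ← mul_assoc,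
          ← C_mul, inv_mul_cancel₀ hc, C_1, one_mul]
      rw [e]
      exact Submodule.smul_mem _ _ (Submodule.sub_mem _ ⟨_, rfl⟩ (Submodule.smul_mem _ _ ih))
  intro p
  have : p ∈ LinearMap.range T := by
    rw [p.as_sum_range_C_mul_X_pow]
    apply Submodule.sum_mem
    intro i _
    rw [← smul_eq_C_mul]
    exact Submodule.smul_mem _ _ (key i)
  exact this

lemma real_ne (α : ℝ) (hα : -1 < α) (j : ℕ) : ((j : ℂ) + 1) + (α : ℂ) ≠ 0 := by
  have h : (0 : ℝ) < (j : ℝ) + 1 + α := by
    have : (0 : ℝ) ≤ j := Nat.cast_nonneg j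
    linarith
  have h2 : ((j : ℂ) + 1) + (α : ℂ) = (((j : ℝ) + 1 + α : ℝ) : ℂ) := by push_cast; ring
  rw [h2]
  exact_mod_cast h.ne'

lemma hermite_ne (g : ℂ[X]) : E 1 (-(2 * X)) g ≠ 1 := by
  intro h
  have hg : g ≠ 0 := by
    rintro rfl
    unfold E at h
    simp at h
  have h2 := congrArg (fun p => coeff p (g.natDegree + 1)) h
  simp only [E] at h2
  have e1 : (1 : ℂ[X]) * g = g := one_mul g
  have e2 : -(2 * X) * g = C (-2) * (X * g) := by
    have : (C (-2) : ℂ[X]) = -2 := by rw [C_neg, map_ofNat]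
    rw [this]; ring
  rw [e1, e2, coeff_add, coeff_derivative, coeff_C_mul, coeff_X_mul,
    coeff_eq_zero_of_natDegree_lt (show g.natDegree < g.natDegree + 1 + 1 by omega),
    coeff_one] at h2
  simp at h2
  exact hg h2

lemma laguerre_ne (α : ℝ) (g : ℂ[X]) : E X (C (α : ℂ) - X) g ≠ 1 := by
  intro h
  have hg : g ≠ 0 := by
    rintro rfl
    unfold E at h
    simp at h
  have h2 := congrArg (fun p => coeff p (g.natDegree + 1)) h
  simp only [E] at h2
  rw [coeff_add, coeff_derivative, coeff_X_mul, sub_mul, coeff_sub, coeff_C_mul, coeff_X_mul,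
    coeff_eq_zero_of_natDegree_lt (show g.natDegree < g.natDegree + 1 by omega),
    coeff_one] at h2
  simp at h2
  exact hg h2

lemma jacobi_ne (α β : ℝ) (hα : -1 < α) (hβ : -1 < β) (g : ℂ[X]) :
    E (1 - X ^ 2) (-(C (α : ℂ) * (1 + X)) + C (β : ℂ) * (1 - X)) g ≠ 1 := by
  intro h
  have hg : g ≠ 0 := by
    rintro rfl
    unfold E at h
    simp at h
  have h2 := congrArg (fun p => coeff p (g.natDegree + 1)) h
  simp only [E] at h2
  have e1 : (1 - X ^ 2) * g = g - X * (X * g) := by ring
  have e2 : (-(C (α : ℂ) * (1 + X)) + C (β : ℂ) * (1 - X)) * g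
      = C (β - α : ℂ) * g - C (α + β : ℂ) * (X * g) := by
    rw [C_sub, C_add]; ring
  rw [e1, e2, coeff_add, coeff_derivative, coeff_sub, coeff_X_mul, coeff_X_mul, coeff_sub,
    coeff_C_mul, coeff_C_mul, coeff_X_mul,
    coeff_eq_zero_of_natDegree_lt (show g.natDegree < g.natDegree + 1 by omega),
    coeff_eq_zero_of_natDegree_lt (show g.natDegree < g.natDegree + 1 + 1 by omega),
    coeff_one] at h2
  have h3 : ((g.natDegree : ℂ) + 2 + α + β) * g.coeff g.natDegree = 0 := by
    have : g.natDegree + 1 ≠ 0 := by omega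
    simp only [this, if_false] at h2
    push_cast at h2
    linear_combination -h2
  rcases mul_eq_zero.mp h3 with h4 | h4
  · have h5 : (0 : ℝ) < (g.natDegree : ℝ) + 2 + α + β := by
      have : (0 : ℝ) ≤ g.natDegree := Nat.cast_nonneg _
      linarith
    have h6 : ((g.natDegree : ℂ) + 2 + α + β) = (((g.natDegree : ℝ) + 2 + α + β : ℝ) : ℂ) := by
      push_cast; ring
    rw [h6] at h4
    exact h5.ne' (by exact_mod_cast h4)
  · exact hg (leadingCoeff_eq_zero.mp h4)

lemma hermite_part (a b : Polynomial ℂ)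
    (h : ∀ m : ℕ, 1 ≤ m → ∃ f : Polynomial ℂ, a ^ m = derivative f - 2 * X * f) :
    ∃ N : ℕ, ∀ m : ℕ, N ≤ m → ∃ f : Polynomial ℂ, b * a ^ m = derivative f - 2 * X * f := by
  have ha : a = 0 := by
    apply eq_zero_of_range (a := 1) (b := -(2 * X)) one_ne_zero
    · intro τ h; simp at h
    · intro τ h; simp at h
    · exact hermite_ne
    · intro m hm
      obtain ⟨f, hf⟩ := h m hm
      refine ⟨f, ?_⟩
      rw [hf]; unfold E; rw [one_mul]; ring
  refine ⟨1, fun m hm => ⟨0, ?_⟩⟩
  subst ha
  rw [zero_pow (by omega)]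
  simp

lemma laguerre_part (α : ℝ) (hα : -1 < α) (a b : Polynomial ℂ)
    (h : ∀ m : ℕ, 1 ≤ m → ∃ f : Polynomial ℂ,
        X * a ^ m = X * derivative f + (C (α : ℂ) - X) * f) :
    ∃ N : ℕ, ∀ m : ℕ, N ≤ m → ∃ f : Polynomial ℂ,
        X * (b * a ^ m) = X * derivative f + (C (α : ℂ) - X) * f := by
  by_cases hα0 : α = 0
  · subst hα0
    refine ⟨0, fun m _ => ?_⟩
    let T : ℂ[X] →ₗ[ℂ] ℂ[X] := (derivative : ℂ[X] →ₗ[ℂ] ℂ[X]) - LinearMap.id
    have hT : ∀ g, T g = derivative g - g := fun g => rfl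
    obtain ⟨f, hf⟩ := surj_of_triangular T (by
      intro n
      refine ⟨-1, by norm_num, ?_⟩
      rw [hT, derivative_X_pow]
      simp only [map_neg, map_one]
      ring) (b * a ^ m)
    refine ⟨f, ?_⟩
    rw [← hf, hT]
    simp
    ring
  · have ha : a = 0 := by
      apply eq_zero_of_range (a := X) (b := C (α : ℂ) - X) X_ne_zero
      · intro τ _; simp
      · intro τ hτ j
        simp only [eval_X] at hτ
        subst hτ
        simpa using real_ne α hα j
      · exact laguerre_ne α
      · intro m hm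
        obtain ⟨f, hf⟩ := h m hm
        have h0 : f.eval 0 = 0 := by
          have := congrArg (eval 0) hf
          simp at this
          rcases this with h1 | h1
          · exact absurd h1 hα0
          · exact h1
        obtain ⟨g, hg⟩ := dvd_iff_isRoot.mpr h0
        rw [C_0, sub_zero] at hg
        refine ⟨g, ?_⟩
        unfold E
        apply mul_left_cancel₀ (X_ne_zero : (X : ℂ[X]) ≠ 0)
        rw [hf, hg]
        ring
    refine ⟨1, fun m hm => ⟨0, ?_⟩⟩
    subst ha
    rw [zero_pow (by omega)]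
    simp

lemma one_sub_sq_ne : (1 - X ^ 2 : ℂ[X]) ≠ 0 := by
  intro h
  have := congrArg (eval 0) h
  simp at this

lemma jacobi_part (α β : ℝ) (hα : -1 < α) (hβ : -1 < β) (a b : Polynomial ℂ)
    (h : ∀ m : ℕ, 1 ≤ m → ∃ f : Polynomial ℂ,
        (1 - X ^ 2) * a ^ m = (1 - X ^ 2) * derivative f - C (α : ℂ) * (1 + X) * f
          + C (β : ℂ) * (1 - X) * f) :
    ∃ N : ℕ, ∀ m : ℕ, N ≤ m → ∃ f : Polynomial ℂ,
        (1 - X ^ 2) * (b * a ^ m) = (1 - X ^ 2) * derivative f - C (α : ℂ) * (1 + X) * f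
          + C (β : ℂ) * (1 - X) * f := by
  by_cases hα0 : α = 0
  · subst hα0
    refine ⟨0, fun m _ => ?_⟩
    let T : ℂ[X] →ₗ[ℂ] ℂ[X] := ((1 + β : ℂ) • (LinearMap.id : ℂ[X] →ₗ[ℂ] ℂ[X])) +
      (LinearMap.mulLeft ℂ (1 + X)) ∘ₗ (derivative : ℂ[X] →ₗ[ℂ] ℂ[X])
    have hT : ∀ g, T g = C (1 + β : ℂ) * g + (1 + X) * derivative g := by
      intro g
      rw [← smul_eq_C_mul]; rfl
    obtain ⟨g, hg⟩ := surj_of_triangular T (by
      intro n
      refine ⟨(n : ℂ) + 1 + β, real_ne β hβ n, ?_⟩
      rw [hT, derivative_X_pow]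
      rcases n with _ | n
      · simp
      · simp only [Nat.add_sub_cancel, C_add, C_1]
        ring) (b * a ^ m)
    refine ⟨(1 + X) * g, ?_⟩
    rw [← hg, hT, derivative_mul]
    simp only [derivative_add, derivative_one, derivative_X, Complex.ofReal_zero, C_0, C_add, C_1]
    ring
  · by_cases hβ0 : β = 0
    · subst hβ0
      refine ⟨0, fun m _ => ?_⟩
      let T : ℂ[X] →ₗ[ℂ] ℂ[X] := (-(1 + α : ℂ) • (LinearMap.id : ℂ[X] →ₗ[ℂ] ℂ[X])) +
        (LinearMap.mulLeft ℂ (1 - X)) ∘ₗ (derivative : ℂ[X] →ₗ[ℂ] ℂ[X])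
      have hT : ∀ g, T g = C (-(1 + α) : ℂ) * g + (1 - X) * derivative g := by
        intro g
        rw [← smul_eq_C_mul]; rfl
      obtain ⟨g, hg⟩ := surj_of_triangular T (by
        intro n
        refine ⟨-((n : ℂ) + 1 + α), neg_ne_zero.mpr (real_ne α hα n), ?_⟩
        rw [hT, derivative_X_pow]
        rcases n with _ | n
        · simp
        · simp only [Nat.add_sub_cancel, C_add, C_1, C_neg]
          ring) (b * a ^ m)
      refine ⟨(1 - X) * g, ?_⟩
      rw [← hg, hT, derivative_mul]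
      simp only [derivative_sub, derivative_one, derivative_X, Complex.ofReal_zero, C_0, C_add,
        C_1, C_neg]
      ring
    · have ha : a = 0 := by
        apply eq_zero_of_range (a := 1 - X ^ 2)
          (b := -(C (α : ℂ) * (1 + X)) + C (β : ℂ) * (1 - X)) one_sub_sq_ne
        · intro τ hτ
          simp only [eval_sub, eval_one, eval_pow, eval_X] at hτ
          simp only [derivative_sub, derivative_one, derivative_X_pow, eval_sub, eval_mul, eval_pow,
            eval_X, eval_C, eval_zero, Nat.cast_ofNat]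
          intro h
          have h1 : τ = 0 := by
            norm_num at h
            exact h
          rw [h1] at hτ; simp at hτ
        · intro τ hτ j
          simp only [eval_sub, eval_one, eval_pow, eval_X] at hτ
          have h0 : (τ - 1) * (τ + 1) = 0 := by linear_combination -hτ
          simp only [derivative_sub, derivative_one, derivative_X_pow, eval_sub, eval_mul, eval_pow,
            eval_X, eval_C, eval_zero, Nat.cast_ofNat, eval_add, eval_neg, eval_one]
          rcases mul_eq_zero.mp h0 with h1 | h1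
          · have h2 : τ = 1 := by linear_combination h1
            subst h2
            have := real_ne α hα j
            intro h3
            apply this
            norm_num at h3
            linear_combination (-1 / 2 : ℂ) * h3
          · have h2 : τ = -1 := by linear_combination h1
            subst h2
            have := real_ne β hβ j
            intro h3
            apply this
            norm_num at h3
            linear_combination (1 / 2 : ℂ) * h3
        · exact jacobi_ne α β hα hβ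
        · intro m hm
          obtain ⟨f, hf⟩ := h m hm
          have h1 : f.eval 1 = 0 := by
            have h5 := congrArg (eval 1) hf
            simp only [eval_mul, eval_add, eval_sub, eval_one, eval_pow, eval_X, eval_C] at h5
            have h6 : (α : ℂ) * f.eval 1 = 0 := by linear_combination (1 / 2 : ℂ) * h5
            exact (mul_eq_zero.mp h6).resolve_left (by exact_mod_cast hα0)
          have h2 : f.eval (-1) = 0 := by
            have h5 := congrArg (eval (-1)) hf
            simp only [eval_mul, eval_add, eval_sub, eval_one, eval_pow, eval_X, eval_C] at h5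
            have h6 : (β : ℂ) * f.eval (-1) = 0 := by linear_combination (-1 / 2 : ℂ) * h5
            exact (mul_eq_zero.mp h6).resolve_left (by exact_mod_cast hβ0)
          obtain ⟨g0, hg0⟩ := dvd_iff_isRoot.mpr h1
          have h3 : g0.eval (-1) = 0 := by
            rw [hg0] at h2
            simp at h2
            rcases h2 with h2 | h2
            · norm_num at h2
            · exact h2
          obtain ⟨g1, hg1⟩ := dvd_iff_isRoot.mpr h3
          have hfg : f = (1 - X ^ 2) * (-g1) := by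
            rw [hg0, hg1]
            simp only [C_1, C_neg]
            ring
          refine ⟨-g1, ?_⟩
          generalize -g1 = g at *
          unfold E
          apply mul_left_cancel₀ one_sub_sq_ne
          rw [hf, hfg]
          ring
      refine ⟨1, fun m hm => ⟨0, ?_⟩⟩
      subst ha
      rw [zero_pow (by omega)]
      simp

/-- For the Hermite, Laguerre and Jacobi operators (α, β > −1), the polynomials lying in the image of ℂ[t] form a Mathieu subspace: if every power a^m (m ≥ 1) is in it, then b·a^m is in it for all large m, for every polynomial b. -/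
theorem result :
    (∀ a b : Polynomial ℂ,
      (∀ m : ℕ, 1 ≤ m → ∃ f : Polynomial ℂ, a ^ m = derivative f - 2 * X * f) →
      ∃ N : ℕ, ∀ m : ℕ, N ≤ m → ∃ f : Polynomial ℂ, b * a ^ m = derivative f - 2 * X * f) ∧
    (∀ α : ℝ, -1 < α → ∀ a b : Polynomial ℂ,
      (∀ m : ℕ, 1 ≤ m → ∃ f : Polynomial ℂ,
        X * a ^ m = X * derivative f + (C (α : ℂ) - X) * f) →
      ∃ N : ℕ, ∀ m : ℕ, N ≤ m → ∃ f : Polynomial ℂ,
        X * (b * a ^ m) = X * derivative f + (C (α : ℂ) - X) * f) ∧
    (∀ α β : ℝ, -1 < α → -1 < β → ∀ a b : Polynomial ℂ,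
      (∀ m : ℕ, 1 ≤ m → ∃ f : Polynomial ℂ,
        (1 - X ^ 2) * a ^ m = (1 - X ^ 2) * derivative f - C (α : ℂ) * (1 + X) * f
          + C (β : ℂ) * (1 - X) * f) →
      ∃ N : ℕ, ∀ m : ℕ, N ≤ m → ∃ f : Polynomial ℂ,
        (1 - X ^ 2) * (b * a ^ m) = (1 - X ^ 2) * derivative f - C (α : ℂ) * (1 + X) * f
          + C (β : ℂ) * (1 - X) * f) := by
  exact ⟨hermite_part, laguerre_part, jacobi_part⟩

end Pool.Agent.S01235
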