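import Pool.Statements.S02987
import Pool.Agent.H75.Zel.Final
import Pool.Agent.H77.EngGrp.Ord

set_option autoImplicit false
open Pool Pool.MP_c394df_al

namespace Pool.Agent.S02987

theorem nb (N : ℕ) : ∃ f : ℕ, Pool.Agent.H77.EngGrp.NilBound N f := by
  obtain ⟨f, hf⟩ := Pool.Agent.H75.Zel.nilBound N
  refine ⟨f, ?_⟩
  intro R _ _ L h1 h2 l hl hlen
  have h3 := Pool.Agent.H75.Zel.pow_le_iff_list.mp (hf R L h1 h2) l hl hlen
  exact (Submodule.mem_bot ℚ).mp h3

/-- For every k there is c such that every right-orderable group satisfying the k-Engel identity [x,y,...,y]=1 (y repeated k times) is nilpotent of class at most c. -/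
theorem result :
    ∀ k : ℕ, ∃ c : ℕ, ∀ (G : Type) [Group G],
      (∃ r : G → G → Prop,
        (∀ x y : G, r x y ∨ r y x) ∧
        (∀ x y : G, r x y → r y x → x = y) ∧
        (∀ x y z : G, r x y → r y z → r x z) ∧
        (∀ x y b : G, r x y → r (x * b) (y * b))) →
      (∀ x y : G, (fun z : G => z⁻¹ * y⁻¹ * z * y)^[k] x = 1) →
      upperCentralSeries G c = ⊤ := by
  exact Pool.Agent.H77.EngGrp.main nb

end Pool.Agent.S02987
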