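import Pool.Statements.S03062
import Pool.Agent.OneRel.System

set_option autoImplicit false
open Pool Pool.MP_cbaa56_al

namespace Pool.Agent.S03062

/-- evaluation of a substituted word -/
theorem ev_flat (σ : ℕ → List (Fin 2)) (w : List (Fin 2 ⊕ ℕ)) :
    OneRel.π (FreeMonoid.ofList (w.flatMap (Sum.elim (fun a => [a]) σ)))
      = OneRel.ev (fun n => OneRel.π (FreeMonoid.ofList (σ n))) w := by
  induction w with
  | nil => exact map_one _
  | cons x w ih =>
    rw [List.flatMap_cons, FreeMonoid.ofList_append, map_mul, ih, OneRel.ev_cons]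
    rcases x with a | n <;> rfl

theorem sol_iff (S : List (List (Fin 2 ⊕ ℕ) × List (Fin 2 ⊕ ℕ))) :
    (∃ σ : ℕ → List (Fin 2),
      ∀ e ∈ S,
        conGen (fun x y : FreeMonoid (Fin 2) => x = FreeMonoid.ofList [0, 0, 1, 1] ∧ y = 1)
          (FreeMonoid.ofList (e.1.flatMap (Sum.elim (fun a => [a]) σ)))
          (FreeMonoid.ofList (e.2.flatMap (Sum.elim (fun a => [a]) σ)))) ↔
    ∃ σ : ℕ → OneRel.M, OneRel.Sat σ S := by
  have key : ∀ (σ : ℕ → List (Fin 2)) (e : List (Fin 2 ⊕ ℕ) × List (Fin 2 ⊕ ℕ)),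
      conGen (fun x y : FreeMonoid (Fin 2) => x = FreeMonoid.ofList [0, 0, 1, 1] ∧ y = 1)
          (FreeMonoid.ofList (e.1.flatMap (Sum.elim (fun a => [a]) σ)))
          (FreeMonoid.ofList (e.2.flatMap (Sum.elim (fun a => [a]) σ))) ↔
      OneRel.ev (fun n => OneRel.π (FreeMonoid.ofList (σ n))) e.1
        = OneRel.ev (fun n => OneRel.π (FreeMonoid.ofList (σ n))) e.2 := by
    intro σ e
    rw [← ev_flat, ← ev_flat]
    exact (Con.eq OneRel.Mcon).symm
  constructor
  · rintro ⟨σ, h⟩
    exact ⟨_, fun e he => (key σ e).mp (h e he)⟩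
  · rintro ⟨σ, h⟩
    have hs : ∀ n, ∃ w : FreeMonoid (Fin 2), OneRel.π w = σ n := fun n =>
      Con.mk'_surjective (c := OneRel.Mcon) (σ n)
    choose w hw using hs
    refine ⟨fun n => (w n).toList, fun e he => (key _ e).mpr ?_⟩
    have : (fun n => OneRel.π (FreeMonoid.ofList (w n).toList)) = σ := by
      funext n
      exact hw n
    rw [this]
    exact h e he

theorem no_overlap : ¬ ∃ u v x : List (Fin 2), u ≠ [] ∧ v ≠ [] ∧ x ≠ [] ∧
    ([0, 0, 1, 1] : List (Fin 2)) = u ++ v ∧ [0, 0, 1, 1] = x ++ u := by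
  rintro ⟨u, v, x, hu, hv, hx, h1, h2⟩
  have e1 : u = List.take u.length [0, 0, 1, 1] := by rw [h1, List.take_left]
  have e2 : u = List.drop x.length [0, 0, 1, 1] := by rw [h2, List.drop_left]
  have e3 : x.length + u.length = 4 := by
    have := congrArg List.length h2
    simpa using this.symm
  have e4 : 0 < x.length := List.length_pos_iff.mpr hx
  have e5 : 0 < u.length := List.length_pos_iff.mpr hu
  rw [show x.length = 4 - u.length by omega] at e2
  have e6 := e1.symm.trans e2
  have e7 : u.length < 4 := by omega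
  generalize u.length = n at *
  interval_cases n <;> revert e6 <;> decide

theorem computable_repl : Computable fun k : ℕ => (List.replicate k (Sum.inl 0 : Fin 2 ⊕ ℕ)) := by
  have h : Primrec fun k : ℕ => (List.range k).map fun _ => (Sum.inl 0 : Fin 2 ⊕ ℕ) :=
    Primrec.list_map Primrec.list_range (Primrec.const _).to₂
  refine h.to_comp.of_eq fun k => ?_
  apply List.ext_get <;> simp

theorem computable_red (L : List (List (Fin 2 ⊕ ℕ) × List (Fin 2 ⊕ ℕ))) (i₀ : ℕ) :
    Computable fun k : ℕ => L ++ [([(Sum.inr i₀ : Fin 2 ⊕ ℕ)],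
      List.replicate k (Sum.inl 0 : Fin 2 ⊕ ℕ))] := by
  have h1 : Computable fun k : ℕ => (([(Sum.inr i₀ : Fin 2 ⊕ ℕ)],
      List.replicate k (Sum.inl 0 : Fin 2 ⊕ ℕ)) : List (Fin 2 ⊕ ℕ) × List (Fin 2 ⊕ ℕ)) :=
    (Computable.const _).pair computable_repl
  have h2 : Computable fun k : ℕ => [(([(Sum.inr i₀ : Fin 2 ⊕ ℕ)],
      List.replicate k (Sum.inl 0 : Fin 2 ⊕ ℕ)) : List (Fin 2 ⊕ ℕ) × List (Fin 2 ⊕ ℕ))] :=
    Computable.list_cons.comp h1 (Computable.const [])
  exact Computable.list_append.comp (Computable.const L) h2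


/-- The negation of the preceding statement: For every finite alphabet and every relator word w with no self-overlap, it is algorithmically decidable whether a given finite system of equations with constants has a solution in the monoid ⟨A ∣ w=1⟩. -/
theorem result :
    ¬ (∀ (n : ℕ) (w : List (Fin n)),
      (¬ ∃ u v x : List (Fin n), u ≠ [] ∧ v ≠ [] ∧ x ≠ [] ∧ w = u ++ v ∧ w = x ++ u) →
      ComputablePred
        (fun S : List (List (Fin n ⊕ ℕ) × List (Fin n ⊕ ℕ)) =>
          ∃ σ : ℕ → List (Fin n),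
            ∀ e ∈ S,
              conGen (fun x y : FreeMonoid (Fin n) => x = FreeMonoid.ofList w ∧ y = 1)
                (FreeMonoid.ofList (e.1.flatMap (Sum.elim (fun a => [a]) σ)))
                (FreeMonoid.ofList (e.2.flatMap (Sum.elim (fun a => [a]) σ))))) := by
  intro h
  have h1 := h 2 [0, 0, 1, 1] no_overlap
  obtain ⟨L, i₀, hL⟩ := OneRel.reduction MRDP.haltSet_dioph
  apply MRDP.haltSet_not_computable
  refine ComputablePred.computable_of_manyOneReducible
    ⟨fun k => L ++ [([Sum.inr i₀], List.replicate k (Sum.inl 0))], computable_red L i₀,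
      fun k => ?_⟩ h1
  rw [sol_iff]
  exact hL k

end Pool.Agent.S03062
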