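import Pool.Statements.S03102
import Pool.Agent.CupF.Transfer
import Pool.Agent.CupF.Orient

set_option autoImplicit false
open Pool Pool.MP_cea6b9_al

namespace Pool.Agent.S03102

/-- The negation of the preceding statement: For every free group F and all bounded real 2-cocycles f, g on F, the 4-cocycle (a,b,c,d) ↦ f(a,b)g(c,d) is the coboundary of a bounded 3-cochain, i.e. the cup product H²_b(F)×H²_b(F)→H⁴_b(F) vanishes. -/
theorem result :
    ¬ (∀ (α : Type) (f g : FreeGroup α → FreeGroup α → ℝ),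
      (∃ C : ℝ, ∀ a b, |f a b| ≤ C) →
      (∃ C : ℝ, ∀ a b, |g a b| ≤ C) →
      (∀ a b c, f b c - f (a * b) c + f a (b * c) - f a b = 0) →
      (∀ a b c, g b c - g (a * b) c + g a (b * c) - g a b = 0) →
      ∃ h : FreeGroup α → FreeGroup α → FreeGroup α → ℝ,
        (∃ C : ℝ, ∀ a b c, |h a b c| ≤ C) ∧
        ∀ a b c d,
          h b c d - h (a * b) c d + h a (b * c) d - h a b (c * d) + h a b c
            = f a b * g c d) := by
  intro hall
  let π : FreeGroup (CupF.SL × CupF.SL) →* CupF.SL × CupF.SL := FreeGroup.lift id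
  have hπ : Function.Surjective π := fun x => ⟨FreeGroup.of x, by simp [π]⟩
  obtain ⟨h, ⟨C, hC⟩, hh⟩ := hall (CupF.SL × CupF.SL)
    (fun a b => CupF.ori (π a).1 (π b).1) (fun a b => CupF.ori (π a).2 (π b).2)
    ⟨1, fun a b => CupF.ori_abs _ _⟩ ⟨1, fun a b => CupF.ori_abs _ _⟩
    (fun a b c => by
      simp only [map_mul, Prod.fst_mul]
      exact CupF.ori_cocycle _ _ _)
    (fun a b c => by
      simp only [map_mul, Prod.snd_mul]
      exact CupF.ori_cocycle _ _ _)
  obtain ⟨H, _, hH⟩ := CupF.transfer (π := π) hπ hC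
    (E := fun a b c d => CupF.ori a.1 b.1 * CupF.ori c.2 d.2) hh
  exact CupF.no_primitive CupF.ori (fun x => CupF.ori_of_left CupF.cc_one)
    (fun x => CupF.ori_of_right CupF.cc_one) (fun b hb => CupF.ori_ne b hb) H hH

end Pool.Agent.S03102
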