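import Pool.Statements.S04146
import Pool.Agent.FBH.Frozen

set_option autoImplicit false
open Pool Pool.MP_294ab0_an

namespace Pool.Agent.S04146

/-- The negation of the preceding statement: For n ≥ 2 and every proper open Ω in ℂⁿ biholomorphic to ℂⁿ, there is a connected open Ω' with Ω ⊊ Ω' ⊊ ℂⁿ that is holomorphically convex (equivalently pseudoconvex): the holomorphic hull of each compact subset is compact. -/
theorem result :
    ¬ (∀ (n : ℕ), 2 ≤ n → ∀ Ω : Set (Fin n → ℂ),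
      IsOpen Ω →
      (∃ F G : (Fin n → ℂ) → (Fin n → ℂ),
          Differentiable ℂ F ∧ DifferentiableOn ℂ G Ω ∧ Set.range F = Ω ∧
            ∀ z, G (F z) = z) →
      Ω ≠ Set.univ →
      ∃ Ω' : Set (Fin n → ℂ), IsOpen Ω' ∧ IsConnected Ω' ∧ Ω ⊂ Ω' ∧ Ω' ≠ Set.univ ∧
        ∀ K : Set (Fin n → ℂ), IsCompact K → K ⊆ Ω' →
          IsCompact {z | z ∈ Ω' ∧ ∀ f : (Fin n → ℂ) → ℂ, DifferentiableOn ℂ f Ω' →
            ∀ c : ℝ, (∀ w ∈ K, ‖f w‖ ≤ c) → ‖f z‖ ≤ c}) := by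
  exact FBH.frozen_thm

end Pool.Agent.S04146
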