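import Pool.Statements.S04294
import Pool.Agent.W34023b.N

set_option autoImplicit false
open MeasureTheory
open Pool Pool.MP_34023b_an

namespace Pool.Agent.S04294

/-- The negation of the preceding statement: For all n≥1, homogeneous elliptic constant-coefficient P of order p, s≥p and compact K in R^n, every W^{s,1}_loc function satisfying the rough conditions on K lies in the closure of solutions of Pu=0 near K, in the quotient W^{s,1}(K) topology. -/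
theorem result :
    ¬ (∀ (n : ℕ), 1 ≤ n →
  ∀ (D : (Fin n → ℕ) → (EuclideanSpace ℝ (Fin n) → ℂ) → (EuclideanSpace ℝ (Fin n) → ℂ)),
    (∀ (α : Fin n → ℕ) (φ : EuclideanSpace ℝ (Fin n) → ℂ),
      D α φ = (List.finRange n).foldr
        (fun i ψ => (fun χ : EuclideanSpace ℝ (Fin n) → ℂ =>
            fun x => fderiv ℝ χ x (EuclideanSpace.single i (1 : ℝ)))^[α i] ψ) φ) →
  ∀ (p s : ℕ), p ≤ s →
  ∀ (c : (Fin n → Fin (p + 1)) → ℂ),
    (∀ β : Fin n → Fin (p + 1), ∑ i, (β i : ℕ) ≠ p → c β = 0) →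
    (∀ ξ : Fin n → ℝ, ξ ≠ 0 → ∑ β, c β * ∏ i, ((ξ i : ℂ) ^ (β i : ℕ)) ≠ 0) →
  ∀ K : Set (EuclideanSpace ℝ (Fin n)), IsCompact K →
  ∀ g : (Fin n → ℕ) → EuclideanSpace ℝ (Fin n) → ℂ,
    (∀ α : Fin n → ℕ, ∑ i, α i ≤ s →
      LocallyIntegrable (g α) volume ∧
      ∀ φ : EuclideanSpace ℝ (Fin n) → ℂ, ContDiff ℝ (⊤ : ℕ∞) φ → HasCompactSupport φ →
        ∫ x, g α x * φ x = (-1 : ℂ) ^ (∑ i, α i) * ∫ x, g 0 x * D α φ x) →
    (∃ v : EuclideanSpace ℝ (Fin n) → ℂ, ContDiffOn ℝ (⊤ : ℕ∞) v (interior K) ∧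
      (∀ x ∈ interior K, ∑ β, c β * D (fun i => (β i : ℕ)) v x = 0) ∧
      g 0 =ᵐ[volume.restrict (interior K)] v) →
    (∀ α : Fin n → ℕ, ∑ i, α i + p ≤ s →
      (fun x => ∑ β, c β * g (fun i => α i + (β i : ℕ)) x) =ᵐ[volume.restrict K] 0) →
    ∀ R : ℝ, 0 < R → ∀ ε : ℝ, 0 < ε →
      ∃ u : EuclideanSpace ℝ (Fin n) → ℂ, ContDiff ℝ (⊤ : ℕ∞) u ∧
      ∃ U : Set (EuclideanSpace ℝ (Fin n)), IsOpen U ∧ K ⊆ U ∧
        (∀ x ∈ U, ∑ β, c β * D (fun i => (β i : ℕ)) u x = 0) ∧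
      ∃ m : (Fin n → ℕ) → EuclideanSpace ℝ (Fin n) → ℂ,
        (∀ α : Fin n → ℕ, ∑ i, α i ≤ s →
          LocallyIntegrable (m α) volume ∧
          (∀ φ : EuclideanSpace ℝ (Fin n) → ℂ, ContDiff ℝ (⊤ : ℕ∞) φ → HasCompactSupport φ →
            ∫ x, m α x * φ x = (-1 : ℂ) ^ (∑ i, α i) * ∫ x, m 0 x * D α φ x) ∧
          m α =ᵐ[volume.restrict K] 0) ∧
        ∀ α : Fin n → ℕ, ∑ i, α i ≤ s →
          ∫ x in Metric.ball (0 : EuclideanSpace ℝ (Fin n)) R, ‖g α x - D α u x - m α x‖ < ε) := by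
  intro H
  obtain ⟨d, hd, hd0, hdE, hdb⟩ := Pool.Agent.W34023b.exists_d
  have H2 := H 2 (by norm_num) Pool.Agent.W34023b.Dop (fun _ _ => rfl) 1 1 le_rfl
    Pool.Agent.W34023b.cc Pool.Agent.W34023b.hc1 Pool.Agent.W34023b.hc2
    Pool.Agent.W34023b.KK Pool.Agent.W34023b.KK_compact (Pool.Agent.W34023b.gg d)
    (Pool.Agent.W34023b.hg d hd hd0 hdE) (Pool.Agent.W34023b.hv d hd0 hdb)
    (Pool.Agent.W34023b.hP d hdb) 10 (by norm_num) (1/200) (by norm_num)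
  exact Pool.Agent.W34023b.contra d hd hd0 hdE hdb H2

end Pool.Agent.S04294
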