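import Pool.Statements.S04440
import Pool.Agent.H41.RevD

set_option autoImplicit false
open Filter Topology
open Pool Pool.MP_3fbb5c_an

namespace Pool.Agent.S04440

/-- The negation of the preceding statement: For n ≥ 2, if a biholomorphic germ f of ℂⁿ fixing 0 is conjugate to its inverse by some such germ h (f∘h∘f = h near 0), then it is so conjugated by a germ h with some iterate h^k equal to the identity near 0. -/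
theorem result :
    ¬ (∀ n : ℕ, 2 ≤ n → ∀ f : (Fin n → ℂ) → (Fin n → ℂ),
      (AnalyticAt ℂ f 0 ∧ f 0 = 0 ∧
        ∃ g : (Fin n → ℂ) → (Fin n → ℂ), AnalyticAt ℂ g 0 ∧ g 0 = 0 ∧
          g ∘ f =ᶠ[𝓝 (0 : Fin n → ℂ)] id ∧ f ∘ g =ᶠ[𝓝 (0 : Fin n → ℂ)] id) →
      (∃ h : (Fin n → ℂ) → (Fin n → ℂ),
        (AnalyticAt ℂ h 0 ∧ h 0 = 0 ∧
          ∃ g : (Fin n → ℂ) → (Fin n → ℂ), AnalyticAt ℂ g 0 ∧ g 0 = 0 ∧
            g ∘ h =ᶠ[𝓝 (0 : Fin n → ℂ)] id ∧ h ∘ g =ᶠ[𝓝 (0 : Fin n → ℂ)] id) ∧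
        f ∘ h ∘ f =ᶠ[𝓝 (0 : Fin n → ℂ)] h) →
      ∃ h : (Fin n → ℂ) → (Fin n → ℂ),
        (AnalyticAt ℂ h 0 ∧ h 0 = 0 ∧
          ∃ g : (Fin n → ℂ) → (Fin n → ℂ), AnalyticAt ℂ g 0 ∧ g 0 = 0 ∧
            g ∘ h =ᶠ[𝓝 (0 : Fin n → ℂ)] id ∧ h ∘ g =ᶠ[𝓝 (0 : Fin n → ℂ)] id) ∧
        f ∘ h ∘ f =ᶠ[𝓝 (0 : Fin n → ℂ)] h ∧
        ∃ k : ℕ, 0 < k ∧ h^[k] =ᶠ[𝓝 (0 : Fin n → ℂ)] id) := by
  intro hall
  obtain ⟨k, ⟨hk, hk0, g, hg, _, hgk, _⟩, hfk, N, hN, hkN⟩ := hall 4 (by norm_num) f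
    ⟨f_analytic 0 rfl rfl, f_zero, finv, finv_analytic, finv_zero,
      Eventually.of_forall fun p => finv_f p, Eventually.of_forall fun p => f_finv p⟩
    ⟨h, ⟨h_analytic 0 rfl rfl, h_zero, hinv, hinv_analytic, hinv_zero,
      Eventually.of_forall fun p => hinv_h p, Eventually.of_forall fun p => h_hinv p⟩,
      Eventually.of_forall fun p => fhf p⟩
  exact no_finite_order k g hk hk0 hg hgk hfk N hN hkN

end Pool.Agent.S04440
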