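import Pool.Statements.S04527
import Pool.Agent.RDT3

set_option autoImplicit false
open Pointwise
open Pool Pool.MP_449b18_an

namespace Pool.Agent.S04527

/-- For every finitely generated group, rapid decay (a polynomial P(r) bounds the trilinear convolution form for f supported in the r-ball) holds iff some polynomial P(r) bounds the number of abc=1 triples in A×B×C by P(r)√(∣A∣∣B∣∣C∣) when A lies in the r-ball. -/
theorem result :
    ∀ (Γ : Type) [Group Γ] [DecidableEq Γ] (S : Finset Γ),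
      Subgroup.closure (S : Set Γ) = ⊤ →
      ((∃ P : Polynomial ℝ, ∀ (r : ℕ) (F G H : Finset Γ) (f g h : Γ → ℂ),
          F ⊆ (insert 1 (S ∪ S⁻¹)) ^ r →
          ‖∑ x ∈ F, ∑ y ∈ G, ∑ z ∈ H, (if x * y * z = 1 then f x * g y * h z else 0)‖
            ≤ P.eval (r : ℝ) *
              (Real.sqrt (∑ x ∈ F, ‖f x‖ ^ 2) * Real.sqrt (∑ y ∈ G, ‖g y‖ ^ 2) *
                Real.sqrt (∑ z ∈ H, ‖h z‖ ^ 2)))
        ↔
       (∃ P : Polynomial ℝ, ∀ (r : ℕ) (A B C : Finset Γ),
          A ⊆ (insert 1 (S ∪ S⁻¹)) ^ r →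
          (((A ×ˢ B ×ˢ C).filter (fun t => t.1 * t.2.1 * t.2.2 = 1)).card : ℝ)
            ≤ P.eval (r : ℝ) * Real.sqrt ((A.card : ℝ) * B.card * C.card))) := by
  intro Γ _ _ S _
  constructor
  · rintro ⟨P, hP⟩
    refine ⟨P, fun r A B C hA => ?_⟩
    have h := hP r A B C (fun _ => 1) (fun _ => 1) (fun _ => 1) hA
    have e1 : ∑ x ∈ A, ∑ y ∈ B, ∑ z ∈ C,
        (if x * y * z = 1 then (1:ℂ) * 1 * 1 else 0)
        = ((((A ×ˢ B ×ˢ C).filter (fun t => t.1 * t.2.1 * t.2.2 = 1)).card : ℝ) : ℂ) := by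
      rw [Finset.card_filter]
      push_cast
      rw [Finset.sum_product]
      simp_rw [Finset.sum_product]
      refine Finset.sum_congr rfl fun x _ => Finset.sum_congr rfl fun y _ =>
        Finset.sum_congr rfl fun z _ => ?_
      split_ifs <;> simp
    rw [e1] at h
    simp only [norm_one, one_pow, Finset.sum_const, nsmul_eq_mul, mul_one] at h
    rw [Complex.norm_real, Real.norm_of_nonneg (Nat.cast_nonneg _)] at h
    rw [Real.sqrt_mul (by positivity), Real.sqrt_mul (by positivity)]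
    exact h
  · rintro ⟨P, hP⟩
    set D := (insert 1 (S ∪ S⁻¹)).card with hD
    refine ⟨1 + 2 * (Polynomial.C (D : ℝ) * Polynomial.X + 1) *
      (2 + 4 * (2 * (Polynomial.C (D : ℝ) * Polynomial.X) + 1) * P), ?_⟩
    intro r F G H f g h hF
    have hK : 0 ≤ P.eval (r : ℝ) := by
      have h1 : (1 : Γ) ∈ (insert 1 (S ∪ S⁻¹)) ^ r :=
        Finset.one_mem_pow (Finset.mem_insert_self _ _)
      have h2 := hP r {1} {1} {1} (by simpa using h1)
      have h3 : ((({1} : Finset Γ) ×ˢ ({1} : Finset Γ) ×ˢ ({1} : Finset Γ)).filter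
          (fun t => t.1 * t.2.1 * t.2.2 = 1)).card = 1 := by
        rw [Finset.singleton_product_singleton, Finset.singleton_product_singleton,
          Finset.filter_singleton]
        simp
      rw [h3] at h2
      simp at h2
      linarith
    have hFcard : F.card ≤ 2 ^ (D * r) := by
      calc F.card ≤ ((insert 1 (S ∪ S⁻¹)) ^ r).card := Finset.card_le_card hF
        _ ≤ D ^ r := Finset.card_pow_le
        _ ≤ (2 ^ D) ^ r := Nat.pow_le_pow_left (Nat.lt_two_pow_self).le r
        _ = 2 ^ (D * r) := (pow_mul _ _ _).symm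
    have key := RDT3.trilin F G H (D * r) hFcard (P.eval (r : ℝ)) hK
      (fun A hA B C => hP r A B C (hA.trans hF))
      (fun x => ‖f x‖) (fun y => ‖g y‖) (fun z => ‖h z‖)
      (fun _ => norm_nonneg _) (fun _ => norm_nonneg _) (fun _ => norm_nonneg _)
    have hnorm : ‖∑ x ∈ F, ∑ y ∈ G, ∑ z ∈ H, (if x * y * z = 1 then f x * g y * h z else 0)‖
        ≤ ∑ x ∈ F, ∑ y ∈ G, ∑ z ∈ H, (if x * y * z = 1 then ‖f x‖ * ‖g y‖ * ‖h z‖ else 0) := by
      refine (norm_sum_le _ _).trans (Finset.sum_le_sum fun x _ => ?_)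
      refine (norm_sum_le _ _).trans (Finset.sum_le_sum fun y _ => ?_)
      refine (norm_sum_le _ _).trans (Finset.sum_le_sum fun z _ => ?_)
      split_ifs
      · rw [norm_mul, norm_mul]
      · simp
    refine (hnorm.trans key).trans (le_of_eq ?_)
    simp only [Polynomial.eval_add, Polynomial.eval_mul, Polynomial.eval_C, Polynomial.eval_X,
      Polynomial.eval_one, Polynomial.eval_ofNat]
    push_cast
    ring

end Pool.Agent.S04527
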