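import Pool.Statements.S04761
import Pool.Agent.H60.LampMain
import Pool.Agent.H60.LLLabels
import Pool.Agent.H60.LLGlue
import Pool.Agent.Lamp76.LLIsland
import Pool.Agent.H46.LLTruth

set_option autoImplicit false
open Pool Pool.MP_5b81c9_an

namespace Pool.Agent.S04761

/-- The lamplighter group (ℤ/2 wreath ℤ) has a nonempty subshift of finite type over a finite alphabet on which the shift acts freely and which is topologically mixing: for any two cylinders, all but finitely many translates of one meet the other. -/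
theorem result :
  ∀ G : Subgroup (Equiv.Perm (ℤ × (ℤ →₀ ZMod 2))),
    G = Subgroup.closure
      {Equiv.prodCongr (Equiv.addRight (1 : ℤ)) (Equiv.refl (ℤ →₀ ZMod 2)),
       Equiv.prodShear (Equiv.refl ℤ)
         (fun n : ℤ => Equiv.addRight (Finsupp.single n (1 : ZMod 2)))} →
    ∃ k : ℕ, ∃ F : Finset G, ∃ P : Set (F → Fin k),
      (∃ x : G → Fin k, ∀ g : G, (fun h : F => x (g * (h : G))) ∈ P) ∧
      (∀ x : G → Fin k, (∀ g : G, (fun h : F => x (g * (h : G))) ∈ P) →
        ∀ g : G, (∀ h : G, x (g⁻¹ * h) = x h) → g = 1) ∧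
      (∀ x y : G → Fin k,
        (∀ g : G, (fun h : F => x (g * (h : G))) ∈ P) →
        (∀ g : G, (fun h : F => y (g * (h : G))) ∈ P) →
        ∀ W : Finset G, ∃ C : Finset G, ∀ g : G, g ∉ C →
          ∃ z : G → Fin k, (∀ g' : G, (fun h : F => z (g' * (h : G))) ∈ P) ∧
            (∀ h ∈ W, z h = x h) ∧ (∀ h ∈ W, z (g⁻¹ * h) = y h)) :=
  Pool.Agent.H60.Lamp.lamp_main
    (Pool.Agent.H60.LL.glue _ (Pool.Agent.Lamp76.Port.island _) (Pool.Agent.H46.LL.truth _)
      (Pool.Agent.H60.LL.labels _))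
    (Pool.Agent.H60.LL.nonempty _ (Pool.Agent.Lamp76.Port.island _) (Pool.Agent.H46.LL.truth _)
      (Pool.Agent.H60.LL.labels _))

end Pool.Agent.S04761
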