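import Pool.Statements.S04894
import Pool.Agent.H44.Crem.Main2

set_option autoImplicit false
open Pool Pool.MP_6629d0_an

namespace Pool.Agent.S04894

/-- The negation of the preceding statement: If two holomorphic germs fixing 0 both have a Cremer point there with the same multiplier, and their stable sets in some admissible discs have homeomorphic germs at 0, then the germs are topologically conjugate near 0. -/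
theorem result :
    ¬ (∀ f g : ℂ → ℂ, AnalyticAt ℂ f 0 → AnalyticAt ℂ g 0 → f 0 = 0 → g 0 = 0 →
    (∃ θ : ℝ, Irrational θ ∧
        deriv f 0 = Complex.exp (2 * (Real.pi : ℂ) * Complex.I * (θ : ℂ))) →
    (¬ ∃ ψ : ℂ → ℂ, AnalyticAt ℂ ψ 0 ∧ ψ 0 = 0 ∧ deriv ψ 0 ≠ 0 ∧
        ∀ᶠ z in nhds (0 : ℂ), ψ (f z) = deriv f 0 * ψ z) →
    (∃ θ : ℝ, Irrational θ ∧
        deriv g 0 = Complex.exp (2 * (Real.pi : ℂ) * Complex.I * (θ : ℂ))) →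
    (¬ ∃ ψ : ℂ → ℂ, AnalyticAt ℂ ψ 0 ∧ ψ 0 = 0 ∧ deriv ψ 0 ≠ 0 ∧
        ∀ᶠ z in nhds (0 : ℂ), ψ (g z) = deriv g 0 * ψ z) →
    deriv f 0 = deriv g 0 →
    ∀ U U' : Set ℂ,
    (IsCompact U ∧ Nonempty (↥U ≃ₜ ↥(Metric.closedBall (0 : ℂ) 1)) ∧
        (0 : ℂ) ∈ interior U ∧
        ∃ W : Set ℂ, IsOpen W ∧ U ⊆ W ∧ DifferentiableOn ℂ f W ∧ Set.InjOn f W) →
    (IsCompact U' ∧ Nonempty (↥U' ≃ₜ ↥(Metric.closedBall (0 : ℂ) 1)) ∧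
        (0 : ℂ) ∈ interior U' ∧
        ∃ W : Set ℂ, IsOpen W ∧ U' ⊆ W ∧ DifferentiableOn ℂ g W ∧ Set.InjOn g W) →
    (∃ V : Set ℂ, V ∈ nhds (0 : ℂ) ∧ ∃ W : Set ℂ, W ∈ nhds (0 : ℂ) ∧
        ∃ φ : ↥({z : ℂ | ∀ k : ℕ, f^[k] z ∈ U} ∩ V) ≃ₜ
              ↥({z : ℂ | ∀ k : ℕ, g^[k] z ∈ U'} ∩ W),
          ∀ x : ↥({z : ℂ | ∀ k : ℕ, f^[k] z ∈ U} ∩ V),
            (x : ℂ) = 0 → ((φ x : ↥({z : ℂ | ∀ k : ℕ, g^[k] z ∈ U'} ∩ W)) : ℂ) = 0) →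
    ∃ V : Set ℂ, V ∈ nhds (0 : ℂ) ∧ ∃ W : Set ℂ, W ∈ nhds (0 : ℂ) ∧
      ∃ h : ↥V ≃ₜ ↥W,
      (∀ x : ↥V, (x : ℂ) = 0 → ((h x : ↥W) : ℂ) = 0) ∧
      ∃ ε : ℝ, ε > 0 ∧ ∀ x y : ↥V, ‖(x : ℂ)‖ < ε → (y : ℂ) = f (x : ℂ) →
        ((h y : ↥W) : ℂ) = g ((h x : ↥W) : ℂ)) := by
  exact Pool.Agent.H44.Crem.main_result

end Pool.Agent.S04894
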