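import Pool.Statements.S05909
-- import your own Pool.Agent.* helpers here
import Pool.Agent.BallAlg.Final2

set_option autoImplicit false
open Pool Pool.MP_b81d3d_an

namespace Pool.Agent.S05909

/-- Let f be in the ball algebra of ℂ², vanishing on the closed ball only at (1,0), with log∣f(z)∣·(1−∣z∣) → 0 as z → (1,0) inside the ball. Then every ball-algebra function vanishing at (1,0) is a uniform limit on the closed ball of products g·f. -/
theorem result :
    ∀ f : EuclideanSpace ℂ (Fin 2) → ℂ,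
      ContinuousOn f (Metric.closedBall (0 : EuclideanSpace ℂ (Fin 2)) 1) →
      DifferentiableOn ℂ f (Metric.ball (0 : EuclideanSpace ℂ (Fin 2)) 1) →
      (∀ z ∈ Metric.closedBall (0 : EuclideanSpace ℂ (Fin 2)) 1,
        f z = 0 ↔ z = (EuclideanSpace.single (0 : Fin 2) (1 : ℂ) : EuclideanSpace ℂ (Fin 2))) →
      Filter.Tendsto (fun z : EuclideanSpace ℂ (Fin 2) => Real.log ‖f z‖ * (1 - ‖z‖))
        (nhdsWithin (EuclideanSpace.single (0 : Fin 2) (1 : ℂ) : EuclideanSpace ℂ (Fin 2))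
          (Metric.ball (0 : EuclideanSpace ℂ (Fin 2)) 1)) (nhds 0) →
      ∀ h : EuclideanSpace ℂ (Fin 2) → ℂ,
        ContinuousOn h (Metric.closedBall (0 : EuclideanSpace ℂ (Fin 2)) 1) →
        DifferentiableOn ℂ h (Metric.ball (0 : EuclideanSpace ℂ (Fin 2)) 1) →
        h (EuclideanSpace.single (0 : Fin 2) (1 : ℂ) : EuclideanSpace ℂ (Fin 2)) = 0 →
        ∀ ε : ℝ, 0 < ε →
          ∃ g : EuclideanSpace ℂ (Fin 2) → ℂ,
            ContinuousOn g (Metric.closedBall (0 : EuclideanSpace ℂ (Fin 2)) 1) ∧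
            DifferentiableOn ℂ g (Metric.ball (0 : EuclideanSpace ℂ (Fin 2)) 1) ∧
            ∀ z ∈ Metric.closedBall (0 : EuclideanSpace ℂ (Fin 2)) 1,
              ‖h z - g z * f z‖ < ε := by
  intro f hfc hfd hf0 hlim h hhc hhd hh0 ε hε
  open Pool.Agent.BallAlg Metric Filter Topology in
  -- scale `f`
  obtain ⟨K, hK⟩ := (isCompact_closedBall (0:E2) 1).exists_bound_of_continuousOn hfc
  have hK0 : 0 ≤ K := (norm_nonneg _).trans (hK e1 (by simp))
  set c : ℝ := 1 / (K + 1) with hc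
  have hc0 : 0 < c := by positivity
  set f₁ : E2 → ℂ := fun z => (c : ℂ) * f z with hf₁
  have hf₁c : ContinuousOn f₁ (closedBall 0 1) := continuousOn_const.mul hfc
  have hf₁d : DifferentiableOn ℂ f₁ (ball 0 1) := hfd.const_mul _
  have hcC : (c : ℂ) ≠ 0 := by exact_mod_cast hc0.ne'
  have hf₁lt : ∀ z ∈ closedBall (0:E2) 1, ‖f₁ z‖ < 1 := by
    intro z hz
    rw [hf₁]
    simp only [norm_mul, Complex.norm_real, Real.norm_eq_abs, abs_of_pos hc0]
    rw [hc, one_div, inv_mul_lt_iff₀ (by positivity)]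
    have := hK z hz
    linarith
  obtain ⟨F, hFc, hFd, hF⟩ := exists_log hf₁c hf₁d (by
    intro z hz h0
    rw [hf₁] at h0
    simp only [mul_eq_zero, hcC, false_or] at h0
    exact (hf0 z hz).1 h0)
  have hre : ∀ z ∈ closedBall (0:E2) 1 \ {e1}, (F z).re = -Real.log ‖f₁ z‖ := by
    intro z hz
    rw [← hF z hz, Complex.norm_exp, Real.log_exp]
    simp
  have hne : ∀ z ∈ closedBall (0:E2) 1 \ {e1}, f z ≠ 0 := by
    intro z hz h0
    exact hz.2 ((hf0 z hz.1).1 h0)
  have hpos : ∀ z ∈ closedBall (0:E2) 1 \ {e1}, 0 < (F z).re := by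
    intro z hz
    rw [hre z hz]
    have h1 : 0 < ‖f₁ z‖ := by
      rw [norm_pos_iff]
      exact mul_ne_zero hcC (hne z hz)
    have := Real.log_neg h1 (hf₁lt z hz.1)
    linarith
  have hball : ball (0:E2) 1 ⊆ closedBall (0:E2) 1 \ {e1} := by
    intro z hz
    refine ⟨ball_subset_closedBall hz, ?_⟩
    rintro rfl
    simp at hz
  have hlim' : Tendsto (fun a : ℝ => (F ((a:ℂ) • e1)).re * (1 - a)) (𝓝[<] 1) (𝓝 0) := by
    have hmem : ∀ᶠ a : ℝ in 𝓝[<] 1, ((a:ℂ) • e1 : E2) ∈ ball (0:E2) 1 ∧ ‖((a:ℂ) • e1 : E2)‖ = a := by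
      have ev3 : ∀ᶠ a : ℝ in 𝓝[<] 1, 0 < a :=
        (eventually_gt_nhds (by norm_num : (0:ℝ) < 1)).filter_mono nhdsWithin_le_nhds
      have ev4 : ∀ᶠ a : ℝ in 𝓝[<] 1, a < 1 := eventually_mem_nhdsWithin
      filter_upwards [ev3, ev4] with a h1 h2
      have := norm_smul_e1 h1.le
      exact ⟨by rw [mem_ball_zero_iff, this]; exact h2, this⟩
    have t1 : Tendsto (fun a : ℝ => ((a:ℂ) • e1 : E2)) (𝓝[<] 1) (𝓝[ball (0:E2) 1] e1) := by
      apply tendsto_nhdsWithin_of_tendsto_nhds_of_eventually_within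
      · have hcont : Continuous (fun a : ℝ => ((a:ℂ) • e1 : E2)) := by fun_prop
        have := hcont.tendsto 1
        simp only [Complex.ofReal_one, one_smul] at this
        exact this.mono_left nhdsWithin_le_nhds
      · filter_upwards [hmem] with a ha using ha.1
    have t2 := hlim.comp t1
    have t0 : Tendsto (fun a : ℝ => 1 - a) (𝓝[<] 1) (𝓝 0) := by
      have : Tendsto (fun a : ℝ => 1 - a) (𝓝 1) (𝓝 (1 - 1)) :=
        (continuous_const.sub continuous_id).tendsto 1
      rw [sub_self] at this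
      exact this.mono_left nhdsWithin_le_nhds
    have t3 := (t0.const_mul (-Real.log c)).sub t2
    rw [mul_zero, sub_zero] at t3
    refine t3.congr' ?_
    filter_upwards [hmem] with a ha
    have hz := hball ha.1
    have h1 : ‖f ((a:ℂ) • e1)‖ ≠ 0 := norm_ne_zero_iff.2 (hne _ hz)
    rw [hre _ hz, hf₁]
    simp only [Function.comp, norm_mul, Complex.norm_real, Real.norm_eq_abs, abs_of_pos hc0]
    rw [Real.log_mul hc0.ne' h1, ha.2]
    ring
  obtain ⟨g, hgc, hgd, hg⟩ := core hFc hFd hpos hF hf₁c hf₁d hlim' hhc hhd hh0 hε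
  refine ⟨fun z => g z * c, hgc.mul continuousOn_const, hgd.mul_const _, ?_⟩
  intro z hz
  have := hg z hz
  rw [hf₁] at this
  simp only at this
  rwa [mul_assoc]

end Pool.Agent.S05909
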