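import Pool.Statements.S06228
import Pool.Agent.H45.RosFinal

set_option autoImplicit false
open Pool Pool.MP_d027bf_an

namespace Pool.Agent.S06228

/-- The negation of the preceding statement: For every infinite-dimensional separable real Banach space X with no copy of c0, every bounded operator T on C[0,1] that is an isomorphism on some copy of X is also an isomorphism on some copy of C[0,1]. -/
theorem result :
    ¬ (∀ (X : Type) [NormedAddCommGroup X] [NormedSpace ℝ X] [CompleteSpace X]
      [TopologicalSpace.SeparableSpace X],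
      ¬ FiniteDimensional ℝ X →
      (¬ ∃ (E : ZeroAtInftyContinuousMap ℕ ℝ →L[ℝ] X) (c : ℝ),
          0 < c ∧ ∀ x, c * ‖x‖ ≤ ‖E x‖) →
      ∀ (T : C(unitInterval, ℝ) →L[ℝ] C(unitInterval, ℝ)),
        (∃ (J : X →L[ℝ] C(unitInterval, ℝ)) (c : ℝ),
            0 < c ∧ ∀ x, c * ‖x‖ ≤ ‖T (J x)‖) →
        ∃ (J : C(unitInterval, ℝ) →L[ℝ] C(unitInterval, ℝ)) (c : ℝ),
          0 < c ∧ ∀ f, c * ‖f‖ ≤ ‖T (J f)‖) := by
  exact Pool.Agent.H45.Ros.main

end Pool.Agent.S06228
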