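import Pool.Statements.S06280

set_option autoImplicit false
open Pool Pool.MP_d4c9a2_an

namespace Pool.Agent.S06280

/-- component order lemma: wrong degree gives zero derivative -/
theorem iter_zero_of_homog (g : (Fin 3 → ℂ) → ℂ) (hg : ContDiff ℂ ⊤ g) (D m : ℕ)
    (hh : ∀ z, g ((2 : ℂ) • z) = (2 : ℂ) ^ D * g z) (hm : m ≠ D) :
    iteratedFDeriv ℂ m g 0 = 0 := by
  have hgm : ContDiff ℂ (m : ℕ) g := hg.of_le le_top
  have h1 := iteratedFDeriv_comp_const_smul (𝕜 := ℂ) (i := m) (f := g) (2 : ℂ) hgm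
  have h1' := congrFun h1 0
  simp only [smul_zero] at h1'
  have h2 : (fun z => g ((2 : ℂ) • z)) = fun z => (2 : ℂ) ^ D • g z := by
    funext z; rw [hh z, smul_eq_mul]
  rw [h2] at h1'
  rw [iteratedFDeriv_const_smul_apply' hgm.contDiffAt] at h1'
  have h3 : ((2 : ℂ) ^ D - (2 : ℂ) ^ m) • iteratedFDeriv ℂ m g 0 = 0 := by
    rw [sub_smul, h1', sub_self]
  rcases smul_eq_zero.mp h3 with h | h
  · exfalso
    have h4 : (2 : ℂ) ^ D = (2 : ℂ) ^ m := sub_eq_zero.mp h
    have h5 : (2 : ℕ) ^ D = 2 ^ m := by exact_mod_cast h4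
    exact hm (Nat.pow_right_injective (le_refl 2) h5).symm
  · exact h

/-- right degree gives nonzero derivative -/
theorem iter_ne_zero_of_homog (g : (Fin 3 → ℂ) → ℂ) (hg : ContDiff ℂ ⊤ g) (D : ℕ)
    (hh : ∀ t : ℂ, g (fun _ => t) = t ^ D) :
    iteratedFDeriv ℂ D g 0 ≠ 0 := by
  intro h0
  let L : ℂ →L[ℂ] (Fin 3 → ℂ) := ContinuousLinearMap.pi (fun _ => ContinuousLinearMap.id ℂ ℂ)
  have hgm : ContDiff ℂ (D : ℕ) g := hg.of_le le_top
  have h1 := L.iteratedFDeriv_comp_right hgm 0 (i := D) le_rfl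
  have h2 : (g ∘ L) = fun t : ℂ => t ^ D := by
    funext t
    have : (L t) = fun _ => t := by
      funext i; simp [L]
    simp only [Function.comp, this, hh]
  rw [h2, map_zero, h0] at h1
  have h3 : iteratedDeriv D (fun t : ℂ => t ^ D) 0 = 0 := by
    rw [iteratedDeriv_eq_iteratedFDeriv, h1]
    simp
  rw [iteratedDeriv_fun_pow_zero] at h3
  simp at h3
  exact Nat.factorial_ne_zero D h3

theorem order_eq (F : (Fin 3 → ℂ) → (Fin 3 → ℂ)) (hF : ContDiff ℂ ⊤ F) (D : Fin 3 → ℕ) (c : ℕ)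
    (hh : ∀ (i : Fin 3) (z : Fin 3 → ℂ), F ((2 : ℂ) • z) i = (2 : ℂ) ^ (D i) * F z i)
    (h1 : ∀ (i : Fin 3) (t : ℂ), F (fun _ => t) i = t ^ (D i))
    (hle : ∀ i, c ≤ D i) (hex : ∃ i, D i = c) :
    sInf {m : ℕ | iteratedFDeriv ℂ m F 0 ≠ 0} = c := by
  have hcomp : ∀ (i : Fin 3), ContDiff ℂ ⊤ (fun z => F z i) := fun i => by
    exact (contDiff_pi.mp hF) i
  have hpr : ∀ (i : Fin 3) (m : ℕ), iteratedFDeriv ℂ m (fun z => F z i) 0 =
      (ContinuousLinearMap.proj (R := ℂ) (φ := fun _ : Fin 3 => ℂ) i).compContinuousMultilinearMap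
        (iteratedFDeriv ℂ m F 0) := by
    intro i m
    have hFm : ContDiff ℂ (m : ℕ) F := hF.of_le le_top
    exact (ContinuousLinearMap.proj (R := ℂ) (φ := fun _ : Fin 3 => ℂ) i).iteratedFDeriv_comp_left
      hFm.contDiffAt (i := m) le_rfl
  obtain ⟨i0, hi0⟩ := hex
  have hmem : iteratedFDeriv ℂ c F 0 ≠ 0 := by
    intro h0
    have h2 := hpr i0 c
    rw [h0] at h2
    apply iter_ne_zero_of_homog (fun z => F z i0) (hcomp i0) c
    · intro t; rw [h1 i0 t, hi0]
    · rw [h2]; ext v; simp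
  apply le_antisymm
  · exact Nat.sInf_le hmem
  · apply le_csInf ⟨c, hmem⟩
    intro m hm
    by_contra hlt
    push Not at hlt
    apply hm
    ext v i
    have h3 : iteratedFDeriv ℂ m (fun z => F z i) 0 = 0 :=
      iter_zero_of_homog _ (hcomp i) (D i) m (hh i) (by have := hle i; omega)
    have h4 := hpr i m
    rw [h3] at h4
    have h5 := congrArg (fun φ => φ v) h4
    simp at h5
    simp [← h5]

/-- A real sequence satisfying a second order recursion with complex characteristic roots is not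
eventually (here: everywhere) positive. -/
theorem no_pos (t n : ℝ) (htn : t ^ 2 < 4 * n) (E : ℕ → ℝ) (hpos : ∀ j, 0 < E j)
    (hrec : ∀ j, E (j + 2) = t * E (j + 1) - n * E j) : False := by
  set r : ℕ → ℝ := fun j => E (j + 1) / E j with hr
  have hrpos : ∀ j, 0 < r j := fun j => div_pos (hpos _) (hpos _)
  have hrr : ∀ j, r (j + 1) = t - n / r j := by
    intro j
    have h0 := (hpos j).ne'
    have h1 := (hpos (j + 1)).ne'
    simp only [hr]
    rw [show j + 1 + 1 = j + 2 from rfl, hrec j]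
    field_simp
  set δ : ℝ := n - t ^ 2 / 4 with hδ
  have hδpos : 0 < δ := by rw [hδ]; linarith
  have hdiff : ∀ j, δ / r j ≤ r j - r (j + 1) := by
    intro j
    rw [hrr j]
    have h := hrpos j
    rw [div_le_iff₀ h]
    have : (r j - (t - n / r j)) * r j = r j ^ 2 - t * r j + n := by
      field_simp
      ring
    rw [this, hδ]
    nlinarith [sq_nonneg (r j - t / 2)]
  have hdec : ∀ j, r (j + 1) ≤ r j := by
    intro j
    have := hdiff j
    have h2 : 0 < δ / r j := div_pos hδpos (hrpos j)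
    linarith
  have hle0 : ∀ j, r j ≤ r 0 := by
    intro j
    induction j with
    | zero => exact le_rfl
    | succ j ih => exact (hdec j).trans ih
  have hlin : ∀ j : ℕ, r j ≤ r 0 - j * (δ / r 0) := by
    intro j
    induction j with
    | zero => simp
    | succ j ih =>
      have h1 := hdiff j
      have h2 : δ / r 0 ≤ δ / r j :=
        div_le_div_of_nonneg_left hδpos.le (hrpos j) (hle0 j)
      push_cast
      linarith
  obtain ⟨N, hN⟩ := exists_nat_gt (r 0 / (δ / r 0))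
  have hη : 0 < δ / r 0 := div_pos hδpos (hrpos 0)
  have h3 : r 0 < N * (δ / r 0) := by
    rwa [div_lt_iff₀ hη] at hN
  have h4 := hlin N
  have h5 := hrpos N
  linarith

/-- eventual periodicity mod 2 of integer linear recursions -/
theorem periodic_mod_two (c : ℕ → ℤ) (d : ℕ) (a : Fin d → ℤ) (K : ℕ)
    (h : ∀ k : ℕ, K ≤ k → c (k + d) = ∑ i : Fin d, a i * c (k + (i : ℕ))) :
    ∃ N L : ℕ, 0 < L ∧ ∀ k, N ≤ k → ((c (k + L) : ℤ) : ZMod 2) = ((c k : ℤ) : ZMod 2) := by
  let S : ℕ → (Fin d → ZMod 2) := fun k i => ((c (K + k + (i : ℕ)) : ℤ) : ZMod 2)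
  obtain ⟨p, q, hpq, hS⟩ := Finite.exists_ne_map_eq_of_infinite S
  wlog hlt : p < q generalizing p q with H
  · exact H q p hpq.symm hS.symm (lt_of_le_of_ne (not_lt.mp hlt) hpq.symm)
  have hrec : ∀ m : ℕ, S (p + m) = S (q + m) →
      ((c (K + (p + m) + d) : ℤ) : ZMod 2) = ((c (K + (q + m) + d) : ℤ) : ZMod 2) := by
    intro m hm
    rw [h _ (by omega), h _ (by omega)]
    push_cast
    apply Finset.sum_congr rfl
    intro i _
    have := congrFun hm i
    simp only [S] at this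
    rw [this]
  have hall : ∀ m : ℕ, S (p + m) = S (q + m) := by
    intro m
    induction m with
    | zero => simpa using hS
    | succ m ih =>
      funext i
      by_cases hi : (i : ℕ) + 1 < d
      · have := congrFun ih ⟨(i : ℕ) + 1, hi⟩
        simp only [S] at this ⊢
        rw [show K + (p + (m + 1)) + (i : ℕ) = K + (p + m) + ((i : ℕ) + 1) by ring,
          show K + (q + (m + 1)) + (i : ℕ) = K + (q + m) + ((i : ℕ) + 1) by ring]
        exact this
      · have hi' : (i : ℕ) + 1 = d := by have := i.2; omega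
        have := hrec m ih
        simp only [S]
        rw [show K + (p + (m + 1)) + (i : ℕ) = K + (p + m) + d by omega,
          show K + (q + (m + 1)) + (i : ℕ) = K + (q + m) + d by omega]
        exact this
  refine ⟨K + p + d, q - p, by omega, ?_⟩
  intro k hk
  obtain ⟨m, rfl⟩ := Nat.exists_eq_add_of_le hk
  have := hrec m (hall m)
  rw [show K + p + d + m + (q - p) = K + (q + m) + d by omega,
    show K + p + d + m = K + (p + m) + d by omega]
  exact this.symm

/-- the degree vector of the iterates -/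
def D : ℕ → (Fin 3 → ℕ)
  | 0 => fun _ => 1
  | (k + 1) => ![D k 2, 2 * D k 0, 2 * D k 1 + D k 2]

theorem D0 (k : ℕ) : D (k + 1) 0 = D k 2 := by simp [D]
theorem D1 (k : ℕ) : D (k + 1) 1 = 2 * D k 0 := by simp [D]
theorem D2 (k : ℕ) : D (k + 1) 2 = 2 * D k 1 + D k 2 := by simp [D]

theorem D_inv (k : ℕ) : D k 0 ≤ D k 2 ∧ D k 1 ≤ D k 2 ∧ 2 * D k 0 ≤ 2 * D k 1 + D k 2 ∧
    D k 2 ≤ 4 * D k 0 + 2 * D k 1 := by
  induction k with
  | zero => simp [D]
  | succ k ih =>
    rw [D0, D1, D2]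
    omega

theorem D_odd (k : ℕ) : D k 0 % 2 = 1 ∧ D k 2 % 2 = 1 := by
  induction k with
  | zero => simp [D]
  | succ k ih =>
    rw [D0, D2]
    omega

def e (k : ℕ) : ℤ := (D k 0 : ℤ) - (D k 1 : ℤ)

theorem e_rec (k : ℕ) : e (k + 2) = - e (k + 1) - 2 * e k := by
  simp only [e, D0, D1, D2]
  push_cast
  ring

theorem e_zero : e 0 = 0 := by simp [e, D]
theorem e_one : e 1 = -1 := by simp [e, D]

theorem e_odd (k : ℕ) : e (k + 1) % 2 = 1 := by
  have h := (D_odd (k + 1)).1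
  simp only [e, D1]
  push_cast
  omega

theorem e_even_or (k : ℕ) (hk : 1 ≤ k) : e k ≠ 0 := by
  obtain ⟨j, rfl⟩ := Nat.exists_eq_add_of_le' hk
  have := e_odd j
  intro h
  rw [h] at this
  simp at this

noncomputable def mu : ℂ := ⟨-1 / 2, Real.sqrt 7 / 2⟩

theorem mu_sq : mu ^ 2 = - mu - 2 := by
  have h7 : Real.sqrt 7 * Real.sqrt 7 = 7 := Real.mul_self_sqrt (by norm_num)
  apply Complex.ext
  · simp [mu, sq, Complex.mul_re]
    nlinarith [h7]
  · simp [mu, sq, Complex.mul_im]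
    ring

theorem mu_pow_im (k : ℕ) : (mu ^ k).im = -(Real.sqrt 7 / 2) * (e k : ℝ) := by
  induction k using Nat.strong_induction_on with
  | _ k ih =>
    match k, ih with
    | 0, _ => simp [e_zero]
    | 1, _ => simp [e_one, mu]
    | (k + 2), ih =>
      have h1 := ih k (by omega)
      have h2 := ih (k + 1) (by omega)
      have h3 : mu ^ (k + 2) = - mu ^ (k + 1) - 2 * mu ^ k := by
        rw [pow_add, mu_sq]; ring
      rw [h3, e_rec]
      simp only [Complex.sub_im, Complex.neg_im, Complex.mul_im]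
      simp
      rw [h1, h2]
      ring

theorem sq_eq_re_normSq (w : ℂ) :
    w ^ 2 = ((2 * w.re : ℝ) : ℂ) * w - ((Complex.normSq w : ℝ) : ℂ) := by
  apply Complex.ext
  · simp [sq, Complex.mul_re, Complex.normSq_apply]; ring
  · simp [sq, Complex.mul_im]; ring

theorem e_step (L k : ℕ) : (e (k + L + L) : ℝ) =
    2 * (mu ^ L).re * (e (k + L) : ℝ) - Complex.normSq (mu ^ L) * (e k : ℝ) := by
  have h7 : (0 : ℝ) < Real.sqrt 7 := Real.sqrt_pos.mpr (by norm_num)
  have hc : mu ^ (k + L + L) = ((2 * (mu ^ L).re : ℝ) : ℂ) * mu ^ (k + L) -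
      ((Complex.normSq (mu ^ L) : ℝ) : ℂ) * mu ^ k := by
    have hw := sq_eq_re_normSq (mu ^ L)
    calc mu ^ (k + L + L) = mu ^ k * (mu ^ L) ^ 2 := by ring
      _ = _ := by rw [hw]; ring
  have h := congrArg Complex.im hc
  rw [Complex.sub_im, Complex.im_ofReal_mul, Complex.im_ofReal_mul, mu_pow_im, mu_pow_im,
    mu_pow_im] at h
  have h2 : (Real.sqrt 7 / 2) * (e (k + L + L) : ℝ) = (Real.sqrt 7 / 2) *
    (2 * (mu ^ L).re * (e (k + L) : ℝ) - Complex.normSq (mu ^ L) * (e k : ℝ)) := by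
    linarith
  exact mul_left_cancel₀ (by positivity) h2

theorem disc_neg (L : ℕ) (hL : 0 < L) :
    (2 * (mu ^ L).re) ^ 2 < 4 * Complex.normSq (mu ^ L) := by
  have h7 : (0 : ℝ) < Real.sqrt 7 := Real.sqrt_pos.mpr (by norm_num)
  have him : (mu ^ L).im ≠ 0 := by
    rw [mu_pow_im]
    have h1 : (e L : ℝ) ≠ 0 := by exact_mod_cast e_even_or L hL
    have h2 : (Real.sqrt 7 / 2) ≠ 0 := by positivity
    exact mul_ne_zero (neg_ne_zero.mpr h2) h1
  rw [Complex.normSq_apply]
  have h3 : 0 < (mu ^ L).im * (mu ^ L).im := mul_self_pos.mpr him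
  nlinarith

/-- the sign of `e` is not eventually periodic -/
theorem sign_not_periodic (N L : ℕ) (hL : 0 < L)
    (h : ∀ k, N ≤ k → (e (k + L) < 0 ↔ e k < 0)) : False := by
  set N' := N + 1 with hN'
  have hs : ∀ j : ℕ, (e (N' + j * L) < 0 ↔ e N' < 0) := by
    intro j
    induction j with
    | zero => simp
    | succ j ih =>
      rw [show N' + (j + 1) * L = N' + j * L + L by ring, h _ (by omega), ih]
  have hne : ∀ j : ℕ, e (N' + j * L) ≠ 0 := fun j => e_even_or _ (by omega)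
  have hrec : ∀ j : ℕ, (e (N' + (j + 2) * L) : ℝ) = 2 * (mu ^ L).re * (e (N' + (j + 1) * L) : ℝ)
      - Complex.normSq (mu ^ L) * (e (N' + j * L) : ℝ) := by
    intro j
    have := e_step L (N' + j * L)
    rw [show N' + (j + 2) * L = N' + j * L + L + L by ring,
      show N' + (j + 1) * L = N' + j * L + L by ring]
    exact this
  by_cases h0 : e N' < 0
  · apply no_pos (2 * (mu ^ L).re) (Complex.normSq (mu ^ L)) (disc_neg L hL)
      (fun j => -(e (N' + j * L) : ℝ))
    · intro j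
      have : e (N' + j * L) < 0 := (hs j).mpr h0
      have : (e (N' + j * L) : ℝ) < 0 := by exact_mod_cast this
      linarith
    · intro j
      have := hrec j
      linarith
  · apply no_pos (2 * (mu ^ L).re) (Complex.normSq (mu ^ L)) (disc_neg L hL)
      (fun j => (e (N' + j * L) : ℝ))
    · intro j
      have h1 : ¬ e (N' + j * L) < 0 := fun hh => h0 ((hs j).mp hh)
      have h2 : 0 < e (N' + j * L) := lt_of_le_of_ne (not_lt.mp h1) (hne j).symm
      exact_mod_cast h2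
    · intro j
      exact hrec j

/-- the order sequence -/
theorem no_rec (c : ℕ → ℤ) (hc : ∀ k, c k = min (D k 0 : ℤ) (D k 1)) :
    ¬ ∃ (d : ℕ) (a : Fin d → ℤ) (K : ℕ), ∀ k : ℕ, K ≤ k →
      c (k + d) = ∑ i : Fin d, a i * c (k + (i : ℕ)) := by
  rintro ⟨d, a, K, h⟩
  obtain ⟨N, L, hL, hper⟩ := periodic_mod_two c d a K h
  have hpar : ∀ k, 1 ≤ k → (((c k : ℤ) : ZMod 2) = 1 ↔ e k < 0) := by
    intro k hk
    obtain ⟨j, rfl⟩ := Nat.exists_eq_add_of_le' hk
    have hodd := (D_odd (j + 1)).1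
    have h1 := D1 j
    rw [hc]
    have hcast : ∀ x : ℤ, ((x : ℤ) : ZMod 2) = 1 ↔ x % 2 = 1 := by
      intro x
      have := ZMod.intCast_eq_intCast_iff x 1 2
      rw [Int.cast_one] at this
      rw [this]
      simp [Int.ModEq]
    rw [hcast]
    simp only [e]
    rw [h1]
    push_cast
    constructor
    · intro h2
      by_contra h3
      push Not at h3
      have h4 : 2 * (D j 0 : ℤ) ≤ (D (j + 1) 0 : ℤ) := by linarith
      rw [min_eq_right h4] at h2
      omega
    · intro h2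
      have h4 : (D (j + 1) 0 : ℤ) ≤ 2 * (D j 0 : ℤ) := by linarith
      rw [min_eq_left h4]
      omega
  apply sign_not_periodic (N + 1) L hL
  intro k hk
  rw [← hpar k (by omega), ← hpar (k + L) (by omega), hper k (by omega)]

/-- The counterexample: the monomial map `(x, y, z) ↦ (z, x², y² z)`. -/
noncomputable def F (z : Fin 3 → ℂ) : Fin 3 → ℂ := ![z 2, z 0 ^ 2, z 1 ^ 2 * z 2]

theorem F_contDiff : ContDiff ℂ ⊤ F := by
  rw [contDiff_pi]
  intro i
  fin_cases i
  · show ContDiff ℂ ⊤ (fun z : Fin 3 → ℂ => z 2)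
    fun_prop
  · show ContDiff ℂ ⊤ (fun z : Fin 3 → ℂ => z 0 ^ 2)
    fun_prop
  · show ContDiff ℂ ⊤ (fun z : Fin 3 → ℂ => z 1 ^ 2 * z 2)
    fun_prop

theorem F_iter_contDiff (k : ℕ) : ContDiff ℂ ⊤ (F^[k]) := by
  induction k with
  | zero => exact contDiff_id
  | succ k ih => rw [Function.iterate_succ']; exact F_contDiff.comp ih

theorem F_homog (k : ℕ) : ∀ (i : Fin 3) (z : Fin 3 → ℂ),
    (F^[k]) ((2 : ℂ) • z) i = (2 : ℂ) ^ (D k i) * (F^[k]) z i := by
  induction k with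
  | zero => intro i z; simp [D]
  | succ k ih =>
    intro i z
    rw [Function.iterate_succ_apply', Function.iterate_succ_apply']
    fin_cases i
    · show (F^[k]) ((2 : ℂ) • z) 2 = 2 ^ (D (k + 1) 0) * (F^[k]) z 2
      rw [D0, ih]
    · show (F^[k]) ((2 : ℂ) • z) 0 ^ 2 = 2 ^ (D (k + 1) 1) * (F^[k]) z 0 ^ 2
      rw [D1, ih]; ring
    · show (F^[k]) ((2 : ℂ) • z) 1 ^ 2 * (F^[k]) ((2 : ℂ) • z) 2 =
        2 ^ (D (k + 1) 2) * ((F^[k]) z 1 ^ 2 * (F^[k]) z 2)
      rw [D2, ih, ih]; ring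

theorem F_diag (k : ℕ) : ∀ (i : Fin 3) (t : ℂ),
    (F^[k]) (fun _ => t) i = t ^ (D k i) := by
  induction k with
  | zero => intro i z; simp [D]
  | succ k ih =>
    intro i z
    rw [Function.iterate_succ_apply']
    fin_cases i
    · show (F^[k]) (fun _ => z) 2 = z ^ (D (k + 1) 0)
      rw [D0, ih]
    · show (F^[k]) (fun _ => z) 0 ^ 2 = z ^ (D (k + 1) 1)
      rw [D1, ih]; ring
    · show (F^[k]) (fun _ => z) 1 ^ 2 * (F^[k]) (fun _ => z) 2 = z ^ (D (k + 1) 2)
      rw [D2, ih, ih]; ring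

theorem order_iter (k : ℕ) :
    sInf {m : ℕ | iteratedFDeriv ℂ m (F^[k]) 0 ≠ 0} = min (D k 0) (D k 1) := by
  apply order_eq (F^[k]) (F_iter_contDiff k) (D k) _ (F_homog k) (F_diag k)
  · have h := D_inv k
    intro i
    fin_cases i
    · exact min_le_left _ _
    · exact min_le_right _ _
    · exact (min_le_left _ _).trans h.1
  · rcases le_total (D k 0) (D k 1) with h | h
    · exact ⟨0, (min_eq_left h).symm⟩
    · exact ⟨1, (min_eq_right h).symm⟩

/-- the matrix of the derivative -/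
noncomputable def J (z : Fin 3 → ℂ) : Matrix (Fin 3) (Fin 3) ℂ :=
  !![0, 0, 1; 2 * z 0, 0, 0; 0, 2 * z 1 * z 2, z 1 ^ 2]

theorem F_hasFDerivAt (z : Fin 3 → ℂ) :
    HasFDerivAt F (LinearMap.toContinuousLinearMap (Matrix.toLin' (J z))) z := by
  rw [hasFDerivAt_pi']
  intro i
  have hp : ∀ j : Fin 3, HasFDerivAt (fun w : Fin 3 → ℂ => w j)
      (ContinuousLinearMap.proj (R := ℂ) (φ := fun _ : Fin 3 => ℂ) j) z := fun j =>
    (ContinuousLinearMap.proj (R := ℂ) (φ := fun _ : Fin 3 => ℂ) j).hasFDerivAt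
  fin_cases i
  · show HasFDerivAt (fun w : Fin 3 → ℂ => w 2) _ z
    refine (hp 2).congr_fderiv ?_
    ext v
    simp [J, Matrix.toLin'_apply, Matrix.mulVec, dotProduct, Fin.sum_univ_three]
  · show HasFDerivAt (fun w : Fin 3 → ℂ => w 0 ^ 2) _ z
    refine ((hp 0).pow 2).congr_fderiv ?_
    ext v
    simp [J, Matrix.toLin'_apply, Matrix.mulVec, dotProduct, Fin.sum_univ_three]
  · show HasFDerivAt (fun w : Fin 3 → ℂ => w 1 ^ 2 * w 2) _ z
    refine (((hp 1).pow 2).mul (hp 2)).congr_fderiv ?_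
    ext v
    simp [J, Matrix.toLin'_apply, Matrix.mulVec, dotProduct, Fin.sum_univ_three]
    ring

theorem F_det (z : Fin 3 → ℂ) : (fderiv ℂ F z).det = 4 * z 0 * z 1 * z 2 := by
  rw [(F_hasFDerivAt z).fderiv]
  rw [ContinuousLinearMap.det]
  simp only [LinearMap.coe_toContinuousLinearMap]
  rw [LinearMap.det_toLin', J, Matrix.det_fin_three]
  simp
  ring

/-- The negation of the preceding statement: For every holomorphic germ f of ℂⁿ fixing 0 that is non-invertible and dominant, the orders of vanishing c(f^k) of its iterates at 0 eventually satisfy a linear recursion with integer coefficients. -/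
theorem result :
    ¬ (∀ (n : ℕ) (f : (Fin n → ℂ) → (Fin n → ℂ)),
      AnalyticAt ℂ f 0 → f 0 = 0 →
      (fderiv ℂ f 0).det = 0 →
      (∀ ε : ℝ, 0 < ε → ∃ z : Fin n → ℂ, ‖z‖ < ε ∧ (fderiv ℂ f z).det ≠ 0) →
      ∃ (d : ℕ) (a : Fin d → ℤ) (K : ℕ), ∀ k : ℕ, K ≤ k →
        ((sInf {m : ℕ | iteratedFDeriv ℂ m (f^[k + d]) 0 ≠ 0} : ℕ) : ℤ) =
          ∑ i : Fin d, a i *
            ((sInf {m : ℕ | iteratedFDeriv ℂ m (f^[k + (i : ℕ)]) 0 ≠ 0} : ℕ) : ℤ)) := by
  intro hall
  have h := hall 3 F ?_ ?_ ?_ ?_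
  · refine no_rec (fun k => ((sInf {m : ℕ | iteratedFDeriv ℂ m (F^[k]) 0 ≠ 0} : ℕ) : ℤ)) ?_ h
    intro k
    simp only [order_iter]
    push_cast
    rfl
  · exact F_contDiff.contDiffAt.analyticAt
  · funext i
    fin_cases i <;> simp [F]
  · rw [F_det]; simp
  · intro ε hε
    refine ⟨fun _ => ((ε / 2 : ℝ) : ℂ), ?_, ?_⟩
    · rw [pi_norm_lt_iff hε]
      intro i
      rw [Complex.norm_real, Real.norm_eq_abs, abs_of_pos (by linarith)]
      linarith
    · rw [F_det]
      have : ((ε / 2 : ℝ) : ℂ) ≠ 0 := by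
        rw [Ne, Complex.ofReal_eq_zero]
        linarith
      simp only [ne_eq]
      intro h0
      apply this
      have h1 : 4 * ((ε / 2 : ℝ) : ℂ) * ((ε / 2 : ℝ) : ℂ) * ((ε / 2 : ℝ) : ℂ) = 4 * ((ε / 2 : ℝ) : ℂ) ^ 3 := by ring
      rw [h1] at h0
      have h2 : ((ε / 2 : ℝ) : ℂ) ^ 3 = 0 := by
        rcases mul_eq_zero.mp h0 with h3 | h3
        · norm_num at h3
        · exact h3
      exact pow_eq_zero_iff (by norm_num) |>.mp h2

end Pool.Agent.S06280
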