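import Pool.Statements.S06430
import Pool.Agent.H47.SQ.B5
import Pool.Agent.H47.SQ.C1
import Pool.Agent.H47.SQ.C2h
import Pool.Agent.H47.SQ.C3b
import Pool.Agent.H47.SQ.C4
import Pool.Agent.H47.SQ.Fin

set_option autoImplicit false
open scoped ENNReal
open Pool Pool.MP_dfb345_an

namespace Pool.Agent.S06430

/-- The negation of the preceding statement: For 1<p<∞, every infinite-dimensional real Banach space that is isomorphic to a subspace of ℓ_p and is a bounded linear image (quotient) of ℓ_p is isomorphic to ℓ_p. -/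
theorem result :
    ¬ (∀ (p : ℝ≥0∞) [Fact (1 ≤ p)], 1 < p → p ≠ ⊤ →
      ∀ (X : Type) [NormedAddCommGroup X] [NormedSpace ℝ X] [CompleteSpace X],
        ¬ FiniteDimensional ℝ X →
        (∃ S : Submodule ℝ (lp (fun _ : ℕ => ℝ) p), Nonempty (X ≃L[ℝ] S)) →
        (∃ T : lp (fun _ : ℕ => ℝ) p →L[ℝ] X, Function.Surjective T) →
        Nonempty (X ≃L[ℝ] lp (fun _ : ℕ => ℝ) p)) := by
  intro h
  obtain ⟨C, hC⟩ := Pool.Agent.H47.SQ.ops
  choose T hT hl using hC
  choose φ hφ using Pool.Agent.H47.SQ.phi_exists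
  have hq := Pool.Agent.H47.SQ.quot Pool.Agent.H47.SQ.EH C T hT hl
  have he := Pool.Agent.H47.SQ.emb Pool.Agent.H47.SQ.EH φ hφ
  have hiso := h 3 (by norm_num) (by norm_num) (lp Pool.Agent.H47.SQ.EH 3)
    Pool.Agent.H47.SQ.infdim he hq
  exact (Pool.Agent.H47.SQ.nonIso Pool.Agent.H47.SQ.partB).false hiso.some

end Pool.Agent.S06430
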