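-- Proof of statement S06473: Markov type 2 and maximal Markov type 2 are equivalent.
import Pool.Statements.S06473

set_option autoImplicit false
open Pool Pool.MP_e2d16f_an

namespace Pool.Agent.S06473

/-!
Outline of the nontrivial direction (Markov type 2 implies maximal Markov type 2).
Fix a stationary reversible chain, a map into `X`, and a time `t`; let `T` be an independent
geometric time of mean `t` (so that `θ = t / (t + 1)`), let `Φ x y = E_y d(x, Z_T)` and `b x = Φ x x`.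
Let `v` be the least excessive majorant of `b` for the killed chain (`v = max b (θ A v)`) and let
`n = v - θ A v`, which lives on the contact set `v = b`.  Killing the chain in addition at rate
`n / (3 b)` and applying the Markov type 2 inequality to the correspondingly time-changed chain
(whose resolvent is exactly a geometric mixture of powers) gives `⟨n, v⟩ ≤ C M² D`.
Finally `d(Z_0, Z_s)` is dominated by a martingale built from `Φ` and `v`, and Doob's `L²`
inequality on the finite path space finishes the proof.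
-/

open Finset

section Basic

variable {ι : Type} [Fintype ι]

/-- Minimum principle for a killed chain. -/
lemma min_principle {A : Matrix ι ι ℝ} (hA0 : ∀ i j, 0 ≤ A i j) (hA1 : ∀ i, ∑ j, A i j = 1)
    {θ : ℝ} (h0 : 0 ≤ θ) (h1 : θ < 1) {w : ι → ℝ}
    (hw : ∀ i, θ * ∑ j, A i j * w j ≤ w i) : ∀ i, 0 ≤ w i := by
  intro i
  by_contra hi
  push Not at hi
  obtain ⟨i0, -, hmin⟩ := exists_min_image (univ : Finset ι) w ⟨i, mem_univ i⟩
  have h2 : w i0 < 0 := lt_of_le_of_lt (hmin i (mem_univ i)) hi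
  have h3 : w i0 ≤ ∑ j, A i0 j * w j := by
    calc w i0 = ∑ j, A i0 j * w i0 := by rw [← sum_mul, hA1, one_mul]
      _ ≤ ∑ j, A i0 j * w j :=
        sum_le_sum fun j _ => mul_le_mul_of_nonneg_left (hmin j (mem_univ j)) (hA0 i0 j)
  have h4 := hw i0
  nlinarith [mul_le_mul_of_nonneg_left h3 h0]

lemma exists_fixed {θ : ℝ} (h0 : 0 ≤ θ) (h1 : θ < 1) (F : (ι → ℝ) → (ι → ℝ))
    (hF : ∀ (u v : ι → ℝ) (c : ℝ), 0 ≤ c → (∀ i, |u i - v i| ≤ c) → ∀ i, |F u i - F v i| ≤ θ * c) :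
    ∃ u : ι → ℝ, F u = u := by
  have hc : ContractingWith ⟨θ, h0⟩ F := by
    refine ⟨by exact_mod_cast h1, ?_⟩
    refine LipschitzWith.of_dist_le_mul fun u v => ?_
    rw [dist_pi_le_iff (by positivity)]
    intro i
    rw [Real.dist_eq]
    refine hF u v (dist u v) dist_nonneg (fun j => ?_) i
    have := dist_le_pi_dist u v j
    rwa [Real.dist_eq] at this
  exact ⟨hc.fixedPoint F, hc.fixedPoint_isFixedPt⟩

lemma sum_diff_bound {A : Matrix ι ι ℝ} (hA0 : ∀ i j, 0 ≤ A i j) (hA1 : ∀ i, ∑ j, A i j = 1)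
    {u v : ι → ℝ} {c : ℝ} (h : ∀ i, |u i - v i| ≤ c) (i : ι) :
    |∑ j, A i j * u j - ∑ j, A i j * v j| ≤ c := by
  rw [← sum_sub_distrib]
  calc |∑ j, (A i j * u j - A i j * v j)| ≤ ∑ j, |A i j * u j - A i j * v j| :=
        abs_sum_le_sum_abs _ _
    _ ≤ ∑ j, A i j * c := by
        refine sum_le_sum fun j _ => ?_
        rw [← mul_sub, abs_mul, abs_of_nonneg (hA0 i j)]
        exact mul_le_mul_of_nonneg_left (h j) (hA0 i j)
    _ = c := by rw [← sum_mul, hA1, one_mul]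

/-- The resolvent of the killed chain. -/
lemma exists_resolvent {A : Matrix ι ι ℝ} (hA0 : ∀ i j, 0 ≤ A i j) (hA1 : ∀ i, ∑ j, A i j = 1)
    {θ : ℝ} (h0 : 0 ≤ θ) (h1 : θ < 1) (g : ι → ℝ) :
    ∃ u : ι → ℝ, ∀ i, u i = (1 - θ) * g i + θ * ∑ j, A i j * u j := by
  obtain ⟨u, hu⟩ := exists_fixed h0 h1
    (fun u i => (1 - θ) * g i + θ * ∑ j, A i j * u j) (by
      intro u v c hc h i
      have := sum_diff_bound hA0 hA1 h i
      simp only [add_sub_add_left_eq_sub]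
      rw [← mul_sub, abs_mul, abs_of_nonneg h0]
      exact mul_le_mul_of_nonneg_left this h0)
  exact ⟨u, fun i => (congrFun hu i).symm⟩

/-- The obstacle problem. -/
lemma exists_obstacle {A : Matrix ι ι ℝ} (hA0 : ∀ i j, 0 ≤ A i j) (hA1 : ∀ i, ∑ j, A i j = 1)
    {θ : ℝ} (h0 : 0 ≤ θ) (h1 : θ < 1) (b : ι → ℝ) :
    ∃ v : ι → ℝ, ∀ i, v i = max (b i) (θ * ∑ j, A i j * v j) := by
  obtain ⟨u, hu⟩ := exists_fixed h0 h1
    (fun u i => max (b i) (θ * ∑ j, A i j * u j)) (by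
      intro u v c hc h i
      have := sum_diff_bound hA0 hA1 h i
      calc |max (b i) (θ * ∑ j, A i j * u j) - max (b i) (θ * ∑ j, A i j * v j)|
          ≤ |θ * ∑ j, A i j * u j - θ * ∑ j, A i j * v j| := by
            rw [max_comm (b i), max_comm (b i)]
            exact abs_max_sub_max_le_abs _ _ _
        _ ≤ θ * c := by
          rw [← mul_sub, abs_mul, abs_of_nonneg h0]
          exact mul_le_mul_of_nonneg_left this h0)
  exact ⟨u, fun i => (congrFun hu i).symm⟩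

end Basic

lemma geom_sum_bound {q : ℝ} (h0 : 0 ≤ q) (h1 : q < 1) (N : ℕ) :
    ∑ k ∈ range N, (1 - q) * q ^ k * (k : ℝ) ≤ q / (1 - q) := by
  have h2 : (1 - q) ≠ 0 := by linarith
  have key : ∑ k ∈ range N, (1 - q) * q ^ k * (k : ℝ) = q / (1 - q) - q ^ N * (N + q / (1 - q)) := by
    induction N with
    | zero => simp
    | succ n ih =>
      rw [sum_range_succ, ih]
      push_cast
      field_simp
      ring
  rw [key]
  have : 0 ≤ q ^ N * (N + q / (1 - q)) := by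
    have : 0 < 1 - q := by linarith
    positivity
  linarith

variable {ι : Type} [Fintype ι] [DecidableEq ι]

/-- The Markov type 2 inequality for fixed distances `d` on a finite set. -/
def MT (d : ι → ι → ℝ) (M : ℝ) : Prop :=
  ∀ (μ : ι → ℝ) (A : Matrix ι ι ℝ), (∀ i, 0 ≤ μ i) → (∑ i, μ i = 1) → (∀ i j, 0 ≤ A i j) →
    (∀ i, ∑ j, A i j = 1) → (∀ i j, μ i * A i j = μ j * A j i) → ∀ t : ℕ,
      ∑ i, ∑ j, μ i * (A ^ t) i j * d i j ^ 2 ≤ M ^ 2 * (t : ℝ) * ∑ i, ∑ j, μ i * A i j * d i j ^ 2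

/-- The time-changed transition matrix. -/
def Qm (A : Matrix ι ι ℝ) (θ : ℝ) (r : ι → ℝ) : Matrix ι ι ℝ :=
  fun i j => (if i = j then 1 - θ * r i else 0) + θ * r i * A i j

lemma Qm_sum (A : Matrix ι ι ℝ) (θ : ℝ) (r : ι → ℝ) (g : ι → ℝ) (i : ι) :
    ∑ j, Qm A θ r i j * g j = (1 - θ * r i) * g i + θ * r i * ∑ j, A i j * g j := by
  unfold Qm
  simp only [add_mul, sum_add_distrib, ite_mul, zero_mul, sum_ite_eq, mem_univ, if_true, mul_sum,
    mul_assoc]

omit [Fintype ι] in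
lemma Qm_nonneg {A : Matrix ι ι ℝ} (hA0 : ∀ i j, 0 ≤ A i j) {θ : ℝ} (h0 : 0 ≤ θ) (h1 : θ ≤ 1)
    {r : ι → ℝ} (hr0 : ∀ i, 0 ≤ r i) (hr1 : ∀ i, r i ≤ 1) (i j : ι) : 0 ≤ Qm A θ r i j := by
  unfold Qm
  have h2 : θ * r i ≤ 1 := by nlinarith [hr0 i, hr1 i]
  have h3 : 0 ≤ θ * r i * A i j := mul_nonneg (mul_nonneg h0 (hr0 i)) (hA0 i j)
  split_ifs <;> linarith

lemma Qm_row {A : Matrix ι ι ℝ} (hA1 : ∀ i, ∑ j, A i j = 1) (θ : ℝ)
    (r : ι → ℝ) (i : ι) : ∑ j, Qm A θ r i j = 1 := by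
  have := Qm_sum A θ r (fun _ => 1) i
  simp only [mul_one] at this
  rw [this, hA1]; ring

/-- partial resolvent sums -/
def Pm (Q : Matrix ι ι ℝ) (q : ℝ) (N : ℕ) : Matrix ι ι ℝ :=
  ∑ k ∈ range N, ((1 - q) * q ^ k) • Q ^ k

lemma Pm_zero (Q : Matrix ι ι ℝ) (q : ℝ) : Pm Q q 0 = 0 := by simp [Pm]

lemma Pm_succ (Q : Matrix ι ι ℝ) (q : ℝ) (N : ℕ) :
    Pm Q q (N + 1) = (1 - q) • (1 : Matrix ι ι ℝ) + q • (Q * Pm Q q N) := by
  unfold Pm
  rw [sum_range_succ', mul_sum, smul_sum, add_comm]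
  congr 1
  · simp
  · refine sum_congr rfl fun k _ => ?_
    rw [Matrix.mul_smul, smul_smul, pow_succ' Q k]
    congr 1; ring

lemma pow_nonneg_entries {Q : Matrix ι ι ℝ} (h : ∀ i j, 0 ≤ Q i j) (k : ℕ) :
    ∀ i j, 0 ≤ (Q ^ k) i j := by
  induction k with
  | zero => intro i j; rw [pow_zero, Matrix.one_apply]; split_ifs <;> norm_num
  | succ k ih =>
    intro i j
    rw [pow_succ, Matrix.mul_apply]
    exact sum_nonneg fun l _ => mul_nonneg (ih i l) (h l j)

lemma Pm_nonneg {Q : Matrix ι ι ℝ} (h : ∀ i j, 0 ≤ Q i j) {q : ℝ} (h0 : 0 ≤ q) (h1 : q ≤ 1)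
    (N : ℕ) (i j : ι) : 0 ≤ Pm Q q N i j := by
  unfold Pm
  rw [Matrix.sum_apply]
  refine sum_nonneg fun k _ => ?_
  rw [Matrix.smul_apply, smul_eq_mul]
  have : 0 ≤ 1 - q := by linarith
  exact mul_nonneg (mul_nonneg this (pow_nonneg h0 k)) (pow_nonneg_entries h k i j)

/-- action of the successor -/
lemma Pm_succ_act (Q : Matrix ι ι ℝ) (q : ℝ) (N : ℕ) (g : ι → ℝ) (i : ι) :
    ∑ j, Pm Q q (N + 1) i j * g j = (1 - q) * g i + q * ∑ j, Q i j * ∑ l, Pm Q q N j l * g l := by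
  rw [Pm_succ]
  simp only [Matrix.add_apply, Matrix.smul_apply, smul_eq_mul, add_mul, sum_add_distrib]
  congr 1
  · simp [Matrix.one_apply, ite_mul]
  · simp only [Matrix.mul_apply, mul_sum, sum_mul]
    rw [sum_comm]
    refine sum_congr rfl fun j _ => sum_congr rfl fun l _ => ?_
    ring

lemma Pm_row {Q : Matrix ι ι ℝ} (hQ0 : ∀ i j, 0 ≤ Q i j) (hQ1 : ∀ i, ∑ j, Q i j = 1)
    {q : ℝ} (h0 : 0 ≤ q) (N : ℕ) : ∀ i, ∑ j, Pm Q q N i j ≤ 1 := by
  induction N with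
  | zero => intro i; simp [Pm_zero]
  | succ N ih =>
    intro i
    have h := Pm_succ_act Q q N (fun _ => 1) i
    simp only [mul_one] at h
    rw [h]
    have h2 : ∑ j, Q i j * ∑ l, Pm Q q N j l ≤ ∑ j, Q i j * 1 :=
      sum_le_sum fun j _ => mul_le_mul_of_nonneg_left (ih j) (hQ0 i j)
    simp only [mul_one, hQ1] at h2
    nlinarith [mul_le_mul_of_nonneg_left h2 h0]

lemma key_sum {d : ι → ι → ℝ} {M : ℝ} (hd0 : ∀ i, d i i = 0) (hMT : MT d M)
    {μ : ι → ℝ} {A : Matrix ι ι ℝ} (hμ0 : ∀ i, 0 ≤ μ i) (hμ1 : ∑ i, μ i = 1)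
    (hA0 : ∀ i j, 0 ≤ A i j) (hA1 : ∀ i, ∑ j, A i j = 1)
    (hrev : ∀ i j, μ i * A i j = μ j * A j i)
    {θ : ℝ} (h0 : 0 ≤ θ) (h1 : θ ≤ 1) {ε : ℝ} (hε : 0 < ε) {κ : ι → ℝ} (hκ : ∀ i, ε ≤ κ i)
    (N : ℕ) :
    ∑ i, μ i * κ i * ∑ j, Pm (Qm A θ fun i => ε / κ i) (1 / (1 + ε)) N i j * d i j ^ 2 ≤
      M ^ 2 * θ * ∑ i, ∑ j, μ i * A i j * d i j ^ 2 := by
  set r : ι → ℝ := fun i => ε / κ i with hr
  set Q := Qm A θ r with hQ
  set q : ℝ := 1 / (1 + ε) with hq
  set D := ∑ i, ∑ j, μ i * A i j * d i j ^ 2 with hD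
  have hκ0 : ∀ i, 0 < κ i := fun i => lt_of_lt_of_le hε (hκ i)
  have hr0 : ∀ i, 0 ≤ r i := fun i => (div_pos hε (hκ0 i)).le
  have hr1 : ∀ i, r i ≤ 1 := fun i => (div_le_one (hκ0 i)).2 (hκ i)
  have hq0 : 0 < q := by positivity
  have hq1 : q < 1 := by rw [hq, div_lt_one (by linarith)]; linarith
  have hQ0 : ∀ i j, 0 ≤ Q i j := Qm_nonneg hA0 h0 h1 hr0 hr1
  have hQ1 : ∀ i, ∑ j, Q i j = 1 := Qm_row hA1 θ r
  have hD0 : 0 ≤ D := sum_nonneg fun i _ => sum_nonneg fun j _ =>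
    mul_nonneg (mul_nonneg (hμ0 i) (hA0 i j)) (sq_nonneg _)
  set m := ∑ i, μ i * κ i with hm
  have hm0 : 0 < m := by
    have : ε ≤ m := by
      calc ε = ∑ i, μ i * ε := by rw [← sum_mul, hμ1, one_mul]
        _ ≤ m := sum_le_sum fun i _ => mul_le_mul_of_nonneg_left (hκ i) (hμ0 i)
    linarith
  have hκr : ∀ i, κ i * r i = ε := fun i => by
    simp only [hr]; exact mul_div_cancel₀ _ (hκ0 i).ne'
  -- off-diagonal entries
  have hoff : ∀ i j, μ i * κ i * Q i j * d i j ^ 2 = ε * θ * (μ i * A i j * d i j ^ 2) := by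
    intro i j
    by_cases hij : i = j
    · subst hij; simp [hd0]
    · have : Q i j = θ * r i * A i j := by simp [hQ, Qm, hij]
      rw [this, ← hκr i]; ring
  have hone : ∀ k : ℕ, ∑ i, μ i * κ i * ∑ j, (Q ^ k) i j * d i j ^ 2 ≤
      M ^ 2 * (k : ℝ) * (ε * θ * D) := by
    intro k
    have h := hMT (fun i => μ i * κ i / m) Q
      (fun i => div_nonneg (mul_nonneg (hμ0 i) (hκ0 i).le) hm0.le)
      (by rw [← sum_div, ← hm, div_self hm0.ne']) hQ0 hQ1 (by
        intro i j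
        by_cases hij : i = j
        · subst hij; rfl
        · have e1 : Q i j = θ * r i * A i j := by simp [hQ, Qm, hij]
          have e2 : Q j i = θ * r j * A j i := by simp [hQ, Qm, Ne.symm hij]
          rw [e1, e2]
          have h1 := hκr i
          have h2 := hκr j
          calc μ i * κ i / m * (θ * r i * A i j) = (κ i * r i) * θ * (μ i * A i j) / m := by ring
            _ = (κ j * r j) * θ * (μ j * A j i) / m := by rw [h1, h2, hrev i j]
            _ = μ j * κ j / m * (θ * r j * A j i) := by ring) k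
    have e1 : ∑ i, ∑ j, μ i * κ i / m * (Q ^ k) i j * d i j ^ 2 =
        (∑ i, μ i * κ i * ∑ j, (Q ^ k) i j * d i j ^ 2) / m := by
      rw [sum_div]
      refine sum_congr rfl fun i _ => ?_
      rw [mul_sum, sum_div]
      refine sum_congr rfl fun j _ => by ring
    have e2 : ∑ i, ∑ j, μ i * κ i / m * Q i j * d i j ^ 2 = (ε * θ * D) / m := by
      rw [hD, mul_sum, sum_div]
      refine sum_congr rfl fun i _ => ?_
      rw [mul_sum, sum_div]
      refine sum_congr rfl fun j _ => ?_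
      rw [← hoff i j]; ring
    rw [e1, e2] at h
    have h' : (∑ i, μ i * κ i * ∑ j, (Q ^ k) i j * d i j ^ 2) / m ≤
        (M ^ 2 * (k : ℝ) * (ε * θ * D)) / m := by
      calc _ ≤ _ := h
        _ = _ := by ring
    exact (div_le_div_iff_of_pos_right hm0).1 h'
  have hsum : ∑ i, μ i * κ i * ∑ j, Pm Q q N i j * d i j ^ 2 =
      ∑ k ∈ range N, (1 - q) * q ^ k * ∑ i, μ i * κ i * ∑ j, (Q ^ k) i j * d i j ^ 2 := by
    have e3 : ∀ i, ∑ j, Pm Q q N i j * d i j ^ 2 =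
        ∑ k ∈ range N, (1 - q) * q ^ k * ∑ j, (Q ^ k) i j * d i j ^ 2 := by
      intro i
      unfold Pm
      simp only [Matrix.sum_apply, Matrix.smul_apply, smul_eq_mul, sum_mul]
      rw [sum_comm]
      refine sum_congr rfl fun k _ => ?_
      rw [mul_sum]
      refine sum_congr rfl fun j _ => by ring
    simp only [e3, mul_sum]
    rw [sum_comm]
    refine sum_congr rfl fun k _ => sum_congr rfl fun i _ => sum_congr rfl fun j _ => ?_
    ring
  rw [hsum]
  have hq2 : q / (1 - q) = 1 / ε := by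
    have e : 1 - q = ε * q := by rw [hq]; field_simp; ring
    rw [e]; field_simp
  calc ∑ k ∈ range N, (1 - q) * q ^ k * ∑ i, μ i * κ i * ∑ j, (Q ^ k) i j * d i j ^ 2
      ≤ ∑ k ∈ range N, (1 - q) * q ^ k * (M ^ 2 * (k : ℝ) * (ε * θ * D)) := by
        refine sum_le_sum fun k _ => mul_le_mul_of_nonneg_left (hone k) ?_
        have : 0 ≤ 1 - q := by linarith
        positivity
    _ = (∑ k ∈ range N, (1 - q) * q ^ k * (k : ℝ)) * (M ^ 2 * (ε * θ * D)) := by
        rw [sum_mul]; refine sum_congr rfl fun k _ => by ring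
    _ ≤ (q / (1 - q)) * (M ^ 2 * (ε * θ * D)) :=
        mul_le_mul_of_nonneg_right (geom_sum_bound hq0.le hq1 N) (by positivity)
    _ = M ^ 2 * θ * D := by rw [hq2]; field_simp


/-- Energy bound for the obstacle problem. -/
lemma energy_bound {d : ι → ι → ℝ} {M : ℝ} (hd0 : ∀ i, d i i = 0) (hdn : ∀ i j, 0 ≤ d i j)
    (hMT : MT d M)
    {μ : ι → ℝ} {A : Matrix ι ι ℝ} (hμ0 : ∀ i, 0 ≤ μ i) (hμ1 : ∑ i, μ i = 1)
    (hA0 : ∀ i j, 0 ≤ A i j) (hA1 : ∀ i, ∑ j, A i j = 1)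
    (hrev : ∀ i j, μ i * A i j = μ j * A j i)
    {θ : ℝ} (h0 : 0 ≤ θ) (h1 : θ < 1)
    {Φ : ι → ι → ℝ} (hΦ : ∀ x i, Φ x i = (1 - θ) * d x i + θ * ∑ j, A i j * Φ x j)
    {b : ι → ℝ} (hb : ∀ i, b i = Φ i i) (hb2 : ∀ x i, Φ x i ≤ d x i + b i)
    {v n : ι → ℝ} (hv : ∀ i, v i = max (b i) (θ * ∑ j, A i j * v j))
    (hn : ∀ i, n i = v i - θ * ∑ j, A i j * v j) :
    4 / 27 * ∑ i, μ i * (n i * b i) ≤ M ^ 2 * θ * ∑ i, ∑ j, μ i * A i j * d i j ^ 2 := by
  set D := ∑ i, ∑ j, μ i * A i j * d i j ^ 2 with hD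
  have hΦ0 : ∀ x i, 0 ≤ Φ x i := fun x => min_principle hA0 hA1 h0 h1 (fun i => by
    have : 0 ≤ (1 - θ) * d x i := mul_nonneg (by linarith) (hdn x i)
    rw [hΦ x i]; linarith)
  have hb0 : ∀ i, 0 ≤ b i := fun i => by rw [hb]; exact hΦ0 i i
  have hvb : ∀ i, b i ≤ v i := fun i => by rw [hv i]; exact le_max_left _ _
  have hv0 : ∀ i, 0 ≤ v i := fun i => (hb0 i).trans (hvb i)
  have hn0 : ∀ i, 0 ≤ n i := fun i => by
    rw [hn i]; nth_rewrite 1 [hv i]
    have := le_max_right (b i) (θ * ∑ j, A i j * v j)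
    linarith
  have hAv0 : ∀ i, 0 ≤ θ * ∑ j, A i j * v j := fun i =>
    mul_nonneg h0 (sum_nonneg fun j _ => mul_nonneg (hA0 i j) (hv0 j))
  -- complementarity
  have hcomp : ∀ i, n i ≠ 0 → v i = b i := fun i hi => by
    rcases le_total (θ * ∑ j, A i j * v j) (b i) with h | h
    · rw [hv i, max_eq_left h]
    · exfalso; apply hi
      have : v i = θ * ∑ j, A i j * v j := by
        conv_lhs => rw [hv i, max_eq_right h]
      rw [hn i, this]
      have h2 : θ * ∑ j, A i j * v j = v i := this.symm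
      simp only [h2] at *
      linarith
  have hbn : ∀ i, b i = 0 → n i = 0 := fun i hi => by
    by_contra h
    have h2 := hcomp i h
    have h3 := hn0 i
    have h4 : n i ≤ 0 := by rw [hn i, h2, hi]; linarith [hAv0 i]
    exact h (le_antisymm h4 h3)
  set ε : ℝ := 1 - θ with hε
  have hε0 : 0 < ε := by rw [hε]; linarith
  set κ : ι → ℝ := fun i => ε + 1 / 3 * (n i / b i) with hκ
  have hκ' : ∀ i, 0 ≤ n i / b i := fun i => div_nonneg (hn0 i) (hb0 i)
  have hκε : ∀ i, ε ≤ κ i := fun i => by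
    simp only [hκ]; linarith [hκ' i]
  have hκ0 : ∀ i, 0 < κ i := fun i => lt_of_lt_of_le hε0 (hκε i)
  set r : ι → ℝ := fun i => ε / κ i with hr
  set Q := Qm A θ r with hQ
  set q : ℝ := 1 / (1 + ε) with hq
  have hr0 : ∀ i, 0 ≤ r i := fun i => (div_pos hε0 (hκ0 i)).le
  have hr1 : ∀ i, r i ≤ 1 := fun i => (div_le_one (hκ0 i)).2 (hκε i)
  have hq0 : 0 < q := by positivity
  have hq1 : q < 1 := by rw [hq, div_lt_one (by linarith)]; linarith
  have hqε : 1 - q = ε * q := by rw [hq]; field_simp; ring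
  have hqe : q * (1 + ε) = 1 := by rw [hq]; field_simp
  have hQ0 : ∀ i j, 0 ≤ Q i j := Qm_nonneg hA0 h0 h1.le hr0 hr1
  have hQ1 : ∀ i, ∑ j, Q i j = 1 := Qm_row hA1 θ r
  have hnb : ∀ i, n i / b i * b i = n i := fun i => by
    by_cases h : b i = 0
    · rw [h, mul_zero, hbn i h]
    · exact div_mul_cancel₀ _ h
  -- r * κ' = ε (1 - r)
  have hrk : ∀ i, r i * (1 / 3 * (n i / b i)) = ε * (1 - r i) := fun i => by
    have h2 : r i * κ i = ε := by simp only [hr]; exact div_mul_cancel₀ _ (hκ0 i).ne'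
    have h3 : κ i = ε + 1 / 3 * (n i / b i) := rfl
    rw [h3] at h2; linarith
  -- bound on distances
  obtain ⟨C, hC⟩ : ∃ C : ℝ, ∀ x i, Φ x i ≤ C := by
    refine ⟨∑ x, ∑ i, Φ x i, fun x i => ?_⟩
    calc Φ x i ≤ ∑ i, Φ x i := single_le_sum (f := fun i => Φ x i) (fun j _ => hΦ0 x j) (mem_univ i)
      _ ≤ _ := single_le_sum (f := fun x => ∑ i, Φ x i)
        (fun j _ => sum_nonneg fun l _ => hΦ0 j l) (mem_univ x)
  -- comparison
  have hcompare : ∀ N : ℕ, ∀ x i, Φ x i - ∑ j, Pm Q q N i j * d x j - 1 / 3 * v i ≤ q ^ N * C := by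
    intro N
    induction N with
    | zero =>
      intro x i
      simp only [Pm_zero, Matrix.zero_apply, zero_mul, sum_const_zero, pow_zero, one_mul]
      linarith [hC x i, hv0 i]
    | succ N ih =>
      intro x i
      rw [Pm_succ_act]
      -- identity for Φ
      have hA2 : θ * ∑ j, A i j * Φ x j = Φ x i - ε * d x i := by
        have := hΦ x i; rw [hε]; linarith
      have e1 : ∑ j, Q i j * Φ x j = Φ x i + r i * ε * (Φ x i - d x i) := by
        rw [hQ, Qm_sum, mul_comm θ (r i), mul_assoc (r i) θ, hA2, hε]; ring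
      have e2 : ∑ j, Q i j * v j = v i * (1 + r i * ε) - r i * n i := by
        have hA3 : θ * ∑ j, A i j * v j = v i - n i := by rw [hn i]; ring
        rw [hQ, Qm_sum, mul_comm θ (r i), mul_assoc (r i) θ, hA3, hε]; ring
      have e3 : ∑ j, Q i j * (Φ x j - ∑ l, Pm Q q N j l * d x l - 1 / 3 * v j) =
          ∑ j, Q i j * Φ x j - ∑ j, Q i j * ∑ l, Pm Q q N j l * d x l
            - 1 / 3 * ∑ j, Q i j * v j := by
        rw [mul_sum, ← sum_sub_distrib, ← sum_sub_distrib]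
        refine sum_congr rfl fun j _ => by ring
      have e4 : ∑ j, Q i j * (Φ x j - ∑ l, Pm Q q N j l * d x l - 1 / 3 * v j) ≤ q ^ N * C := by
        calc _ ≤ ∑ j, Q i j * (q ^ N * C) :=
              sum_le_sum fun j _ => mul_le_mul_of_nonneg_left (ih x j) (hQ0 i j)
          _ = q ^ N * C := by rw [← sum_mul, hQ1, one_mul]
      rw [e3, e1, e2] at e4
      have e5 := mul_le_mul_of_nonneg_left e4 hq0.le
      -- pieces
      have p1 : q * (r i * (1 / 3 * (n i / b i)) * (Φ x i - d x i)) ≤ q * (1 / 3 * (r i * n i)) := by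
        refine mul_le_mul_of_nonneg_left ?_ hq0.le
        have h3 : Φ x i - d x i ≤ b i := by linarith [hb2 x i]
        have h4 : 0 ≤ r i * (1 / 3 * (n i / b i)) :=
          mul_nonneg (hr0 i) (mul_nonneg (by norm_num) (hκ' i))
        calc _ ≤ r i * (1 / 3 * (n i / b i)) * b i := mul_le_mul_of_nonneg_left h3 h4
          _ = 1 / 3 * (r i * (n i / b i * b i)) := by ring
          _ = _ := by rw [hnb i]
      rw [hrk i] at p1
      have p2 : q * (v i * (1 + r i * ε)) ≤ v i := by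
        have h3 : q * (1 + r i * ε) ≤ 1 := by
          rw [← hqe]
          refine mul_le_mul_of_nonneg_left ?_ hq0.le
          nlinarith [hr1 i]
        calc _ = v i * (q * (1 + r i * ε)) := by ring
          _ ≤ v i * 1 := mul_le_mul_of_nonneg_left h3 (hv0 i)
          _ = v i := mul_one _
      have p3 : q ^ (N + 1) * C = q * (q ^ N * C) := by ring
      rw [p3]
      have p4 : (1 - q) * d x i = ε * q * d x i := by rw [hqε]
      have p5 : Φ x i = q * Φ x i + ε * q * Φ x i := by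
        have : q * Φ x i + ε * q * Φ x i = q * (1 + ε) * Φ x i := by ring
        rw [this, hqe, one_mul]
      nlinarith [e5, p1, p2, p4, p5]
  -- Jensen
  have hjensen : ∀ N x, (c : ℝ) → 2 * c * ∑ j, Pm Q q N x j * d x j - c ^ 2 ≤
      ∑ j, Pm Q q N x j * d x j ^ 2 := by
    intro N x c
    have hP0 : ∀ j, 0 ≤ Pm Q q N x j := fun j => Pm_nonneg hQ0 hq0.le hq1.le N x j
    have hP1 : ∑ j, Pm Q q N x j ≤ 1 := Pm_row hQ0 hQ1 hq0.le N x
    have h3 : 0 ≤ ∑ j, Pm Q q N x j * (d x j - c) ^ 2 :=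
      sum_nonneg fun j _ => mul_nonneg (hP0 j) (sq_nonneg _)
    have h4 : ∑ j, Pm Q q N x j * (d x j - c) ^ 2 = ∑ j, Pm Q q N x j * d x j ^ 2
        - 2 * c * ∑ j, Pm Q q N x j * d x j + c ^ 2 * ∑ j, Pm Q q N x j := by
      rw [mul_sum, mul_sum, ← sum_sub_distrib, ← sum_add_distrib]
      refine sum_congr rfl fun j _ => by ring
    nlinarith [sq_nonneg c]
  -- the bound for every N
  have hN : ∀ N : ℕ, 4 / 27 * ∑ i, μ i * (n i * b i) - q ^ N * (4 / 9 * C * ∑ i, μ i * n i) ≤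
      M ^ 2 * θ * D := by
    intro N
    have hk := key_sum hd0 hMT hμ0 hμ1 hA0 hA1 hrev h0 h1.le hε0 hκε N
    refine le_trans ?_ hk
    rw [mul_sum, mul_sum, mul_sum, ← sum_sub_distrib]
    refine sum_le_sum fun i _ => ?_
    have hL0 : 0 ≤ ∑ j, Pm Q q N i j * d i j ^ 2 :=
      sum_nonneg fun j _ => mul_nonneg (Pm_nonneg hQ0 hq0.le hq1.le N i j) (sq_nonneg _)
    by_cases hni : n i = 0
    · rw [hni]
      have h3 : 0 ≤ μ i * κ i * ∑ j, Pm Q q N i j * d i j ^ 2 :=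
        mul_nonneg (mul_nonneg (hμ0 i) (hκ0 i).le) hL0
      calc 4 / 27 * (μ i * (0 * b i)) - q ^ N * (4 / 9 * C * (μ i * 0)) = 0 := by ring
        _ ≤ _ := h3
    · have h5 := hcompare N i i
      rw [hcomp i hni, ← hb i] at h5
      have h6 := hjensen N i (2 / 3 * b i)
      have h7 : 4 / 9 * b i ^ 2 - 4 / 3 * b i * (q ^ N * C) ≤ ∑ j, Pm Q q N i j * d i j ^ 2 := by
        nlinarith [mul_le_mul_of_nonneg_left h5 (hb0 i)]
      have h8 : μ i * (1 / 3 * (n i / b i)) * (4 / 9 * b i ^ 2 - 4 / 3 * b i * (q ^ N * C)) ≤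
          μ i * κ i * ∑ j, Pm Q q N i j * d i j ^ 2 := by
        calc _ ≤ μ i * (1 / 3 * (n i / b i)) * ∑ j, Pm Q q N i j * d i j ^ 2 :=
              mul_le_mul_of_nonneg_left h7 (mul_nonneg (hμ0 i) (mul_nonneg (by norm_num) (hκ' i)))
          _ ≤ _ := by
            refine mul_le_mul_of_nonneg_right (mul_le_mul_of_nonneg_left ?_ (hμ0 i)) hL0
            simp only [hκ]; linarith
      refine le_trans (le_of_eq ?_) h8
      have h9 := hnb i
      have : μ i * (1 / 3 * (n i / b i)) * (4 / 9 * b i ^ 2 - 4 / 3 * b i * (q ^ N * C)) =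
          4 / 27 * (μ i * ((n i / b i * b i) * b i)) - q ^ N * (4 / 9 * C * (μ i * (n i / b i * b i))) := by
        ring
      rw [this, h9]
  have hlim : Filter.Tendsto (fun N : ℕ => 4 / 27 * ∑ i, μ i * (n i * b i) -
      q ^ N * (4 / 9 * C * ∑ i, μ i * n i)) Filter.atTop
      (nhds (4 / 27 * ∑ i, μ i * (n i * b i) - 0 * (4 / 9 * C * ∑ i, μ i * n i))) :=
    Filter.Tendsto.sub tendsto_const_nhds
      ((tendsto_pow_atTop_nhds_zero_of_lt_one hq0.le hq1).mul_const _)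
  have := le_of_tendsto' hlim hN
  simpa using this

section Path

omit [DecidableEq ι]

/-- path expectation -/
def EE (μ : ι → ℝ) (A : Matrix ι ι ℝ) (t : ℕ) (F : (Fin (t + 1) → ι) → ℝ) : ℝ :=
  ∑ w : Fin (t + 1) → ι, μ (w 0) * (∏ k : Fin t, A (w k.castSucc) (w k.succ)) * F w

lemma EE_succ (μ : ι → ℝ) (A : Matrix ι ι ℝ) (t : ℕ) (F : (Fin (t + 2) → ι) → ℝ) :
    EE μ A (t + 1) F = EE μ A t (fun w => ∑ y, A (w (Fin.last t)) y *
      F (Fin.snoc (α := fun _ => ι) w y)) := by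
  unfold EE
  rw [← (Fin.snocEquiv (fun _ : Fin (t + 1 + 1) => ι)).sum_comp, Fintype.sum_prod_type_right]
  refine sum_congr rfl fun w _ => ?_
  rw [mul_sum]
  refine sum_congr rfl fun y _ => ?_
  have e0 : (Fin.snocEquiv (fun _ : Fin (t + 1 + 1) => ι)) (y, w) =
    Fin.snoc (α := fun _ => ι) w y := rfl
  rw [e0, Fin.prod_univ_castSucc]
  have e1 : (Fin.snoc (α := fun _ => ι) w y : Fin (t + 1 + 1) → ι) 0 = w 0 := by
    rw [← Fin.castSucc_zero, Fin.snoc_castSucc]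
  have e2 : ∀ k : Fin t, (Fin.snoc (α := fun _ => ι) w y : Fin (t + 1 + 1) → ι) k.castSucc.succ =
      w k.succ := fun k => by
    rw [Fin.succ_castSucc, Fin.snoc_castSucc]
  simp only [e1, Fin.snoc_castSucc, e2, Fin.succ_last, Fin.snoc_last]
  ring

lemma EE_mono {μ : ι → ℝ} {A : Matrix ι ι ℝ} (hμ0 : ∀ i, 0 ≤ μ i) (hA0 : ∀ i j, 0 ≤ A i j)
    (t : ℕ) {F G : (Fin (t + 1) → ι) → ℝ} (h : ∀ w, F w ≤ G w) : EE μ A t F ≤ EE μ A t G := by
  unfold EE
  refine sum_le_sum fun w _ => mul_le_mul_of_nonneg_left (h w) ?_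
  exact mul_nonneg (hμ0 _) (prod_nonneg fun k _ => hA0 _ _)

lemma EE_add (μ : ι → ℝ) (A : Matrix ι ι ℝ)
    (t : ℕ) (F G : (Fin (t + 1) → ι) → ℝ) :
    EE μ A t (fun w => F w + G w) = EE μ A t F + EE μ A t G := by
  unfold EE
  rw [← sum_add_distrib]
  refine sum_congr rfl fun w _ => by ring

lemma EE_smul (μ : ι → ℝ) (A : Matrix ι ι ℝ)
    (t : ℕ) (c : ℝ) (F : (Fin (t + 1) → ι) → ℝ) :
    EE μ A t (fun w => c * F w) = c * EE μ A t F := by
  unfold EE
  rw [mul_sum]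
  refine sum_congr rfl fun w _ => by ring

lemma EE_zero (μ : ι → ℝ) (A : Matrix ι ι ℝ) (F : (Fin (0 + 1) → ι) → ℝ) :
    EE μ A 0 F = ∑ i, μ i * F (fun _ => i) := by
  unfold EE
  rw [← (Equiv.funUnique (Fin 1) ι).symm.sum_comp]
  refine sum_congr rfl fun i _ => ?_
  simp only [univ_eq_empty, prod_empty, mul_one]
  rfl

/-- stationarity -/
lemma EE_last {μ : ι → ℝ} {A : Matrix ι ι ℝ} (hA1 : ∀ i, ∑ j, A i j = 1)
    (hrev : ∀ i j, μ i * A i j = μ j * A j i) (t : ℕ) (g : ι → ℝ) :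
    EE μ A t (fun w => g (w (Fin.last t))) = ∑ i, μ i * g i := by
  induction t generalizing g with
  | zero => rw [EE_zero]
  | succ t ih =>
    rw [EE_succ]
    simp only [Fin.snoc_last]
    rw [ih (fun i => ∑ y, A i y * g y)]
    simp only [mul_sum]
    rw [sum_comm]
    refine sum_congr rfl fun j _ => ?_
    calc ∑ i, μ i * (A i j * g j) = ∑ i, μ j * (A j i * g j) := by
          refine sum_congr rfl fun i _ => ?_
          rw [← mul_assoc, hrev i j, mul_assoc]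
      _ = μ j * g j := by rw [← mul_sum, ← sum_mul, hA1, one_mul]

/-- Doob's `L²` maximal inequality on a finite path space. -/
lemma doob {μ : ι → ℝ} {A : Matrix ι ι ℝ} (hμ0 : ∀ i, 0 ≤ μ i) (hA0 : ∀ i j, 0 ≤ A i j)
    (hA1 : ∀ i, ∑ j, A i j = 1)
    (N m : ∀ t : ℕ, (Fin (t + 1) → ι) → ℝ)
    (hN : ∀ t w, ∑ y, A (w (Fin.last t)) y * N (t + 1) (Fin.snoc (α := fun _ => ι) w y) = N t w)
    (hm0 : ∀ w, m 0 w = N 0 w)
    (hm : ∀ t w y, m (t + 1) (Fin.snoc (α := fun _ => ι) w y) =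
      max (m t w) (N (t + 1) (Fin.snoc (α := fun _ => ι) w y)))
    (t : ℕ) : EE μ A t (fun w => m t w ^ 2) ≤ 4 * EE μ A t (fun w => N t w ^ 2) := by
  have hq : ∀ t, EE μ A t (fun w => m t w ^ 2 - 2 * m t w * N t w) ≤ 0 := by
    intro t
    induction t with
    | zero =>
      have : EE μ A 0 (fun w => m 0 w ^ 2 - 2 * m 0 w * N 0 w) ≤ EE μ A 0 (fun _ => (0 : ℝ) * 0) :=
        EE_mono hμ0 hA0 0 fun w => by rw [hm0]; nlinarith [sq_nonneg (N 0 w)]
      rwa [EE_smul, zero_mul] at this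
    | succ t ih =>
      refine le_trans ?_ ih
      rw [EE_succ]
      refine EE_mono hμ0 hA0 t fun w => ?_
      have h1 : ∀ y, A (w (Fin.last t)) y * (m (t + 1) (Fin.snoc (α := fun _ => ι) w y) ^ 2 -
          2 * m (t + 1) (Fin.snoc (α := fun _ => ι) w y) * N (t + 1) (Fin.snoc (α := fun _ => ι) w y)) ≤
          A (w (Fin.last t)) y * m t w ^ 2 -
            2 * m t w * (A (w (Fin.last t)) y * N (t + 1) (Fin.snoc (α := fun _ => ι) w y)) := by
        intro y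
        rw [hm t w y]
        set a := m t w
        set b := N (t + 1) (Fin.snoc (α := fun _ => ι) w y)
        have h2 : (max a b) ^ 2 - 2 * max a b * b ≤ a ^ 2 - 2 * a * b := by
          rcases le_total a b with h | h
          · rw [max_eq_right h]; nlinarith [sq_nonneg (a - b)]
          · rw [max_eq_left h]
        calc _ ≤ A (w (Fin.last t)) y * (a ^ 2 - 2 * a * b) :=
              mul_le_mul_of_nonneg_left h2 (hA0 _ _)
          _ = _ := by ring
      refine (sum_le_sum fun y _ => h1 y).trans (le_of_eq ?_)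
      rw [sum_sub_distrib, ← sum_mul, hA1, one_mul, ← mul_sum, hN]
  have h2 : EE μ A t (fun w => m t w ^ 2) ≤
      EE μ A t (fun w => 2 * (m t w ^ 2 - 2 * m t w * N t w) + 4 * (N t w ^ 2)) :=
    EE_mono hμ0 hA0 t fun w => by nlinarith [sq_nonneg (m t w - 2 * N t w)]
  rw [EE_add, EE_smul, EE_smul] at h2
  linarith [hq t]

end Path

lemma EE_pow (μ : ι → ℝ) (A : Matrix ι ι ℝ) (t : ℕ) (F : ι → ι → ℝ) :
    EE μ A t (fun w => F (w 0) (w (Fin.last t))) = ∑ i, ∑ j, μ i * (A ^ t) i j * F i j := by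
  induction t generalizing F with
  | zero =>
    rw [EE_zero]
    refine sum_congr rfl fun i _ => ?_
    simp [Matrix.one_apply]
  | succ t ih =>
    rw [EE_succ]
    have e1 : ∀ (w : Fin (t + 1) → ι) (y : ι),
        (Fin.snoc (α := fun _ => ι) w y : Fin (t + 1 + 1) → ι) 0 = w 0 := fun w y => by
      rw [← Fin.castSucc_zero, Fin.snoc_castSucc]
    simp only [e1, Fin.snoc_last]
    rw [ih (fun i j => ∑ y, A j y * F i y)]
    refine sum_congr rfl fun i _ => ?_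
    simp only [pow_succ, Matrix.mul_apply, mul_sum, sum_mul]
    rw [sum_comm]
    refine sum_congr rfl fun j _ => sum_congr rfl fun l _ => by ring

/-- Bound for `Ψ x x = E_x d(Z_T, x)^2`. -/
lemma terminal_bound {d : ι → ι → ℝ} {M : ℝ} (hd0 : ∀ i, d i i = 0)
    (hMT : MT d M)
    {μ : ι → ℝ} {A : Matrix ι ι ℝ} (hμ0 : ∀ i, 0 ≤ μ i) (hμ1 : ∑ i, μ i = 1)
    (hA0 : ∀ i j, 0 ≤ A i j) (hA1 : ∀ i, ∑ j, A i j = 1)
    (hrev : ∀ i j, μ i * A i j = μ j * A j i)
    {θ : ℝ} (h0 : 0 ≤ θ) (h1 : θ < 1)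
    {Ψ : ι → ι → ℝ} (hΨ : ∀ x i, Ψ x i = (1 - θ) * d x i ^ 2 + θ * ∑ j, A i j * Ψ x j) :
    (1 - θ) * ∑ i, μ i * Ψ i i ≤ M ^ 2 * θ * ∑ i, ∑ j, μ i * A i j * d i j ^ 2 := by
  set D := ∑ i, ∑ j, μ i * A i j * d i j ^ 2 with hD
  have hΨ0 : ∀ x i, 0 ≤ Ψ x i := fun x => min_principle hA0 hA1 h0 h1 (fun i => by
    have : 0 ≤ (1 - θ) * d x i ^ 2 := mul_nonneg (by linarith) (sq_nonneg _)
    rw [hΨ x i]; linarith)
  set ε : ℝ := 1 - θ with hε
  have hε0 : 0 < ε := by rw [hε]; linarith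
  set r : ι → ℝ := fun _ => ε / ε with hr
  have hr1 : ∀ i, r i = 1 := fun i => div_self hε0.ne'
  set Q := Qm A θ r with hQ
  set q : ℝ := 1 / (1 + ε) with hq
  have hq0 : 0 < q := by positivity
  have hq1 : q < 1 := by rw [hq, div_lt_one (by linarith)]; linarith
  have hqε : 1 - q = ε * q := by rw [hq]; field_simp; ring
  have hqe : q * (1 + ε) = 1 := by rw [hq]; field_simp
  have hQ0 : ∀ i j, 0 ≤ Q i j := Qm_nonneg hA0 h0 h1.le (fun i => by rw [hr1 i]; norm_num)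
    (fun i => by rw [hr1 i])
  have hQ1 : ∀ i, ∑ j, Q i j = 1 := Qm_row hA1 θ r
  obtain ⟨C, hC⟩ : ∃ C : ℝ, ∀ x i, Ψ x i ≤ C := by
    refine ⟨∑ x, ∑ i, Ψ x i, fun x i => ?_⟩
    calc Ψ x i ≤ ∑ i, Ψ x i := single_le_sum (f := fun i => Ψ x i) (fun j _ => hΨ0 x j) (mem_univ i)
      _ ≤ _ := single_le_sum (f := fun x => ∑ i, Ψ x i)
        (fun j _ => sum_nonneg fun l _ => hΨ0 j l) (mem_univ x)
  have hcompare : ∀ N : ℕ, ∀ x i, Ψ x i - ∑ j, Pm Q q N i j * d x j ^ 2 ≤ q ^ N * C := by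
    intro N
    induction N with
    | zero =>
      intro x i
      simp only [Pm_zero, Matrix.zero_apply, zero_mul, sum_const_zero, pow_zero, one_mul]
      linarith [hC x i]
    | succ N ih =>
      intro x i
      rw [Pm_succ_act]
      have e1 : ∑ j, Q i j * Ψ x j = Ψ x i + ε * (Ψ x i - d x i ^ 2) := by
        have := hΨ x i
        rw [hQ, Qm_sum, hr1 i, mul_one, hε]; linarith
      have e3 : ∑ j, Q i j * (Ψ x j - ∑ l, Pm Q q N j l * d x l ^ 2) =
          ∑ j, Q i j * Ψ x j - ∑ j, Q i j * ∑ l, Pm Q q N j l * d x l ^ 2 := by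
        rw [← sum_sub_distrib]
        refine sum_congr rfl fun j _ => by ring
      have e4 : ∑ j, Q i j * (Ψ x j - ∑ l, Pm Q q N j l * d x l ^ 2) ≤ q ^ N * C := by
        calc _ ≤ ∑ j, Q i j * (q ^ N * C) :=
              sum_le_sum fun j _ => mul_le_mul_of_nonneg_left (ih x j) (hQ0 i j)
          _ = q ^ N * C := by rw [← sum_mul, hQ1, one_mul]
      rw [e3, e1] at e4
      have e5 := mul_le_mul_of_nonneg_left e4 hq0.le
      have p3 : q ^ (N + 1) * C = q * (q ^ N * C) := by ring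
      rw [p3]
      have p4 : (1 - q) * d x i ^ 2 = ε * q * d x i ^ 2 := by rw [hqε]
      have p5 : Ψ x i = q * Ψ x i + ε * q * Ψ x i := by
        have : q * Ψ x i + ε * q * Ψ x i = q * (1 + ε) * Ψ x i := by ring
        rw [this, hqe, one_mul]
      nlinarith [e5, p4, p5]
  have hN : ∀ N : ℕ, ε * ∑ i, μ i * Ψ i i - q ^ N * (ε * C) ≤ M ^ 2 * θ * D := by
    intro N
    have hk := key_sum hd0 hMT hμ0 hμ1 hA0 hA1 hrev h0 h1.le hε0 (κ := fun _ => ε) (fun _ => le_rfl) N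
    refine le_trans ?_ hk
    have e1 : q ^ N * (ε * C) = ∑ i, μ i * (q ^ N * (ε * C)) := by rw [← sum_mul, hμ1, one_mul]
    rw [e1, mul_sum, ← sum_sub_distrib]
    refine sum_le_sum fun i _ => ?_
    have h5 := hcompare N i i
    have h6 : 0 ≤ μ i * ε := mul_nonneg (hμ0 i) hε0.le
    have h7 := mul_le_mul_of_nonneg_left h5 h6
    calc ε * (μ i * Ψ i i) - μ i * (q ^ N * (ε * C)) =
          μ i * ε * (Ψ i i - ∑ j, Pm Q q N i j * d i j ^ 2) - μ i * ε * (q ^ N * C) +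
            μ i * ε * ∑ j, Pm Q q N i j * d i j ^ 2 := by ring
      _ ≤ μ i * ε * ∑ j, Pm Q q N i j * d i j ^ 2 := by linarith
  have hlim : Filter.Tendsto (fun N : ℕ => ε * ∑ i, μ i * Ψ i i - q ^ N * (ε * C)) Filter.atTop
      (nhds (ε * ∑ i, μ i * Ψ i i - 0 * (ε * C))) :=
    Filter.Tendsto.sub tendsto_const_nhds
      ((tendsto_pow_atTop_nhds_zero_of_lt_one hq0.le hq1).mul_const _)
  have := le_of_tendsto' hlim hN
  simpa using this

omit [Fintype ι] [DecidableEq ι] in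
lemma sq_add_le {a b r : ℝ} (h : a ^ 2 ≤ r) : (a + b) ^ 2 ≤ 2 * r + 2 * b ^ 2 := by
  nlinarith [sq_nonneg (a - b)]

/-- Main inequality for one chain. -/
lemma main_ineq {d : ι → ι → ℝ} {M : ℝ} (hd0 : ∀ i, d i i = 0) (hdn : ∀ i j, 0 ≤ d i j)
    (hds : ∀ i j, d i j = d j i) (hdt : ∀ i j k, d i k ≤ d i j + d j k)
    (hMT : MT d M)
    {μ : ι → ℝ} {A : Matrix ι ι ℝ} (hμ0 : ∀ i, 0 ≤ μ i) (hμ1 : ∑ i, μ i = 1)
    (hA0 : ∀ i j, 0 ≤ A i j) (hA1 : ∀ i, ∑ j, A i j = 1)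
    (hrev : ∀ i j, μ i * A i j = μ j * A j i) (t : ℕ) (ht : 0 < t)
    (G : (Fin (t + 1) → ι) → ℝ) (hG : ∀ (w : Fin (t + 1) → ι) (c : ℝ), (∀ s, d (w 0) (w s) ^ 2 ≤ c) → G w ≤ c) :
    EE μ A t G ≤ (40 * M) ^ 2 * t * ∑ i, ∑ j, μ i * A i j * d i j ^ 2 := by
  set D := ∑ i, ∑ j, μ i * A i j * d i j ^ 2 with hD
  have hD0 : 0 ≤ D := sum_nonneg fun i _ => sum_nonneg fun j _ =>
    mul_nonneg (mul_nonneg (hμ0 i) (hA0 i j)) (sq_nonneg _)
  have htp : (0 : ℝ) < t := by exact_mod_cast ht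
  set θ : ℝ := t / (t + 1) with hθ
  have h0 : 0 ≤ θ := by positivity
  have h1 : θ < 1 := by rw [hθ, div_lt_one (by positivity)]; linarith
  have hθe : (1 - θ) * (t + 1) = 1 := by rw [hθ]; field_simp; ring
  choose Φ hΦ using fun x => exists_resolvent hA0 hA1 h0 h1 (fun i => d x i)
  choose Ψ hΨ using fun x => exists_resolvent hA0 hA1 h0 h1 (fun i => d x i ^ 2)
  set b : ι → ℝ := fun i => Φ i i with hb
  obtain ⟨v, hv⟩ := exists_obstacle hA0 hA1 h0 h1 b
  set n : ι → ℝ := fun i => v i - θ * ∑ j, A i j * v j with hn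
  have hε : 0 < 1 - θ := by linarith
  have hΦ0 : ∀ x i, 0 ≤ Φ x i := fun x => min_principle hA0 hA1 h0 h1 (fun i => by
    have : 0 ≤ (1 - θ) * d x i := mul_nonneg hε.le (hdn x i)
    rw [hΦ x i]; linarith)
  have hb2 : ∀ x i, Φ x i ≤ d x i + b i := by
    intro x i
    have := min_principle hA0 hA1 h0 h1 (w := fun j => d x i + Φ i j - Φ x j) (fun j => by
      have e : ∑ k, A j k * (d x i + Φ i k - Φ x k) =
          d x i + ∑ k, A j k * Φ i k - ∑ k, A j k * Φ x k := by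
        simp only [mul_sub, mul_add, sum_sub_distrib, sum_add_distrib, ← sum_mul, hA1, one_mul]
      have t1 := hdt x i j
      have := mul_nonneg hε.le (show 0 ≤ d x i + d i j - d x j by linarith)
      rw [e, hΦ i j, hΦ x j]
      nlinarith) i
    simp only [hb]; linarith
  have hb1 : ∀ x i, d x i ≤ Φ x i + b i := by
    intro x i
    have := min_principle hA0 hA1 h0 h1 (w := fun j => Φ x j + Φ i j - d x i) (fun j => by
      have e : ∑ k, A j k * (Φ x k + Φ i k - d x i) =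
          ∑ k, A j k * Φ x k + ∑ k, A j k * Φ i k - d x i := by
        simp only [mul_sub, mul_add, sum_sub_distrib, sum_add_distrib, ← sum_mul, hA1, one_mul]
      have t1 := hdt x j i
      rw [hds j i] at t1
      have := mul_nonneg hε.le (show 0 ≤ d x j + d i j - d x i by linarith)
      rw [e, hΦ i j, hΦ x j]
      nlinarith) i
    simp only [hb]; linarith
  have hΦΨ : ∀ x i, Φ x i ^ 2 ≤ Ψ x i := by
    intro x i
    have := min_principle hA0 hA1 h0 h1
      (w := fun j => Ψ x j - 2 * Φ x i * Φ x j + Φ x i ^ 2) (fun j => by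
      have e : ∑ k, A j k * (Ψ x k - 2 * Φ x i * Φ x k + Φ x i ^ 2) =
          ∑ k, A j k * Ψ x k - 2 * Φ x i * ∑ k, A j k * Φ x k + Φ x i ^ 2 := by
        simp only [mul_sub, mul_add, sum_sub_distrib, sum_add_distrib, ← sum_mul, hA1, one_mul]
        congr 2
        rw [mul_sum]
        refine sum_congr rfl fun k _ => by ring
      have := mul_nonneg hε.le (sq_nonneg (d x j - Φ x i))
      rw [e, hΨ x j]
      have e2 : Φ x j = (1 - θ) * d x j + θ * ∑ k, A j k * Φ x k := hΦ x j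
      have e3 : 2 * Φ x i * Φ x j = 2 * Φ x i * ((1 - θ) * d x j + θ * ∑ k, A j k * Φ x k) := by
        rw [← e2]
      rw [e3]
      nlinarith) i
    nlinarith
  have hvb : ∀ i, b i ≤ v i := fun i => by rw [hv i]; exact le_max_left _ _
  have hb0 : ∀ i, 0 ≤ b i := fun i => hΦ0 i i
  have hv0 : ∀ i, 0 ≤ v i := fun i => (hb0 i).trans (hvb i)
  have hn0 : ∀ i, 0 ≤ n i := fun i => by
    simp only [hn]; nth_rewrite 1 [hv i]
    have := le_max_right (b i) (θ * ∑ j, A i j * v j)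
    linarith
  have hcomp : ∀ i, n i * v i = n i * b i := fun i => by
    rcases le_total (θ * ∑ j, A i j * v j) (b i) with h | h
    · have : v i = b i := by rw [hv i, max_eq_left h]
      rw [this]
    · have h2 : v i = θ * ∑ j, A i j * v j := by
        conv_lhs => rw [hv i, max_eq_right h]
      have h3 : n i = 0 := by simp only [hn]; linarith
      rw [h3, zero_mul, zero_mul]
  -- energy
  set E := ∑ i, μ i * (n i * v i) with hE
  have hEb : 4 / 27 * E ≤ M ^ 2 * θ * D := by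
    have := energy_bound hd0 hdn hMT hμ0 hμ1 hA0 hA1 hrev h0 h1 hΦ (b := b) (fun _ => rfl) hb2 hv
      (n := n) (fun _ => rfl)
    rw [hE]
    simp only [hcomp]
    exact this
  have hterm := terminal_bound hd0 hMT hμ0 hμ1 hA0 hA1 hrev h0 h1 hΨ
  have hstat : ∀ g : ι → ℝ, ∑ i, μ i * ∑ j, A i j * g j = ∑ i, μ i * g i := by
    intro g
    simp only [mul_sum]
    rw [sum_comm]
    refine sum_congr rfl fun j _ => ?_
    calc ∑ i, μ i * (A i j * g j) = ∑ i, μ j * (A j i * g j) := by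
          refine sum_congr rfl fun i _ => ?_
          rw [← mul_assoc, hrev i j, mul_assoc]
      _ = μ j * g j := by rw [← mul_sum, ← sum_mul, hA1, one_mul]
  set V2 := ∑ i, μ i * v i ^ 2 with hV2
  set VA := ∑ i, μ i * (v i * ∑ j, A i j * v j) with hVA
  set AA := ∑ i, μ i * (∑ j, A i j * v j) ^ 2 with hAA
  have hEV : E = V2 - θ * VA := by
    rw [hE, hV2, hVA, mul_sum, ← sum_sub_distrib]
    refine sum_congr rfl fun i _ => ?_
    simp only [hn]; ring
  have hVAle : VA ≤ V2 := by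
    have h2 : VA ≤ ∑ i, μ i * (∑ j, A i j * (1 / 2 * v i ^ 2 + 1 / 2 * v j ^ 2)) := by
      rw [hVA]
      refine sum_le_sum fun i _ => mul_le_mul_of_nonneg_left ?_ (hμ0 i)
      rw [mul_sum]
      refine sum_le_sum fun j _ => ?_
      nlinarith [mul_nonneg (hA0 i j) (sq_nonneg (v i - v j))]
    have h3 : ∑ i, μ i * (∑ j, A i j * (1 / 2 * v i ^ 2 + 1 / 2 * v j ^ 2)) = V2 := by
      simp only [mul_add, sum_add_distrib, ← sum_mul, hA1, one_mul]
      have := hstat (fun j => 1 / 2 * v j ^ 2)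
      rw [this, ← sum_add_distrib, hV2]
      refine sum_congr rfl fun i _ => by ring
    linarith
  have hAA2 : V2 - AA ≤ 2 * (V2 - VA) := by
    have h2 : 0 ≤ ∑ i, μ i * (v i - ∑ j, A i j * v j) ^ 2 :=
      sum_nonneg fun i _ => mul_nonneg (hμ0 i) (sq_nonneg _)
    have h3 : ∑ i, μ i * (v i - ∑ j, A i j * v j) ^ 2 = V2 - 2 * VA + AA := by
      rw [hV2, hVA, hAA, mul_sum, ← sum_sub_distrib, ← sum_add_distrib]
      refine sum_congr rfl fun i _ => by ring
    linarith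
  have hAA1 : AA ≤ V2 := by
    have h2 : ∀ i, (∑ j, A i j * v j) ^ 2 ≤ ∑ j, A i j * v j ^ 2 := by
      intro i
      have h3 : 0 ≤ ∑ j, A i j * (v j - ∑ k, A i k * v k) ^ 2 :=
        sum_nonneg fun j _ => mul_nonneg (hA0 i j) (sq_nonneg _)
      have h4 : ∑ j, A i j * (v j - ∑ k, A i k * v k) ^ 2 =
          ∑ j, A i j * v j ^ 2 - (∑ j, A i j * v j) ^ 2 := by
        set c := ∑ k, A i k * v k with hc
        have e5 : ∑ j, A i j * (v j - c) ^ 2 =
            ∑ j, (A i j * v j ^ 2 - 2 * c * (A i j * v j) + c ^ 2 * A i j) :=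
          sum_congr rfl fun j _ => by ring
        rw [e5, sum_add_distrib, sum_sub_distrib, ← mul_sum, ← mul_sum, hA1, ← hc]; ring
      linarith
    calc AA ≤ ∑ i, μ i * ∑ j, A i j * v j ^ 2 :=
          sum_le_sum fun i _ => mul_le_mul_of_nonneg_left (h2 i) (hμ0 i)
      _ = V2 := hstat _
  -- the processes
  set N1 : ∀ s : ℕ, (Fin (s + 1) → ι) → ℝ := fun s w =>
    θ ^ s * Φ (w 0) (w (Fin.last s)) + ∑ r : Fin s, θ ^ (r : ℕ) * ((1 - θ) * d (w 0) (w r.castSucc))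
    with hN1
  set Y : ∀ s : ℕ, (Fin (s + 1) → ι) → ℝ := fun s w =>
    θ ^ s * v (w (Fin.last s)) + ∑ r : Fin s, θ ^ (r : ℕ) * n (w r.castSucc) with hY
  set R : ∀ s : ℕ, (Fin (s + 1) → ι) → ℝ := fun s w =>
    θ ^ s * Ψ (w 0) (w (Fin.last s)) +
      ∑ r : Fin s, θ ^ (r : ℕ) * ((1 - θ) * d (w 0) (w r.castSucc) ^ 2) with hR
  have e0 : ∀ (s : ℕ) (w : Fin (s + 1) → ι) (y : ι),
      (Fin.snoc (α := fun _ => ι) w y : Fin (s + 1 + 1) → ι) 0 = w 0 := fun s w y => by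
    rw [← Fin.castSucc_zero, Fin.snoc_castSucc]
  have hN1s : ∀ s w y, N1 (s + 1) (Fin.snoc (α := fun _ => ι) w y) =
      N1 s w + θ ^ s * (θ * Φ (w 0) y - Φ (w 0) (w (Fin.last s)) +
        (1 - θ) * d (w 0) (w (Fin.last s))) := by
    intro s w y
    simp only [hN1, e0, Fin.snoc_last, Fin.sum_univ_castSucc, Fin.snoc_castSucc, Fin.val_castSucc,
      Fin.val_last]
    ring
  have hRs : ∀ s w y, R (s + 1) (Fin.snoc (α := fun _ => ι) w y) =
      R s w + θ ^ s * (θ * Ψ (w 0) y - Ψ (w 0) (w (Fin.last s)) +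
        (1 - θ) * d (w 0) (w (Fin.last s)) ^ 2) := by
    intro s w y
    simp only [hR, e0, Fin.snoc_last, Fin.sum_univ_castSucc, Fin.snoc_castSucc, Fin.val_castSucc,
      Fin.val_last]
    ring
  have hYs : ∀ s w y, Y (s + 1) (Fin.snoc (α := fun _ => ι) w y) =
      Y s w + θ ^ (s + 1) * (v y - ∑ j, A (w (Fin.last s)) j * v j) := by
    intro s w y
    simp only [hY, Fin.snoc_last, Fin.sum_univ_castSucc, Fin.snoc_castSucc, Fin.val_castSucc,
      Fin.val_last, hn]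
    ring
  -- martingale properties
  have hN1m : ∀ s w, ∑ y, A (w (Fin.last s)) y * N1 (s + 1) (Fin.snoc (α := fun _ => ι) w y) =
      N1 s w := by
    intro s w
    simp only [hN1s]
    have h2 := hΦ (w 0) (w (Fin.last s))
    calc _ = ∑ y, (A (w (Fin.last s)) y * (N1 s w + θ ^ s * (- Φ (w 0) (w (Fin.last s)) +
          (1 - θ) * d (w 0) (w (Fin.last s)))) +
            θ ^ s * θ * (A (w (Fin.last s)) y * Φ (w 0) y)) :=
          sum_congr rfl fun y _ => by ring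
      _ = N1 s w + θ ^ s * (- Φ (w 0) (w (Fin.last s)) + ((1 - θ) * d (w 0) (w (Fin.last s)) +
          θ * ∑ y, A (w (Fin.last s)) y * Φ (w 0) y)) := by
          rw [sum_add_distrib, ← sum_mul, hA1, ← mul_sum]; ring
      _ = N1 s w := by rw [← h2]; ring
  have hRm : ∀ s w, ∑ y, A (w (Fin.last s)) y * R (s + 1) (Fin.snoc (α := fun _ => ι) w y) =
      R s w := by
    intro s w
    simp only [hRs]
    have h2 := hΨ (w 0) (w (Fin.last s))
    calc _ = ∑ y, (A (w (Fin.last s)) y * (R s w + θ ^ s * (- Ψ (w 0) (w (Fin.last s)) +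
          (1 - θ) * d (w 0) (w (Fin.last s)) ^ 2)) +
            θ ^ s * θ * (A (w (Fin.last s)) y * Ψ (w 0) y)) :=
          sum_congr rfl fun y _ => by ring
      _ = R s w + θ ^ s * (- Ψ (w 0) (w (Fin.last s)) + ((1 - θ) * d (w 0) (w (Fin.last s)) ^ 2 +
          θ * ∑ y, A (w (Fin.last s)) y * Ψ (w 0) y)) := by
          rw [sum_add_distrib, ← sum_mul, hA1, ← mul_sum]; ring
      _ = R s w := by rw [← h2]; ring
  have hYm : ∀ s w, ∑ y, A (w (Fin.last s)) y * Y (s + 1) (Fin.snoc (α := fun _ => ι) w y) =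
      Y s w := by
    intro s w
    simp only [hYs]
    calc _ = ∑ y, (A (w (Fin.last s)) y * (Y s w - θ ^ (s + 1) * ∑ j, A (w (Fin.last s)) j * v j) +
            θ ^ (s + 1) * (A (w (Fin.last s)) y * v y)) :=
          sum_congr rfl fun y _ => by ring
      _ = Y s w := by
          rw [sum_add_distrib, ← sum_mul, hA1, ← mul_sum]; ring
  -- second moments
  have hRE : ∀ s, EE μ A s (R s) = ∑ i, μ i * Ψ i i := by
    intro s
    induction s with
    | zero =>
      rw [EE_zero]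
      refine sum_congr rfl fun i _ => ?_
      simp [hR]
    | succ s ih =>
      rw [EE_succ, ← ih]
      congr 1
      funext w
      exact hRm s w
  have hgeom : ∀ s : ℕ, θ ^ s + ∑ r : Fin s, θ ^ (r : ℕ) * (1 - θ) = 1 := by
    intro s
    induction s with
    | zero => simp
    | succ s ih =>
      rw [Fin.sum_univ_castSucc]
      simp only [Fin.val_castSucc, Fin.val_last]
      rw [← add_assoc, pow_succ]
      linarith
  have hN1R : ∀ s w, N1 s w ^ 2 ≤ R s w := by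
    intro s w
    set c := N1 s w with hc
    have h2 : 0 ≤ R s w - 2 * c * N1 s w + c ^ 2 * (θ ^ s + ∑ r : Fin s, θ ^ (r : ℕ) * (1 - θ)) := by
      have h3 : R s w - 2 * c * N1 s w + c ^ 2 * (θ ^ s + ∑ r : Fin s, θ ^ (r : ℕ) * (1 - θ)) =
          θ ^ s * (Ψ (w 0) (w (Fin.last s)) - 2 * c * Φ (w 0) (w (Fin.last s)) + c ^ 2) +
          ∑ r : Fin s, θ ^ (r : ℕ) * (1 - θ) * (d (w 0) (w r.castSucc) - c) ^ 2 := by
        have h4 : ∑ r : Fin s, θ ^ (r : ℕ) * (1 - θ) * (d (w 0) (w r.castSucc) - c) ^ 2 =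
            ∑ r : Fin s, θ ^ (r : ℕ) * ((1 - θ) * d (w 0) (w r.castSucc) ^ 2) -
            2 * c * ∑ r : Fin s, θ ^ (r : ℕ) * ((1 - θ) * d (w 0) (w r.castSucc)) +
            c ^ 2 * ∑ r : Fin s, θ ^ (r : ℕ) * (1 - θ) := by
          rw [mul_sum, mul_sum, ← sum_sub_distrib, ← sum_add_distrib]
          refine sum_congr rfl fun r _ => by ring
        rw [h4]
        simp only [hR, hN1]
        ring
      rw [h3]
      refine add_nonneg (mul_nonneg (pow_nonneg h0 s) ?_)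
        (sum_nonneg fun r _ => mul_nonneg (mul_nonneg (pow_nonneg h0 _) hε.le) (sq_nonneg _))
      nlinarith [hΦΨ (w 0) (w (Fin.last s)), sq_nonneg (Φ (w 0) (w (Fin.last s)) - c)]
    rw [hgeom s, ← hc] at h2
    nlinarith
  have hYE : ∀ s : ℕ, EE μ A s (fun w => Y s w ^ 2) ≤ V2 + s * (2 * E) := by
    intro s
    induction s with
    | zero =>
      rw [EE_zero]
      simp [hY, hV2]
    | succ s ih =>
      rw [EE_succ]
      have h2 : ∀ w : Fin (s + 1) → ι, ∑ y, A (w (Fin.last s)) y *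
          Y (s + 1) (Fin.snoc (α := fun _ => ι) w y) ^ 2 = Y s w ^ 2 + θ ^ (2 * s + 2) *
          (fun i => ∑ j, A i j * v j ^ 2 - (∑ j, A i j * v j) ^ 2) (w (Fin.last s)) := by
        intro w
        simp only [hYs]
        set c := ∑ j, A (w (Fin.last s)) j * v j with hc
        calc _ = ∑ y, (A (w (Fin.last s)) y * (Y s w - θ ^ (s + 1) * c) ^ 2 +
              2 * (Y s w - θ ^ (s + 1) * c) * θ ^ (s + 1) * (A (w (Fin.last s)) y * v y) +
              θ ^ (2 * s + 2) * (A (w (Fin.last s)) y * v y ^ 2)) :=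
              sum_congr rfl fun y _ => by ring
          _ = _ := by
            rw [sum_add_distrib, sum_add_distrib, ← sum_mul, hA1, ← mul_sum, ← mul_sum, ← hc]
            ring
      have h2' := funext h2
      rw [h2', EE_add, EE_smul, EE_last hA1 hrev s
        (fun i => ∑ j, A i j * v j ^ 2 - (∑ j, A i j * v j) ^ 2)]
      have h3 : ∑ i, μ i * (∑ j, A i j * v j ^ 2 - (∑ j, A i j * v j) ^ 2) = V2 - AA := by
        simp only [mul_sub, sum_sub_distrib]
        rw [hstat, hV2, hAA]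
      rw [h3]
      have h4 : θ ^ (2 * s + 2) * (V2 - AA) ≤ θ * (V2 - AA) := by
        refine mul_le_mul_of_nonneg_right ?_ (by linarith)
        calc θ ^ (2 * s + 2) = θ * θ ^ (2 * s + 1) := by ring
          _ ≤ θ * 1 := mul_le_mul_of_nonneg_left (pow_le_one₀ h0 h1.le) h0
          _ = θ := mul_one _
      have h5 : θ * (V2 - AA) ≤ 2 * E := by
        have h6 : 0 ≤ (1 - θ) * V2 := mul_nonneg hε.le
          (sum_nonneg fun i _ => mul_nonneg (hμ0 i) (sq_nonneg _))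
        have h7 := mul_le_mul_of_nonneg_left hAA2 h0
        rw [hEV]; nlinarith
      push_cast
      linarith
  have hV2E : V2 ≤ (t + 1) * E := by
    have h6 : (1 - θ) * V2 ≤ E := by
      rw [hEV]; nlinarith
    have h7 : ((t : ℝ) + 1) * ((1 - θ) * V2) ≤ (t + 1) * E :=
      mul_le_mul_of_nonneg_left h6 (by positivity)
    have h8 : ((t : ℝ) + 1) * ((1 - θ) * V2) = ((1 - θ) * (t + 1)) * V2 := by ring
    rw [h8, hθe, one_mul] at h7
    exact h7
  have hE0 : 0 ≤ E := sum_nonneg fun i _ => mul_nonneg (hμ0 i) (mul_nonneg (hn0 i) (hv0 i))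
  -- Doob
  set N : ∀ s : ℕ, (Fin (s + 1) → ι) → ℝ := fun s w => N1 s w + Y s w with hN
  have hNm : ∀ s w, ∑ y, A (w (Fin.last s)) y * N (s + 1) (Fin.snoc (α := fun _ => ι) w y) =
      N s w := by
    intro s w
    simp only [hN, mul_add, sum_add_distrib]
    rw [hN1m, hYm]
  set m : ∀ s : ℕ, (Fin (s + 1) → ι) → ℝ := fun s =>
    Nat.rec (motive := fun s => (Fin (s + 1) → ι) → ℝ) (fun w => N 0 w)
      (fun s ms w => max (ms (Fin.init w)) (N (s + 1) w)) s with hm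
  have hm0 : ∀ w, m 0 w = N 0 w := fun w => rfl
  have hms' : ∀ s w, m (s + 1) w = max (m s (Fin.init w)) (N (s + 1) w) := fun s w => rfl
  have hms : ∀ s w y, m (s + 1) (Fin.snoc (α := fun _ => ι) w y) =
      max (m s w) (N (s + 1) (Fin.snoc (α := fun _ => ι) w y)) := by
    intro s w y
    rw [hms', Fin.init_snoc]
  have hdoob := doob hμ0 hA0 hA1 N m hNm hm0 hms t
  have hNlow : ∀ s w, θ ^ s * d (w 0) (w (Fin.last s)) ≤ N s w := by
    intro s w
    have h2 : 0 ≤ ∑ r : Fin s, θ ^ (r : ℕ) * ((1 - θ) * d (w 0) (w r.castSucc)) :=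
      sum_nonneg fun r _ => mul_nonneg (pow_nonneg h0 _) (mul_nonneg hε.le (hdn _ _))
    have h3 : 0 ≤ ∑ r : Fin s, θ ^ (r : ℕ) * n (w r.castSucc) :=
      sum_nonneg fun r _ => mul_nonneg (pow_nonneg h0 _) (hn0 _)
    have h4 : θ ^ s * d (w 0) (w (Fin.last s)) ≤
        θ ^ s * (Φ (w 0) (w (Fin.last s)) + v (w (Fin.last s))) :=
      mul_le_mul_of_nonneg_left (by linarith [hb1 (w 0) (w (Fin.last s)), hvb (w (Fin.last s))])
        (pow_nonneg h0 s)
    simp only [hN, hN1, hY]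
    linarith
  have hmlow : ∀ s w (r : Fin (s + 1)), θ ^ s * d (w 0) (w r) ≤ m s w := by
    intro s
    induction s with
    | zero =>
      intro w r
      have hr0 : r = Fin.last 0 := Fin.ext (by have := r.isLt; simp only [Fin.val_last]; omega)
      rw [hm0, hr0]
      exact hNlow 0 w
    | succ s ih =>
      intro w r
      rw [hms']
      rcases Fin.eq_castSucc_or_eq_last r with ⟨r', rfl⟩ | rfl
      · refine le_max_of_le_left (le_trans ?_ (ih (Fin.init w) r'))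
        have : θ ^ (s + 1) ≤ θ ^ s := pow_le_pow_of_le_one h0 h1.le (Nat.le_succ s)
        exact mul_le_mul_of_nonneg_right this (hdn _ _)
      · exact le_max_of_le_right (hNlow (s + 1) w)
  -- (1+1/t)^t ≤ 3
  have hθt : 1 ≤ 3 * θ ^ t := by
    have h2 : (1 / (t : ℝ) + 1) ^ t ≤ 3 := by
      calc (1 / (t : ℝ) + 1) ^ t ≤ (Real.exp (1 / t)) ^ t :=
            pow_le_pow_left₀ (by positivity) (Real.add_one_le_exp _) t
        _ = Real.exp 1 := by rw [← Real.exp_nat_mul]; congr 1; field_simp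
        _ ≤ 3 := by linarith [Real.exp_one_lt_d9]
    have h3 : (1 / (t : ℝ) + 1) * θ = 1 := by rw [hθ]; field_simp; ring
    calc (1 : ℝ) = ((1 / (t : ℝ) + 1) * θ) ^ t := by rw [h3, one_pow]
      _ = (1 / (t : ℝ) + 1) ^ t * θ ^ t := mul_pow _ _ _
      _ ≤ 3 * θ ^ t := mul_le_mul_of_nonneg_right h2 (pow_nonneg h0 t)
  have hGm : ∀ w, G w ≤ 9 * m t w ^ 2 := by
    intro w
    refine hG w _ fun s => ?_
    have h2 := hmlow t w s
    have h3 : 0 ≤ d (w 0) (w s) := hdn _ _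
    have h4 : d (w 0) (w s) ≤ 3 * (θ ^ t * d (w 0) (w s)) := by nlinarith
    have h5 : d (w 0) (w s) ≤ 3 * m t w := by linarith
    nlinarith
  have hM2 : 0 ≤ M ^ 2 := sq_nonneg M
  have s1 : EE μ A t G ≤ 9 * EE μ A t (fun w => m t w ^ 2) := by
    rw [← EE_smul]; exact EE_mono hμ0 hA0 t hGm
  have s2 : EE μ A t (fun w => N t w ^ 2) ≤ 2 * EE μ A t (R t) +
      2 * EE μ A t (fun w => Y t w ^ 2) := by
    rw [← EE_smul, ← EE_smul, ← EE_add]
    refine EE_mono hμ0 hA0 t fun w => ?_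
    exact sq_add_le (hN1R t w)
  have s3 := hYE t
  have s4 : EE μ A t (R t) ≤ M ^ 2 * t * D := by
    rw [hRE t]
    have h2 : ((t : ℝ) + 1) * ((1 - θ) * ∑ i, μ i * Ψ i i) ≤ (t + 1) * (M ^ 2 * θ * D) :=
      mul_le_mul_of_nonneg_left hterm (by positivity)
    have h3 : ((t : ℝ) + 1) * ((1 - θ) * ∑ i, μ i * Ψ i i) = ∑ i, μ i * Ψ i i := by
      rw [← mul_assoc, mul_comm ((t : ℝ) + 1), hθe, one_mul]
    have h4 : ((t : ℝ) + 1) * (M ^ 2 * θ * D) = M ^ 2 * t * D := by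
      rw [hθ]; field_simp
    rw [h3, h4] at h2
    exact h2
  have s5 : (3 * (t : ℝ) + 1) * E ≤ 81 / 4 * (M ^ 2 * t * D) := by
    have h2 : E ≤ 27 / 4 * (M ^ 2 * θ * D) := by linarith
    have h3 : (3 * (t : ℝ) + 1) * θ ≤ 3 * t := by
      rw [hθ, mul_div_assoc', div_le_iff₀ (by positivity)]
      nlinarith
    calc (3 * (t : ℝ) + 1) * E ≤ (3 * (t : ℝ) + 1) * (27 / 4 * (M ^ 2 * θ * D)) :=
          mul_le_mul_of_nonneg_left h2 (by positivity)
      _ = ((3 * (t : ℝ) + 1) * θ) * (27 / 4 * (M ^ 2 * D)) := by ring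
      _ ≤ (3 * t) * (27 / 4 * (M ^ 2 * D)) :=
          mul_le_mul_of_nonneg_right h3 (by positivity)
      _ = _ := by ring
  have s6 : 0 ≤ M ^ 2 * t * D := by positivity
  have s7 : V2 + t * (2 * E) ≤ (3 * (t : ℝ) + 1) * E := by linarith
  have s8 : (40 * M) ^ 2 * t * D = 1600 * (M ^ 2 * t * D) := by ring
  rw [s8]
  linarith


/-- Every metric space has Markov type 2 (bound on mean squared displacement of reversible stationary finite Markov chains after t steps) iff it has maximal Markov type 2 (same bound for the mean of the maximal squared displacement up to time t). -/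
theorem result :
    ∀ (X : Type) [MetricSpace X],
      (∃ M : ℝ, ∀ (n : ℕ) (μ : Fin n → ℝ) (A : Matrix (Fin n) (Fin n) ℝ),
        (∀ i, 0 ≤ μ i) → (∑ i, μ i = 1) → (∀ i j, 0 ≤ A i j) → (∀ i, ∑ j, A i j = 1) →
        (∀ i j, μ i * A i j = μ j * A j i) →
        ∀ (f : Fin n → X) (t : ℕ),
          ∑ i, ∑ j, μ i * (A ^ t) i j * dist (f i) (f j) ^ 2 ≤
            M ^ 2 * (t : ℝ) * ∑ i, ∑ j, μ i * A i j * dist (f i) (f j) ^ 2)
      ↔
      (∃ M : ℝ, ∀ (n : ℕ) (μ : Fin n → ℝ) (A : Matrix (Fin n) (Fin n) ℝ),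
        (∀ i, 0 ≤ μ i) → (∑ i, μ i = 1) → (∀ i j, 0 ≤ A i j) → (∀ i, ∑ j, A i j = 1) →
        (∀ i j, μ i * A i j = μ j * A j i) →
        ∀ (f : Fin n → X) (t : ℕ),
          ∑ w : Fin (t + 1) → Fin n,
              μ (w 0) * (∏ k : Fin t, A (w k.castSucc) (w k.succ)) *
                (⨆ s : Fin (t + 1), dist (f (w s)) (f (w 0)) ^ 2) ≤
            M ^ 2 * (t : ℝ) * ∑ i, ∑ j, μ i * A i j * dist (f i) (f j) ^ 2) := by
  intro X _
  constructor
  · rintro ⟨M, hM⟩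
    refine ⟨40 * M, fun n μ A hμ0 hμ1 hA0 hA1 hrev f t => ?_⟩
    have hMT : MT (fun i j : Fin n => dist (f i) (f j)) M :=
      fun μ' A' h1 h2 h3 h4 h5 t' => hM n μ' A' h1 h2 h3 h4 h5 f t'
    rcases Nat.eq_zero_or_pos t with rfl | ht
    · have h : EE μ A 0 (fun w => ⨆ s : Fin (0 + 1), dist (f (w s)) (f (w 0)) ^ 2) ≤
          EE μ A 0 (fun _ => (0 : ℝ) * 0) := by
        refine EE_mono hμ0 hA0 0 fun w => ?_
        refine ciSup_le fun s => ?_
        have hs : s = 0 := Fin.ext (by have := s.isLt; simp only [Fin.val_zero]; omega)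
        rw [hs, dist_self]; norm_num
      rw [EE_smul, zero_mul] at h
      simpa [EE] using h
    · exact main_ineq (d := fun i j : Fin n => dist (f i) (f j)) (fun i => dist_self _)
        (fun i j => dist_nonneg) (fun i j => dist_comm _ _) (fun i j k => dist_triangle _ _ _)
        hMT hμ0 hμ1 hA0 hA1 hrev t ht
        (fun w => ⨆ s : Fin (t + 1), dist (f (w s)) (f (w 0)) ^ 2)
        (fun w c hc => ciSup_le fun s => by rw [dist_comm]; exact hc s)
  · rintro ⟨M, hM⟩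
    refine ⟨M, fun n μ A hμ0 hμ1 hA0 hA1 hrev f t => ?_⟩
    refine le_trans ?_ (hM n μ A hμ0 hμ1 hA0 hA1 hrev f t)
    have h1 := EE_pow μ A t (fun i j => dist (f i) (f j) ^ 2)
    rw [← h1]
    refine EE_mono hμ0 hA0 t fun w => ?_
    rw [dist_comm]
    exact le_ciSup (f := fun s : Fin (t + 1) => dist (f (w s)) (f (w 0)) ^ 2)
      (Set.finite_range _).bddAbove (Fin.last t)

end Pool.Agent.S06473
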