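import Pool.Statements.S06722
import Pool.Agent.PHarm.Main

set_option autoImplicit false
open scoped ContDiff Topology
open Pool Pool.MP_f4f698_an

namespace Pool.Agent.S06722

/-- The negation of the preceding statement: For n≥3 and 1<p<∞, every (C¹ weak) p-harmonic u on an open set satisfies, at each point, u(x) = α/2(max+min of u on the ε-ball) + β·(ball average) + o(ε²), with α=(p−2)/(p+n), β=(n+2)/(p+n). -/
theorem result :
    ¬ (∀ n : ℕ, 3 ≤ n → ∀ p : ℝ, 1 < p →
    ∀ Ω : Set (EuclideanSpace ℝ (Fin n)), IsOpen Ω →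
    ∀ u : EuclideanSpace ℝ (Fin n) → ℝ, ContDiffOn ℝ 1 u Ω →
    (∀ φ : EuclideanSpace ℝ (Fin n) → ℝ, ContDiff ℝ ∞ φ → HasCompactSupport φ →
        tsupport φ ⊆ Ω →
        ∫ y, ‖gradient u y‖ ^ (p - 2) * inner ℝ (gradient u y) (gradient φ y) = 0) →
    ∀ x ∈ Ω,
      (fun ε : ℝ => u x -
          ((p - 2) / (2 * (p + (n : ℝ))) *
              (sSup (u '' Metric.closedBall x ε) + sInf (u '' Metric.closedBall x ε)) +
            ((n : ℝ) + 2) / (p + (n : ℝ)) * ⨍ y in Metric.ball x ε, u y))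
        =o[𝓝[>] (0 : ℝ)] (fun ε : ℝ => ε ^ 2)) := by
  intro H
  apply Pool.Agent.PHarm.main
  intro p hp u hu hw
  exact H 3 le_rfl p hp Set.univ isOpen_univ u hu.contDiffOn
    (fun φ hφ hc _ => hw φ (hφ.of_le (by exact_mod_cast le_top)) hc) 0 (Set.mem_univ _)

end Pool.Agent.S06722
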