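import Pool.Statements.S07077
import Pool.Agent.SemiHex.Graph

set_option autoImplicit false
open Pool Pool.MP_09d438_co

namespace Pool.Agent.S07077

/-- There is n ≥ 3 and a generalized n-gon (incidence graph of diameter n and girth 2n) in which every line has finitely many but at least 3 points and every point lies on infinitely many lines. -/
theorem result :
    ∃ (n : ℕ) (P L : Type) (I : P → L → Prop),
      3 ≤ n ∧
      (SimpleGraph.fromRel
          (fun x y : P ⊕ L => ∃ p l, x = Sum.inl p ∧ y = Sum.inr l ∧ I p l)).ediam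
        = (n : ℕ∞) ∧
      (SimpleGraph.fromRel
          (fun x y : P ⊕ L => ∃ p l, x = Sum.inl p ∧ y = Sum.inr l ∧ I p l)).egirth
        = ((2 * n : ℕ) : ℕ∞) ∧
      (∀ l : L, {p : P | I p l}.Finite ∧ 3 ≤ Set.ncard {p : P | I p l}) ∧
      (∀ p : P, {l : L | I p l}.Infinite) := by
  obtain ⟨P, L, I, h1, h2, h3, h4⟩ := Pool.Agent.SemiHex.exists_hexagon
  refine ⟨6, P, L, I, by norm_num, h1, h2, fun l => ⟨(h3 l).1, ?_⟩, h4⟩
  rw [(h3 l).2]
  norm_num

end Pool.Agent.S07077
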