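import Pool.Statements.S07383
import Pool.Agent.H30.Thk.Final

set_option autoImplicit false
open Pool Pool.MP_17fbe7_co

namespace Pool.Agent.S07383

/-- For odd r ≤ s with some k, (r+5)/4 ≤ k ≤ (r-3)/2 and s = floor(2k(r-2)/(r-2k)), the least number of plane-drawable graphs whose union is K_{r,s} equals ceil(rs/(2(r+s-2))). -/
theorem result :
  ∀ r s : ℕ, r ≤ s → Odd r → Odd s →
    (∃ k : ℕ, r + 5 ≤ 4 * k ∧ 2 * k + 3 ≤ r ∧ s = (2 * k * (r - 2)) / (r - 2 * k)) →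
    sInf {m : ℕ | ∃ H : Fin m → SimpleGraph (Fin r ⊕ Fin s),
      (∀ i, ∃ p : Fin r ⊕ Fin s → ℝ × ℝ, Function.Injective p ∧
        ∃ γ : Fin r ⊕ Fin s → Fin r ⊕ Fin s → unitInterval → ℝ × ℝ,
          (∀ u v, (H i).Adj u v → Continuous (γ u v) ∧ Function.Injective (γ u v) ∧
            γ u v 0 = p u ∧ γ u v 1 = p v ∧
            ∀ t : unitInterval, t ≠ 0 → t ≠ 1 → ∀ w, γ u v t ≠ p w) ∧
          (∀ u v u' v', (H i).Adj u v → (H i).Adj u' v' →
            ∀ t t' : unitInterval, t ≠ 0 → t ≠ 1 → t' ≠ 0 → t' ≠ 1 →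
              γ u v t = γ u' v' t' → (u = u' ∧ v = v') ∨ (u = v' ∧ v = u'))) ∧
      (⨆ i, H i) = completeBipartiteGraph (Fin r) (Fin s)}
    = ⌈((r : ℚ) * s / (2 * ((r : ℚ) + s - 2)))⌉₊ := by
  intro r s hrs hr hs ⟨k, hk1, hk2, hk3⟩
  obtain ⟨a, ha⟩ : ∃ a, r = 2 * k + a := ⟨r - 2 * k, by omega⟩
  subst ha
  have hra : 2 * k + a - 2 * k = a := by omega
  rw [hra] at hk3
  have ha3 : 3 ≤ a := by omega
  have ha5 : a + 5 ≤ 2 * k := by omega
  -- `a s ≤ 2k(r-2) < a (s+1)`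
  have h1 : s * a ≤ 2 * k * (2 * k + a - 2) := by
    rw [hk3]; exact Nat.div_mul_le_self _ _
  have h2 : 2 * k * (2 * k + a - 2) < (s + 1) * a := by
    rw [hk3]
    have := Nat.lt_div_mul_add (a := 2 * k * (2 * k + a - 2)) (by omega : 0 < a)
    calc _ < _ := this
      _ = _ := by ring
  obtain ⟨p, hp⟩ : ∃ p, 2 * k = a + 5 + p := ⟨2 * k - (a + 5), by omega⟩
  have h3 : 2 * k * (2 * k + a - 2) = 2 * k * (2 * k - 2) + 2 * k * a := by
    rw [← Nat.mul_add]; congr 1; omega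
  have hs2 : 2 * k ≤ s := by
    by_contra hcon
    push Not at hcon
    have h4 : (s + 1) * a ≤ 2 * k * a := Nat.mul_le_mul_right _ hcon
    omega
  obtain ⟨u, hu⟩ : ∃ u, s = 2 * k + u := ⟨s - 2 * k, by omega⟩
  subst hu
  have h5 : u * a ≤ 2 * k * (2 * k - 2) := by
    have : (2 * k + u) * a = 2 * k * a + u * a := by ring
    omega
  have h6 : 2 * k * (2 * k - 2) < (u + 1) * a := by
    have : (2 * k + u + 1) * a = 2 * k * a + (u + 1) * a := by ring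
    omega
  obtain ⟨α, hα⟩ : ∃ α, a = 2 * α + 1 := by
    obtain ⟨m, hm⟩ := hr
    exact ⟨m - k, by omega⟩
  obtain ⟨β, hβ⟩ : ∃ β, u = 2 * β + 1 := by
    obtain ⟨m, hm⟩ := hs
    exact ⟨m - k, by omega⟩
  subst hα
  subst hβ
  obtain ⟨K, rfl⟩ : ∃ K, k = K + 1 := ⟨k - 1, by omega⟩
  have e1 : 2 * (K + 1) * (2 * (K + 1) - 2) = 4 * (K * K) + 4 * K := by
    have : 2 * (K + 1) - 2 = 2 * K := by omega
    rw [this]; ring
  have e2 : (2 * β + 1) * (2 * α + 1) = 4 * (α * β) + 2 * α + 2 * β + 1 := by ring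
  have e3 : (2 * β + 1 + 1) * (2 * α + 1) = 4 * (α * β) + 4 * α + 2 * β + 2 := by ring
  rw [e1, e2] at h5
  rw [e1, e3] at h6
  have hβk : K + 1 + 1 ≤ β := by
    by_contra hcon
    push Not at hcon
    have h7 : α * β ≤ (K - 2) * (K + 1) := Nat.mul_le_mul (by omega) (by omega)
    obtain ⟨q, rfl⟩ : ∃ q, K = q + 2 := ⟨K - 2, by omega⟩
    simp only [Nat.add_sub_cancel] at h7
    nlinarith
  obtain ⟨D⟩ := Pool.Agent.H30.Thk.exists_dat (k := K + 1) (α := α) (β := β) (by omega) (by omega)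
    (by omega) (by
      have : (K + 1) * (K + 1 - 1) = K * K + K := by
        simp only [Nat.add_sub_cancel]; ring
      omega)
  obtain ⟨H, hH1, hH2⟩ := Pool.Agent.H30.Thk.exists_decomposition D
  have hB : ⌈((((2 * (K + 1) + (2 * α + 1) : ℕ) : ℚ)) * ((2 * (K + 1) + (2 * β + 1) : ℕ) : ℚ) /
      (2 * ((((2 * (K + 1) + (2 * α + 1) : ℕ) : ℚ)) + ((2 * (K + 1) + (2 * β + 1) : ℕ) : ℚ) - 2)))⌉₊
      = K + 1 := by
    have h5' : 4 * ((α : ℚ) * β) + 2 * α + 2 * β + 1 ≤ 4 * (K * K) + 4 * K := by exact_mod_cast h5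
    have h6' : 4 * ((K : ℚ) * K) + 4 * K < 4 * (α * β) + 4 * α + 2 * β + 2 := by exact_mod_cast h6
    have hα0 : (0 : ℚ) ≤ α := by positivity
    have hβ0 : (0 : ℚ) ≤ β := by positivity
    have hK0 : (0 : ℚ) ≤ K := by positivity
    rw [Nat.ceil_eq_iff (by omega)]
    have hpos : (0 : ℚ) < 2 * ((((2 * (K + 1) + (2 * α + 1) : ℕ) : ℚ)) +
        ((2 * (K + 1) + (2 * β + 1) : ℕ) : ℚ) - 2) := by
      push_cast
      linarith
    constructor
    · rw [lt_div_iff₀ hpos]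
      simp only [Nat.add_sub_cancel]
      push_cast
      nlinarith
    · rw [div_le_iff₀ hpos]
      push_cast
      nlinarith
  rw [hB]
  apply le_antisymm
  · apply Nat.sInf_le
    exact ⟨H, hH1, hH2⟩
  · apply le_csInf
    · exact ⟨K + 1, H, hH1, hH2⟩
    · rintro m ⟨H', hH1', hH2'⟩
      have h8 := Pool.Agent.H30.Thk.union_bound H' hH1' hH2'
      by_contra hcon
      push Not at hcon
      have h9 : m * (2 * (2 * (K + 1) + (2 * α + 1) + (2 * (K + 1) + (2 * β + 1)))) ≤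
          K * (2 * (2 * (K + 1) + (2 * α + 1) + (2 * (K + 1) + (2 * β + 1)))) :=
        Nat.mul_le_mul_right _ (by omega)
      nlinarith

end Pool.Agent.S07383
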