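import Pool.Statements.S07641

set_option autoImplicit false
open Pool Pool.MP_229fa6_co

namespace Pool.Agent.S07641

/-- `step s t u u'`: delete position `s` on the source side and position `t` on the target side;
the order isomorphism of what is left sends source position `u` to target position `u'`. -/
def step (s t u u' : ℕ) : Prop :=
  (u < s ∧ u' < t ∧ u' = u) ∨ (u < s ∧ t < u' ∧ u' = u + 1) ∨
  (s < u ∧ u' < t ∧ u = u' + 1) ∨ (s < u ∧ t < u' ∧ u' = u)

section
variable {n : ℕ} (σ τ : Equiv.Perm (Fin n))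

/-- there is a point with source position `s` and target position `t`. -/
def G (s t : ℕ) : Prop := ∃ z : Fin n, (σ z : ℕ) = s ∧ (τ z : ℕ) = t

/-- States reachable from the source-side pair `(P, Q)`; the flag tells the side
(`false` = source side, `true` = target side). -/
inductive Conn (P Q : ℕ) : Bool → ℕ → ℕ → Prop
  | refl : Conn P Q false P Q
  | fwd {u v u' v' : ℕ} (z : Fin n) : Conn P Q false u v →
      step (σ z) (τ z) u u' → step (σ z) (τ z) v v' → Conn P Q true u' v'
  | bwd {u v u' v' : ℕ} (z : Fin n) : Conn P Q true u' v' →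
      step (σ z) (τ z) u u' → step (σ z) (τ z) v v' → Conn P Q false u v

variable {σ τ}

lemma Conn.f {P Q u v s t : ℕ} (u' v' : ℕ) (hc : Conn σ τ P Q false u v) (hG : G σ τ s t)
    (h1 : step s t u u') (h2 : step s t v v') : Conn σ τ P Q true u' v' := by
  obtain ⟨z, rfl, rfl⟩ := hG
  exact Conn.fwd z hc h1 h2

lemma Conn.b {P Q u' v' s t : ℕ} (u v : ℕ) (hc : Conn σ τ P Q true u' v') (hG : G σ τ s t)
    (h1 : step s t u u') (h2 : step s t v v') : Conn σ τ P Q false u v := by
  obtain ⟨z, rfl, rfl⟩ := hG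
  exact Conn.bwd z hc h1 h2

lemma exists_G_left (s : ℕ) (hs : s < n) : ∃ t, t < n ∧ G σ τ s t :=
  ⟨τ (σ.symm ⟨s, hs⟩), (τ (σ.symm ⟨s, hs⟩)).2, σ.symm ⟨s, hs⟩, by simp, rfl⟩

lemma exists_G_right (t : ℕ) (ht : t < n) : ∃ s, s < n ∧ G σ τ s t :=
  ⟨σ (τ.symm ⟨t, ht⟩), (σ (τ.symm ⟨t, ht⟩)).2, τ.symm ⟨t, ht⟩, rfl, by simp⟩

/-- The four coarse regions determined by `P < Q`: far left, far middle, far right, near. -/
def cls (P Q a : ℕ) : ℕ :=
  if a + 4 ≤ P then 0 else if P + 4 ≤ a ∧ a + 4 ≤ Q then 1 else if Q + 4 ≤ a then 2 else 3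

lemma cls_lt (P Q a : ℕ) : cls P Q a < 4 := by
  unfold cls; split_ifs <;> omega

/-- number of points whose source class is `i` and target class is `j`. -/
def cnt (σ τ : Equiv.Perm (Fin n)) (P Q i j : ℕ) : ℕ :=
  (Finset.univ.filter (fun z : Fin n => cls P Q (σ z) = i ∧ cls P Q (τ z) = j)).card

lemma cnt_row (P Q i : ℕ) :
    cnt σ τ P Q i 0 + cnt σ τ P Q i 1 + cnt σ τ P Q i 2 + cnt σ τ P Q i 3
      = (Finset.univ.filter (fun a : Fin n => cls P Q a = i)).card := by
  have h1 : (Finset.univ.filter (fun a : Fin n => cls P Q a = i)).card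
      = (Finset.univ.filter (fun z : Fin n => cls P Q (σ z) = i)).card := by
    symm
    apply Finset.card_bij (fun z _ => σ z)
    · intro a ha; simpa using ha
    · intro a _ b _ h; exact σ.injective h
    · intro b hb; exact ⟨σ.symm b, by simpa using hb, by simp⟩
  rw [h1]
  have h2 := Finset.card_eq_sum_card_fiberwise (s := Finset.univ.filter (fun z : Fin n => cls P Q (σ z) = i))
    (t := Finset.range 4) (f := fun z => cls P Q (τ z)) (by
      intro z _; simpa using cls_lt P Q (τ z))
  rw [h2]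
  simp only [Finset.sum_range_succ, Finset.sum_range_zero, zero_add, Finset.filter_filter, cnt]

lemma cnt_col (P Q j : ℕ) :
    cnt σ τ P Q 0 j + cnt σ τ P Q 1 j + cnt σ τ P Q 2 j + cnt σ τ P Q 3 j
      = (Finset.univ.filter (fun a : Fin n => cls P Q a = j)).card := by
  have h := cnt_row (σ := τ) (τ := σ) P Q j
  have hs : ∀ i, cnt τ σ P Q j i = cnt σ τ P Q i j := by
    intro i; unfold cnt; congr 1; ext z; simp [and_comm]
  simpa [hs] using h

lemma cls_total (P Q : ℕ) :
    (Finset.univ.filter (fun a : Fin n => cls P Q a = 0)).card +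
    (Finset.univ.filter (fun a : Fin n => cls P Q a = 1)).card +
    (Finset.univ.filter (fun a : Fin n => cls P Q a = 2)).card +
    (Finset.univ.filter (fun a : Fin n => cls P Q a = 3)).card = n := by
  have h2 := Finset.card_eq_sum_card_fiberwise (s := (Finset.univ : Finset (Fin n)))
    (t := Finset.range 4) (f := fun z : Fin n => cls P Q z) (by
      intro z _; simpa using cls_lt P Q z)
  simp only [Finset.sum_range_succ, Finset.sum_range_zero, zero_add, Finset.card_univ,
    Fintype.card_fin] at h2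
  omega

lemma cls_near (P Q : ℕ) :
    (Finset.univ.filter (fun a : Fin n => cls P Q a = 3)).card ≤ 14 := by
  have h1 : (Finset.univ.filter (fun a : Fin n => cls P Q a = 3)).card
      ≤ ((Finset.Ico (P - 3) (P + 4)) ∪ (Finset.Ico (Q - 3) (Q + 4))).card := by
    apply Finset.card_le_card_of_injOn (fun a : Fin n => (a : ℕ))
    · intro a ha
      simp only [Finset.coe_filter, Finset.mem_univ, true_and, Set.mem_ofPred_eq] at ha
      simp only [Finset.coe_union, Finset.coe_Ico, Set.mem_union, Set.mem_Ico]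
      unfold cls at ha
      split_ifs at ha <;> omega
    · intro a _ b _ h; exact Fin.ext h
  have h2 := Finset.card_union_le (Finset.Ico (P - 3) (P + 4)) (Finset.Ico (Q - 3) (Q + 4))
  simp only [Nat.card_Ico] at h2
  omega

lemma cnt_ne_zero {P Q i j : ℕ} (h : cnt σ τ P Q i j ≠ 0) :
    ∃ s t, G σ τ s t ∧ cls P Q s = i ∧ cls P Q t = j ∧ s < n ∧ t < n := by
  unfold cnt at h
  obtain ⟨z, hz⟩ := Finset.card_ne_zero.mp h
  simp only [Finset.mem_filter, Finset.mem_univ, true_and] at hz
  exact ⟨σ z, τ z, ⟨z, rfl, rfl⟩, hz.1, hz.2, (σ z).2, (τ z).2⟩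

lemma cls_eq0 {P Q a : ℕ} (h : cls P Q a = 0) : a + 4 ≤ P := by
  unfold cls at h; split_ifs at h <;> omega
lemma cls_eq1 {P Q a : ℕ} (h : cls P Q a = 1) : P + 4 ≤ a ∧ a + 4 ≤ Q := by
  unfold cls at h; split_ifs at h <;> omega
lemma cls_eq2 {P Q a : ℕ} (h : cls P Q a = 2) : Q + 4 ≤ a := by
  unfold cls at h; split_ifs at h <;> omega

/-- a point that lets both `P` and `Q` stay. -/
lemma done0 {P Q s t : ℕ} (hPQ : P < Q) (hG : G σ τ s t)
    (h : (s < P ∧ t < P) ∨ (P < s ∧ P < t ∧ s < Q ∧ t < Q) ∨ (Q < s ∧ Q < t)) :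
    Conn σ τ P Q true P Q := by
  exact (Conn.refl).f P Q hG (by unfold step; omega) (by unfold step; omega)

/-- Case left/middle both ways. -/
lemma case_LM_ML {P Q a b c d : ℕ} (hQ : Q < n)
    (h1 : G σ τ a b) (ha : a + 4 ≤ P) (hb : P + 4 ≤ b ∧ b + 4 ≤ Q)
    (h2 : G σ τ c d) (hd : d + 4 ≤ P) (hc : P + 4 ≤ c ∧ c + 4 ≤ Q) :
    Conn σ τ P Q true P Q := by
  obtain ⟨t, ht, hG⟩ := exists_G_left (σ := σ) (τ := τ) P (by omega)
  rcases (by omega : t ≤ P ∨ (P < t ∧ t < Q) ∨ Q ≤ t) with h | h | h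
  · have c0 : Conn σ τ P Q false P Q := Conn.refl
    have c1 := c0.f (P + 1) (Q) h2 (by unfold step; omega) (by unfold step; omega)
    have c2 := c1.b (P + 1) (Q) hG (by unfold step; omega) (by unfold step; omega)
    have c3 := c2.f (P) (Q) h1 (by unfold step; omega) (by unfold step; omega)
    exact c3
  · have c0 : Conn σ τ P Q false P Q := Conn.refl
    have c1 := c0.f (P - 1) (Q) h1 (by unfold step; omega) (by unfold step; omega)
    have c2 := c1.b (P - 1) (Q) hG (by unfold step; omega) (by unfold step; omega)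
    have c3 := c2.f (P) (Q) h2 (by unfold step; omega) (by unfold step; omega)
    exact c3
  · have c0 : Conn σ τ P Q false P Q := Conn.refl
    have c1 := c0.f (P + 1) (Q) h2 (by unfold step; omega) (by unfold step; omega)
    have c2 := c1.b (P + 2) (Q) h1 (by unfold step; omega) (by unfold step; omega)
    have c3 := c2.f (P + 1) (Q - 1) hG (by unfold step; omega) (by unfold step; omega)
    have c4 := c3.b (P) (Q - 1) h2 (by unfold step; omega) (by unfold step; omega)
    have c5 := c4.f (P - 1) (Q - 1) h1 (by unfold step; omega) (by unfold step; omega)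
    have c6 := c5.b (P - 1) (Q) hG (by unfold step; omega) (by unfold step; omega)
    have c7 := c6.f (P) (Q) h2 (by unfold step; omega) (by unfold step; omega)
    exact c7

/-- Case middle/right both ways. -/
lemma case_MR_RM {P Q a b c d : ℕ} (hQ : Q < n)
    (h1 : G σ τ a b) (ha : P + 4 ≤ a ∧ a + 4 ≤ Q) (hb : Q + 4 ≤ b)
    (h2 : G σ τ c d) (hc : Q + 4 ≤ c) (hd : P + 4 ≤ d ∧ d + 4 ≤ Q) :
    Conn σ τ P Q true P Q := by
  obtain ⟨t, ht, hG⟩ := exists_G_left (σ := σ) (τ := τ) Q hQ
  rcases (by omega : t ≤ P ∨ (P < t ∧ t < Q) ∨ Q ≤ t) with h | h | h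
  · have c0 : Conn σ τ P Q false P Q := Conn.refl
    have c1 := c0.f (P) (Q - 1) h1 (by unfold step; omega) (by unfold step; omega)
    have c2 := c1.b (P) (Q - 2) h2 (by unfold step; omega) (by unfold step; omega)
    have c3 := c2.f (P + 1) (Q - 1) hG (by unfold step; omega) (by unfold step; omega)
    have c4 := c3.b (P + 1) (Q) h1 (by unfold step; omega) (by unfold step; omega)
    have c5 := c4.f (P + 1) (Q + 1) h2 (by unfold step; omega) (by unfold step; omega)
    have c6 := c5.b (P) (Q + 1) hG (by unfold step; omega) (by unfold step; omega)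
    have c7 := c6.f (P) (Q) h1 (by unfold step; omega) (by unfold step; omega)
    exact c7
  · have c0 : Conn σ τ P Q false P Q := Conn.refl
    have c1 := c0.f (P) (Q + 1) h2 (by unfold step; omega) (by unfold step; omega)
    have c2 := c1.b (P) (Q + 1) hG (by unfold step; omega) (by unfold step; omega)
    have c3 := c2.f (P) (Q) h1 (by unfold step; omega) (by unfold step; omega)
    exact c3
  · have c0 : Conn σ τ P Q false P Q := Conn.refl
    have c1 := c0.f (P) (Q - 1) h1 (by unfold step; omega) (by unfold step; omega)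
    have c2 := c1.b (P) (Q - 1) hG (by unfold step; omega) (by unfold step; omega)
    have c3 := c2.f (P) (Q) h2 (by unfold step; omega) (by unfold step; omega)
    exact c3

/-- Case left/right both ways. -/
lemma case_LR_RL {P Q a b c d : ℕ} (hPQ : P < Q) (hQ : Q < n)
    (h1 : G σ τ a b) (ha : a + 4 ≤ P) (hb : Q + 4 ≤ b)
    (h2 : G σ τ c d) (hc : Q + 4 ≤ c) (hd : d + 4 ≤ P) :
    Conn σ τ P Q true P Q := by
  obtain ⟨t, ht, hG⟩ := exists_G_left (σ := σ) (τ := τ) P (by omega)
  obtain ⟨s, hs, hG'⟩ := exists_G_right (σ := σ) (τ := τ) Q hQ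
  rcases (by omega : t ≤ P ∨ (P < t ∧ t + 2 ≤ Q) ∨
    ((P < t ∧ Q ≤ t + 1) ∧ (Q ≤ s ∨ (P + 2 ≤ s ∧ s < Q) ∨ (s ≤ P + 1 ∧ s < Q ∧ P + 2 ≤ Q) ∨
      (s ≤ P + 1 ∧ s < Q ∧ Q = P + 1)))) with h | h | ⟨h, h' | h' | h' | h'⟩
  · have c0 : Conn σ τ P Q false P Q := Conn.refl
    have c1 := c0.f (P + 1) (Q + 1) h2 (by unfold step; omega) (by unfold step; omega)
    have c2 := c1.b (P + 1) (Q + 1) hG (by unfold step; omega) (by unfold step; omega)
    have c3 := c2.f (P) (Q) h1 (by unfold step; omega) (by unfold step; omega)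
    exact c3
  · have c0 : Conn σ τ P Q false P Q := Conn.refl
    have c1 := c0.f (P - 1) (Q - 1) h1 (by unfold step; omega) (by unfold step; omega)
    have c2 := c1.b (P - 1) (Q - 1) hG (by unfold step; omega) (by unfold step; omega)
    have c3 := c2.f (P) (Q) h2 (by unfold step; omega) (by unfold step; omega)
    exact c3
  · have c0 : Conn σ τ P Q false P Q := Conn.refl
    have c1 := c0.f (P - 1) (Q - 1) h1 (by unfold step; omega) (by unfold step; omega)
    have c2 := c1.b (P - 1) (Q - 1) hG' (by unfold step; omega) (by unfold step; omega)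
    have c3 := c2.f (P) (Q) h2 (by unfold step; omega) (by unfold step; omega)
    exact c3
  · have c0 : Conn σ τ P Q false P Q := Conn.refl
    have c1 := c0.f (P + 1) (Q + 1) h2 (by unfold step; omega) (by unfold step; omega)
    have c2 := c1.b (P + 1) (Q + 1) hG' (by unfold step; omega) (by unfold step; omega)
    have c3 := c2.f (P) (Q) h1 (by unfold step; omega) (by unfold step; omega)
    exact c3
  · have c0 : Conn σ τ P Q false P Q := Conn.refl
    have c1 := c0.f (P + 1) (Q + 1) h2 (by unfold step; omega) (by unfold step; omega)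
    have c2 := c1.b (P + 2) (Q + 2) h1 (by unfold step; omega) (by unfold step; omega)
    have c3 := c2.f (P + 1) (Q + 2) hG' (by unfold step; omega) (by unfold step; omega)
    have c4 := c3.b (P) (Q + 1) h2 (by unfold step; omega) (by unfold step; omega)
    have c5 := c4.f (P - 1) (Q) h1 (by unfold step; omega) (by unfold step; omega)
    have c6 := c5.b (P - 2) (Q - 1) h2 (by unfold step; omega) (by unfold step; omega)
    have c7 := c6.f (P - 2) (Q - 2) hG (by unfold step; omega) (by unfold step; omega)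
    have c8 := c7.b (P - 1) (Q - 1) h1 (by unfold step; omega) (by unfold step; omega)
    have c9 := c8.f (P) (Q) h2 (by unfold step; omega) (by unfold step; omega)
    exact c9
  · have c0 : Conn σ τ P Q false P Q := Conn.refl
    have c1 := c0.f (P - 1) (Q - 1) h1 (by unfold step; omega) (by unfold step; omega)
    have c2 := c1.b (P - 1) (Q) hG (by unfold step; omega) (by unfold step; omega)
    have c3 := c2.f (P) (Q + 1) h2 (by unfold step; omega) (by unfold step; omega)
    have c4 := c3.b (P + 1) (Q + 1) hG' (by unfold step; omega) (by unfold step; omega)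
    have c5 := c4.f (P) (Q) h1 (by unfold step; omega) (by unfold step; omega)
    exact c5

/-- Three-cycle left, middle, right, left. -/
lemma case_LM_MR_RL {P Q a b c d e f : ℕ} (hPQ : P < Q) (hQ : Q < n)
    (h1 : G σ τ a b) (ha : a + 4 ≤ P) (hb : P + 4 ≤ b ∧ b + 4 ≤ Q)
    (h2 : G σ τ c d) (hc : P + 4 ≤ c ∧ c + 4 ≤ Q) (hd : Q + 4 ≤ d)
    (h3 : G σ τ e f) (he : Q + 4 ≤ e) (hf : f + 4 ≤ P) :
    Conn σ τ P Q true P Q := by
  obtain ⟨t, ht, hG⟩ := exists_G_left (σ := σ) (τ := τ) P (by omega)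
  rcases (by omega : t ≤ P ∨ (P < t ∧ t ≤ Q) ∨ Q < t) with h | h | h
  · have c0 : Conn σ τ P Q false P Q := Conn.refl
    have c1 := c0.f (P) (Q - 1) h2 (by unfold step; omega) (by unfold step; omega)
    have c2 := c1.b (P + 1) (Q - 1) h1 (by unfold step; omega) (by unfold step; omega)
    have c3 := c2.f (P + 1) (Q - 1) hG (by unfold step; omega) (by unfold step; omega)
    have c4 := c3.b (P + 1) (Q) h2 (by unfold step; omega) (by unfold step; omega)
    have c5 := c4.f (P) (Q) h1 (by unfold step; omega) (by unfold step; omega)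
    exact c5
  · have c0 : Conn σ τ P Q false P Q := Conn.refl
    have c1 := c0.f (P - 1) (Q) h1 (by unfold step; omega) (by unfold step; omega)
    have c2 := c1.b (P - 1) (Q + 1) h2 (by unfold step; omega) (by unfold step; omega)
    have c3 := c2.f (P - 1) (Q + 1) hG (by unfold step; omega) (by unfold step; omega)
    have c4 := c3.b (P) (Q + 1) h1 (by unfold step; omega) (by unfold step; omega)
    have c5 := c4.f (P) (Q) h2 (by unfold step; omega) (by unfold step; omega)
    exact c5
  · have c0 : Conn σ τ P Q false P Q := Conn.refl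
    have c1 := c0.f (P) (Q - 1) h2 (by unfold step; omega) (by unfold step; omega)
    have c2 := c1.b (P + 1) (Q) hG (by unfold step; omega) (by unfold step; omega)
    have c3 := c2.f (P) (Q) h1 (by unfold step; omega) (by unfold step; omega)
    exact c3

/-- Three-cycle left, right, middle, left. -/
lemma case_LR_RM_ML {P Q a b c d e f : ℕ} (hPQ : P < Q) (hQ : Q < n)
    (h1 : G σ τ a b) (ha : a + 4 ≤ P) (hb : Q + 4 ≤ b)
    (h2 : G σ τ c d) (hc : Q + 4 ≤ c) (hd : P + 4 ≤ d ∧ d + 4 ≤ Q)
    (h3 : G σ τ e f) (he : P + 4 ≤ e ∧ e + 4 ≤ Q) (hf : f + 4 ≤ P) :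
    Conn σ τ P Q true P Q := by
  obtain ⟨t, ht, hG⟩ := exists_G_left (σ := σ) (τ := τ) P (by omega)
  rcases (by omega : t ≤ P ∨ (P < t ∧ t ≤ Q) ∨ Q < t) with h | h | h
  · have c0 : Conn σ τ P Q false P Q := Conn.refl
    have c1 := c0.f (P + 1) (Q) h3 (by unfold step; omega) (by unfold step; omega)
    have c2 := c1.b (P + 1) (Q - 1) h2 (by unfold step; omega) (by unfold step; omega)
    have c3 := c2.f (P + 1) (Q - 1) hG (by unfold step; omega) (by unfold step; omega)
    have c4 := c3.b (P) (Q - 1) h3 (by unfold step; omega) (by unfold step; omega)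
    have c5 := c4.f (P) (Q) h2 (by unfold step; omega) (by unfold step; omega)
    exact c5
  · have c0 : Conn σ τ P Q false P Q := Conn.refl
    have c1 := c0.f (P) (Q + 1) h2 (by unfold step; omega) (by unfold step; omega)
    have c2 := c1.b (P - 1) (Q + 1) h3 (by unfold step; omega) (by unfold step; omega)
    have c3 := c2.f (P - 1) (Q + 1) hG (by unfold step; omega) (by unfold step; omega)
    have c4 := c3.b (P - 1) (Q) h2 (by unfold step; omega) (by unfold step; omega)
    have c5 := c4.f (P) (Q) h3 (by unfold step; omega) (by unfold step; omega)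
    exact c5
  · have c0 : Conn σ τ P Q false P Q := Conn.refl
    have c1 := c0.f (P - 1) (Q - 1) h1 (by unfold step; omega) (by unfold step; omega)
    have c2 := c1.b (P - 1) (Q) hG (by unfold step; omega) (by unfold step; omega)
    have c3 := c2.f (P) (Q) h3 (by unfold step; omega) (by unfold step; omega)
    exact c3


/-- The combinatorial heart: the pair of positions `(P, Q)` on the source side is connected with the
same pair on the target side. -/
theorem conn_main {P Q : ℕ} (hn : 100 ≤ n) (hPQ : P < Q) (hQ : Q < n) : Conn σ τ P Q true P Q := by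
  by_contra hcon
  have key : ∀ i j, cnt σ τ P Q i j ≠ 0 →
      ∃ s t, G σ τ s t ∧ cls P Q s = i ∧ cls P Q t = j ∧ s < n ∧ t < n := fun i j h => cnt_ne_zero h
  have z00 : cnt σ τ P Q 0 0 = 0 := by
    by_contra h
    obtain ⟨s, t, hG, h1, h2, h3, h4⟩ := key _ _ h
    have := cls_eq0 h1; have := cls_eq0 h2
    exact hcon (done0 hPQ hG (by omega))
  have z11 : cnt σ τ P Q 1 1 = 0 := by
    by_contra h
    obtain ⟨s, t, hG, h1, h2, h3, h4⟩ := key _ _ h
    have := cls_eq1 h1; have := cls_eq1 h2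
    exact hcon (done0 hPQ hG (by omega))
  have z22 : cnt σ τ P Q 2 2 = 0 := by
    by_contra h
    obtain ⟨s, t, hG, h1, h2, h3, h4⟩ := key _ _ h
    have := cls_eq2 h1; have := cls_eq2 h2
    exact hcon (done0 hPQ hG (by omega))
  have c01 : cnt σ τ P Q 0 1 = 0 ∨ cnt σ τ P Q 1 0 = 0 := by
    by_contra h
    push Not at h
    obtain ⟨s, t, hG, h1, h2, h3, h4⟩ := key _ _ h.1
    obtain ⟨s', t', hG', h1', h2', h3', h4'⟩ := key _ _ h.2
    exact hcon (case_LM_ML hQ hG (cls_eq0 h1) (cls_eq1 h2) hG' (cls_eq0 h2') (cls_eq1 h1'))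
  have c12 : cnt σ τ P Q 1 2 = 0 ∨ cnt σ τ P Q 2 1 = 0 := by
    by_contra h
    push Not at h
    obtain ⟨s, t, hG, h1, h2, h3, h4⟩ := key _ _ h.1
    obtain ⟨s', t', hG', h1', h2', h3', h4'⟩ := key _ _ h.2
    exact hcon (case_MR_RM hQ hG (cls_eq1 h1) (cls_eq2 h2) hG' (cls_eq2 h1') (cls_eq1 h2'))
  have c02 : cnt σ τ P Q 0 2 = 0 ∨ cnt σ τ P Q 2 0 = 0 := by
    by_contra h
    push Not at h
    obtain ⟨s, t, hG, h1, h2, h3, h4⟩ := key _ _ h.1
    obtain ⟨s', t', hG', h1', h2', h3', h4'⟩ := key _ _ h.2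
    exact hcon (case_LR_RL hPQ hQ hG (cls_eq0 h1) (cls_eq2 h2) hG' (cls_eq2 h1') (cls_eq0 h2'))
  have c012 : cnt σ τ P Q 0 1 = 0 ∨ cnt σ τ P Q 1 2 = 0 ∨ cnt σ τ P Q 2 0 = 0 := by
    by_contra h
    push Not at h
    obtain ⟨s, t, hG, h1, h2, h3, h4⟩ := key _ _ h.1
    obtain ⟨s', t', hG', h1', h2', h3', h4'⟩ := key _ _ h.2.1
    obtain ⟨s'', t'', hG'', h1'', h2'', h3'', h4''⟩ := key _ _ h.2.2
    exact hcon (case_LM_MR_RL hPQ hQ hG (cls_eq0 h1) (cls_eq1 h2) hG' (cls_eq1 h1') (cls_eq2 h2')
      hG'' (cls_eq2 h1'') (cls_eq0 h2''))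
  have c021 : cnt σ τ P Q 0 2 = 0 ∨ cnt σ τ P Q 2 1 = 0 ∨ cnt σ τ P Q 1 0 = 0 := by
    by_contra h
    push Not at h
    obtain ⟨s, t, hG, h1, h2, h3, h4⟩ := key _ _ h.1
    obtain ⟨s', t', hG', h1', h2', h3', h4'⟩ := key _ _ h.2.1
    obtain ⟨s'', t'', hG'', h1'', h2'', h3'', h4''⟩ := key _ _ h.2.2
    exact hcon (case_LR_RM_ML hPQ hQ hG (cls_eq0 h1) (cls_eq2 h2) hG' (cls_eq2 h1') (cls_eq1 h2')
      hG'' (cls_eq1 h1'') (cls_eq0 h2''))
  have r0 := cnt_row (σ := σ) (τ := τ) P Q 0
  have r1 := cnt_row (σ := σ) (τ := τ) P Q 1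
  have r2 := cnt_row (σ := σ) (τ := τ) P Q 2
  have r3 := cnt_row (σ := σ) (τ := τ) P Q 3
  have k0 := cnt_col (σ := σ) (τ := τ) P Q 0
  have k1 := cnt_col (σ := σ) (τ := τ) P Q 1
  have k2 := cnt_col (σ := σ) (τ := τ) P Q 2
  have k3 := cnt_col (σ := σ) (τ := τ) P Q 3
  have tot := cls_total (n := n) P Q
  have near := cls_near (n := n) P Q
  omega

lemma card_below (a : Fin n) :
    (Finset.univ.filter (fun e : Fin n => σ e < σ a)).card = (σ a : ℕ) := by
  have : (Finset.univ.filter (fun e : Fin n => σ e < σ a)).card = (Finset.Iio (σ a)).card := by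
    apply Finset.card_bij (fun z _ => σ z)
    · intro e he; simpa using he
    · intro e _ e' _ h; exact σ.injective h
    · intro b hb; exact ⟨σ.symm b, by simpa using hb, by simp⟩
  rw [this, Fin.card_Iio]

lemma card_below_del (z a : Fin n) :
    (Finset.univ.filter (fun e : Fin n => e ≠ z ∧ σ e < σ a)).card
      = if σ z < σ a then (σ a : ℕ) - 1 else (σ a : ℕ) := by
  have h1 : Finset.univ.filter (fun e : Fin n => e ≠ z ∧ σ e < σ a)
      = (Finset.univ.filter (fun e : Fin n => σ e < σ a)).erase z := by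
    ext e; simp [Finset.mem_erase]
  rw [h1, Finset.card_erase_eq_ite, card_below]
  simp

lemma rel_iff (z a b : Fin n) :
    (a ≠ z ∧ b ≠ z ∧
        (Finset.univ.filter (fun e : Fin n => e ≠ z ∧ σ e < σ a)).card =
        (Finset.univ.filter (fun e : Fin n => e ≠ z ∧ τ e < τ b)).card) ↔
      step (σ z) (τ z) (σ a) (τ b) := by
  rw [card_below_del, card_below_del]
  have ha : a ≠ z ↔ (σ a : ℕ) ≠ (σ z : ℕ) := by
    rw [not_iff_not]
    exact ⟨fun h => by rw [h], fun h => σ.injective (Fin.ext h)⟩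
  have hb : b ≠ z ↔ (τ b : ℕ) ≠ (τ z : ℕ) := by
    rw [not_iff_not]
    exact ⟨fun h => by rw [h], fun h => τ.injective (Fin.ext h)⟩
  rw [ha, hb]
  simp only [Fin.lt_def]
  unfold step
  constructor
  · rintro ⟨h1, h2, h3⟩
    split_ifs at h3 <;> omega
  · intro h
    refine ⟨by omega, by omega, ?_⟩
    split_ifs <;> omega

/-- A reachable state gives an alternating walk of points. -/
lemma walk_of_conn (R : Fin n → Fin n → Fin n → Prop)
    (hR : ∀ z a b : Fin n, R z a b ↔ step (σ z) (τ z) (σ a) (τ b))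
    (x y : Fin n) {s : Bool} {u v : ℕ} (h : Conn σ τ (σ x) (σ y) s u v) :
    ∃ j : ℕ, ∃ w p q : ℕ → Fin n, p 0 = x ∧ q 0 = y ∧ (s = true ↔ Odd j) ∧
      (if s = true then (τ (p j) : ℕ) = u ∧ (τ (q j) : ℕ) = v
        else (σ (p j) : ℕ) = u ∧ (σ (q j) : ℕ) = v) ∧
      ∀ i < j, (Even i → R (w i) (p i) (p (i + 1)) ∧ R (w i) (q i) (q (i + 1))) ∧
        (Odd i → R (w i) (p (i + 1)) (p i) ∧ R (w i) (q (i + 1)) (q i)) := by
  induction h with
  | refl => exact ⟨0, fun _ => x, fun _ => x, fun _ => y, rfl, rfl, by simp, by simp, by simp⟩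
  | @fwd u v u' v' z hc h1 h2 ih =>
    obtain ⟨j, w, p, q, hp, hq, hpar, hend, hw⟩ := ih
    simp only [Bool.false_eq_true, false_iff, if_false] at hpar hend
    obtain ⟨hu, hv⟩ := hend
    have hu' : u' < n := by
      have h3 := (σ (p j)).2; have h4 := (τ z).2; have h5 := (σ z).2; unfold step at h1; omega
    have hv' : v' < n := by
      have h3 := (σ (q j)).2; have h4 := (τ z).2; have h5 := (σ z).2; unfold step at h2; omega
    have hje : Even j := Nat.not_odd_iff_even.mp hpar
    refine ⟨j + 1, Function.update w j z, Function.update p (j + 1) (τ.symm ⟨u', hu'⟩),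
      Function.update q (j + 1) (τ.symm ⟨v', hv'⟩), ?_, ?_, ?_, ?_, ?_⟩
    · rw [Function.update_of_ne (by omega)]; exact hp
    · rw [Function.update_of_ne (by omega)]; exact hq
    · simp only [true_iff]; exact hje.add_one
    · simp
    · intro i hi
      rcases Nat.lt_or_ge i j with hij | hij
      · rw [Function.update_of_ne (by omega), Function.update_of_ne (by omega),
          Function.update_of_ne (by omega), Function.update_of_ne (by omega),
          Function.update_of_ne (by omega)]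
        exact hw i hij
      · have : i = j := by omega
        subst this
        refine ⟨fun _ => ?_, fun ho => absurd ho hpar⟩
        rw [Function.update_self, Function.update_self, Function.update_self,
          Function.update_of_ne (by omega), Function.update_of_ne (by omega), hR, hR]
        simp only [Equiv.apply_symm_apply, hu, hv]
        exact ⟨h1, h2⟩
  | @bwd u v u' v' z hc h1 h2 ih =>
    obtain ⟨j, w, p, q, hp, hq, hpar, hend, hw⟩ := ih
    simp only [true_iff, if_true] at hpar hend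
    obtain ⟨hu, hv⟩ := hend
    have hu' : u < n := by
      have h3 := (τ (p j)).2; have h4 := (τ z).2; have h5 := (σ z).2; unfold step at h1; omega
    have hv' : v < n := by
      have h3 := (τ (q j)).2; have h4 := (τ z).2; have h5 := (σ z).2; unfold step at h2; omega
    have hje : ¬ Even j := Nat.not_even_iff_odd.mpr hpar
    refine ⟨j + 1, Function.update w j z, Function.update p (j + 1) (σ.symm ⟨u, hu'⟩),
      Function.update q (j + 1) (σ.symm ⟨v, hv'⟩), ?_, ?_, ?_, ?_, ?_⟩
    · rw [Function.update_of_ne (by omega)]; exact hp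
    · rw [Function.update_of_ne (by omega)]; exact hq
    · simp only [Bool.false_eq_true, false_iff]
      exact Nat.not_odd_iff_even.mpr hpar.add_one
    · simp
    · intro i hi
      rcases Nat.lt_or_ge i j with hij | hij
      · rw [Function.update_of_ne (by omega), Function.update_of_ne (by omega),
          Function.update_of_ne (by omega), Function.update_of_ne (by omega),
          Function.update_of_ne (by omega)]
        exact hw i hij
      · have : i = j := by omega
        subst this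
        refine ⟨fun he => absurd he hje, fun _ => ?_⟩
        rw [Function.update_self, Function.update_self, Function.update_self,
          Function.update_of_ne (by omega), Function.update_of_ne (by omega), hR, hR]
        simp only [Equiv.apply_symm_apply, hu, hv]
        exact ⟨h1, h2⟩

/-- The walk, when the position of `x` is smaller than the position of `y`. -/
lemma walk_lt (hn : 100 ≤ n) (R : Fin n → Fin n → Fin n → Prop)
    (hR : ∀ z a b : Fin n, R z a b ↔ step (σ z) (τ z) (σ a) (τ b))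
    (x y : Fin n) (hxy : (σ x : ℕ) < σ y) :
    ∃ k : ℕ, ∃ w p q : ℕ → Fin n, p 0 = x ∧ q 0 = y ∧
      p (2 * k + 1) = τ.symm (σ x) ∧ q (2 * k + 1) = τ.symm (σ y) ∧
      ∀ i < 2 * k + 1, (Even i → R (w i) (p i) (p (i + 1)) ∧ R (w i) (q i) (q (i + 1))) ∧
        (Odd i → R (w i) (p (i + 1)) (p i) ∧ R (w i) (q (i + 1)) (q i)) := by
  obtain ⟨j, w, p, q, hp, hq, hpar, hend, hw⟩ := walk_of_conn R hR x y
    (conn_main (σ := σ) (τ := τ) hn hxy (σ y).2)
  simp only [true_iff, if_true] at hpar hend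
  obtain ⟨k, rfl⟩ := hpar
  refine ⟨k, w, p, q, hp, hq, ?_, ?_, hw⟩
  · rw [Equiv.eq_symm_apply]; exact Fin.ext hend.1
  · rw [Equiv.eq_symm_apply]; exact Fin.ext hend.2

lemma walk_ne (hn : 100 ≤ n) (R : Fin n → Fin n → Fin n → Prop)
    (hR : ∀ z a b : Fin n, R z a b ↔ step (σ z) (τ z) (σ a) (τ b))
    (x y : Fin n) (hxy : x ≠ y) :
    ∃ k : ℕ, ∃ w p q : ℕ → Fin n, p 0 = x ∧ q 0 = y ∧
      p (2 * k + 1) = τ.symm (σ x) ∧ q (2 * k + 1) = τ.symm (σ y) ∧
      ∀ i < 2 * k + 1, (Even i → R (w i) (p i) (p (i + 1)) ∧ R (w i) (q i) (q (i + 1))) ∧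
        (Odd i → R (w i) (p (i + 1)) (p i) ∧ R (w i) (q (i + 1)) (q i)) := by
  have hne : (σ x : ℕ) ≠ σ y := fun h => hxy (σ.injective (Fin.ext h))
  rcases Nat.lt_or_gt_of_ne hne with h | h
  · exact walk_lt hn R hR x y h
  · obtain ⟨k, w, p, q, hp, hq, hp', hq', hw⟩ := walk_lt hn R hR y x h
    refine ⟨k, w, q, p, hq, hp, hq', hp', fun i hi => ?_⟩
    exact ⟨fun he => ((hw i hi).1 he).symm, fun ho => ((hw i hi).2 ho).symm⟩

end

/-- For all large n, any two linear orders on an n-set, and any two distinct points x,y: some alternating composite φ_{z1}, φ_{z2}⁻¹, φ_{z3}, … (odd length) of the point-deleted order isomorphisms is defined at x and y and agrees there with the full isomorphism. -/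
theorem result :
  ∃ N : ℕ, ∀ n : ℕ, N ≤ n → ∀ σ τ : Equiv.Perm (Fin n),
    ∀ R : Fin n → Fin n → Fin n → Prop,
    (∀ z a b : Fin n, R z a b ↔
      (a ≠ z ∧ b ≠ z ∧
        (Finset.univ.filter (fun e : Fin n => e ≠ z ∧ σ e < σ a)).card =
        (Finset.univ.filter (fun e : Fin n => e ≠ z ∧ τ e < τ b)).card)) →
    ∀ x y : Fin n, x ≠ y →
    ∃ k : ℕ, ∃ s : Fin (2 * k + 1) → Fin n, ∃ p q : Fin (2 * k + 1 + 1) → Fin n,
      p 0 = x ∧ q 0 = y ∧
      p (Fin.last (2 * k + 1)) = τ.symm (σ x) ∧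
      q (Fin.last (2 * k + 1)) = τ.symm (σ y) ∧
      ∀ i : Fin (2 * k + 1),
        (Even i.val →
          R (s i) (p i.castSucc) (p i.succ) ∧ R (s i) (q i.castSucc) (q i.succ)) ∧
        (Odd i.val →
          R (s i) (p i.succ) (p i.castSucc) ∧ R (s i) (q i.succ) (q i.castSucc)) := by
  refine ⟨100, fun n hn σ τ R hR x y hxy => ?_⟩
  have hR' : ∀ z a b : Fin n, R z a b ↔ step (σ z) (τ z) (σ a) (τ b) := fun z a b =>
    (hR z a b).trans (rel_iff z a b)
  obtain ⟨k, w, p, q, hp, hq, hp', hq', hw⟩ := walk_ne hn R hR' x y hxy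
  refine ⟨k, fun i => w i, fun i => p i, fun i => q i, by simpa using hp, by simpa using hq,
    by simpa using hp', by simpa using hq', fun i => ?_⟩
  simpa using hw i i.2

end Pool.Agent.S07641
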