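-- Proof of the frozen statement S08763.
import Pool.Statements.S08763
import Pool.Agent.H28.Shift

set_option autoImplicit false
open Pool Pool.MP_52dd64_co

namespace Pool.Agent.S08763

/-- For all large n, if A and B are families of 3-subsets of an n-set with every A-member meeting every B-member in at most one point, then ∣A∣∣B∣ ≤ γ·C(n,3)², where γ is the max over α in [0,1] of α³(1−α)³+3α⁴(1−α)². -/
theorem result :
    ∃ N : ℕ, ∀ n : ℕ, N ≤ n → ∀ A B : Finset (Finset (Fin n)),
      (∀ a ∈ A, a.card = 3) → (∀ b ∈ B, b.card = 3) →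
      (∀ a ∈ A, ∀ b ∈ B, (a ∩ b).card ≤ 1) →
      ((A.card * B.card : ℕ) : ℝ) ≤
        sSup ((fun α : ℝ => α ^ 3 * (1 - α) ^ 3 + 3 * α ^ 4 * (1 - α) ^ 2) '' Set.Icc (0 : ℝ) 1)
          * ((n.choose 3 : ℕ) : ℝ) ^ 2 := by
  refine ⟨29, fun n hn A B hA hB hAB => ?_⟩
  have h := Pool.Agent.H28.CrossTriples.main_bound hn A B hA hB (by
    intro a ha b hb
    convert hAB a ha b hb)
  exact h

end Pool.Agent.S08763
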