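import Pool.Statements.S09118
import Pool.Agent.AM.Final
import Pool.Agent.AM.RootN
import Pool.Agent.AM.TowE
import Pool.Agent.AM.KT

set_option autoImplicit false
open Pool Pool.MP_61102a_co

namespace Pool.Agent.S09118

/-- The negation of the preceding statement: For dismantlable finite ordered sets, the number of automorphisms divided by the number of order-preserving self-maps tends to 0 as the size grows: for every ε>0, all large enough dismantlable posets have ratio below ε. -/
theorem result :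
    ¬ (∀ ε : ℝ, 0 < ε → ∃ N : ℕ, ∀ (α : Type) [Fintype α] [PartialOrder α],
    N ≤ Fintype.card α →
    (∃ n : ℕ, ∃ e : Fin n ≃ α, ∀ i : Fin n, i.val + 1 < n →
      ((∃! y : α, (∃ j : Fin n, i ≤ j ∧ e j = y) ∧ e i < y ∧
          ∀ z : α, (∃ j : Fin n, i ≤ j ∧ e j = z) → ¬ (e i < z ∧ z < y)) ∨
       (∃! y : α, (∃ j : Fin n, i ≤ j ∧ e j = y) ∧ y < e i ∧
          ∀ z : α, (∃ j : Fin n, i ≤ j ∧ e j = z) → ¬ (y < z ∧ z < e i)))) →
    (Nat.card (α ≃o α) : ℝ) / (Nat.card (α →o α) : ℝ) < ε) := by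
  obtain ⟨c, q, hc⟩ := Pool.Agent.AM.Final.exists_ok
  exact Pool.Agent.AM.Dis.frozen_of_large (Pool.Agent.AM.Final.assembly c q hc
    (Pool.Agent.AM.exists_good c q hc) (Pool.Agent.AM.KT c q hc)
    (Pool.Agent.AM.tf_tendsto c) (Pool.Agent.AM.sum_tf c q hc))

end Pool.Agent.S09118
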