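import Pool.Statements.S09567
import Pool.Agent.OBX.Top

set_option autoImplicit false
open Pool Pool.MP_767178_co

namespace Pool.Agent.S09567

/-- For every ε>0, for all large n, any d-regular graph G on n vertices with d even and d at least (3/4+ε)n splits into edge-disjoint copies of any given 2-regular graph F on n vertices. -/
theorem result :
    ∀ ε : ℝ, 0 < ε → ∃ n₀ : ℕ, ∀ n : ℕ, n₀ ≤ n →
      ∀ (F G : SimpleGraph (Fin n)) (d : ℕ),
        (∀ v, Nat.card (F.neighborSet v) = 2) →
        (∀ v, Nat.card (G.neighborSet v) = d) →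
        Even d →
        (3 / 4 + ε) * (n : ℝ) ≤ (d : ℝ) →
        ∃ (k : ℕ) (H : Fin k → SimpleGraph (Fin n)),
          (∀ i, Nonempty (F ≃g H i)) ∧
          (∀ i j, i ≠ j → Disjoint (H i) (H j)) ∧
          (⨆ i, H i) = G := by
  exact Pool.Agent.OBX.final_of Pool.Agent.OBX.main_all

end Pool.Agent.S09567
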