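import Pool.Statements.S10366
import Pool.Agent.Mader49.Main

set_option autoImplicit false
open Pool Pool.MP_9b4907_co

namespace Pool.Agent.S10366

/-- The negation of the preceding statement: For n ≥ 1, let D be a finite loopless digraph that is n-connected (more than n vertices, strongly connected after removing any fewer than n vertices) but stops being so if any arc is removed. Then D has two distinct vertices whose in- and out-degrees all equal n. -/
theorem result :
    ¬ (∀ (V : Type) [Fintype V] (G : Digraph V) (n : ℕ), 1 ≤ n →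
      (∀ w, ¬ G.Adj w w) →
      (n < Fintype.card V ∧
        ∀ S : Finset V, S.card < n → ∀ u v : V, u ∉ S → v ∉ S →
          Relation.ReflTransGen (fun a b => a ∉ S ∧ b ∉ S ∧ G.Adj a b) u v) →
      (∀ x y : V, G.Adj x y →
        ¬ (∀ S : Finset V, S.card < n → ∀ u v : V, u ∉ S → v ∉ S →
          Relation.ReflTransGen
            (fun a b => a ∉ S ∧ b ∉ S ∧ G.Adj a b ∧ ¬ (a = x ∧ b = y)) u v)) →
      ∃ x y : V, x ≠ y ∧
        {z | G.Adj x z}.ncard = n ∧ {z | G.Adj z x}.ncard = n ∧
        {z | G.Adj y z}.ncard = n ∧ {z | G.Adj z y}.ncard = n) := by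
  intro h
  obtain ⟨x, y, hxy, h1, h2, h3, h4⟩ := h (Fin 49) Mader49.G 8 (by norm_num)
    (fun w hw => by
      have h0 := Mader49.loopless w.val w.isLt
      have h1 : Mader49.adjN w.val w.val = true := hw
      rw [h0] at h1
      exact absurd h1 (by simp))
    ⟨by simp, Mader49.connected⟩ Mader49.minimal
  exact hxy ((Mader49.deg x h1 h2).trans (Mader49.deg y h3 h4).symm)

end Pool.Agent.S10366
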