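import Pool.Statements.S11517
import Pool.Agent.PFM.MAll
import Pool.Agent.PFM.D2z
import Pool.Agent.PFM.DMain

set_option autoImplicit false
open scoped Pointwise
open Pool Pool.MP_ce784b_co

namespace Pool.Agent.S11517

/-- There is an absolute C>0 so that whenever finite nonempty A in an abelian group has ∣A+A∣ ≤ K∣A∣, some A' ⊆ A with ∣A'∣ ≥ C⁻¹K^(-C)∣A∣ is Freiman 2-isomorphic to a subset of a finite abelian group H with ∣H∣ ≤ C K^C ∣A'∣. -/
theorem result :
    ∃ C : ℝ, 0 < C ∧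
      ∀ (G : Type) [AddCommGroup G] [DecidableEq G] (A : Finset G) (K : ℝ),
        A.Nonempty → (((A + A).card : ℝ) ≤ K * (A.card : ℝ)) →
          ∃ A' : Finset G, A' ⊆ A ∧
            C⁻¹ * K ^ (-C) * (A.card : ℝ) ≤ (A'.card : ℝ) ∧
            ∃ (H : Type) (_ : AddCommGroup H) (_ : Fintype H),
              (Fintype.card H : ℝ) ≤ C * K ^ C * (A'.card : ℝ) ∧
              ∃ (B : Set H) (f : G → H), IsAddFreimanIso 2 (A' : Set G) B f :=
  Pool.Agent.PFM.final_of_RStat (Pool.Agent.PFM.rstat_of_ent Pool.Agent.PFM.D1.ent_main_all)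

end Pool.Agent.S11517
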