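import Pool.Statements.S11521
-- import your own Pool.Agent.* helpers here
import Pool.Agent.DKak.Main

set_option autoImplicit false
open Pool Pool.MP_ced40c_co

namespace Pool.Agent.S11521

/-- An affine subspace with one-dimensional direction which is not empty is a line. -/
theorem isLine_of_finrank {n : ℕ} (l : AffineSubspace ℝ (Fin n → ℝ))
    (h : Module.finrank ℝ l.direction = 1) : Pool.DKak.IsLine (l : Set (Fin n → ℝ)) := by
  have hne : (l : Set (Fin n → ℝ)).Nonempty := by
    rw [AffineSubspace.nonempty_iff_ne_bot]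
    rintro rfl
    rw [AffineSubspace.direction_bot] at h
    simp at h
  obtain ⟨q, hq⟩ := hne
  obtain ⟨v, hv0, hv⟩ := finrank_eq_one_iff'.mp h
  refine ⟨q, v.1, fun h0 => hv0 (Subtype.ext h0), fun x => ?_⟩
  constructor
  · intro hx
    have h1 : x -ᵥ q ∈ l.direction := AffineSubspace.vsub_mem_direction hx hq
    obtain ⟨c, hc⟩ := hv ⟨x -ᵥ q, h1⟩
    refine ⟨c, ?_⟩
    have h2 := congrArg Subtype.val hc
    funext k
    have h3 := congrFun h2 k
    simp only [Submodule.coe_smul, Pi.smul_apply, smul_eq_mul, vsub_eq_sub, Pi.sub_apply] at h3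
    linarith
  · rintro ⟨s, rfl⟩
    have h1 : s • v.1 ∈ l.direction := Submodule.smul_mem _ _ v.2
    have h2 := AffineSubspace.vadd_mem_of_mem_direction h1 hq
    have h3 : (fun k => q k + v.1 k * s) = s • v.1 +ᵥ q := by
      funext k
      simp only [vadd_eq_add, Pi.add_apply, Pi.smul_apply, smul_eq_mul]
      ring
    rw [SetLike.mem_coe, h3]
    exact h2

/-- For each n there are degrees d(r) and C>0 so that: if N^(n-1) lines in R^n have fewer than N^(r-1) in any zero set of degree ≤ d(r) polynomials of dimension ≤ r (1<r<n), and P has N points on each line, then ∣P∣ ≥ C N^n. -/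
theorem result :
  ∀ n : ℕ, ∃ d : ℕ → ℕ, ∃ C : ℝ, 0 < C ∧
    ∀ N : ℕ, ∀ L : Finset (AffineSubspace ℝ (Fin n → ℝ)), ∀ P : Finset (Fin n → ℝ),
      (∀ l ∈ L, Module.finrank ℝ l.direction = 1) →
      L.card = N ^ (n - 1) →
      (∀ r : ℕ, 1 < r → r < n → ∀ S : Set (MvPolynomial (Fin n) ℝ),
        (∀ p ∈ S, p.totalDegree ≤ d r) →
        ringKrullDim (MvPolynomial (Fin n) ℝ ⧸
            RingHom.ker (Pi.ringHom
              (fun x : {x : Fin n → ℝ // ∀ p ∈ S, MvPolynomial.eval x p = 0} =>
                MvPolynomial.eval x.1)))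
          ≤ (((r : ℕ∞)) : WithBot ℕ∞) →
        {l : AffineSubspace ℝ (Fin n → ℝ) | l ∈ L ∧ (l : Set (Fin n → ℝ)) ⊆
            {x : Fin n → ℝ | ∀ p ∈ S, MvPolynomial.eval x p = 0}}.ncard < N ^ (r - 1)) →
      (∀ l ∈ L, N ≤ {x : Fin n → ℝ | x ∈ P ∧ x ∈ l}.ncard) →
      C * (N : ℝ) ^ n ≤ (P.card : ℝ) := by
  classical
  intro n
  rcases Nat.eq_zero_or_pos n with rfl | hn
  · refine ⟨fun _ => 0, 1, one_pos, ?_⟩
    intro N L P hL hcard _ _
    have h1 : L.card = 1 := by simpa using hcard
    obtain ⟨l, hl⟩ := Finset.card_pos.mp (by omega : 0 < L.card)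
    obtain ⟨q, u, hu, -⟩ := isLine_of_finrank l (hL l hl)
    exact absurd (Subsingleton.elim u 0) hu
  obtain ⟨d, c, hc, hM⟩ := Pool.DKak.main_all n hn 1
  refine ⟨d, c, hc, ?_⟩
  intro N L P hL hcard hH hR
  let g : AffineSubspace ℝ (Fin n → ℝ) → Set (Fin n → ℝ) := fun l => (l : Set (Fin n → ℝ))
  have hg : Function.Injective g := SetLike.coe_injective
  have hcard' : (L.image g).card = N ^ (n - 1) := by
    rw [Finset.card_image_of_injective _ hg, hcard]
  have hmain := hM N (L.image g) P (by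
    intro l' hl'
    obtain ⟨l, hl, rfl⟩ := Finset.mem_image.mp hl'
    exact isLine_of_finrank l (hL l hl)) (by
    intro r hr hrn S hS hdim T hT hTS
    rw [one_mul]
    rcases Nat.lt_or_ge r n with hlt | hge
    · have h1 := hH r hr hlt S hS hdim
      have h2 : T.card ≤ {l : AffineSubspace ℝ (Fin n → ℝ) | l ∈ L ∧ (l : Set (Fin n → ℝ)) ⊆
            {x : Fin n → ℝ | ∀ p ∈ S, MvPolynomial.eval x p = 0}}.ncard := by
        have hsub : T ⊆ (L.filter (fun l => g l ∈ T)).image g := by
          intro l' hl'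
          obtain ⟨l, hl, rfl⟩ := Finset.mem_image.mp (hT hl')
          exact Finset.mem_image_of_mem _ (Finset.mem_filter.mpr ⟨hl, hl'⟩)
        refine (Finset.card_le_card hsub).trans (Finset.card_image_le.trans ?_)
        rw [← Set.ncard_coe_finset]
        refine Set.ncard_le_ncard ?_ ?_
        · intro l hl
          rw [Finset.mem_coe, Finset.mem_filter] at hl
          exact ⟨hl.1, hTS _ hl.2⟩
        · exact L.finite_toSet.subset fun l hl => hl.1
      omega
    · have hrn' : r = n := le_antisymm hrn hge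
      rw [hrn', ← hcard']
      exact Finset.card_le_card hT) (by
    intro l' hl'
    obtain ⟨l, hl, rfl⟩ := Finset.mem_image.mp hl'
    refine ⟨P.filter (fun x => x ∈ l), Finset.filter_subset _ _, ?_, ?_⟩
    · intro x hx
      exact (Finset.mem_filter.mp hx).2
    · have h1 := hR l hl
      rw [← Set.ncard_coe_finset]
      convert h1 using 2
      ext x
      simp)
  rw [hcard'] at hmain
  have h3 : c * (N : ℝ) ^ n = c * ((N ^ (n - 1) : ℕ) : ℝ) * N := by
    push_cast
    rw [mul_assoc, ← pow_succ, Nat.sub_add_cancel hn]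
  rw [h3]
  exact hmain

end Pool.Agent.S11521
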