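import Pool.Statements.S11535
import Pool.Agent.H23.Cubic.Final

set_option autoImplicit false
open Pool Pool.MP_cf447d_co

namespace Pool.Agent.S11535

/-- For every finite simple graph on n ≥ 16 vertices that is 3-regular and stays connected after deleting any at most 2 vertices, its automorphism group has order less than n times 2 to the power n/4. -/
theorem result :
    ∀ (V : Type) [Fintype V] [DecidableEq V] (G : SimpleGraph V) [DecidableRel G.Adj],
      16 ≤ Fintype.card V →
      G.IsRegularOfDegree 3 →
      (∀ S : Finset V, S.card ≤ 2 → (G.induce ((S : Set V)ᶜ)).Connected) →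
      (Nat.card (G ≃g G) : ℝ) < (Fintype.card V : ℝ) * (2 : ℝ) ^ ((Fintype.card V : ℝ) / 4) := by
  intro V _ _ G _ hn hreg hconn
  exact Pool.Agent.H23.Cubic.final_real hn (Pool.Agent.H23.Cubic.cub_of_conn hreg hconn)

end Pool.Agent.S11535
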