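import Mathlib
import Pool.Statements.S11952

/-!
# A four-chromatic graph without a pair of vertices that is forced both ways

The graph is the quadrangulation of the Klein bottle obtained from the `7 × 6` cylindrical grid
`C₇ × P₆` by gluing its two boundary circles by a reflection. The vertex `(i, j)` (`i` modulo `7`,
`j = 0, ..., 5`) is the number `7 * j + i`; it is joined to `(i ± 1, j)`, to `(i, j ± 1)`, and
`(i, 6)` is read as `(-i, 0)`.

The graph is triangle-free, and it is not `3`-colourable by a winding number argument: in a
`3`-colouring the winding numbers of all rows agree, while the gluing changes their sign, so the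
winding number of a row would be `0`, but it is odd.

For every edge `e` we list a few `3`-colourings of `G - e`. If `x`, `y` are opposite corners of a
`1 × 2` block, then for every edge `e` one of the listed colourings of `G - e` gives `x` and `y` the
same colour, so no subgraph forces a difference. For any other two nonadjacent vertices, one of the
listed colourings gives them different colours, so no subgraph forces equality. If `x`, `y` are
adjacent, then some `3`-colouring of `G - xy` gives `x` and `y` the same colour, and again no
subgraph without the edge `xy` forces a difference.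
-/

set_option autoImplicit false
open Pool Pool.MP_dfb409_co

namespace Pool.Agent.S11952

/-- the right neighbour -/
def nx (v : ℕ) : ℕ := if v % 7 = 6 then v - 6 else v + 1

/-- the upper neighbour -/
def up (v : ℕ) : ℕ := if v < 35 then v + 7 else (42 - v) % 7

/-- adjacency -/
def adjB (u v : ℕ) : Bool := nx u == v || nx v == u || up u == v || up v == u

/-- masks of the pairs of opposite corners of `1 × 2` blocks -/
def knMask : List ℕ := [1254668407296, 627333751808, 330712647808, 2347199959296, 1173600477696, 586801218688, 2475243882752, 2267881734180, 1133883031624, 2748800319505, 1374432034850, 687279767620, 343765303305, 171868192786, 17792242242, 1493181445, 2720008330, 5440016660, 10880033320, 21493712080, 8896121121, 2277407006976, 191127224960, 348161066240, 696322132480, 1392644264960, 2751195146240, 1138703503488, 1237027160130, 2474052239393, 584151367760, 1168302735400, 2336605470740, 309257830410, 618513580037, 9802096932, 19337842834, 4584384521, 9168753732, 18337499682, 2583692561, 4901044936]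

/-- opposite corners of a `1 × 2` block -/
def kn (x y : ℕ) : Bool := (knMask.getD x 0).testBit y

/-- the colour of the vertex `v` in the colouring coded by `C` (in base `3`) -/
def dg (C v : ℕ) : ℕ := C / 3 ^ v % 3

/-- the edges `e = uv`, each with codes of some `3`-colourings of `G - e` -/
def data : List (ℕ × ℕ × List ℕ) := [
  (0, 1, [87976920822160667206, 25959308546580676744, 64250311948283895767, 29358987008587290260, 21993981632344724417, 21893175313102410700]),
  (0, 6, [64076070121170033526, 46970087359692535408, 15139536373380602256, 21982910428840447050, 62476045204266802396, 15430584968783718802, 29208618014093598441]),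
  (0, 7, [46942944866654168877, 87419439645467125656, 94188757981202197517, 46969907649413486055, 87968803274264542793, 64276151659612622705]),
  (0, 35, [62476044264860760024, 87425008867685606230, 45168471292177650458, 31459828409258205274, 43989918242631083511, 29206555860000901696, 78059266663042009200]),
  (1, 2, [63226448685515909153, 83381703579966211032, 46969816518814529977, 80460433378222945817, 63149457741449651704, 67730189767422621013, 82032720119737871612]),
  (1, 8, [62476044264860661641, 14479016113344033426, 87518381954239394645, 82731446335729514422, 65598273901547844910, 65879263335895855989, 67730109991437922643]),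
  (1, 41, [87976920822160667209, 94273906407071026525, 45168677134429414125, 45168471762890975598, 29356303995580891826, 83383578134723118966, 88127084025087030943]),
  (2, 3, [43520380876329574024, 88576956242900261722, 29539755526845501831, 65431544528729972814, 31440463300198743719, 65998785588385418899]),
  (2, 9, [63226448685515790929, 93971421248538002585, 63149454254515479738, 77978537368939721711, 63199489290423478279, 43387081434369594749, 43520389490172244852]),
  (2, 40, [29358987008371807379, 45635832490087903957, 63149457741300408628, 45168471766384126341, 46969812838173498990, 63227144813875522102, 88176441645871690475]),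
  (3, 4, [63226448687127013040, 46969812842232399013, 87425853939151688669, 31340480162476864174, 79879233609177835694, 87424993632040927896]),
  (3, 10, [20842032888612097594, 45368552172651485339, 26636681572400962248, 82764797030662357244, 80229065233047513950, 81579973233033363405]),
  (3, 39, [63226448685515889452, 93973572053436086141, 93971421248538002540, 46236184646068413443, 29208415982380859103, 29189867617828214337]),
  (4, 5, [20849738842531126803, 93979127202457031830, 26052095846107673825, 79859852908847812688, 26659757817498543080, 13879585418009731827, 20849707193653859772]),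
  (4, 11, [80079369906432592280, 31340480162476859881, 15439861929055327486, 78059261967324743993, 46192471688469425452, 29189867617828214285]),
  (4, 38, [29339619225079766820, 31340491884509797744, 87425842219087748214, 93979127202457031668, 29556432990371412075, 93737638690974283289]),
  (5, 6, [43489602793317134013, 31591049293749549777, 28958551800589653960, 41716775124297565336, 65601778751587240693, 29558311998619501420, 31459835512156921683]),
  (5, 12, [29339619225079766604, 82759235430019107792, 78056243197913549620, 62325949912162934743, 63833077335992532901, 68131097988797152207]),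
  (5, 37, [26659753701493842257, 67702214007214793386, 41288234733794085298, 46242365972791554686, 15139521164023859608, 86769151754923603055, 45340439241839314015]),
  (6, 13, [46969812806873735287, 93979127201293530226, 46242594742435422644, 21895015060640498227, 15146966265773539152, 65898722593772538901, 22600742934574149618]),
  (6, 36, [78059266663041763247, 31441355901501943812, 64050436958228742421, 26653366749538150331, 26659757660413379270, 88177115570187068733, 87519556457936531822]),
  (7, 8, [87976920822160602718, 43489602793320319015, 62449176324636408409, 45168158691969027900, 29358780049968233099, 45168471856907526768, 88574896955594813149]),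
  (7, 13, [46969812806871163456, 65898608255393493940, 62449172612911213481, 43489600248612465690, 77828156268108106385, 43787661197786627968, 86825601000793958486]),
  (7, 14, [87425842218454910675, 46969812806871259684, 83382563887075124391, 15139520979201110865, 94728708435113462017, 67830870060344125771]),
  (8, 9, [80060002122925062390, 46942944771026400616, 43520380876329652693, 80079369958713405620, 41586271134710201638, 31359722060065379821]),
  (8, 15, [45368552168628400775, 80060003064887779902, 15139521261804317758, 46219614229059973633, 41288512154964487000, 62476044265030401272, 93979127202456327755]),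
  (9, 10, [82782307559111337911, 63226448685515771246, 15445417084986020871, 62448878884562223950, 31441274856286295802, 86635758180246626134]),
  (9, 16, [26636681572401060663, 46192540445953305045, 29189478783917024862, 21993135189087486083, 94171237651208206776, 77755947308389712102, 88626984865468298402]),
  (10, 11, [15439847855857615375, 29189855330835303174, 15431215632518226954, 21999549491405182085, 64076070121347274566, 22800937359863228794, 83459787324544681543]),
  (10, 17, [29358987008372043530, 21999540692911364411, 26636681572401080346, 94889096401603204298, 80210371117381179077, 29189867619635822273]),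
  (11, 12, [93979127202456854575, 80210371117438491636, 31591049293749056487, 88569250288981468682, 78056380328159633941, 31891558765664134401, 15680743828174510025]),
  (11, 18, [63199374948304583614, 21993146912425319420, 43489602793317783282, 21982877379934747899, 29189855330835126027, 46942936293085492974]),
  (12, 13, [88569250288980406286, 88326821865457163324, 43487746385910769428, 80529643273110388661, 83359480045864498284, 86775340645927481585, 67830150204797005414]),
  (12, 19, [63199374948305292202, 26659753701106185221, 29539755913274923080, 66031995192454661959, 21993147886572694391, 95624667609325642973]),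
  (13, 20, [31359722466918368784, 80079369906433950650, 31362745965000066142, 88124544105474381275, 82765418372524069356, 46942936287463404880]),
  (14, 15, [45368552168771791430, 46192540320400368795, 78059266657625195830, 63799753475551523515, 80462904071779357544, 83467001022731669912]),
  (14, 20, [62449176320708886646, 93971421635006798861, 87976920822112767533, 43521097926823526724, 46219614186693260809, 86623598129128141852]),
  (14, 21, [87419439645519808299, 46942944866501089812, 31441287149069616491, 80513027134565925980, 21993146916924300729, 88627400009488239773, 78061733396555372812]),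
  (15, 16, [15447567883576912293, 21094250215308399815, 31609582879327659806, 88119057894906443036, 43987741603694547040, 22783231942928699412, 31659956602710125901]),
  (15, 22, [78078497247019218952, 29358780897314251292, 95540214234225406530, 88569349440473211413, 87519548447408542145, 15146822348147989105, 41316004644721624451]),
  (16, 17, [29358987008630323856, 46269538988566259513, 14545672642406273560, 87435118196035892795, 26636681572917640998, 62298917986609474468, 88626735452151705044]),
  (16, 23, [20842032417379760905, 82782307559025185420, 82781462487817462088, 29189890569629557382, 45335506084276177001, 82016041567940293124]),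
  (17, 18, [65929386338321127865, 87425008868074970153, 86619186903182553001, 21092167699345630335, 87419448438816208719, 81832578698552541320, 95623638246429337877]),
  (17, 24, [80060002123398596004, 21993146912947433700, 45368552172737618137, 29189867741862712098, 93721362673870597080, 93971421248021560040, 15389831546577280391]),
  (18, 19, [65929386338581996415, 21442056023669396344, 15146966255163387384, 63199374948950284429, 29208411746756189457, 80009947695225294380, 87425841371406226887]),
  (18, 25, [20849738842014684168, 43386993939832538227, 26709785246834718087, 29208614296389223406, 82759235429760473172, 87968811849383262227]),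
  (19, 20, [43489600252226795931, 79859990309319162317, 63199374947142912637, 46242365876561935825, 21982635589977896118, 31909700101614813725, 41538911467728194160]),
  (19, 26, [63199374946625761495, 65929389727090733372, 21099796259612368470, 28908222475001526987, 29358987170104954533, 65601712634017346417, 15231066532880211788]),
  (20, 27, [87968803272128325257, 15428731946398126792, 46192471599191236873, 41533352529385300444, 80079369901782837824, 21982635586500676835]),
  (21, 22, [31340480148149033374, 88577299803256566818, 21993135065346691455, 41688192585482097090, 26636681509581539256, 45342918998552989087, 62399045722305312753]),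
  (21, 27, [80229133811189995652, 15447270903602276113, 87419439655979391570, 21893175350949269604, 80460524937780664493, 29339606803345118745, 43387703643416303356]),
  (21, 28, [78078497131783146835, 46969816184075508711, 78059270040246106709, 87968810882437603174, 62475014925755751130, 44020787708993883311, 21999549534916733654]),
  (22, 23, [82782308876900548835, 63226654765192740071, 31359719070278599848, 88619380922683726718, 87519558619520901329, 46269535066809170447]),
  (22, 29, [87419448457977569853, 88126191360025079662, 87425853813455313638, 27836554266892999481, 26636681635105607106, 25959403639980099169, 94188761527432252520]),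
  (23, 24, [43520382006305764024, 88576956808275777130, 79879236011733424280, 26036424960583082972, 20782930937682425648, 67735675267203904486, 79859879608001744512]),
  (23, 30, [26636680066368499440, 88576749787425536557, 79879232809703083870, 65598274084239972475, 41586273589919794135, 65929386276539267923, 45669155300147278288]),
  (24, 25, [82782309251819093888, 21442056452725549570, 87425841936135389027, 78056270310375694616, 63199489196366314162, 81832577039146707098, 31340480068420759834]),
  (24, 31, [63226447556056141844, 87425841810553748417, 93971421812880633002, 45368555284242529778, 46970110654817757684, 26836829449443200923]),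
  (25, 26, [15439860234994551154, 88569248877349992635, 88326765439337589797, 80229120664843019174, 20799617104180048739, 31459828729713603071]),
  (25, 32, [15439861364712697078, 62476053581165947967, 81880496686134909200, 80079368776521326561, 21092154186683668443, 43489601569803400831, 88619372875009067945]),
  (26, 27, [46219609101025800892, 21442053075579485958, 43484045427586726971, 20791642549388634384, 26653305333536077935, 45335509994625937490]),
  (26, 33, [46219612770801812863, 93987775194347637388, 62475020000006585641, 46242658412167509434, 46942939807322035785, 43817274802915106356, 63199376639606808020]),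
  (27, 34, [31357878361992414183, 88569243792456074510, 80059995477652876706, 62475028847331330368, 13794335464110881703, 65629486787955757517, 88127023065503179331]),
  (28, 29, [29208340228882125056, 82781416619187787875, 62449150912573747516, 93971489941763698235, 41088157258943043996, 46969839066227220294, 21999470631311324840]),
  (28, 34, [22000555735747462752, 20841712194587157466, 45368574595781194325, 63232719146048565718, 77956294481200189442, 77961852575202759698]),
  (28, 35, [21442799916967745667, 64050185736497274307, 62482481551892017091, 45135170771697277732, 45142792832143984479, 15247716161296249184]),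
  (29, 30, [88126259990402444545, 46236278657124796745, 82781485500400267250, 31462717516625139648, 46242457365125227798, 21300129367361005836, 15131082612904201911]),
  (29, 36, [21899477602713279715, 26637435282949049634, 93971157341429279935, 31462778552804942064, 94279316473051857622, 78059221793174323508, 15447842341563819675]),
  (30, 31, [26637298116337498695, 29339836031912628804, 22644062435468385502, 94271549490487342445, 78059358086475845872, 21100209073450712753, 45343239116545921588]),
  (30, 37, [82781279232910671215, 63677966808739707101, 45368967066567073354, 88326406504375293701, 63182918953787193474, 83382686152580541648]),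
  (31, 32, [87969512120046050530, 64076344529159824822, 43488906655446756478, 80456727902188412458, 29340452576236231419, 26660782786457023457, 41570119082082419241, 46941082551078800401]),
  (31, 38, [82781073341778576566, 20798792403669241716, 46269122907972263654, 46191306228663649470, 64076893539100506312, 64076985079348563730]),
  (32, 33, [26657901246422107157, 20847268713288621342, 77981422010426573637, 15441988471182917799, 63148833028875727063, 77831647575059998820]),
  (32, 39, [15438626017920129184, 29188243249008446651, 46238955708642477509, 88568014758893482712, 63146987613363658182, 65427845525739096121]),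
  (33, 34, [63193817300143990822, 46976261126466309234, 27594438456788206144, 62441765935314326380, 29542442652541459281, 65596155395535045520]),
  (33, 40, [77770142501516324956, 80071339022821153469, 21103503927859250826, 64254010882669947452, 29197278005555730909, 63304288344386311102]),
  (34, 41, [15122882183687786352, 63209878503024592330, 20827499207066623276, 83393052238262390169, 31429340286912836706, 62459390075170394648]),
  (35, 36, [63950370945123846278, 63950740315646236486, 29258394646750490715, 43670612960925704641, 43639697428617616269, 31963185322458906957, 87368434718274425147]),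
  (35, 41, [64000150510980182496, 88076251317272090761, 80279153058780575191, 41516648943901567238, 21943115367182074033, 83565898651509961593, 15180211331137961656]),
  (36, 37, [64100148651218909131, 82465502097644194710, 21743836613078086924, 31207059035208943665, 21542851282985788425, 87675908453830783364, 14939394954387738252]),
  (37, 38, [22200590560204118757, 64578534620521701827, 80760970479429676855, 93587945247624727400, 65029103252973939052, 95073442663840042550, 16031235807145851132]),
  (38, 39, [30709838726042947935, 25287064072062642095, 85868461742038264625, 96072768559381382758, 78509138718473961143, 84281676666703121138, 96424303136814074280]),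
  (39, 40, [34741791878438914890, 39438281857631509311, 90127954108779875679, 38837834558935564564, 92178759237101904152, 70551541907374820956]),
  (40, 41, [10437579081458168334, 104187141430321122704, 99672478059425826875, 7597868630288848916, 104375333041254409512, 104187153750946108138, 7133392387780250091])]

/-- `{x, y}` is the edge of the entry `d` -/
def isE (x y : ℕ) (d : ℕ × ℕ × List ℕ) : Bool :=
  (d.1 == x && d.2.1 == y) || (d.1 == y && d.2.1 == x)

/-- all the listed colourings of the entry `d` are proper on `G - e` -/
def chkProper (d : ℕ × ℕ × List ℕ) : Bool :=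
  d.2.2.all fun C => (List.range 42).all fun a =>
    (dg C a != dg C (nx a) || isE a (nx a) d) && (dg C a != dg C (up a) || isE a (up a) d)

/-- what the listed colourings of the entry `d` must do on the pair `x`, `y` -/
def chkPair (d : ℕ × ℕ × List ℕ) (x y : ℕ) : Bool :=
  if adjB x y then (!isE x y d || d.2.2.any fun C => dg C x == dg C y)
  else if kn x y then d.2.2.any fun C => dg C x == dg C y
  else d.2.2.any fun C => dg C x != dg C y

/-- all pairs -/
def chkPairs (d : ℕ × ℕ × List ℕ) : Bool :=
  (List.range 42).all fun x => (List.range x).all fun y => chkPair d x y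

/-- all edges occur in the list -/
def chkEdges : Bool :=
  (List.range 42).all fun a => data.any (isE a (nx a)) && data.any (isE a (up a))

set_option maxRecDepth 100000 in
lemma proper_ok : data.all chkProper = true := by decide +kernel

set_option maxRecDepth 100000 in
lemma pairs_ok : data.all chkPairs = true := by decide +kernel

set_option maxRecDepth 100000 in
lemma edges_ok : chkEdges = true := by decide +kernel

/-! ### The graph -/

lemma adjB_symm (u v : ℕ) : adjB u v = adjB v u := by
  unfold adjB
  cases (nx u == v) <;> cases (nx v == u) <;> cases (up u == v) <;> cases (up v == u) <;> rfl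

lemma adjB_irrefl : ∀ u < 42, adjB u u = false := by decide +kernel

/-- The quadrangulation of the Klein bottle. -/
def G : SimpleGraph (Fin 42) where
  Adj u v := adjB u v = true
  symm := ⟨fun u v h => by rw [adjB_symm]; exact h⟩
  loopless := ⟨fun u h => by
    rw [adjB_irrefl u u.2] at h
    exact absurd h (by decide)⟩

lemma G_adj (u v : Fin 42) : G.Adj u v ↔ adjB u v = true := Iff.rfl

lemma nx_lt : ∀ v < 42, nx v < 42 := by decide +kernel

lemma up_lt : ∀ v < 42, up v < 42 := by decide +kernel

lemma adj_nx (v : ℕ) : adjB v (nx v) = true := by
  unfold adjB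
  simp

lemma adj_up (v : ℕ) : adjB v (up v) = true := by
  unfold adjB
  simp

set_option maxRecDepth 100000 in
lemma no_triangle : ∀ u < 42, ∀ v < 42, adjB u v = true → ∀ w < 42, adjB u w = true →
    adjB v w = false := by decide +kernel

lemma cliqueFree : G.CliqueFree 4 := by
  have h3 : G.CliqueFree 3 := by
    intro s hs
    rw [SimpleGraph.is3Clique_iff] at hs
    obtain ⟨a, b, c, hab, hac, hbc, -⟩ := hs
    rw [G_adj] at hab hac hbc
    rw [no_triangle a a.2 b b.2 hab c c.2 hac] at hbc
    exact absurd hbc (by decide)
  exact h3.mono (by norm_num)

/-! ### The graph is not `3`-colourable -/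

/-- the signed step between two colours -/
def dl (a b : Fin 3) : ℤ := if b = a + 1 then 1 else if a = b + 1 then -1 else 0

lemma dl_face : ∀ a b c d : Fin 3, a ≠ b → b ≠ c → c ≠ d → d ≠ a →
    dl a b + dl b c = dl a d + dl d c := by decide

lemma dl_neg : ∀ a b : Fin 3, dl a b = - dl b a := by decide

lemma dl_odd : ∀ a b : Fin 3, a ≠ b → dl a b % 2 = 1 := by decide

lemma comm1 : ∀ v < 35, nx (up v) = up (nx v) := by decide +kernel

lemma comm2 : ∀ v < 42, 35 ≤ v → nx (up (nx v)) = up v := by decide +kernel

lemma not_colorable_aux (c : ℕ → Fin 3)
    (hc : ∀ u < 42, ∀ v < 42, adjB u v = true → c u ≠ c v) : False := by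
  -- horizontal and vertical steps
  obtain ⟨F, hF⟩ : ∃ F : ℕ → ℤ, ∀ v, F v = dl (c v) (c (nx v)) := ⟨_, fun _ => rfl⟩
  obtain ⟨U, hU⟩ : ∃ U : ℕ → ℤ, ∀ v, U v = dl (c v) (c (up v)) := ⟨_, fun _ => rfl⟩
  have hface : ∀ v < 42, F v + U (nx v) = U v + dl (c (up v)) (c (up (nx v))) := by
    intro v hv
    rw [hF, hU, hU]
    refine dl_face _ _ _ _ (hc _ hv _ (nx_lt v hv) (adj_nx v))
      (hc _ (nx_lt v hv) _ (up_lt _ (nx_lt v hv)) (adj_up _)) ?_ ?_
    · by_cases h : v < 35
      · rw [← comm1 v h]
        exact (hc _ (up_lt v hv) _ (nx_lt _ (up_lt v hv)) (adj_nx _)).symm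
      · have h1 := hc _ (up_lt _ (nx_lt v hv)) _ (nx_lt _ (up_lt _ (nx_lt v hv))) (adj_nx _)
        rw [comm2 v hv (by omega)] at h1
        exact h1
    · exact (hc _ hv _ (up_lt v hv) (adj_up v)).symm
  have hface1 : ∀ v < 35, F v + U (nx v) = U v + F (up v) := by
    intro v hv
    rw [hface v (by omega), hF (up v), comm1 v hv]
  have hface2 : ∀ v < 42, 35 ≤ v → F v + U (nx v) = U v - F (up (nx v)) := by
    intro v hv hv'
    rw [hface v hv, hF (up (nx v)), comm2 v hv hv', dl_neg]
    ring
  have h0 : F 0 + U 1 = U 0 + F 7 := hface1 0 (by norm_num)
  have h1 : F 1 + U 2 = U 1 + F 8 := hface1 1 (by norm_num)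
  have h2 : F 2 + U 3 = U 2 + F 9 := hface1 2 (by norm_num)
  have h3 : F 3 + U 4 = U 3 + F 10 := hface1 3 (by norm_num)
  have h4 : F 4 + U 5 = U 4 + F 11 := hface1 4 (by norm_num)
  have h5 : F 5 + U 6 = U 5 + F 12 := hface1 5 (by norm_num)
  have h6 : F 6 + U 0 = U 6 + F 13 := hface1 6 (by norm_num)
  have r0 : F 0 + F 1 + F 2 + F 3 + F 4 + F 5 + F 6 =
      F 7 + F 8 + F 9 + F 10 + F 11 + F 12 + F 13 := by
    linarith [h0, h1, h2, h3, h4, h5, h6]
  clear h0 h1 h2 h3 h4 h5 h6
  have h7 : F 7 + U 8 = U 7 + F 14 := hface1 7 (by norm_num)
  have h8 : F 8 + U 9 = U 8 + F 15 := hface1 8 (by norm_num)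
  have h9 : F 9 + U 10 = U 9 + F 16 := hface1 9 (by norm_num)
  have h10 : F 10 + U 11 = U 10 + F 17 := hface1 10 (by norm_num)
  have h11 : F 11 + U 12 = U 11 + F 18 := hface1 11 (by norm_num)
  have h12 : F 12 + U 13 = U 12 + F 19 := hface1 12 (by norm_num)
  have h13 : F 13 + U 7 = U 13 + F 20 := hface1 13 (by norm_num)
  have r1 : F 7 + F 8 + F 9 + F 10 + F 11 + F 12 + F 13 =
      F 14 + F 15 + F 16 + F 17 + F 18 + F 19 + F 20 := by
    linarith [h7, h8, h9, h10, h11, h12, h13]
  clear h7 h8 h9 h10 h11 h12 h13
  have h14 : F 14 + U 15 = U 14 + F 21 := hface1 14 (by norm_num)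
  have h15 : F 15 + U 16 = U 15 + F 22 := hface1 15 (by norm_num)
  have h16 : F 16 + U 17 = U 16 + F 23 := hface1 16 (by norm_num)
  have h17 : F 17 + U 18 = U 17 + F 24 := hface1 17 (by norm_num)
  have h18 : F 18 + U 19 = U 18 + F 25 := hface1 18 (by norm_num)
  have h19 : F 19 + U 20 = U 19 + F 26 := hface1 19 (by norm_num)
  have h20 : F 20 + U 14 = U 20 + F 27 := hface1 20 (by norm_num)
  have r2 : F 14 + F 15 + F 16 + F 17 + F 18 + F 19 + F 20 =
      F 21 + F 22 + F 23 + F 24 + F 25 + F 26 + F 27 := by
    linarith [h14, h15, h16, h17, h18, h19, h20]
  clear h14 h15 h16 h17 h18 h19 h20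
  have h21 : F 21 + U 22 = U 21 + F 28 := hface1 21 (by norm_num)
  have h22 : F 22 + U 23 = U 22 + F 29 := hface1 22 (by norm_num)
  have h23 : F 23 + U 24 = U 23 + F 30 := hface1 23 (by norm_num)
  have h24 : F 24 + U 25 = U 24 + F 31 := hface1 24 (by norm_num)
  have h25 : F 25 + U 26 = U 25 + F 32 := hface1 25 (by norm_num)
  have h26 : F 26 + U 27 = U 26 + F 33 := hface1 26 (by norm_num)
  have h27 : F 27 + U 21 = U 27 + F 34 := hface1 27 (by norm_num)
  have r3 : F 21 + F 22 + F 23 + F 24 + F 25 + F 26 + F 27 =
      F 28 + F 29 + F 30 + F 31 + F 32 + F 33 + F 34 := by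
    linarith [h21, h22, h23, h24, h25, h26, h27]
  clear h21 h22 h23 h24 h25 h26 h27
  have h28 : F 28 + U 29 = U 28 + F 35 := hface1 28 (by norm_num)
  have h29 : F 29 + U 30 = U 29 + F 36 := hface1 29 (by norm_num)
  have h30 : F 30 + U 31 = U 30 + F 37 := hface1 30 (by norm_num)
  have h31 : F 31 + U 32 = U 31 + F 38 := hface1 31 (by norm_num)
  have h32 : F 32 + U 33 = U 32 + F 39 := hface1 32 (by norm_num)
  have h33 : F 33 + U 34 = U 33 + F 40 := hface1 33 (by norm_num)
  have h34 : F 34 + U 28 = U 34 + F 41 := hface1 34 (by norm_num)
  have r4 : F 28 + F 29 + F 30 + F 31 + F 32 + F 33 + F 34 =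
      F 35 + F 36 + F 37 + F 38 + F 39 + F 40 + F 41 := by
    linarith [h28, h29, h30, h31, h32, h33, h34]
  clear h28 h29 h30 h31 h32 h33 h34
  have h35 : F 35 + U 36 = U 35 - F 6 := hface2 35 (by norm_num) (by norm_num)
  have h36 : F 36 + U 37 = U 36 - F 5 := hface2 36 (by norm_num) (by norm_num)
  have h37 : F 37 + U 38 = U 37 - F 4 := hface2 37 (by norm_num) (by norm_num)
  have h38 : F 38 + U 39 = U 38 - F 3 := hface2 38 (by norm_num) (by norm_num)
  have h39 : F 39 + U 40 = U 39 - F 2 := hface2 39 (by norm_num) (by norm_num)
  have h40 : F 40 + U 41 = U 40 - F 1 := hface2 40 (by norm_num) (by norm_num)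
  have h41 : F 41 + U 35 = U 41 - F 0 := hface2 41 (by norm_num) (by norm_num)
  have r5 : F 35 + F 36 + F 37 + F 38 + F 39 + F 40 + F 41 =
      -(F 0 + F 1 + F 2 + F 3 + F 4 + F 5 + F 6) := by
    linarith [h35, h36, h37, h38, h39, h40, h41]
  clear h35 h36 h37 h38 h39 h40 h41
  have hodd : ∀ v < 42, F v % 2 = 1 := by
    intro v hv
    rw [hF]
    exact dl_odd _ _ (hc _ hv _ (nx_lt v hv) (adj_nx v))
  have o0 := hodd 0 (by norm_num)
  have o1 := hodd 1 (by norm_num)
  have o2 := hodd 2 (by norm_num)
  have o3 := hodd 3 (by norm_num)
  have o4 := hodd 4 (by norm_num)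
  have o5 := hodd 5 (by norm_num)
  have o6 := hodd 6 (by norm_num)
  have z : 2 * (F 0 + F 1 + F 2 + F 3 + F 4 + F 5 + F 6) = 0 := by linarith [r0, r1, r2, r3, r4, r5]
  clear r0 r1 r2 r3 r4 r5
  omega

lemma not_colorable : ¬ G.Colorable 3 := by
  rintro ⟨c⟩
  refine not_colorable_aux (fun v => if h : v < 42 then c ⟨v, h⟩ else 0) ?_
  intro u hu v hv huv
  simp only [dif_pos hu, dif_pos hv]
  exact c.valid (v := ⟨u, hu⟩) (w := ⟨v, hv⟩) huv

/-! ### Reading off the certificate -/

lemma dg_lt (C v : ℕ) : dg C v < 3 := Nat.mod_lt _ (by norm_num)

/-- the colouring coded by `C` -/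
def col (C : ℕ) (v : Fin 42) : Fin 3 := ⟨dg C v, dg_lt C v⟩

lemma col_eq (C : ℕ) (u v : Fin 42) : col C u = col C v ↔ dg C u = dg C v :=
  ⟨fun h => congrArg Fin.val h, fun h => Fin.ext h⟩

lemma isE_symm (x y : ℕ) (d : ℕ × ℕ × List ℕ) : isE x y d = isE y x d := by
  unfold isE
  rw [Bool.or_comm]

/-- every edge occurs in the list -/
lemma edge_entry (u v : Fin 42) (huv : G.Adj u v) : ∃ d ∈ data, isE u v d = true := by
  have h := edges_ok
  unfold chkEdges at h
  rw [List.all_eq_true] at h
  have key : ∀ a < 42, (∃ d ∈ data, isE a (nx a) d = true) ∧ (∃ d ∈ data, isE a (up a) d = true) := by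
    intro a ha
    have h1 := h a (List.mem_range.2 ha)
    rw [Bool.and_eq_true, List.any_eq_true, List.any_eq_true] at h1
    exact h1
  rw [G_adj] at huv
  unfold adjB at huv
  simp only [Bool.or_eq_true, beq_iff_eq] at huv
  rcases huv with ((h1 | h1) | h1) | h1
  · rw [← h1]; exact (key u u.2).1
  · obtain ⟨d, hd, hd'⟩ := (key v v.2).1
    rw [h1, isE_symm] at hd'
    exact ⟨d, hd, hd'⟩
  · rw [← h1]; exact (key u u.2).2
  · obtain ⟨d, hd, hd'⟩ := (key v v.2).2
    rw [h1, isE_symm] at hd'
    exact ⟨d, hd, hd'⟩

/-- the listed colourings are proper except on the edge of the entry -/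
lemma proper_entry {d : ℕ × ℕ × List ℕ} (hd : d ∈ data) {C : ℕ} (hC : C ∈ d.2.2) (u v : Fin 42)
    (huv : G.Adj u v) (hne : isE u v d = false) : col C u ≠ col C v := by
  have h := proper_ok
  rw [List.all_eq_true] at h
  have h1 := h d hd
  unfold chkProper at h1
  rw [List.all_eq_true] at h1
  have h2 := h1 C hC
  rw [List.all_eq_true] at h2
  have key : ∀ a < 42, (isE a (nx a) d = false → dg C a ≠ dg C (nx a)) ∧
      (isE a (up a) d = false → dg C a ≠ dg C (up a)) := by
    intro a ha
    have h3 := h2 a (List.mem_range.2 ha)
    rw [Bool.and_eq_true, Bool.or_eq_true, Bool.or_eq_true, bne_iff_ne, bne_iff_ne] at h3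
    refine ⟨fun h4 => ?_, fun h4 => ?_⟩
    · rcases h3.1 with h5 | h5
      · exact h5
      · rw [h4] at h5; exact absurd h5 (by decide)
    · rcases h3.2 with h5 | h5
      · exact h5
      · rw [h4] at h5; exact absurd h5 (by decide)
  rw [Ne, col_eq]
  rw [G_adj] at huv
  unfold adjB at huv
  simp only [Bool.or_eq_true, beq_iff_eq] at huv
  rcases huv with ((h1 | h1) | h1) | h1
  · have := (key u u.2).1
    rw [h1] at this
    exact this hne
  · have := (key v v.2).1
    rw [h1] at this
    rw [isE_symm] at hne
    exact fun h => this hne h.symm
  · have := (key u u.2).2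
    rw [h1] at this
    exact this hne
  · have := (key v v.2).2
    rw [h1] at this
    rw [isE_symm] at hne
    exact fun h => this hne h.symm

lemma pair_entry {d : ℕ × ℕ × List ℕ} (hd : d ∈ data) (x y : ℕ) (hx : x < 42) (hy : y < x) :
    chkPair d x y = true := by
  have h := pairs_ok
  rw [List.all_eq_true] at h
  have h1 := h d hd
  unfold chkPairs at h1
  rw [List.all_eq_true] at h1
  have h2 := h1 x (List.mem_range.2 hx)
  rw [List.all_eq_true] at h2
  exact h2 y (List.mem_range.2 hy)

/-- For two distinct vertices, one of the two kinds of forcing is ruled out, entry by entry. -/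
lemma pair_cases (x y : Fin 42) (hxy : x ≠ y) :
    (G.Adj x y ∧ ∀ d ∈ data, isE x y d = true → ∃ C ∈ d.2.2, col C x = col C y) ∨
    (∀ d ∈ data, ∃ C ∈ d.2.2, col C x = col C y) ∨
    (∀ d ∈ data, ∃ C ∈ d.2.2, col C x ≠ col C y) := by
  -- the case `y < x`
  have main : ∀ x y : Fin 42, (y : ℕ) < x →
      (G.Adj x y ∧ ∀ d ∈ data, isE x y d = true → ∃ C ∈ d.2.2, col C x = col C y) ∨
      (∀ d ∈ data, ∃ C ∈ d.2.2, col C x = col C y) ∨
      (∀ d ∈ data, ∃ C ∈ d.2.2, col C x ≠ col C y) := by
    intro x y hlt
    by_cases hadj : adjB x y = true
    · left
      refine ⟨hadj, fun d hd hE => ?_⟩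
      have h := pair_entry hd x y x.2 hlt
      unfold chkPair at h
      rw [if_pos hadj, hE] at h
      simp only [Bool.not_true, Bool.false_or, List.any_eq_true, beq_iff_eq] at h
      obtain ⟨C, hC, h⟩ := h
      exact ⟨C, hC, (col_eq C x y).2 h⟩
    · right
      by_cases hk : kn x y = true
      · left
        intro d hd
        have h := pair_entry hd x y x.2 hlt
        unfold chkPair at h
        rw [if_neg hadj, if_pos hk] at h
        simp only [List.any_eq_true, beq_iff_eq] at h
        obtain ⟨C, hC, h⟩ := h
        exact ⟨C, hC, (col_eq C x y).2 h⟩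
      · right
        intro d hd
        have h := pair_entry hd x y x.2 hlt
        unfold chkPair at h
        rw [if_neg hadj, if_neg hk] at h
        simp only [List.any_eq_true, bne_iff_ne] at h
        obtain ⟨C, hC, h⟩ := h
        exact ⟨C, hC, fun h' => h ((col_eq C x y).1 h')⟩
  rcases lt_or_gt_of_ne (fun h => hxy (Fin.ext h) : (x : ℕ) ≠ y) with h | h
  · rcases main y x h with h1 | h1 | h1
    · left
      refine ⟨h1.1.symm, fun d hd hE => ?_⟩
      rw [isE_symm] at hE
      obtain ⟨C, hC, h2⟩ := h1.2 d hd hE
      exact ⟨C, hC, h2.symm⟩
    · right; left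
      intro d hd
      obtain ⟨C, hC, h2⟩ := h1 d hd
      exact ⟨C, hC, h2.symm⟩
    · right; right
      intro d hd
      obtain ⟨C, hC, h2⟩ := h1 d hd
      exact ⟨C, hC, h2.symm⟩
  · exact main x y h

/-- A `3`-colourable subgraph misses some edge. -/
lemma exists_missing (S : G.Subgraph) (hS : S.coe.Colorable 3) :
    ∃ u v, G.Adj u v ∧ ¬ S.Adj u v := by
  by_contra hcon
  push Not at hcon
  obtain ⟨c⟩ := hS
  have hv : ∀ v : Fin 42, v ∈ S.verts := fun v =>
    (hcon v ⟨nx v, nx_lt v v.2⟩ (adj_nx v)).fst_mem
  exact not_colorable ⟨SimpleGraph.Coloring.mk (fun v => c ⟨v, hv v⟩)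
    (fun {u v} huv => c.valid (show S.coe.Adj ⟨u, hv u⟩ ⟨v, hv v⟩ from hcon u v huv))⟩

/-- A listed colouring of `G - e` restricts to any subgraph without the edge `e`. -/
lemma restrict (S : G.Subgraph) {d : ℕ × ℕ × List ℕ} (hd : d ∈ data) {u v : Fin 42}
    (hE : isE u v d = true) (hS : ¬ S.Adj u v) {C : ℕ} (hC : C ∈ d.2.2) :
    ∃ c : S.coe.Coloring (Fin 3), ∀ x (hx : x ∈ S.verts), c ⟨x, hx⟩ = col C x := by
  refine ⟨SimpleGraph.Coloring.mk (fun w => col C w.1) ?_, fun x hx => rfl⟩
  rintro ⟨a, ha⟩ ⟨b, hb⟩ hab
  have hab' : S.Adj a b := hab
  refine proper_entry hd hC a b hab'.adj_sub ?_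
  by_contra hne
  rw [Bool.not_eq_false] at hne
  -- then `{a, b} = {u, v}`
  unfold isE at hE hne
  simp only [Bool.or_eq_true, Bool.and_eq_true, beq_iff_eq] at hE hne
  have : (a = u ∧ b = v) ∨ (a = v ∧ b = u) := by
    rcases hE with ⟨h1, h2⟩ | ⟨h1, h2⟩ <;> rcases hne with ⟨h3, h4⟩ | ⟨h3, h4⟩
    · left; exact ⟨Fin.ext (by omega), Fin.ext (by omega)⟩
    · right; exact ⟨Fin.ext (by omega), Fin.ext (by omega)⟩
    · right; exact ⟨Fin.ext (by omega), Fin.ext (by omega)⟩
    · left; exact ⟨Fin.ext (by omega), Fin.ext (by omega)⟩
  rcases this with ⟨rfl, rfl⟩ | ⟨rfl, rfl⟩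
  · exact hS hab'
  · exact hS hab'.symm

/-- The negation of the preceding statement: Every finite K4-free graph that is not 3-colorable has distinct vertices x,y and two 3-colorable subgraphs containing x,y but not edge xy, one where every 3-coloring separates x,y and one where every 3-coloring equates them. -/
theorem result :
    ¬ (∀ (V : Type) [Fintype V] (G : SimpleGraph V),
      G.CliqueFree 4 → ¬ G.Colorable 3 →
      ∃ x y : V, x ≠ y ∧
        ∃ G₁ G₂ : G.Subgraph,
        ∃ hx₁ : x ∈ G₁.verts, ∃ hy₁ : y ∈ G₁.verts,
        ∃ hx₂ : x ∈ G₂.verts, ∃ hy₂ : y ∈ G₂.verts,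
          ¬ G₁.Adj x y ∧ ¬ G₂.Adj x y ∧
          G₁.coe.Colorable 3 ∧ G₂.coe.Colorable 3 ∧
          (∀ c : G₁.coe.Coloring (Fin 3), c ⟨x, hx₁⟩ ≠ c ⟨y, hy₁⟩) ∧
          (∀ c : G₂.coe.Coloring (Fin 3), c ⟨x, hx₂⟩ = c ⟨y, hy₂⟩)) := by
  intro h
  obtain ⟨x, y, hxy, G₁, G₂, hx₁, hy₁, hx₂, hy₂, hn₁, -, hc₁, hc₂, hd₁, hd₂⟩ :=
    h (Fin 42) G cliqueFree not_colorable
  rcases pair_cases x y hxy with ⟨hadj, hp⟩ | hp | hp
  · obtain ⟨d, hd, hE⟩ := edge_entry x y hadj
    obtain ⟨C, hC, hcol⟩ := hp d hd hE
    obtain ⟨c, hc⟩ := restrict G₁ hd hE hn₁ hC
    exact hd₁ c (by rw [hc x hx₁, hc y hy₁, hcol])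
  · obtain ⟨u, v, huv, hm⟩ := exists_missing G₁ hc₁
    obtain ⟨d, hd, hE⟩ := edge_entry u v huv
    obtain ⟨C, hC, hcol⟩ := hp d hd
    obtain ⟨c, hc⟩ := restrict G₁ hd hE hm hC
    exact hd₁ c (by rw [hc x hx₁, hc y hy₁, hcol])
  · obtain ⟨u, v, huv, hm⟩ := exists_missing G₂ hc₂
    obtain ⟨d, hd, hE⟩ := edge_entry u v huv
    obtain ⟨C, hC, hcol⟩ := hp d hd
    obtain ⟨c, hc⟩ := restrict G₂ hd hE hm hC
    exact hcol (by rw [← hc x hx₂, ← hc y hy₂, hd₂ c])

end Pool.Agent.S11952
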