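import Pool.Statements.S12052

set_option autoImplicit false
open Pool Pool.MP_e385a0_co

namespace Pool.Agent.S12052

/-- The pairs `i < j` of indices in `Fin 3`. -/
abbrev D : Type := {p : Fin 3 × Fin 3 // p.1 < p.2}

/-- The points of the rank 3 Dowling geometry over `A`. -/
abbrev Pt (A : Type) : Type := Fin 3 ⊕ (A × D)

/-- Vertex support of a point. -/
def V {A : Type} (e : Pt A) : Finset (Fin 3) :=
  Sum.elim (fun i => ({i} : Finset (Fin 3)))
    (fun x => ({x.2.1.1, x.2.1.2} : Finset (Fin 3))) e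

/-- Independence in the rank 3 Dowling geometry (as in the frozen statement). -/
def FI {A : Type} [Group A] (Y : Set (Pt A)) : Prop :=
  ∀ T : Finset (Fin 3 ⊕ (A × {p : Fin 3 × Fin 3 // p.1 < p.2})),
    (↑T ⊆ Y) → T.Nonempty →
      (T.card ≤ (T.biUnion (fun e => Sum.elim (fun i => ({i} : Finset (Fin 3)))
          (fun x => ({x.2.1.1, x.2.1.2} : Finset (Fin 3))) e)).card ∧
       (((∀ i : Fin 3, Sum.inl i ∉ T) ∧
          ∃ φ : Fin 3 → A, ∀ x : A × {p : Fin 3 × Fin 3 // p.1 < p.2},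
            Sum.inr x ∈ T → x.1 = φ x.2.1.1 * (φ x.2.1.2)⁻¹) →
        T.card + 1 ≤ (T.biUnion (fun e => Sum.elim (fun i => ({i} : Finset (Fin 3)))
          (fun x => ({x.2.1.1, x.2.1.2} : Finset (Fin 3))) e)).card))

/-- The point `e` is internal and balanced with respect to the potential `φ`. -/
def Bal {A : Type} [Group A] (φ : Fin 3 → A) (e : Pt A) : Prop :=
  ∃ x : A × D, e = Sum.inr x ∧ x.1 = φ x.2.1.1 * (φ x.2.1.2)⁻¹

/-- Collinearity of three points. -/
def Col {A : Type} [Group A] (x y z : Pt A) : Prop :=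
  (∃ k, k ∉ V x ∧ k ∉ V y ∧ k ∉ V z) ∨ (∃ φ : Fin 3 → A, Bal φ x ∧ Bal φ y ∧ Bal φ z)

section basics

variable {A : Type} [Group A]

theorem FI_iff (Y : Set (Pt A)) : FI Y ↔
    ∀ T : Finset (Pt A), (↑T ⊆ Y) → T.Nonempty →
      (T.card ≤ (T.biUnion V).card ∧
       ((∃ φ : Fin 3 → A, ∀ e ∈ T, Bal φ e) → T.card + 1 ≤ (T.biUnion V).card)) := by
  unfold FI
  refine forall_congr' fun T => forall_congr' fun _ => forall_congr' fun _ => ?_
  refine and_congr Iff.rfl (imp_congr ?_ Iff.rfl)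
  constructor
  · rintro ⟨h1, φ, h2⟩
    refine ⟨φ, fun e he => ?_⟩
    cases e with
    | inl i => exact absurd he (h1 i)
    | inr x => exact ⟨x, rfl, h2 x he⟩
  · rintro ⟨φ, h⟩
    refine ⟨fun i hi => ?_, φ, fun x hx => ?_⟩
    · obtain ⟨x, hx, _⟩ := h _ hi
      cases hx
    · obtain ⟨y, hy, h'⟩ := h _ hx
      cases hy
      exact h'

theorem FI_mono {Y Z : Set (Pt A)} (h : FI Z) (hYZ : Y ⊆ Z) : FI Y :=
  fun T hT hne => h T (hT.trans hYZ) hne

theorem FI_empty : FI (∅ : Set (Pt A)) := by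
  intro T hT hne
  obtain ⟨e, he⟩ := hne
  exact absurd (hT he) (by simp)

theorem biUnion_V_card_le (T : Finset (Pt A)) : (T.biUnion V).card ≤ 3 :=
  (Finset.card_le_univ _).trans (by simp)

theorem FI_card {Y : Set (Pt A)} (h : FI Y) (T : Finset (Pt A)) (hT : ↑T ⊆ Y) : T.card ≤ 3 := by
  rcases T.eq_empty_or_nonempty with rfl | hne
  · simp
  · exact (((FI_iff Y).1 h T hT hne).1).trans (biUnion_V_card_le T)

theorem V_inr (x : A × D) : V (Sum.inr x : Pt A) = {x.2.1.1, x.2.1.2} := rfl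

theorem V_inl (i : Fin 3) : V (Sum.inl i : Pt A) = {i} := rfl

theorem card_V_inr (x : A × D) : (V (Sum.inr x : Pt A)).card = 2 := by
  rw [V_inr, Finset.card_pair]
  exact ne_of_lt x.2.2

theorem V_nonempty (e : Pt A) : (V e).Nonempty := by
  cases e with
  | inl i => exact ⟨i, by simp [V_inl]⟩
  | inr x => exact ⟨x.2.1.1, by simp [V_inr]⟩

theorem D_ext_of_pair_eq (p q : D) (h : ({p.1.1, p.1.2} : Finset (Fin 3)) = {q.1.1, q.1.2}) :
    p = q := by
  revert p q
  decide

theorem D_card_union (p q : D) (h : p ≠ q) :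
    (({p.1.1, p.1.2} : Finset (Fin 3)) ∪ {q.1.1, q.1.2}).card = 3 := by
  revert p q
  decide

theorem Bal_eq_of_V {φ : Fin 3 → A} {e e' : Pt A} (h : Bal φ e) (h' : Bal φ e')
    (hV : V e = V e') : e = e' := by
  obtain ⟨x, rfl, hx⟩ := h
  obtain ⟨y, rfl, hy⟩ := h'
  have : x.2 = y.2 := D_ext_of_pair_eq _ _ hV
  have h1 : x.1 = y.1 := by rw [hx, hy, this]
  rw [Prod.ext h1 this]

theorem Bal_union {φ : Fin 3 → A} {e e' : Pt A} (h : Bal φ e) (h' : Bal φ e')
    (hne : e ≠ e') : (V e ∪ V e').card = 3 := by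
  obtain ⟨x, rfl, hx⟩ := id h
  obtain ⟨y, rfl, hy⟩ := id h'
  have : x.2 ≠ y.2 := fun h2 => hne (Bal_eq_of_V h h' (by rw [V_inr, V_inr, h2]))
  exact D_card_union _ _ this

theorem card_union_ge {e e' : Pt A} (hne : e ≠ e') : 2 ≤ (V e ∪ V e').card := by
  cases e with
  | inr x => exact (card_V_inr x).ge.trans (Finset.card_le_card Finset.subset_union_left)
  | inl i =>
    cases e' with
    | inr y => exact (card_V_inr y).ge.trans (Finset.card_le_card Finset.subset_union_right)
    | inl j =>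
      have : i ≠ j := fun h => hne (by rw [h])
      rw [V_inl, V_inl]
      have h2 : ({i} ∪ {j} : Finset (Fin 3)) = {i, j} := rfl
      rw [h2, Finset.card_pair this]

/-- the condition for a given finite set `T` -/
def Good (T : Finset (Pt A)) : Prop :=
  T.card ≤ (T.biUnion V).card ∧
       ((∃ φ : Fin 3 → A, ∀ e ∈ T, Bal φ e) → T.card + 1 ≤ (T.biUnion V).card)

theorem good_of_card_one {T : Finset (Pt A)} (h : T.card = 1) : Good T := by
  obtain ⟨e, rfl⟩ := Finset.card_eq_one.1 h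
  refine ⟨?_, ?_⟩
  · rw [Finset.singleton_biUnion, Finset.card_singleton]
    exact (V_nonempty e).card_pos
  · rintro ⟨φ, hφ⟩
    obtain ⟨x, rfl, -⟩ := hφ e (by simp)
    rw [Finset.singleton_biUnion, Finset.card_singleton, card_V_inr]

theorem good_of_card_two {T : Finset (Pt A)} (h : T.card = 2) : Good T := by
  classical
  obtain ⟨e, e', hne, rfl⟩ := Finset.card_eq_two.1 h
  have hb : (({e, e'} : Finset (Pt A)).biUnion V) = V e ∪ V e' := by
    ext k; simp
  refine ⟨?_, ?_⟩
  · rw [h, hb]; exact card_union_ge hne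
  · rintro ⟨φ, hφ⟩
    rw [h, hb, Bal_union (hφ e (by simp)) (hφ e' (by simp)) hne]

theorem exists_notMem_of_card_lt {s : Finset (Fin 3)} (h : s.card < 3) : ∃ k, k ∉ s := by
  by_contra hcon
  push Not at hcon
  have : s = Finset.univ := Finset.eq_univ_of_forall hcon
  rw [this] at h
  simp at h

theorem good_of_card_three {T : Finset (Pt A)} (h : T.card = 3)
    (h1 : ¬ ∃ k, ∀ e ∈ T, k ∉ V e) (h2 : ¬ ∃ φ : Fin 3 → A, ∀ e ∈ T, Bal φ e) : Good T := by
  refine ⟨?_, fun h' => absurd h' h2⟩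
  by_contra hlt
  push Not at hlt
  rw [h] at hlt
  obtain ⟨k, hk⟩ := exists_notMem_of_card_lt hlt
  exact h1 ⟨k, fun e he hke => hk (Finset.mem_biUnion.2 ⟨e, he, hke⟩)⟩

theorem good_card_three_iff {T : Finset (Pt A)} (h : T.card = 3) : Good T ↔
    (¬ ∃ k, ∀ e ∈ T, k ∉ V e) ∧ (¬ ∃ φ : Fin 3 → A, ∀ e ∈ T, Bal φ e) := by
  refine ⟨fun hg => ⟨?_, ?_⟩, fun ⟨h1, h2⟩ => good_of_card_three h h1 h2⟩
  · rintro ⟨k, hk⟩
    have h3 := hg.1
    have h4 : (T.biUnion V).card ≤ ((Finset.univ : Finset (Fin 3)).erase k).card := by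
      apply Finset.card_le_card
      intro j hj
      obtain ⟨e, he, hje⟩ := Finset.mem_biUnion.1 hj
      rw [Finset.mem_erase]
      refine ⟨?_, Finset.mem_univ _⟩
      rintro rfl
      exact hk e he hje
    rw [Finset.card_erase_of_mem (Finset.mem_univ _)] at h4
    simp at h4
    omega
  · intro hφ
    have h3 := hg.2 hφ
    have h4 := biUnion_V_card_le T
    omega

/-- Characterisation of independence of finite sets. -/
theorem FI_finset_iff (S : Finset (Pt A)) : FI (↑S : Set (Pt A)) ↔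
    (S.card ≤ 2 ∨ (S.card = 3 ∧ (¬ ∃ k, ∀ e ∈ S, k ∉ V e) ∧
      (¬ ∃ φ : Fin 3 → A, ∀ e ∈ S, Bal φ e))) := by
  rw [FI_iff]
  constructor
  · intro h
    rcases Nat.lt_or_ge S.card 3 with h3 | h3
    · left; omega
    · right
      have hne : S.Nonempty := Finset.card_pos.1 (by omega)
      have hg : Good S := h S (Set.Subset.refl _) hne
      have : S.card = 3 := le_antisymm (hg.1.trans (biUnion_V_card_le S)) h3
      exact ⟨this, (good_card_three_iff this).1 hg⟩
  · intro h T hTS hne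
    have hTS' : T ⊆ S := by exact_mod_cast hTS
    have hcard := Finset.card_le_card hTS'
    have hpos : 0 < T.card := Finset.card_pos.2 hne
    change Good T
    rcases h with h | ⟨h3, h4⟩
    · have : T.card = 1 ∨ T.card = 2 := by omega
      rcases this with h' | h'
      · exact good_of_card_one h'
      · exact good_of_card_two h'
    · have : T.card = 1 ∨ T.card = 2 ∨ T.card = 3 := by omega
      rcases this with h' | h' | h'
      · exact good_of_card_one h'
      · exact good_of_card_two h'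
      · have : T = S := Finset.eq_of_subset_of_card_le hTS' (by omega)
        subst this
        exact (good_card_three_iff h').2 h4

theorem delta_eq {φ ψ : Fin 3 → A} {i j : Fin 3} (h : φ i * (φ j)⁻¹ = ψ i * (ψ j)⁻¹) :
    (ψ i)⁻¹ * φ i = (ψ j)⁻¹ * φ j := by
  have h1 : φ i = ψ i * (ψ j)⁻¹ * φ j := by rw [← h]; group
  rw [h1]; group

theorem eq_of_delta {φ ψ : Fin 3 → A} {i j : Fin 3} (h : (ψ i)⁻¹ * φ i = (ψ j)⁻¹ * φ j) :
    φ i * (φ j)⁻¹ = ψ i * (ψ j)⁻¹ := by
  have h1 : φ i = ψ i * ((ψ j)⁻¹ * φ j) := by rw [← h]; group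
  rw [h1]; group

theorem delta_const (δ : Fin 3 → A) (p q : D) (hpq : p ≠ q) (hp : δ p.1.1 = δ p.1.2)
    (hq : δ q.1.1 = δ q.1.2) (r : D) : δ r.1.1 = δ r.1.2 := by
  obtain ⟨⟨p1, p2⟩, hp12⟩ := p
  obtain ⟨⟨q1, q2⟩, hq12⟩ := q
  obtain ⟨⟨r1, r2⟩, hr12⟩ := r
  simp only at hp hq ⊢
  have hne : (p1, p2) ≠ (q1, q2) := fun h => hpq (Subtype.ext h)
  simp only [ne_eq, Prod.mk.injEq] at hne
  fin_cases p1 <;> fin_cases p2 <;> first | (exact absurd hp12 (by decide)) | skip
  all_goals (fin_cases q1 <;> fin_cases q2 <;> first | (exact absurd hq12 (by decide)) | skip)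
  all_goals (fin_cases r1 <;> fin_cases r2 <;> first | (exact absurd hr12 (by decide)) | skip)
  all_goals (simp at hp hq hne ⊢)
  all_goals (first | assumption | (exact hp.trans hq) | (exact hq.trans hp) | (exact hp.symm.trans hq) |
    (exact hq.symm.trans hp) | (exact hp.trans hq.symm) | (exact hq.trans hp.symm))

theorem Bal_transfer {φ ψ : Fin 3 → A} {x y z : Pt A} (hne : x ≠ y)
    (hφx : Bal φ x) (hφy : Bal φ y) (hψx : Bal ψ x) (hψy : Bal ψ y) (hψz : Bal ψ z) : Bal φ z := by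
  have hVne : V x ≠ V y := fun h => hne (Bal_eq_of_V hφx hφy h)
  obtain ⟨a, rfl, ha⟩ := hφx
  obtain ⟨b, rfl, hb⟩ := hφy
  obtain ⟨a', haa, ha'⟩ := hψx
  obtain ⟨b', hbb, hb'⟩ := hψy
  cases haa
  cases hbb
  obtain ⟨c, rfl, hc⟩ := hψz
  have h1 := delta_eq (ha.symm.trans ha')
  have h2 := delta_eq (hb.symm.trans hb')
  have hpq : a.2 ≠ b.2 := fun h => hVne (by rw [V_inr, V_inr, h])
  have h3 := delta_const (fun i => (ψ i)⁻¹ * φ i) a.2 b.2 hpq h1 h2 c.2
  exact ⟨c, rfl, hc.trans (eq_of_delta h3).symm⟩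

theorem line_cases (x y : Pt A) (hne : x ≠ y) :
    (∃ k, ∀ z, (z = x ∨ z = y ∨ Col x y z) → k ∉ V z) ∨
    (∃ φ : Fin 3 → A, ∀ z, (z = x ∨ z = y ∨ Col x y z) → Bal φ z) ∨
    (∀ z, (z = x ∨ z = y ∨ Col x y z) → z = x ∨ z = y) := by
  by_cases hk : ∃ k, k ∉ V x ∧ k ∉ V y
  · left
    obtain ⟨k, hkx, hky⟩ := hk
    refine ⟨k, ?_⟩
    rintro z (rfl | rfl | ⟨k', h1, h2, h3⟩ | ⟨φ, h1, h2, h3⟩)
    · exact hkx
    · exact hky
    · have hkk : k = k' := by
        by_contra hkk
        have hsub : V x ∪ V y ⊆ ({k, k'} : Finset (Fin 3))ᶜ := by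
          intro j hj
          rw [Finset.mem_compl, Finset.mem_insert, Finset.mem_singleton]
          rintro (rfl | rfl)
          · rcases Finset.mem_union.1 hj with h | h
            · exact hkx h
            · exact hky h
          · rcases Finset.mem_union.1 hj with h | h
            · exact h1 h
            · exact h2 h
        have h4 := Finset.card_le_card hsub
        rw [Finset.card_compl, Finset.card_pair hkk] at h4
        have h5 := card_union_ge hne
        simp at h4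
        omega
      rw [hkk]; exact h3
    · exfalso
      have h4 := Bal_union h1 h2 hne
      have h5 : V x ∪ V y = Finset.univ := by
        apply Finset.eq_univ_of_card
        rw [h4]; rfl
      have h6 : k ∈ V x ∪ V y := by rw [h5]; exact Finset.mem_univ _
      rcases Finset.mem_union.1 h6 with h | h
      · exact hkx h
      · exact hky h
  · right
    by_cases hφ : ∃ φ : Fin 3 → A, Bal φ x ∧ Bal φ y
    · left
      obtain ⟨φ, hx, hy⟩ := hφ
      refine ⟨φ, ?_⟩
      rintro z (rfl | rfl | ⟨k', h1, h2, h3⟩ | ⟨ψ, h1, h2, h3⟩)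
      · exact hx
      · exact hy
      · exact absurd ⟨k', h1, h2⟩ hk
      · exact Bal_transfer hne hx hy h1 h2 h3
    · right
      rintro z (rfl | rfl | ⟨k', h1, h2, h3⟩ | ⟨ψ, h1, h2, h3⟩)
      · exact Or.inl rfl
      · exact Or.inr rfl
      · exact absurd ⟨k', h1, h2⟩ hk
      · exact absurd ⟨ψ, h1, h2⟩ hφ

/-- Augmentation property. -/
theorem FI_aug {I J : Finset (Pt A)} (hI : FI (↑I : Set (Pt A))) (hJ : FI (↑J : Set (Pt A)))
    (hIJ : I.card < J.card) : ∃ e ∈ J, e ∉ I ∧ ∀ K : Finset (Pt A),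
      (∀ z, z ∈ K ↔ z = e ∨ z ∈ I) → FI (↑K : Set (Pt A)) := by
  classical
  have hJ3 : J.card ≤ 3 := FI_card hJ J (Set.Subset.refl _)
  have key : ∀ K : Finset (Pt A), ∀ e, e ∉ I → (∀ z, z ∈ K ↔ z = e ∨ z ∈ I) →
      K.card = I.card + 1 := by
    intro K e he hK
    have : K = insert e I := by
      ext z; rw [hK, Finset.mem_insert]
    rw [this, Finset.card_insert_of_notMem he]
  rcases Nat.lt_or_ge I.card 2 with h2 | h2
  · obtain ⟨e, heJ, heI⟩ := Finset.exists_mem_notMem_of_card_lt_card hIJ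
    refine ⟨e, heJ, heI, fun K hK => ?_⟩
    rw [FI_finset_iff]
    left
    rw [key K e heI hK]
    omega
  · have hI2 : I.card = 2 := by omega
    have hJ3' : J.card = 3 := by omega
    obtain ⟨x, y, hxy, rfl⟩ := Finset.card_eq_two.1 hI2
    by_contra hcon
    push Not at hcon
    have hall : ∀ z ∈ J, z = x ∨ z = y ∨ Col x y z := by
      intro z hz
      by_cases hzI : z ∈ ({x, y} : Finset (Pt A))
      · rw [Finset.mem_insert, Finset.mem_singleton] at hzI
        tauto
      · obtain ⟨K, hK, hFI⟩ := hcon z hz hzI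
        right; right
        rw [FI_finset_iff] at hFI
        push Not at hFI
        have hK3 := key K z hzI hK
        have hK3' : K.card = 3 := by omega
        have h3 := hFI.2 hK3'
        by_cases hk : ∃ k, ∀ e ∈ K, k ∉ V e
        · obtain ⟨k, hk⟩ := hk
          left
          exact ⟨k, hk x ((hK x).2 (by simp)), hk y ((hK y).2 (by simp)),
            hk z ((hK z).2 (by simp))⟩
        · push Not at hk
          obtain ⟨φ, hφ⟩ := h3 hk
          right
          exact ⟨φ, hφ x ((hK x).2 (by simp)), hφ y ((hK y).2 (by simp)),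
            hφ z ((hK z).2 (by simp))⟩
    rw [FI_finset_iff] at hJ
    rcases hJ with hJ | ⟨_, hJ1, hJ2⟩
    · omega
    · rcases line_cases x y hxy with ⟨k, hk⟩ | ⟨φ, hφ⟩ | h
      · exact hJ1 ⟨k, fun e he => hk e (hall e he)⟩
      · exact hJ2 ⟨φ, fun e he => hφ e (hall e he)⟩
      · have : J ⊆ {x, y} := by
          intro z hz
          rw [Finset.mem_insert, Finset.mem_singleton]
          exact h z (hall z hz)
        have := Finset.card_le_card this
        omega

end basics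

/-- The restriction of the Dowling geometry to finitely many points, as a matroid. -/
theorem exists_matroid {A : Type} [Group A] {n : ℕ} (f : Fin n → Pt A)
    (hf : Function.Injective f) :
    ∃ M : Matroid (Fin n), M.E = Set.univ ∧ ∀ X, M.Indep X ↔ FI (f '' X) := by
  classical
  have h1 : FI (f '' (↑(∅ : Finset (Fin n)) : Set (Fin n))) := by simpa using FI_empty
  have h2 : ∀ ⦃I J : Finset (Fin n)⦄, FI (f '' (↑J : Set (Fin n))) → I ⊆ J →
      FI (f '' (↑I : Set (Fin n))) :=
    fun I J hJ hIJ => FI_mono hJ (Set.image_mono (by exact_mod_cast hIJ))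
  have h3 : ∀ ⦃I J : Finset (Fin n)⦄, FI (f '' (↑I : Set (Fin n))) →
      FI (f '' (↑J : Set (Fin n))) → I.card < J.card →
      ∃ e ∈ J, e ∉ I ∧ FI (f '' (↑(insert e I) : Set (Fin n))) := by
    intro I J hI hJ hIJ
    have hI' : FI (↑(I.map ⟨f, hf⟩) : Set (Pt A)) := by simpa using hI
    have hJ' : FI (↑(J.map ⟨f, hf⟩) : Set (Pt A)) := by simpa using hJ
    obtain ⟨e, heJ, heI, h⟩ := FI_aug hI' hJ' (by simpa using hIJ)
    obtain ⟨i, hi, rfl⟩ := Finset.mem_map.1 heJ
    refine ⟨i, hi, fun hiI => heI (Finset.mem_map_of_mem _ hiI), ?_⟩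
    have := h ((insert i I).map ⟨f, hf⟩) (by
      intro z
      simp only [Finset.mem_map, Finset.mem_insert, Function.Embedding.coeFn_mk]
      constructor
      · rintro ⟨a, rfl | ha, rfl⟩
        · exact Or.inl rfl
        · exact Or.inr ⟨a, ha, rfl⟩
      · rintro (rfl | ⟨a, ha, rfl⟩)
        · exact ⟨i, Or.inl rfl, rfl⟩
        · exact ⟨a, Or.inr ha, rfl⟩)
    have hset : (↑((insert i I).map ⟨f, hf⟩) : Set (Pt A)) =
        f '' (↑(insert i I) : Set (Fin n)) := by
      rw [Finset.coe_map]; rfl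
    rw [hset] at this
    exact this
  have h4 : ∀ ⦃I : Finset (Fin n)⦄, FI (f '' (↑I : Set (Fin n))) →
      (↑I : Set (Fin n)) ⊆ Set.univ := fun I _ => Set.subset_univ _
  refine ⟨(IndepMatroid.ofFinset Set.univ
    (fun I : Finset (Fin n) => FI (f '' (↑I : Set (Fin n)))) h1 h2 h3 h4).matroid, rfl,
    fun X => ?_⟩
  have hX : ((X.toFinite.toFinset : Finset (Fin n)) : Set (Fin n)) = X :=
    Set.Finite.coe_toFinset _
  rw [← hX]
  exact IndepMatroid.ofFinset_indep (Set.univ : Set (Fin n))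
    (fun I : Finset (Fin n) => FI (f '' (↑I : Set (Fin n)))) h1 h2 h3 h4

/-- Three distinct points are independent iff they are not collinear. -/
theorem FI_triple {A : Type} [Group A] {x y z : Pt A} (hxy : x ≠ y) (hxz : x ≠ z)
    (hyz : y ≠ z) : FI ({x, y, z} : Set (Pt A)) ↔ ¬ Col x y z := by
  classical
  have h : (↑({x, y, z} : Finset (Pt A)) : Set (Pt A)) = {x, y, z} := by simp
  rw [← h, FI_finset_iff]
  have hc : ({x, y, z} : Finset (Pt A)).card = 3 := Finset.card_eq_three.2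
    ⟨x, y, z, hxy, hxz, hyz, rfl⟩
  rw [hc]
  constructor
  · rintro (h | ⟨_, h1, h2⟩)
    · omega
    · rintro (⟨k, hx, hy, hz⟩ | ⟨φ, hx, hy, hz⟩)
      · apply h1
        refine ⟨k, fun e he => ?_⟩
        simp only [Finset.mem_insert, Finset.mem_singleton] at he
        rcases he with rfl | rfl | rfl <;> assumption
      · apply h2
        refine ⟨φ, fun e he => ?_⟩
        simp only [Finset.mem_insert, Finset.mem_singleton] at he
        rcases he with rfl | rfl | rfl <;> assumption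
  · intro h
    right
    refine ⟨rfl, ?_, ?_⟩
    · rintro ⟨k, hk⟩
      exact h (Or.inl ⟨k, hk x (by simp), hk y (by simp), hk z (by simp)⟩)
    · rintro ⟨φ, hk⟩
      exact h (Or.inr ⟨φ, hk x (by simp), hk y (by simp), hk z (by simp)⟩)

/-- The index set of the points used: three joints and three copies of `S`. -/
abbrev Idx {A : Type} (S : Finset A) : Type := Fin 3 ⊕ ({a // a ∈ S} × D)

/-- The embedding of the index set in the Dowling geometry of `A`. -/
def emb {A : Type} (S : Finset A) : Idx S → Pt A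
  | Sum.inl i => Sum.inl i
  | Sum.inr x => Sum.inr (x.1.1, x.2)

theorem emb_injective {A : Type} (S : Finset A) : Function.Injective (emb S) := by
  rintro (i | ⟨a, d⟩) (j | ⟨b, d'⟩) h
  · cases h; rfl
  · cases h
  · cases h
  · simp only [emb, Sum.inr.injEq, Prod.mk.injEq] at h
    obtain ⟨h1, h2⟩ := h
    rw [Subtype.ext h1, h2]

section extract

variable {A A' : Type} [Group A] [Group A'] {S : Finset A}

theorem col_iff {g : Idx S → Pt A'} (hg : Function.Injective g)
    (h : ∀ X : Set (Idx S), FI (emb S '' X) ↔ FI (g '' X)) {x y z : Idx S}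
    (hxy : x ≠ y) (hxz : x ≠ z) (hyz : y ≠ z) :
    Col (emb S x) (emb S y) (emb S z) ↔ Col (g x) (g y) (g z) := by
  have h1 := h {x, y, z}
  rw [Set.image_insert_eq, Set.image_pair, Set.image_insert_eq, Set.image_pair,
    FI_triple ((emb_injective S).ne hxy) ((emb_injective S).ne hxz) ((emb_injective S).ne hyz),
    FI_triple (hg.ne hxy) (hg.ne hxz) (hg.ne hyz)] at h1
  exact not_iff_not.1 h1

theorem four_points {φ : Fin 3 → A'} (p : Fin 4 → Pt A') (hp : Function.Injective p)
    (hφ : ∀ i, Bal φ (p i)) : False := by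
  choose x hx hx' using hφ
  obtain ⟨i, j, hij, hd⟩ := Fintype.exists_ne_map_eq_of_card_lt (fun i => (x i).2)
    (by decide : Fintype.card D < Fintype.card (Fin 4))
  apply hij
  apply hp
  apply Bal_eq_of_V (φ := φ) ⟨x i, hx i, hx' i⟩ ⟨x j, hx j, hx' j⟩
  have hd' : (x i).2 = (x j).2 := hd
  rw [hx i, hx j, V_inr, V_inr, hd']

/-- The pair of indices different from `k`. -/
theorem exists_pair (k : Fin 3) : ∃ d : D, k ≠ d.1.1 ∧ k ≠ d.1.2 := by
  revert k
  decide

theorem exists_sigma {g : Idx S → Pt A'} (hg : Function.Injective g)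
    (h : ∀ X : Set (Idx S), FI (emb S '' X) ↔ FI (g '' X))
    (h1 : (1 : A) ∈ S) {s : A} (hs : s ∈ S) (hs1 : s ≠ 1) (k : Fin 3) :
    ∃ k', ∀ x, k ∉ V (emb S x) → k' ∉ V (g x) := by
  obtain ⟨d, hd1, hd2⟩ := exists_pair k
  have hd12 : d.1.1 ≠ d.1.2 := ne_of_lt d.2
  let p : Fin 4 → Idx S := ![Sum.inl d.1.1, Sum.inl d.1.2, Sum.inr (⟨1, h1⟩, d),
    Sum.inr (⟨s, hs⟩, d)]
  have hp : Function.Injective p := by
    intro i j hij
    fin_cases i <;> fin_cases j <;> simp [p, hd12, hd12.symm, hs1, hs1.symm] at hij ⊢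
  have hpk : ∀ i, k ∉ V (emb S (p i)) := by
    intro i
    fin_cases i <;> simp [p, emb, V, hd1, hd2]
  have hline : ∀ z, k ∉ V (emb S z) → (g z = g (p 0) ∨ g z = g (p 1) ∨
      Col (g (p 0)) (g (p 1)) (g z)) := by
    intro z hz
    by_cases hz0 : z = p 0
    · left; rw [hz0]
    · by_cases hz1 : z = p 1
      · right; left; rw [hz1]
      · right; right
        rw [← col_iff hg h (hp.ne (by decide)) (Ne.symm hz0) (Ne.symm hz1)]
        left
        exact ⟨k, hpk 0, hpk 1, hz⟩
  rcases line_cases (g (p 0)) (g (p 1)) (hg.ne (hp.ne (by decide))) with ⟨k', hk'⟩ | ⟨φ, hφ⟩ | h3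
  · exact ⟨k', fun x hx => hk' _ (hline x hx)⟩
  · exact (four_points (φ := φ) (fun i => g (p i)) (hg.comp hp)
      (fun i => hφ _ (hline _ (hpk i)))).elim
  · rcases h3 _ (hline _ (hpk 2)) with h4 | h4
    · exact absurd (hp (hg h4)) (by decide)
    · exact absurd (hp (hg h4)) (by decide)

/-- The directed gain of a point, from index `u` (to the other index). -/
def dg (u : Fin 3) : Pt A' → A'
  | Sum.inl _ => 1
  | Sum.inr x => if x.2.1.1 = u then x.1 else x.1⁻¹

theorem dg_eq {ψ : Fin 3 → A'} {e : Pt A'} (h : Bal ψ e) {u v : Fin 3} (_huv : u ≠ v)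
    (hV : V e = {u, v}) : dg u e = ψ u * (ψ v)⁻¹ := by
  obtain ⟨x, rfl, hx⟩ := h
  rw [V_inr] at hV
  have hne : x.2.1.1 ≠ x.2.1.2 := ne_of_lt x.2.2
  have h1 : x.2.1.1 ∈ ({u, v} : Finset (Fin 3)) := by rw [← hV]; simp
  have h2 : x.2.1.2 ∈ ({u, v} : Finset (Fin 3)) := by rw [← hV]; simp
  simp only [Finset.mem_insert, Finset.mem_singleton] at h1 h2
  change (if x.2.1.1 = u then x.1 else x.1⁻¹) = _
  by_cases hu : x.2.1.1 = u
  · have hv : x.2.1.2 = v := by
      rcases h2 with h2 | h2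
      · exact absurd (hu.trans h2.symm) hne
      · exact h2
    rw [if_pos hu, hx, hu, hv]
  · have hv : x.2.1.1 = v := by
      rcases h1 with h1 | h1
      · exact absurd h1 hu
      · exact h1
    have hu' : x.2.1.2 = u := by
      rcases h2 with h2 | h2
      · exact h2
      · exact absurd (hv.trans h2.symm) hne
    rw [if_neg hu, hx, hu', hv]
    group

theorem dg_inj {e e' : Pt A'} {u v : Fin 3} (huv : u ≠ v)
    (hV : V e = {u, v}) (hV' : V e' = {u, v}) (h : dg u e = dg u e') : e = e' := by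
  have hcard : ({u, v} : Finset (Fin 3)).card = 2 := Finset.card_pair huv
  cases e with
  | inl i => rw [← hV, V_inl] at hcard; simp at hcard
  | inr x =>
    cases e' with
    | inl j => rw [← hV', V_inl] at hcard; simp at hcard
    | inr y =>
      have hd : x.2 = y.2 := D_ext_of_pair_eq _ _ (by
        rw [V_inr] at hV hV'
        rw [hV, hV'])
      unfold dg at h
      simp only [hd] at h
      have h1 : x.1 = y.1 := by
        by_cases hu : y.2.1.1 = u
        · simpa [hu] using h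
        · simpa [hu] using h
      rw [Prod.ext h1 hd]

theorem extract {g : Idx S → Pt A'} (hg : Function.Injective g)
    (h : ∀ X : Set (Idx S), FI (emb S '' X) ↔ FI (g '' X))
    (h1 : (1 : A) ∈ S) {s : A} (hs : s ∈ S) (hs1 : s ≠ 1) :
    ∃ φ : {a // a ∈ S} → A', Function.Injective φ ∧
      ∀ a b c : {a // a ∈ S}, a.1 * b.1 = c.1 → φ a * φ b = φ c := by
  classical
  choose σ hσ using exists_sigma hg h h1 hs hs1
  have hσinj : Function.Injective σ := by
    intro k k' hkk
    by_contra hne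
    have hall : ∀ i : Fin 3, σ k ∉ V (g (Sum.inl i)) := by
      intro i
      by_cases hik : i = k
      · have hik' : k' ≠ i := fun h => hne (hik.symm.trans h.symm)
        rw [hkk]
        exact hσ k' _ (by simpa [emb, V] using hik')
      · exact hσ k _ (by simpa [emb, V] using Ne.symm hik)
    have hcol : Col (g (Sum.inl 0)) (g (Sum.inl 1)) (g (Sum.inl 2)) :=
      Or.inl ⟨σ k, hall 0, hall 1, hall 2⟩
    rw [← col_iff hg h (by simp) (by simp) (by simp)] at hcol
    rcases hcol with ⟨l, hl0, hl1, hl2⟩ | ⟨φ, hφ, -, -⟩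
    · simp only [emb, V, Sum.elim_inl, Finset.mem_singleton] at hl0 hl1 hl2
      fin_cases l
      · exact hl0 rfl
      · exact hl1 rfl
      · exact hl2 rfl
    · obtain ⟨x, hx, -⟩ := hφ
      cases hx
  have hσsurj : Function.Surjective σ := Finite.surjective_of_injective hσinj
  have hjoint : ∀ i, g (Sum.inl i) = Sum.inl (σ i) := by
    intro i
    have hV : ∀ l ∈ V (g (Sum.inl i)), l = σ i := by
      intro l hl
      obtain ⟨k, rfl⟩ := hσsurj l
      by_contra hk
      have hk' : k ≠ i := fun h => hk (by rw [h])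
      exact hσ k (Sum.inl i) (by simpa [emb, V] using hk') hl
    generalize hgi : g (Sum.inl i) = e at *
    cases e with
    | inl j => rw [hV j (by simp [V_inl])]
    | inr x =>
      exfalso
      have h3 := hV x.2.1.1 (by simp [V_inr])
      have h4 := hV x.2.1.2 (by simp [V_inr])
      exact (ne_of_lt x.2.2) (h3.trans h4.symm)
  have hint : ∀ (a : {a // a ∈ S}) (d : D), V (g (Sum.inr (a, d))) = {σ d.1.1, σ d.1.2} := by
    intro a d
    have hsub : V (g (Sum.inr (a, d))) ⊆ {σ d.1.1, σ d.1.2} := by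
      intro l hl
      obtain ⟨k, rfl⟩ := hσsurj l
      by_contra hk
      simp only [Finset.mem_insert, Finset.mem_singleton, not_or] at hk
      have hk1 : k ≠ d.1.1 := fun h => hk.1 (by rw [h])
      have hk2 : k ≠ d.1.2 := fun h => hk.2 (by rw [h])
      exact hσ k (Sum.inr (a, d)) (by simp [emb, V, hk1, hk2]) hl
    generalize hgi : g (Sum.inr (a, d)) = e at *
    cases e with
    | inl j =>
      obtain ⟨i, rfl⟩ := hσsurj j
      have := hg (hgi.trans (hjoint i).symm)
      cases this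
    | inr x =>
      apply Finset.eq_of_subset_of_card_le hsub
      rw [card_V_inr]
      exact Finset.card_le_two
  let d01 : D := ⟨(0, 1), by decide⟩
  let d02 : D := ⟨(0, 2), by decide⟩
  let d12 : D := ⟨(1, 2), by decide⟩
  have hne01 : σ 0 ≠ σ 1 := hσinj.ne (by decide)
  have hne02 : σ 0 ≠ σ 2 := hσinj.ne (by decide)
  have hne12 : σ 1 ≠ σ 2 := hσinj.ne (by decide)
  let f01 : {a // a ∈ S} → A' := fun a => dg (σ 0) (g (Sum.inr (a, d01)))
  let f02 : {a // a ∈ S} → A' := fun a => dg (σ 0) (g (Sum.inr (a, d02)))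
  let f12 : {a // a ∈ S} → A' := fun a => dg (σ 1) (g (Sum.inr (a, d12)))
  have hmul : ∀ a b c : {a // a ∈ S}, a.1 * b.1 = c.1 → f01 a * f12 b = f02 c := by
    intro a b c habc
    have hcolA : Col (emb S (Sum.inr (a, d01))) (emb S (Sum.inr (b, d12)))
        (emb S (Sum.inr (c, d02))) := by
      right
      refine ⟨![a.1, 1, (b.1)⁻¹], ⟨_, rfl, ?_⟩, ⟨_, rfl, ?_⟩, ⟨_, rfl, ?_⟩⟩
      · simp [d01]
      · simp [d12]
      · simp [d02, habc]
    rw [col_iff hg h (by simp [d01, d12]) (by simp [d01, d02]) (by simp [d12, d02])] at hcolA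
    rcases hcolA with ⟨l, hl1, hl2, -⟩ | ⟨ψ, hψ1, hψ2, hψ3⟩
    · exfalso
      rw [hint] at hl1 hl2
      obtain ⟨k, rfl⟩ := hσsurj l
      simp only [d01, d12, Finset.mem_insert, Finset.mem_singleton, not_or] at hl1 hl2
      fin_cases k
      · exact hl1.1 rfl
      · exact hl1.2 rfl
      · exact hl2.2 rfl
    · have e1 : f01 a = ψ (σ 0) * (ψ (σ 1))⁻¹ := dg_eq hψ1 hne01 (hint _ _)
      have e2 : f12 b = ψ (σ 1) * (ψ (σ 2))⁻¹ := dg_eq hψ2 hne12 (hint _ _)
      have e3 : f02 c = ψ (σ 0) * (ψ (σ 2))⁻¹ := dg_eq hψ3 hne02 (hint _ _)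
      rw [e1, e2, e3]
      group
  have hinj : Function.Injective f02 := by
    intro a b hab
    have := dg_inj hne02 (hint a d02) (hint b d02) hab
    have := hg this
    simpa using this
  let o : {a // a ∈ S} := ⟨1, h1⟩
  have hm1 : ∀ a, f01 a * f12 o = f02 a := fun a => hmul a o a (by simp [o])
  have hm2 : ∀ a, f01 o * f12 a = f02 a := fun a => hmul o a a (by simp [o])
  refine ⟨fun a => f02 a * (f02 o)⁻¹, ?_, ?_⟩
  · intro a b hab
    exact hinj (mul_right_cancel hab)
  · intro a b c habc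
    have e1 := hmul a b c habc
    have e2 := hm1 a
    have e3 := hm2 b
    have e4 := hm1 o
    simp only
    have e5 : f01 a = f02 a * (f12 o)⁻¹ := by rw [← e2]; group
    have e6 : f12 b = (f01 o)⁻¹ * f02 b := by rw [← e3]; group
    rw [← e1, ← e4, e5, e6]
    group

end extract

/-- In a finite group, if `y` conjugates `x ^ 2` to `x ^ 3` then `y x y⁻¹` commutes with `x`. -/
theorem comm_of_conj {G : Type} [Group G] [Finite G] (x y : G) (h : y * x ^ 2 * y⁻¹ = x ^ 3) :
    (y * x * y⁻¹) * x = x * (y * x * y⁻¹) := by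
  have hN : 0 < orderOf x := orderOf_pos x
  have h1 : orderOf (x ^ 2) = orderOf (x ^ 3) := by
    rw [← h]
    exact (orderOf_injective (MulAut.conj y).toMonoidHom (MulAut.conj y).injective (x ^ 2)).symm
  rw [orderOf_pow, orderOf_pow] at h1
  set N := orderOf x with hNdef
  have hodd : ¬ 2 ∣ N := by
    intro h2
    have hg2 : N.gcd 2 = 2 := Nat.gcd_eq_right h2
    rw [hg2] at h1
    have hg3 : N.gcd 3 = 1 ∨ N.gcd 3 = 3 := (Nat.dvd_prime Nat.prime_three).1 (Nat.gcd_dvd_right N 3)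
    rcases hg3 with hg3 | hg3 <;> rw [hg3] at h1 <;> omega
  obtain ⟨m, hm⟩ : ∃ m, N + 1 = 2 * m := ⟨(N + 1) / 2, by omega⟩
  have hx : x = (x ^ 2) ^ m := by
    rw [← pow_mul, ← hm, pow_succ, hNdef, pow_orderOf_eq_one, one_mul]
  have hb : y * x * y⁻¹ = (x ^ 3) ^ m := by
    calc y * x * y⁻¹ = y * (x ^ 2) ^ m * y⁻¹ := by rw [← hx]
      _ = (y * x ^ 2 * y⁻¹) ^ m := (conj_pow).symm
      _ = (x ^ 3) ^ m := by rw [h]
  rw [hb]
  exact ((Commute.refl x).pow_left 3).pow_left m

/-- The shift permutation of `ℤ × ℤ`. -/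
def pa : Equiv.Perm (ℤ × ℤ) where
  toFun p := (p.1 + 1, p.2)
  invFun p := (p.1 - 1, p.2)
  left_inv p := by simp
  right_inv p := by simp

/-- A permutation of `ℤ × ℤ` that conjugates `pa ^ 2` to `pa ^ 3`. -/
def pt : Equiv.Perm (ℤ × ℤ) where
  toFun p := (3 * (p.1 / 2) + (2 * p.2 + p.1 % 2) % 3, (2 * p.2 + p.1 % 2) / 3)
  invFun p := (2 * (p.1 / 3) + (3 * p.2 + p.1 % 3) % 2, (3 * p.2 + p.1 % 3) / 2)
  left_inv p := by
    obtain ⟨x, y⟩ := p
    simp only [Prod.mk.injEq]
    constructor <;> omega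
  right_inv p := by
    obtain ⟨x, y⟩ := p
    simp only [Prod.mk.injEq]
    constructor <;> omega

theorem pt_pa : pt * (pa * pa) = (pa * (pa * pa)) * pt := by
  ext p
  · obtain ⟨x, y⟩ := p
    simp only [Equiv.Perm.coe_mul, Function.comp_apply, pt, pa, Equiv.coe_fn_mk]
    omega
  · obtain ⟨x, y⟩ := p
    simp only [Equiv.Perm.coe_mul, Function.comp_apply, pt, pa, Equiv.coe_fn_mk]
    omega

theorem pb_pa : (pt * pa * pt⁻¹) * pa ≠ pa * (pt * pa * pt⁻¹) := by
  intro h
  have h1 := congrArg (fun f : Equiv.Perm (ℤ × ℤ) => f (0, 0)) h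
  have h2 : pt⁻¹ (0, 0) = (0, 0) := by
    rw [Equiv.Perm.inv_eq_iff_eq]
    simp [pt]
  have h3 : pt⁻¹ (1, 0) = (1, 0) := by
    rw [Equiv.Perm.inv_eq_iff_eq]
    simp [pt]
  have e1 : pa (0, 0) = (1, 0) := by simp [pa]
  have e2 : pa (1, 0) = (2, 0) := by simp [pa]
  have e3 : pt (1, 0) = (1, 0) := by simp [pt]
  have e4 : pt (2, 0) = (3, 0) := by simp [pt]
  simp only [Equiv.Perm.coe_mul, Function.comp_apply, h2, h3, e1, e2, e3, e4] at h1
  simp at h1

theorem main_aux :
    ∃ (n : ℕ) (M : Matroid (Fin n)) (A : Type) (_ : Group A), Infinite A ∧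
      (∃ f : Fin n → Pt A, Set.InjOn f M.E ∧ ∀ X ⊆ M.E, (M.Indep X ↔ FI (f '' X))) ∧
      ∀ (A' : Type) (_ : Group A'), Finite A' →
        ¬ ∃ f : Fin n → Pt A', Set.InjOn f M.E ∧ ∀ X ⊆ M.E, (M.Indep X ↔ FI (f '' X)) := by
  classical
  let A := Equiv.Perm (ℤ × ℤ)
  let b : A := pt * pa * pt⁻¹
  let S : Finset A := {1, pa, pa * pa, pa * (pa * pa), pt, pt * (pa * pa), pt * pa, b,
    b * pa, pa * b}
  let n := Fintype.card (Idx S)
  let e : Fin n ≃ Idx S := (Fintype.equivFin (Idx S)).symm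
  obtain ⟨M, hME, hM⟩ := exists_matroid (fun i => emb S (e i)) ((emb_injective S).comp e.injective)
  have hpa1 : pa ≠ 1 := by
    intro h
    have := congrArg (fun f : Equiv.Perm (ℤ × ℤ) => f (0, 0)) h
    simp [pa] at this
  have hinf : Infinite A := by
    apply Infinite.of_injective (fun k : ℤ => (pa ^ k : A))
    intro k l hkl
    have hpow : ∀ m : ℤ, (pa ^ m : Equiv.Perm (ℤ × ℤ)) (0, 0) = (m, 0) := by
      intro m
      induction m with
      | zero => simp
      | succ m ih => rw [add_comm, zpow_add, zpow_one, Equiv.Perm.mul_apply, ih]; simp [pa, add_comm]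
      | pred m ih =>
        rw [sub_eq_neg_add, zpow_add, zpow_neg_one, Equiv.Perm.mul_apply, ih,
          Equiv.Perm.inv_eq_iff_eq]
        simp [pa]
    have := congrArg (fun f : Equiv.Perm (ℤ × ℤ) => f (0, 0)) hkl
    simp only [hpow] at this
    simpa using this
  refine ⟨n, M, A, inferInstance, hinf, ⟨fun i => emb S (e i), ?_, fun X _ => hM X⟩, ?_⟩
  · exact ((emb_injective S).comp e.injective).injOn
  · intro A' _ _
    rintro ⟨f, hfinj, hf⟩
    rw [hME] at hfinj hf
    have hfinj' : Function.Injective f := Set.injOn_univ.1 hfinj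
    let g : Idx S → Pt A' := fun x => f (e.symm x)
    have hg : Function.Injective g := hfinj'.comp e.symm.injective
    have hFI : ∀ X : Set (Idx S), FI (emb S '' X) ↔ FI (g '' X) := by
      intro X
      have h1 := (hM (e ⁻¹' X)).symm.trans (hf (e ⁻¹' X) (Set.subset_univ _))
      have h2 : (fun i => emb S (e i)) '' (e ⁻¹' X) = emb S '' X := by
        ext z
        constructor
        · rintro ⟨i, hi, rfl⟩
          exact ⟨e i, hi, rfl⟩
        · rintro ⟨x, hx, rfl⟩
          exact ⟨e.symm x, by simpa using hx, by simp⟩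
      have h3 : f '' (e ⁻¹' X) = g '' X := by
        ext z
        constructor
        · rintro ⟨i, hi, rfl⟩
          exact ⟨e i, hi, by simp [g]⟩
        · rintro ⟨x, hx, rfl⟩
          exact ⟨e.symm x, by simpa using hx, rfl⟩
      rw [h2, h3] at h1
      exact h1
    obtain ⟨φ, hφinj, hφ⟩ := extract hg hFI (by simp [S]) (s := pa) (by simp [S]) hpa1
    let x := φ ⟨pa, by simp [S]⟩
    let y := φ ⟨pt, by simp [S]⟩
    have r1 : x * x = φ ⟨pa * pa, by simp [S]⟩ := hφ _ _ _ rfl
    have r2 : x * φ ⟨pa * pa, by simp [S]⟩ = φ ⟨pa * (pa * pa), by simp [S]⟩ := hφ _ _ _ rfl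
    have r3 : y * φ ⟨pa * pa, by simp [S]⟩ = φ ⟨pt * (pa * pa), by simp [S]⟩ := hφ _ _ _ rfl
    have r4 : φ ⟨pa * (pa * pa), by simp [S]⟩ * y = φ ⟨pt * (pa * pa), by simp [S]⟩ :=
      hφ _ _ _ pt_pa.symm
    have r5 : y * x = φ ⟨pt * pa, by simp [S]⟩ := hφ _ _ _ rfl
    have r6 : φ ⟨b, by simp [S]⟩ * y = φ ⟨pt * pa, by simp [S]⟩ :=
      hφ _ _ _ (inv_mul_cancel_right (pt * pa) pt)
    have r7 : φ ⟨b, by simp [S]⟩ * x = φ ⟨b * pa, by simp [S]⟩ := hφ _ _ _ rfl
    have r8 : x * φ ⟨b, by simp [S]⟩ = φ ⟨pa * b, by simp [S]⟩ := hφ _ _ _ rfl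
    have hconj : y * x ^ 2 * y⁻¹ = x ^ 3 := by
      rw [← r1] at r2 r3
      rw [mul_inv_eq_iff_eq_mul, pow_two, pow_succ, pow_two, r3, ← r4, ← r2]
      group
    have hb : φ ⟨b, by simp [S]⟩ = y * x * y⁻¹ := by
      rw [eq_mul_inv_iff_mul_eq, r6, r5]
    have hcomm := comm_of_conj x y hconj
    rw [← hb, r7, r8] at hcomm
    have := hφinj hcomm
    rw [Subtype.mk.injEq] at this
    exact pb_pa this

/-- The negation of the preceding statement: If a finite matroid embeds in the rank-r Dowling geometry over some infinite group, encoded as a gain-graph frame matroid, then it also embeds in the rank-r Dowling geometry over some finite group. -/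
theorem result :
    ¬ (∀ (n r : ℕ) (M : Matroid (Fin n)) (A : Type) [Group A], Infinite A →
      (∃ f : Fin n → Fin r ⊕ (A × {p : Fin r × Fin r // p.1 < p.2}),
        Set.InjOn f M.E ∧
        ∀ X ⊆ M.E, (M.Indep X ↔
          ∀ T : Finset (Fin r ⊕ (A × {p : Fin r × Fin r // p.1 < p.2})),
            (↑T ⊆ f '' X) → T.Nonempty →
              (T.card ≤ (T.biUnion (fun e => Sum.elim (fun i => ({i} : Finset (Fin r)))
                  (fun x => ({x.2.1.1, x.2.1.2} : Finset (Fin r))) e)).card ∧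
               (((∀ i : Fin r, Sum.inl i ∉ T) ∧
                  ∃ φ : Fin r → A, ∀ x : A × {p : Fin r × Fin r // p.1 < p.2},
                    Sum.inr x ∈ T → x.1 = φ x.2.1.1 * (φ x.2.1.2)⁻¹) →
                T.card + 1 ≤ (T.biUnion (fun e => Sum.elim (fun i => ({i} : Finset (Fin r)))
                  (fun x => ({x.2.1.1, x.2.1.2} : Finset (Fin r))) e)).card)))) →
      ∃ (A' : Type) (_ : Group A'), Finite A' ∧
        ∃ f : Fin n → Fin r ⊕ (A' × {p : Fin r × Fin r // p.1 < p.2}),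
          Set.InjOn f M.E ∧
          ∀ X ⊆ M.E, (M.Indep X ↔
            ∀ T : Finset (Fin r ⊕ (A' × {p : Fin r × Fin r // p.1 < p.2})),
              (↑T ⊆ f '' X) → T.Nonempty →
                (T.card ≤ (T.biUnion (fun e => Sum.elim (fun i => ({i} : Finset (Fin r)))
                    (fun x => ({x.2.1.1, x.2.1.2} : Finset (Fin r))) e)).card ∧
                 (((∀ i : Fin r, Sum.inl i ∉ T) ∧
                    ∃ φ : Fin r → A', ∀ x : A' × {p : Fin r × Fin r // p.1 < p.2},
                      Sum.inr x ∈ T → x.1 = φ x.2.1.1 * (φ x.2.1.2)⁻¹) →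
                  T.card + 1 ≤ (T.biUnion (fun e => Sum.elim (fun i => ({i} : Finset (Fin r)))
                    (fun x => ({x.2.1.1, x.2.1.2} : Finset (Fin r))) e)).card)))) := by
  intro h
  obtain ⟨n, M, A, instA, hA, hf, hno⟩ := main_aux
  obtain ⟨A', instA', hfin, hf'⟩ := h n 3 M A hA hf
  exact hno A' instA' hfin hf'

end Pool.Agent.S12052
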