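import Pool.Statements.S12335
import Pool.Agent.Octa.Body

set_option autoImplicit false
open Pool Pool.MP_f08f91_co

namespace Pool.Agent.S12335

/-- Every compact convex set in 3-space with nonempty interior has a center c and three mutually orthogonal nonzero vectors of equal length whose six points c plus or minus each vector all lie on the set's boundary, i.e. an inscribed regular octahedron. -/
theorem result :
    ∀ K : Set (EuclideanSpace ℝ (Fin 3)),
      IsCompact K → Convex ℝ K → (interior K).Nonempty →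
      ∃ c v₁ v₂ v₃ : EuclideanSpace ℝ (Fin 3),
        v₁ ≠ 0 ∧
        ‖v₁‖ = ‖v₂‖ ∧ ‖v₂‖ = ‖v₃‖ ∧
        inner ℝ v₁ v₂ = 0 ∧ inner ℝ v₁ v₃ = 0 ∧ inner ℝ v₂ v₃ = 0 ∧
        c + v₁ ∈ frontier K ∧ c - v₁ ∈ frontier K ∧
        c + v₂ ∈ frontier K ∧ c - v₂ ∈ frontier K ∧
        c + v₃ ∈ frontier K ∧ c - v₃ ∈ frontier K := by
  intro K hK hK' hi
  exact Pool.Agent.Octa.body_main K hK hK' hi

end Pool.Agent.S12335
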