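import Pool.Statements.S12369
import Pool.Agent.GS.Spheres

set_option autoImplicit false
open Pool Pool.MP_f210e3_co

namespace Pool.Agent.S12369

/-- For every d ≥ 1, tree T and k, there is c such that any finite family of distinct d-spheres in R^(d+1) whose orthogonality graph has no induced T and no K_k has that graph c-colourable. -/
theorem result :
    ∀ d : ℕ, 1 ≤ d →
      ∀ m : ℕ, ∀ T : SimpleGraph (Fin m), T.IsTree →
        ∀ k : ℕ, ∃ c : ℕ,
          ∀ n : ℕ, ∀ S : Fin n → EuclideanSpace ℝ (Fin (d + 1)) × ℝ,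
            Function.Injective S →
            (∀ i, 0 < (S i).2) →
            ¬ Nonempty (T ↪g SimpleGraph.fromRel
                (fun i j : Fin n => dist (S i).1 (S j).1 ^ 2 = (S i).2 ^ 2 + (S j).2 ^ 2)) →
            (SimpleGraph.fromRel
                (fun i j : Fin n => dist (S i).1 (S j).1 ^ 2 = (S i).2 ^ 2 + (S j).2 ^ 2)).CliqueFree k →
            (SimpleGraph.fromRel
                (fun i j : Fin n => dist (S i).1 (S j).1 ^ 2 = (S i).2 ^ 2 + (S j).2 ^ 2)).Colorable c := by
  exact Pool.Agent.GS.gyarfas_sumner_spheres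

end Pool.Agent.S12369
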