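import Pool.Statements.S12647
import Pool.Agent.H25.EB.Assembly
import Pool.Agent.H25.EB.Setup1
import Pool.Agent.H25.EB.Result

set_option autoImplicit false
open Pool Pool.MP_ff5603_co

namespace Pool.Agent.S12647

/-- For k ≥ 1, every finite loopless multigraph with edge multiplicities at most 2 and all degrees at most 2k−1 has a k-colouring with class sizes differing by at most one, each class having no double edges and no cycles. -/
theorem result :
    ∀ (k : ℕ), 0 < k →
      ∀ (V : Type) [Fintype V] (μ : V → V → ℕ),
        (∀ u v, μ u v = μ v u) →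
        (∀ v, μ v v = 0) →
        (∀ u v, μ u v ≤ 2) →
        (∀ v, ∑ u, μ v u ≤ 2 * k - 1) →
        ∃ f : V → Fin k,
          (∀ i j : Fin k,
            (Finset.univ.filter (fun v => f v = i)).card ≤
              (Finset.univ.filter (fun v => f v = j)).card + 1) ∧
          (∀ u v, f u = f v → μ u v ≤ 1) ∧
          (SimpleGraph.fromRel (fun u v => f u = f v ∧ 0 < μ u v)).IsAcyclic := by
  exact Pool.Agent.H25.EB.result_of_main
    (fun V _ μ hμ s k U hU hdeg => Pool.Agent.H25.EB.main_of_core
      (fun _ _ _ _ _ _ _ _ _ h => Pool.Agent.H25.EB.no_setup h) V μ hμ s k U hU hdeg)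

end Pool.Agent.S12647
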