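import Pool.Statements.S12744
import Pool.Agent.H80.CenOmega

set_option autoImplicit false
open Pool Pool.MP_0decd7_gt

namespace Pool.Agent.S12744

open Pool.Agent.H80.CenOmega in
lemma cen_eq : Cen (TopologicalSpace.Clopens Rem) =
    {f | ∀ F : Finset (TopologicalSpace.Clopens Rem),
              (∀ U ∈ F, f U = true) → (⋂ U ∈ F, (U : Set Rem)).Nonempty} := by
  have key : ∀ F : Finset (TopologicalSpace.Clopens Rem),
      F.inf id ≠ ⊥ ↔ (⋂ U ∈ F, (U : Set Rem)).Nonempty := by
    intro F
    have hcoe : ((F.inf id : TopologicalSpace.Clopens Rem) : Set Rem) = ⋂ U ∈ F, (U : Set Rem) := by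
      classical
      induction F using Finset.induction_on with
      | empty => simp
      | insert a s ha ih => simp [Finset.inf_insert, ih]
    rw [← hcoe, Set.nonempty_iff_ne_empty, ne_eq, ne_eq]
    constructor
    · intro h h2
      apply h
      apply SetLike.coe_injective
      rw [h2]
      rfl
    · intro h h2
      apply h
      rw [h2]
      rfl
  ext f
  constructor
  · intro hf F hF
    exact (key F).1 (hf F hF)
  · intro hf F hF
    exact (key F).2 (hf F hF)

/-- The negation of the preceding statement: Let X be the Stone–Čech remainder of ℕ. The space of all families of clopen subsets of X with the finite intersection property, topologized as a subspace of the product 2^(clopens of X), is homogeneous. -/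
theorem result :
    ¬ (∀ R : Set (StoneCech ℕ), R = (Set.range (stoneCechUnit : ℕ → StoneCech ℕ))ᶜ →
    ∀ C : Set (TopologicalSpace.Clopens R → Bool),
      C = {f | ∀ F : Finset (TopologicalSpace.Clopens R),
              (∀ U ∈ F, f U = true) → (⋂ U ∈ F, (U : Set R)).Nonempty} →
      ∀ x y : C, ∃ h : C ≃ₜ C, h x = y) := by
  classical
  intro H
  open Pool.Agent.H80.CenOmega in
  obtain ⟨x₀, hx₀⟩ := rem_nonempty
  set p₀ : Rem := ⟨x₀, hx₀⟩
  have H' := H Rem rfl (Cen (TopologicalSpace.Clopens Rem)) cen_eq
  let x : Cen (TopologicalSpace.Clopens Rem) := ⟨fun _ => false, by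
    rw [cen_eq]
    intro F hF
    have : F = ∅ := by
      rw [Finset.eq_empty_iff_forall_notMem]
      intro U hU
      exact absurd (hF U hU) (by simp)
    subst this
    exact ⟨p₀, by simp⟩⟩
  let y : Cen (TopologicalSpace.Clopens Rem) := ⟨fun U => decide (p₀ ∈ U), by
    rw [cen_eq]
    intro F hF
    refine ⟨p₀, ?_⟩
    simp only [Set.mem_iInter]
    intro U hU
    exact of_decide_eq_true (hF U hU)⟩
  obtain ⟨h, hh⟩ := H' x y
  have : Nontrivial (TopologicalSpace.Clopens Rem) := ⟨⟨⊥, ⊤, fun h0 => by
    have h1 : p₀ ∈ (⊤ : TopologicalSpace.Clopens Rem) := trivial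
    rw [← h0] at h1
    exact h1⟩⟩
  refine core (fun U : TopologicalSpace.Clopens Rem => p₀ ∈ U) trivial ?_ ?_ ?_ exists_sep h x y
    (fun U => rfl) (fun U => by simp [y]) hh
  · intro a b ha hb
    exact ⟨ha, hb⟩
  · intro a
    by_cases hm : p₀ ∈ a
    · exact Or.inl hm
    · exact Or.inr hm
  · intro a ha
    exact exists_split a p₀ ha

end Pool.Agent.S12744
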