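import Pool.Statements.S12997
import Pool.Agent.Circ.Assembly
import Pool.Agent.Circ.MainE

set_option autoImplicit false
open Pool Pool.MP_348654_gt

namespace Pool.Agent.S12997

/-- Every closed, transitive, proper subgroup of orientation-preserving circle homeomorphisms is, after conjugation, the rotation group, a k-fold cover of PSL(2,R) (k=1 is PSL(2,R)), or the group of homeomorphisms commuting with rotation by 1/k. -/
theorem result :
    ∀ G : Set (AddCircle (1:ℝ) ≃ₜ AddCircle (1:ℝ)),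
      Homeomorph.refl (AddCircle (1:ℝ)) ∈ G →
      (∀ f ∈ G, ∀ g ∈ G, f.trans g ∈ G) →
      (∀ f ∈ G, f.symm ∈ G) →
      (∀ f ∈ G, ∃ F : ℝ → ℝ, Continuous F ∧ StrictMono F ∧
          ∀ t : ℝ, f ((t : ℝ) : AddCircle (1:ℝ)) = ((F t : ℝ) : AddCircle (1:ℝ))) →
      (∀ f : AddCircle (1:ℝ) ≃ₜ AddCircle (1:ℝ),
          (∃ F : ℝ → ℝ, Continuous F ∧ StrictMono F ∧
            ∀ t : ℝ, f ((t : ℝ) : AddCircle (1:ℝ)) = ((F t : ℝ) : AddCircle (1:ℝ))) →
          (ContinuousMap.mk (⇑f) f.continuous : C(AddCircle (1:ℝ), AddCircle (1:ℝ))) ∈ closure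
            ((fun g : AddCircle (1:ℝ) ≃ₜ AddCircle (1:ℝ) =>
                (ContinuousMap.mk (⇑g) g.continuous : C(AddCircle (1:ℝ), AddCircle (1:ℝ)))) '' G) →
          f ∈ G) →
      (∀ x y : AddCircle (1:ℝ), ∃ g ∈ G, g x = y) →
      (∃ f : AddCircle (1:ℝ) ≃ₜ AddCircle (1:ℝ),
          (∃ F : ℝ → ℝ, Continuous F ∧ StrictMono F ∧
            ∀ t : ℝ, f ((t : ℝ) : AddCircle (1:ℝ)) = ((F t : ℝ) : AddCircle (1:ℝ))) ∧
          f ∉ G) →
      ∃ h : AddCircle (1:ℝ) ≃ₜ AddCircle (1:ℝ), ∃ k : ℕ, 0 < k ∧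
        ((∀ f : AddCircle (1:ℝ) ≃ₜ AddCircle (1:ℝ), f ∈ G ↔
            ∃ c : AddCircle (1:ℝ), ∀ x : AddCircle (1:ℝ), h.symm (f (h x)) = x + c) ∨
         (∀ f : AddCircle (1:ℝ) ≃ₜ AddCircle (1:ℝ), f ∈ G ↔
            ∃ a b c d : ℝ, a * d - b * c = 1 ∧
              ∀ t s : ℝ,
                k • h.symm (f (h ((t : ℝ) : AddCircle (1:ℝ)))) = ((s : ℝ) : AddCircle (1:ℝ)) →
                Real.cos (Real.pi * s) *
                    (c * Real.cos (Real.pi * ((k : ℝ) * t)) + d * Real.sin (Real.pi * ((k : ℝ) * t))) =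
                  Real.sin (Real.pi * s) *
                    (a * Real.cos (Real.pi * ((k : ℝ) * t)) + b * Real.sin (Real.pi * ((k : ℝ) * t)))) ∨
         (∀ f : AddCircle (1:ℝ) ≃ₜ AddCircle (1:ℝ), f ∈ G ↔
            ∃ g : AddCircle (1:ℝ) ≃ₜ AddCircle (1:ℝ),
              (∃ F : ℝ → ℝ, Continuous F ∧ StrictMono F ∧
                ∀ t : ℝ, g ((t : ℝ) : AddCircle (1:ℝ)) = ((F t : ℝ) : AddCircle (1:ℝ))) ∧
              ∀ x : AddCircle (1:ℝ), k • h.symm (f (h x)) = g (k • x))) := by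
  exact Pool.Agent.Circ.frozen_of_mainE fun _ a b c d e => Pool.Agent.Circ.mainE a b c d e

end Pool.Agent.S12997
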