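import Pool.Statements.S13267
import Pool.Agent.H82.Params
import Pool.Agent.H82.LiftEx

set_option autoImplicit false
open Pool Pool.MP_618444_gt

namespace Pool.Agent.S13267

/-- Every algebraic integer c with ∣c∣>1 whose conjugates other than c and conj(c) have smaller modulus admits a plane tiling by finitely many tile shapes up to translation, with c times each tile a union of tiles. -/
theorem result :
    ∀ c : ℂ, IsIntegral ℤ c → 1 < ‖c‖ →
      (∀ μ : ℂ, Polynomial.aeval μ (minpoly ℚ c) = 0 → μ ≠ c →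
        μ ≠ (starRingEnd ℂ) c → ‖μ‖ < ‖c‖) →
      ∃ T : Set (Set ℂ),
        (∀ t ∈ T, IsCompact t ∧ IsConnected t ∧ closure (interior t) = t) ∧
        ⋃₀ T = Set.univ ∧
        (∀ t ∈ T, ∀ s ∈ T, t ≠ s → Disjoint (interior t) (interior s)) ∧
        (∃ F : Finset (Set ℂ), ∀ t ∈ T, ∃ P ∈ F, ∃ z : ℂ, t = (fun w => w + z) '' P) ∧
        (∀ t ∈ T, ∃ S ⊆ T, (fun w => c * w) '' t = ⋃₀ S) := by
  intro c hint hc hconj
  obtain ⟨F⟩ := Pool.Agent.H82.exists_lift c hint hc hconj
  exact Pool.Agent.H82.tiling_of_lift hc F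

end Pool.Agent.S13267
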