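import Pool.Statements.S13956
-- import your own Pool.Agent.* helpers here
import Pool.Agent.Slip.Upper

set_option autoImplicit false
open Pool Pool.MP_ccb0d0_gt

namespace Pool.Agent.S13956

/-- The negation of the preceding statement: For a positive word w = a^α1 b^β1 … a^αm b^βm and reals r, s: if the maximal rotation number of w over lifted circle homeomorphisms a, b with rotation numbers r, s is p/q in lowest terms, then ∣p/q − (Σα)r − (Σβ)s∣ ≤ m/q. -/
theorem result :
    ¬ (∀ (m : ℕ) (α β : Fin m → ℕ), 0 < m → (∀ i, 0 < α i) → (∀ i, 0 < β i) →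
    ∀ (r s : ℝ) (x : ℚ),
      sSup {t : ℝ | ∃ a b : CircleDeg1Liftˣ,
          CircleDeg1Lift.translationNumber (a : CircleDeg1Lift) = r ∧
          CircleDeg1Lift.translationNumber (b : CircleDeg1Lift) = s ∧
          t = CircleDeg1Lift.translationNumber
            ((List.ofFn fun i => (a : CircleDeg1Lift) ^ (α i) * (b : CircleDeg1Lift) ^ (β i)).prod)}
        = (x : ℝ) →
      |(x : ℝ) - (∑ i, (α i : ℝ)) * r - (∑ i, (β i : ℝ)) * s| ≤ (m : ℝ) / (x.den : ℝ)) := by
  intro H
  have hw : ∀ A B : CircleDeg1Lift,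
      (List.ofFn fun i : Fin 6 => A ^ ((![1, 1, 10, 10, 1, 1] : Fin 6 → ℕ) i) *
        B ^ ((![1, 1, 9, 1, 1, 1] : Fin 6 → ℕ) i)).prod = Pool.Agent.Slip.word A B := by
    intro A B
    simp [List.ofFn_succ, Fin.succ, Pool.Agent.Slip.word]
  have h := H 6 ![1, 1, 10, 10, 1, 1] ![1, 1, 9, 1, 1, 1] (by norm_num) (by decide) (by decide)
    (1 / 11) (1 / 11) (13 / 2) (by
      apply IsGreatest.csSup_eq
      constructor
      · obtain ⟨a, b, ha, hb, hab⟩ := Pool.Agent.Slip.exists_ab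
        refine ⟨a, b, ha, hb, ?_⟩
        rw [hw]
        have := Pool.Agent.Slip.upper a b ha hb
        push_cast
        linarith
      · rintro t ⟨a, b, ha, hb, rfl⟩
        rw [hw]
        have := Pool.Agent.Slip.upper a b ha hb
        push_cast
        linarith)
  have hden : ((13 / 2 : ℚ)).den = 2 := by norm_num
  rw [hden] at h
  have hs1 : (∑ i : Fin 6, (((![1, 1, 10, 10, 1, 1] : Fin 6 → ℕ) i : ℕ) : ℝ)) = 24 := by
    have h0 : (∑ i : Fin 6, (![1, 1, 10, 10, 1, 1] : Fin 6 → ℕ) i) = 24 := by decide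
    exact_mod_cast h0
  have hs2 : (∑ i : Fin 6, (((![1, 1, 9, 1, 1, 1] : Fin 6 → ℕ) i : ℕ) : ℝ)) = 14 := by
    have h0 : (∑ i : Fin 6, (![1, 1, 9, 1, 1, 1] : Fin 6 → ℕ) i) = 14 := by decide
    exact_mod_cast h0
  rw [hs1, hs2] at h
  have h2 := (abs_le.1 h).2
  push_cast at h2
  norm_num at h2

end Pool.Agent.S13956
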