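import Pool.Statements.S14185
import Pool.Agent.H84.ArcSep.Assembly
import Pool.Agent.H84.ArcSep.Effros

set_option autoImplicit false
open TopologicalSpace
open Pool Pool.MP_ef21d6_gt

namespace Pool.Agent.S14185

/-- In every locally connected homogeneous compact connected metrizable space of covering dimension at least 2, the complement of any arc (embedded copy of [0,1]) is connected. -/
theorem result :
    ∀ (X : Type) [TopologicalSpace X] [MetrizableSpace X] [CompactSpace X]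
      [ConnectedSpace X] [LocallyConnectedSpace X],
      (∀ x y : X, ∃ h : X ≃ₜ X, h x = y) →
      (∃ 𝒰 : Finset (Set X), (∀ U ∈ 𝒰, IsOpen U) ∧ ⋃₀ (𝒰 : Set (Set X)) = Set.univ ∧
        ∀ 𝒱 : Finset (Set X), (∀ V ∈ 𝒱, IsOpen V) → ⋃₀ (𝒱 : Set (Set X)) = Set.univ →
          (∀ V ∈ 𝒱, ∃ U ∈ 𝒰, V ⊆ U) →
          ∃ x : X, ∃ V₁ ∈ 𝒱, ∃ V₂ ∈ 𝒱, ∃ V₃ ∈ 𝒱,
            V₁ ≠ V₂ ∧ V₁ ≠ V₃ ∧ V₂ ≠ V₃ ∧ x ∈ V₁ ∧ x ∈ V₂ ∧ x ∈ V₃) →
      ∀ f : unitInterval → X, Topology.IsEmbedding f → IsConnected (Set.range f)ᶜ := by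
  intro X _ _ _ _ _ hom hdim f hf
  let _ : MetricSpace X := metrizableSpaceMetric X
  exact Pool.Agent.H84.ArcSep.arc_compl hom
    (fun ε hε => Pool.Agent.H84.ArcSep.effros hom hε)
    (Pool.Agent.H84.ArcSep.exists_nonextendable hdim) hf.continuous hf.injective

end Pool.Agent.S14185
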