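import Pool.Statements.S14651
import Pool.Agent.BF.Final

set_option autoImplicit false
open Pool Pool.MP_46e064_lc

namespace Pool.Agent.S14651

/-- For every finite theory of datalog rules and single-head TGDs with one existential variable, if every Boolean CQ is equivalent over finite databases to a UCQ (BDD), then every non-entailed CQ has a finite model of the theory and database falsifying it (FC). -/
theorem result :
  ∀ (k : ℕ) (ar : Fin k → ℕ)
    (T : List (Σ n : ℕ, List (Σ i : Fin k, Fin (ar i) → Fin n) ×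
                (Σ Q : Fin k, Fin (ar Q) → Option (Fin n)))),
    (∀ r ∈ T, (∀ x : Fin r.1, ∃ b ∈ r.2.1, ∃ p, b.2 p = x) ∧
      ((∀ j, r.2.2.2 j ≠ none) ∨ (∀ j, r.2.2.2 j = none ↔ j.val = 0))) →
    (∀ Φ : Σ n : ℕ, List (Σ i : Fin k, Fin (ar i) → Fin n),
      (∀ x : Fin Φ.1, ∃ b ∈ Φ.2, ∃ p, b.2 p = x) →
      ∃ Φ' : List (Σ n : ℕ, List (Σ i : Fin k, Fin (ar i) → Fin n)),
        ∀ (D : Type), Finite D → ∀ (J : (i : Fin k) → (Fin (ar i) → D) → Prop),
          ((∀ (M : Type) (I : (i : Fin k) → (Fin (ar i) → M) → Prop),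
              (∀ r ∈ T, ∀ v : Fin r.1 → M, (∀ a ∈ r.2.1, I a.1 (v ∘ a.2)) →
                 ∃ w : Fin (ar r.2.2.1) → M,
                   (∀ j x, r.2.2.2 j = some x → w j = v x) ∧
                   (∀ j j', r.2.2.2 j = none → r.2.2.2 j' = none → w j = w j') ∧
                   I r.2.2.1 w) →
              (∃ f : D → M, ∀ (i : Fin k) (t : Fin (ar i) → D), J i t → I i (f ∘ t)) →
              ∃ v : Fin Φ.1 → M, ∀ a ∈ Φ.2, I a.1 (v ∘ a.2))
           ↔ ∃ q ∈ Φ', ∃ v : Fin q.1 → D, ∀ a ∈ q.2, J a.1 (v ∘ a.2))) →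
    (∀ Φ : Σ n : ℕ, List (Σ i : Fin k, Fin (ar i) → Fin n),
      (∀ x : Fin Φ.1, ∃ b ∈ Φ.2, ∃ p, b.2 p = x) →
      ∀ (D : Type), Finite D → ∀ (J : (i : Fin k) → (Fin (ar i) → D) → Prop),
        ¬ (∀ (M : Type) (I : (i : Fin k) → (Fin (ar i) → M) → Prop),
              (∀ r ∈ T, ∀ v : Fin r.1 → M, (∀ a ∈ r.2.1, I a.1 (v ∘ a.2)) →
                 ∃ w : Fin (ar r.2.2.1) → M,
                   (∀ j x, r.2.2.2 j = some x → w j = v x) ∧
                   (∀ j j', r.2.2.2 j = none → r.2.2.2 j' = none → w j = w j') ∧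
                   I r.2.2.1 w) →
              (∃ f : D → M, ∀ (i : Fin k) (t : Fin (ar i) → D), J i t → I i (f ∘ t)) →
              ∃ v : Fin Φ.1 → M, ∀ a ∈ Φ.2, I a.1 (v ∘ a.2)) →
        ∃ (M : Type), Finite M ∧ ∃ (I : (i : Fin k) → (Fin (ar i) → M) → Prop),
          (∀ r ∈ T, ∀ v : Fin r.1 → M, (∀ a ∈ r.2.1, I a.1 (v ∘ a.2)) →
             ∃ w : Fin (ar r.2.2.1) → M,
               (∀ j x, r.2.2.2 j = some x → w j = v x) ∧
               (∀ j j', r.2.2.2 j = none → r.2.2.2 j' = none → w j = w j') ∧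
               I r.2.2.1 w) ∧
          (∃ f : D → M, ∀ (i : Fin k) (t : Fin (ar i) → D), J i t → I i (f ∘ t)) ∧
          ¬ ∃ v : Fin Φ.1 → M, ∀ a ∈ Φ.2, I a.1 (v ∘ a.2)) := by
  intro k ar T _ hB Φ hΦ D hD J hne
  have hq : Pool.Agent.H56.Rewritable T Φ := hB Φ hΦ
  obtain ⟨M, hM, I, h1, h2, h3⟩ := Pool.Agent.BF.finite_model T Φ hq D J hne
  exact ⟨M, hM, I, h1, h2, h3⟩

end Pool.Agent.S14651
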