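import Pool.Statements.S14763
import Pool.Agent.EDT.Final

set_option autoImplicit false
open Pool Pool.MP_5ec15a_lc

namespace Pool.Agent.S14763

/-- If a group has a finite generating set X such that the words over X and its inverses that equal 1 form a language generated by some deterministic ET0L system, then the group is finite. -/
theorem result :
  ∀ (G : Type) [Group G] (X : Finset G),
    Subgroup.closure (X : Set G) = ⊤ →
    (∃ (A : Type) (_ : Fintype A) (J : Type) (_ : Fintype J)
        (ι : G → A) (ω : List A) (σ : J → A → List A),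
      Set.InjOn ι {x : G | x ∈ X ∨ x⁻¹ ∈ X} ∧
      ∀ w : List G, (∀ x ∈ w, x ∈ X ∨ x⁻¹ ∈ X) →
        (w.prod = 1 ↔
          ∃ js : List J, js.foldl (fun u j => u.flatMap (σ j)) ω = w.map ι)) →
    Finite G := by
  intro G _ X hX h
  obtain ⟨A, hA, J, hJ, ι, ω, σ, hinj, hiff⟩ := h
  by_contra hfin
  have hinf : Infinite G := not_finite_iff_infinite.1 hfin
  exact Pool.Agent.EDT.final X hX ι ω σ hinj hiff

end Pool.Agent.S14763
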