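import Pool.Statements.S15072
import Pool.Agent.H53.DS.Main

set_option autoImplicit false
open Pool Pool.MP_92bf3f_lc

namespace Pool.Agent.S15072

/-- The negation of the preceding statement: If C is an orbit of simple sets under automorphisms of the lattice of c.e. sets, then the class of sets that are one half of a Friedberg splitting of some member of C is also such an orbit. -/
theorem result :
    ¬ (∀ C : Set (Set ℕ),
      (∀ A ∈ C, REPred (fun n : ℕ => n ∈ A) ∧ (Aᶜ).Infinite ∧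
        ∀ W : Set ℕ, REPred (fun n : ℕ => n ∈ W) → W ⊆ Aᶜ → W.Finite) →
      C.Nonempty →
      (∀ Φ : {A : Set ℕ // REPred fun n : ℕ => n ∈ A} ≃o {A : Set ℕ // REPred fun n : ℕ => n ∈ A},
        ∀ x : {A : Set ℕ // REPred fun n : ℕ => n ∈ A}, x.val ∈ C → (Φ x).val ∈ C) →
      (∀ x y : {A : Set ℕ // REPred fun n : ℕ => n ∈ A}, x.val ∈ C → y.val ∈ C →
        ∃ Φ : {A : Set ℕ // REPred fun n : ℕ => n ∈ A} ≃o {A : Set ℕ // REPred fun n : ℕ => n ∈ A},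
          Φ x = y) →
      ∀ D : Set (Set ℕ),
        (∀ A : Set ℕ, A ∈ D ↔ ∃ B ∈ C, ∃ A1 : Set ℕ,
          REPred (fun n : ℕ => n ∈ A) ∧ REPred (fun n : ℕ => n ∈ A1) ∧
          Disjoint A A1 ∧ A ∪ A1 = B ∧
          ∀ W : Set ℕ, REPred (fun n : ℕ => n ∈ W) → ¬ REPred (fun n : ℕ => n ∈ W \ B) →
            (¬ REPred (fun n : ℕ => n ∈ W \ A) ∧ ¬ REPred (fun n : ℕ => n ∈ W \ A1))) →
        D.Nonempty ∧
        (∀ Φ : {A : Set ℕ // REPred fun n : ℕ => n ∈ A} ≃o {A : Set ℕ // REPred fun n : ℕ => n ∈ A},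
          ∀ x : {A : Set ℕ // REPred fun n : ℕ => n ∈ A}, x.val ∈ D → (Φ x).val ∈ D) ∧
        (∀ x y : {A : Set ℕ // REPred fun n : ℕ => n ∈ A}, x.val ∈ D → y.val ∈ D →
          ∃ Φ : {A : Set ℕ // REPred fun n : ℕ => n ∈ A} ≃o {A : Set ℕ // REPred fun n : ℕ => n ∈ A},
            Φ x = y)) := by
  intro h
  obtain ⟨M, E, F, B', C0, C1, D⟩ := Pool.Agent.H53.DS.exists_data
  have hB : Pool.Agent.H53.DS.RE (E ∪ B') := Pool.Agent.H53.DS.re_union D.reE D.reB'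
  have hA0 : Pool.Agent.H53.DS.RE (E ∪ C0) := Pool.Agent.H53.DS.re_union D.reE D.reC0
  have hsimple := D.simple
  let b : Pool.Agent.H53.DS.T := ⟨E ∪ B', hB⟩
  -- the orbit of `B`
  let C : Set (Set ℕ) := {A | ∃ Φ : Pool.Agent.H53.DS.T ≃o Pool.Agent.H53.DS.T, A = (Φ b).val}
  have hC1 : ∀ A ∈ C, REPred (fun n : ℕ => n ∈ A) ∧ (Aᶜ).Infinite ∧
      ∀ W : Set ℕ, REPred (fun n : ℕ => n ∈ W) → W ⊆ Aᶜ → W.Finite := by
    rintro _ ⟨Φ, rfl⟩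
    have := Pool.Agent.H53.DS.orbit_simple hB hsimple.1 hsimple.2 Φ
    exact ⟨(Φ b).2, this.1, this.2⟩
  have hbC : E ∪ B' ∈ C := ⟨OrderIso.refl _, rfl⟩
  have hC3 : ∀ Φ : {A : Set ℕ // REPred fun n : ℕ => n ∈ A} ≃o
        {A : Set ℕ // REPred fun n : ℕ => n ∈ A},
      ∀ x : {A : Set ℕ // REPred fun n : ℕ => n ∈ A}, x.val ∈ C → (Φ x).val ∈ C := by
    rintro Φ x ⟨Ψ, hΨ⟩
    refine ⟨Ψ.trans Φ, ?_⟩
    have hx : x = Ψ b := Subtype.ext hΨ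
    rw [hx]
    rfl
  have hC4 : ∀ x y : {A : Set ℕ // REPred fun n : ℕ => n ∈ A}, x.val ∈ C → y.val ∈ C →
      ∃ Φ : {A : Set ℕ // REPred fun n : ℕ => n ∈ A} ≃o
        {A : Set ℕ // REPred fun n : ℕ => n ∈ A}, Φ x = y := by
    rintro x y ⟨Φ, hΦ⟩ ⟨Ψ, hΨ⟩
    refine ⟨Φ.symm.trans Ψ, ?_⟩
    have hx : x = Φ b := Subtype.ext hΦ
    have hy : y = Ψ b := Subtype.ext hΨ
    rw [hx, hy, OrderIso.trans_apply, OrderIso.symm_apply_apply]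
  let DD : Set (Set ℕ) := {A | ∃ B ∈ C, ∃ A1 : Set ℕ,
    REPred (fun n : ℕ => n ∈ A) ∧ REPred (fun n : ℕ => n ∈ A1) ∧
    Disjoint A A1 ∧ A ∪ A1 = B ∧
    ∀ W : Set ℕ, REPred (fun n : ℕ => n ∈ W) → ¬ REPred (fun n : ℕ => n ∈ W \ B) →
      (¬ REPred (fun n : ℕ => n ∈ W \ A) ∧ ¬ REPred (fun n : ℕ => n ∈ W \ A1))}
  obtain ⟨-, -, h3⟩ := h C hC1 ⟨_, hbC⟩ hC3 hC4 DD fun A => Iff.rfl
  have hA0D : E ∪ C0 ∈ DD := by
    refine ⟨E ∪ B', hbC, C1, hA0, D.reC1, ?_, D.union_eq, ?_⟩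
    · rw [Set.disjoint_iff_inter_eq_empty]
      exact D.disj
    · intro W hW hn
      exact ⟨fun h' => hn (D.friedberg0 h'), fun h' => hn (D.friedberg1 hW h')⟩
  have hA1D : C1 ∈ DD := by
    refine ⟨E ∪ B', hbC, E ∪ C0, D.reC1, hA0, ?_, ?_, ?_⟩
    · rw [Set.disjoint_iff_inter_eq_empty, Set.inter_comm]
      exact D.disj
    · rw [Set.union_comm]
      exact D.union_eq
    · intro W hW hn
      exact ⟨fun h' => hn (D.friedberg1 hW h'), fun h' => hn (D.friedberg0 h')⟩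
  exact D.not_auto ⟨E ∪ C0, hA0⟩ ⟨C1, D.reC1⟩ rfl rfl
    (h3 ⟨E ∪ C0, hA0⟩ ⟨C1, D.reC1⟩ hA0D hA1D)

end Pool.Agent.S15072
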