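import Pool.Statements.S15495
import Pool.Agent.VCM.Assemble

set_option autoImplicit false
open Pool Pool.MP_e0833a_lc

namespace Pool.Agent.S15495

/-- Suppose the complete theory of a structure M is VC-minimal: some parameter-free one-variable formula family is nested-or-disjoint and generates all one-variable definable sets in every model. Then for every formula with m object variables, the number of types over a finite set B is O(∣B∣^r) for all -/
theorem result :
  ∀ (L : FirstOrder.Language.{0,0}) (M : Type) [L.Structure M],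
    (∃ Ψ : Set (Σ k : ℕ, L.Formula (Fin 1 ⊕ Fin k)),
      ∀ (N : Type) [L.Structure N], L.completeTheory N = L.completeTheory M →
        (∀ ψ₁ ∈ Ψ, ∀ ψ₂ ∈ Ψ, ∀ (b₁ : Fin ψ₁.1 → N) (b₂ : Fin ψ₂.1 → N),
          {a : N | ψ₁.2.Realize (Sum.elim (fun _ => a) b₁)} ⊆
              {a : N | ψ₂.2.Realize (Sum.elim (fun _ => a) b₂)} ∨
            {a : N | ψ₂.2.Realize (Sum.elim (fun _ => a) b₂)} ⊆
              {a : N | ψ₁.2.Realize (Sum.elim (fun _ => a) b₁)} ∨
            Disjoint {a : N | ψ₁.2.Realize (Sum.elim (fun _ => a) b₁)}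
              {a : N | ψ₂.2.Realize (Sum.elim (fun _ => a) b₂)}) ∧
        (∀ (k : ℕ) (φ : L.Formula (Fin 1 ⊕ Fin k)) (c : Fin k → N),
          {a : N | φ.Realize (Sum.elim (fun _ => a) c)} ∈
            BooleanSubalgebra.closure
              {S : Set N | ∃ ψ ∈ Ψ, ∃ b : Fin ψ.1 → N,
                S = {a : N | ψ.2.Realize (Sum.elim (fun _ => a) b)}})) →
    ∀ (m k : ℕ) (φ : L.Formula (Fin m ⊕ Fin k)) (r : ℝ), (m : ℝ) < r →
      ∃ C : ℝ, ∀ B : Finset (Fin k → M),
        (({S : Finset (Fin k → M) | S ⊆ B ∧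
            ∃ a : Fin m → M, ∀ b ∈ B, (b ∈ S ↔ φ.Realize (Sum.elim a b))}.ncard : ℕ) : ℝ)
          ≤ C * ((B.card : ℝ) + 1) ^ r := by
  exact Pool.Agent.VCM.final (fun _ _ _ _ V Λ p d β _ k S => Pool.Agent.VCM.count_all V Λ p d β k S)

end Pool.Agent.S15495
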