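import Pool.Statements.S15721
import Pool.Agent.H98.Theta3.Final
import Pool.Agent.H98.Theta3.Main

set_option autoImplicit false
open Pool Pool.MP_4944ab_mp

namespace Pool.Agent.S15721

/-- For 0<β<1 and every unit-covolume lattice L=Aℤ³ in ℝ³, the sum of exp(−πβ∣p∣²) over L is at least its value for the unit-covolume BCC lattice, with equality only when L is a rotation of BCC. -/
theorem result :
    ∀ β : ℝ, 0 < β → β < 1 →
      ∀ A : Matrix (Fin 3) (Fin 3) ℝ, |A.det| = 1 →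
        ((∑' z : Fin 3 → ℤ, Real.exp (-Real.pi * β *
            ∑ i, (((2:ℝ) ^ ((1:ℝ)/3) • !![(1:ℝ), 0, 1/2; 0, 1, 1/2; 0, 0, 1/2]).mulVec
              (fun j => (z j : ℝ)) i) ^ 2))
          ≤ ∑' z : Fin 3 → ℤ, Real.exp (-Real.pi * β *
              ∑ i, (A.mulVec (fun j => (z j : ℝ)) i) ^ 2)) ∧
        ((∑' z : Fin 3 → ℤ, Real.exp (-Real.pi * β *
            ∑ i, (((2:ℝ) ^ ((1:ℝ)/3) • !![(1:ℝ), 0, 1/2; 0, 1, 1/2; 0, 0, 1/2]).mulVec
              (fun j => (z j : ℝ)) i) ^ 2))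
          = ∑' z : Fin 3 → ℤ, Real.exp (-Real.pi * β *
              ∑ i, (A.mulVec (fun j => (z j : ℝ)) i) ^ 2) →
          ∃ R ∈ Matrix.orthogonalGroup (Fin 3) ℝ,
            Set.range (fun z : Fin 3 → ℤ => A.mulVec (fun j => (z j : ℝ))) =
              Set.range (fun z : Fin 3 → ℤ =>
                (R * ((2:ℝ) ^ ((1:ℝ)/3) • !![(1:ℝ), 0, 1/2; 0, 1, 1/2; 0, 0, 1/2])).mulVec
                  (fun j => (z j : ℝ)))) :=
  Theta3.frozen_of_main Theta3.main

end Pool.Agent.S15721
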