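import Pool.Statements.S17181
import Pool.Agent.IterTotient
import Pool.Agent.NTot.Normal
-- import your own Pool.Agent.* helpers here

set_option autoImplicit false
open Pool Pool.MP_628140_nt

namespace Pool.Agent.S17181

/-- `2 ^ F n ≤ n` for `n ≠ 0`. -/
lemma two_pow_F_le (n : ℕ) (hn : n ≠ 0) : 2 ^ Pool.Agent.IterTotient.F n ≤ n := by
  induction n using Nat.strong_induction_on with
  | _ n ih =>
    rcases Nat.lt_or_ge n 2 with h | h
    · obtain rfl : n = 1 := by omega
      simp
    · by_cases hp : n.Prime
      · by_cases h2 : n = 2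
        · subst h2; simp
        · rw [Pool.Agent.IterTotient.F_prime_odd hp h2]
          have h3 := ih (n - 1) (by omega) (by omega)
          omega
      · obtain ⟨a, b, ha, hb, hab⟩ : ∃ a b, a < n ∧ b < n ∧ n = a * b := by
          obtain ⟨a, ha1, ha2, ha3⟩ := Nat.exists_dvd_of_not_prime2 h hp
          obtain ⟨b, hb⟩ := ha1
          refine ⟨a, b, ha3, ?_, hb⟩
          rw [hb]
          nlinarith [Nat.pos_of_ne_zero (by rintro rfl; omega : b ≠ 0)]
        have ha0 : a ≠ 0 := by rintro rfl; omega
        have hb0 : b ≠ 0 := by rintro rfl; omega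
        rw [hab, Pool.Agent.IterTotient.F_mul ha0 hb0, pow_add]
        exact Nat.mul_le_mul (ih a ha ha0) (ih b hb hb0)

lemma one_le_inv_log_two : 1 ≤ 1 / Real.log 2 := by
  have h1 : 0 < Real.log 2 := Real.log_pos (by norm_num)
  rw [le_div_iff₀ h1, one_mul]
  have := Real.log_two_lt_d9
  linarith

/-- the function `F` belongs to the class of `normal_order` -/
lemma addFn_F : Pool.Agent.NTot.AddFn (1 / Real.log 2) 0
    (fun n => (Pool.Agent.IterTotient.F n : ℝ)) where
  mul a b ha hb := by
    rw [Pool.Agent.IterTotient.F_mul ha hb]; push_cast; ring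
  nonneg n _ := Nat.cast_nonneg _
  le_log n hn := by
    have h1 : 0 < Real.log 2 := Real.log_pos (by norm_num)
    have h2 := two_pow_F_le n (by omega)
    rw [div_mul_eq_mul_div, one_mul, le_div_iff₀ h1, ← Real.log_pow]
    apply Real.log_le_log (by positivity)
    exact_mod_cast h2
  shift p hp h2 := by
    rw [Pool.Agent.IterTotient.F_prime_odd hp (by omega)]
    simp

/-- There is a real c such that for every ε>0, the n with ∣f(n)/log n − c∣>ε have natural density zero, where f(n) is the least k≥1 with the k-fold iterated Euler totient of n equal to 1. -/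
theorem result :
    ∃ c : ℝ, ∀ ε : ℝ, ε > 0 →
      Filter.Tendsto
        (fun N : ℕ =>
          (((Finset.range N).filter
              (fun n : ℕ =>
                ε < |((sInf {k : ℕ | 1 ≤ k ∧ Nat.totient^[k] n = 1} : ℕ) : ℝ)
                      / Real.log (n : ℝ) - c|)).card : ℝ) / (N : ℝ))
        Filter.atTop (nhds 0) := by
  obtain ⟨c, hc⟩ := Pool.Agent.NTot.normal_order (1 / Real.log 2) 0 one_le_inv_log_two le_rfl
    (fun n => (Pool.Agent.IterTotient.F n : ℝ)) addFn_F
  refine ⟨c, fun ε hε => ?_⟩
  have h1 := hc (ε / 2) (by positivity)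
  -- the finitely many small `n`
  set B : ℕ := ⌈Real.exp (2 / ε)⌉₊ + 2 with hB
  have key : ∀ N : ℕ, (((Finset.range N).filter
              (fun n : ℕ =>
                ε < |((sInf {k : ℕ | 1 ≤ k ∧ Nat.totient^[k] n = 1} : ℕ) : ℝ)
                      / Real.log (n : ℝ) - c|)).card : ℝ) ≤
      (((Finset.range N).filter
        (fun n : ℕ => ε / 2 < |(Pool.Agent.IterTotient.F n : ℝ) / Real.log n - c|)).card : ℝ)
        + B := by
    intro N
    have hsub : ((Finset.range N).filter
              (fun n : ℕ =>
                ε < |((sInf {k : ℕ | 1 ≤ k ∧ Nat.totient^[k] n = 1} : ℕ) : ℝ)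
                      / Real.log (n : ℝ) - c|)) ⊆
        ((Finset.range N).filter
        (fun n : ℕ => ε / 2 < |(Pool.Agent.IterTotient.F n : ℝ) / Real.log n - c|)) ∪
          Finset.range B := by
      intro n hn
      rw [Finset.mem_filter] at hn
      rw [Finset.mem_union, Finset.mem_filter, Finset.mem_range]
      by_cases hnB : n < B
      · right; exact Finset.mem_range.mpr hnB
      · left
        refine ⟨Finset.mem_range.mp hn.1, ?_⟩
        have hnB' : B ≤ n := by omega
        have hn0 : n ≠ 0 := by omega
        have hexp : Real.exp (2 / ε) < n := by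
          have h3 : Real.exp (2 / ε) ≤ (⌈Real.exp (2 / ε)⌉₊ : ℝ) := Nat.le_ceil _
          have h4 : ((⌈Real.exp (2 / ε)⌉₊ : ℕ) : ℝ) < n := by
            exact_mod_cast (by omega : ⌈Real.exp (2 / ε)⌉₊ < n)
          linarith
        have hlog : 2 / ε < Real.log n := by
          rw [Real.lt_log_iff_exp_lt (by positivity)]
          exact hexp
        have hlpos : 0 < Real.log n := lt_trans (by positivity) hlog
        have h5 := Pool.Agent.IterTotient.F_le_stop n hn0
        have h6 := Pool.Agent.IterTotient.stop_le n hn0
        have h7 : ((sInf {k : ℕ | 1 ≤ k ∧ Nat.totient^[k] n = 1} : ℕ) : ℝ)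
            = (Pool.Agent.IterTotient.stop n : ℝ) := rfl
        have h8 := hn.2
        rw [h7] at h8
        have h5' : (Pool.Agent.IterTotient.F n : ℝ) ≤ Pool.Agent.IterTotient.stop n := by
          exact_mod_cast h5
        have h6' : (Pool.Agent.IterTotient.stop n : ℝ) ≤ Pool.Agent.IterTotient.F n + 1 := by
          exact_mod_cast h6
        have h9 : |(Pool.Agent.IterTotient.stop n : ℝ) / Real.log n -
            (Pool.Agent.IterTotient.F n : ℝ) / Real.log n| ≤ ε / 2 := by
          rw [← sub_div, abs_div, abs_of_pos hlpos, abs_of_nonneg (by linarith),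
            div_le_iff₀ hlpos]
          rw [div_lt_iff₀ hε] at hlog
          nlinarith
        have h10 := abs_add_le ((Pool.Agent.IterTotient.stop n : ℝ) / Real.log n -
            (Pool.Agent.IterTotient.F n : ℝ) / Real.log n)
            ((Pool.Agent.IterTotient.F n : ℝ) / Real.log n - c)
        rw [show (Pool.Agent.IterTotient.stop n : ℝ) / Real.log n -
            (Pool.Agent.IterTotient.F n : ℝ) / Real.log n +
            ((Pool.Agent.IterTotient.F n : ℝ) / Real.log n - c) =
            (Pool.Agent.IterTotient.stop n : ℝ) / Real.log n - c by ring] at h10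
        linarith
    have h2 := Finset.card_le_card hsub
    have h3 := h2.trans (Finset.card_union_le _ _)
    rw [Finset.card_range] at h3
    exact_mod_cast h3
  have h2 : Filter.Tendsto (fun N : ℕ => (((Finset.range N).filter
        (fun n : ℕ => ε / 2 < |(Pool.Agent.IterTotient.F n : ℝ) / Real.log n - c|)).card : ℝ) / N
        + (B : ℝ) / N) Filter.atTop (nhds 0) := by
    have h3 : Filter.Tendsto (fun N : ℕ => (B : ℝ) / (N : ℝ)) Filter.atTop (nhds 0) :=
      tendsto_const_div_atTop_nhds_zero_nat (B : ℝ)
    simpa using h1.add h3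
  refine squeeze_zero (fun N => by positivity) (fun N => ?_) h2
  rw [← add_div]
  exact div_le_div_of_nonneg_right (key N) (Nat.cast_nonneg N)

end Pool.Agent.S17181
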