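import Pool.Statements.S17819
import Pool.Agent.SidonThree.LocalBound

set_option autoImplicit false
open Pool Pool.MP_9568c3_nt

namespace Pool.Agent.S17819

/-- There exist θ in (0,1), an infinite Sidon set S of naturals and C>0 such that every large m is s1+s2+s3 with each s_i in S and ∣s_i − m/3∣ ≤ C·m^θ. -/
theorem result :
    ∃ θ : ℝ, 0 < θ ∧ θ < 1 ∧
      ∃ S : Set ℕ, S.Infinite ∧
        (∀ a ∈ S, ∀ b ∈ S, ∀ c ∈ S, ∀ d ∈ S,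
          a + b = c + d → (a = c ∧ b = d) ∨ (a = d ∧ b = c)) ∧
        ∃ C : ℝ, 0 < C ∧ ∃ N : ℕ, ∀ m : ℕ, N ≤ m →
          ∃ s₁ ∈ S, ∃ s₂ ∈ S, ∃ s₃ ∈ S,
            s₁ + s₂ + s₃ = m ∧
            |(s₁ : ℝ) - (m : ℝ) / 3| ≤ C * (m : ℝ) ^ θ ∧
            |(s₂ : ℝ) - (m : ℝ) / 3| ≤ C * (m : ℝ) ^ θ ∧
            |(s₃ : ℝ) - (m : ℝ) / 3| ≤ C * (m : ℝ) ^ θ := by
  refine ⟨Pool.Agent.SidonThree.th, ?_, ?_,
    Pool.Agent.SidonThree.main_of_good Pool.Agent.SidonThree.DX Pool.Agent.SidonThree.DX_good⟩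
  · unfold Pool.Agent.SidonThree.th; norm_num
  · unfold Pool.Agent.SidonThree.th; norm_num

end Pool.Agent.S17819
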