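import Pool.Statements.S18323
import Pool.Agent.MQ.Final

set_option autoImplicit false
open Pool Pool.MP_bd3be7_nt

namespace Pool.Agent.S18323

/-- If K is the subfield of ℝ generated by square roots of a set of naturals and K has infinite degree over ℚ, then for every n some sum of squares of algebraic integers of K is not a sum of n such squares. -/
theorem result :
    ∀ S : Set ℕ,
      ¬ FiniteDimensional ℚ
          (IntermediateField.adjoin ℚ ((fun d : ℕ => Real.sqrt (d : ℝ)) '' S)) →
      ∀ n : ℕ, ∃ m : ℕ, ∃ a : Fin m → ℝ,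
        (∀ i, a i ∈ IntermediateField.adjoin ℚ ((fun d : ℕ => Real.sqrt (d : ℝ)) '' S) ∧
              IsIntegral ℤ (a i)) ∧
        ¬ ∃ b : Fin n → ℝ,
            (∀ i, b i ∈ IntermediateField.adjoin ℚ ((fun d : ℕ => Real.sqrt (d : ℝ)) '' S) ∧
                  IsIntegral ℤ (b i)) ∧
            ∑ i, (a i) ^ 2 = ∑ i, (b i) ^ 2 := by
  exact Pool.Agent.MQ.real_main

end Pool.Agent.S18323
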