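import Pool.Statements.S18781
import Pool.Agent.H67.Fin.Last

set_option autoImplicit false
open Pool Pool.MP_e44043_nt

namespace Pool.Agent.S18781

/-- For odd primes p<q<r with Φ_pqr flat, and w the least positive integer with r ≡ ±w mod pq, if p ≢ 1 mod w then w>p, q>p²−p, q ≡ ±1 and w ≡ ±1 mod p, and if w ≡ 1 mod p then q ≢ ±1 mod wp. -/
theorem result :
    ∀ p q r w : ℕ, p.Prime → q.Prime → r.Prime → Odd p → p < q → q < r →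
      (∀ k : ℕ, |(Polynomial.cyclotomic (p * q * r) ℤ).coeff k| ≤ 1) →
      0 < w →
      ((r : ℤ) ≡ (w : ℤ) [ZMOD ((p : ℤ) * q)] ∨ (r : ℤ) ≡ -(w : ℤ) [ZMOD ((p : ℤ) * q)]) →
      (∀ v : ℕ, 0 < v → v < w →
        ¬ ((r : ℤ) ≡ (v : ℤ) [ZMOD ((p : ℤ) * q)] ∨ (r : ℤ) ≡ -(v : ℤ) [ZMOD ((p : ℤ) * q)])) →
      ¬ p ≡ 1 [MOD w] →
      (p < w ∧ p ^ 2 - p < q ∧
        ((q : ℤ) ≡ 1 [ZMOD (p : ℤ)] ∨ (q : ℤ) ≡ -1 [ZMOD (p : ℤ)]) ∧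
        ((w : ℤ) ≡ 1 [ZMOD (p : ℤ)] ∨ (w : ℤ) ≡ -1 [ZMOD (p : ℤ)]) ∧
        ((w : ℤ) ≡ 1 [ZMOD (p : ℤ)] →
          ¬ ((q : ℤ) ≡ 1 [ZMOD ((w : ℤ) * p)] ∨ (q : ℤ) ≡ -1 [ZMOD ((w : ℤ) * p)]))) := by
  exact Pool.Agent.H67.Flat.final_of_tieG Pool.Agent.H67.Flat.hT_final

end Pool.Agent.S18781
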