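import Pool.Statements.S19425
import Pool.Agent.H94.Main

set_option autoImplicit false
open MeasureTheory
open Pool Pool.MP_79a0fa_pr

namespace Pool.Agent.S19425

/-- For a spectrally negative Lévy triplet with nonzero Gaussian part, the scale function W (inverse Laplace transform of 1/ψ) is C^(k+3) on (0,∞) iff the tail y ↦ Π(−∞,−y) is C^k on (0,∞), for every k ≥ 0. -/
theorem result :
  ∀ (μ : MeasureTheory.Measure ℝ) (a σ : ℝ) (W : ℝ → ℝ),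
    μ (Set.Ici 0) = 0 →
    ∫⁻ x, ENNReal.ofReal (min 1 (x ^ 2)) ∂μ < ⊤ →
    σ ≠ 0 →
    ContinuousOn W (Set.Ioi 0) →
    (∃ β₀ : ℝ, ∀ β : ℝ, β₀ < β →
      MeasureTheory.IntegrableOn (fun x => Real.exp (-(β * x)) * W x) (Set.Ioi 0) ∧
      ∫ x in Set.Ioi (0 : ℝ), Real.exp (-(β * x)) * W x =
        1 / (-(a * β) + σ ^ 2 * β ^ 2 / 2 +
          ∫ x, (Real.exp (β * x) - 1 - (Set.Ioi (-1 : ℝ)).indicator (fun y => β * y) x) ∂μ)) →
    ∀ k : ℕ,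
      (ContDiffOn ℝ (((k + 3 : ℕ) : ℕ∞) : WithTop ℕ∞) W (Set.Ioi 0) ↔
        ContDiffOn ℝ (((k : ℕ) : ℕ∞) : WithTop ℕ∞) (fun y => (μ (Set.Iio (-y))).toReal) (Set.Ioi 0)) := by
  intro μ a σ W h1 h2 h3 h4 h5 k
  exact_mod_cast Pool.Agent.H94.main μ a σ W h1 h2 h3 h4 h5 k

end Pool.Agent.S19425
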