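import Pool.Statements.S19492
import Pool.Agent.LiouvilleQI.Final

set_option autoImplicit false
open Pool Pool.MP_94e09c_pr

namespace Pool.Agent.S19492

/-- The negation of the preceding statement: Every connected bounded-degree graph that is quasi-isometric to the Cayley graph of a finitely generated nonamenable group carries a bounded, nonconstant function that is harmonic for simple random walk. -/
theorem result :
    ¬ (∀ (V : Type) (G : SimpleGraph V) [G.LocallyFinite] (Γ : Type) [Group Γ] [DecidableEq Γ]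
      (S : Finset Γ),
      G.Connected →
      (∃ D : ℕ, ∀ v : V, G.degree v ≤ D) →
      Subgroup.closure (S : Set Γ) = ⊤ →
      (∃ ε : ℝ, 0 < ε ∧ ∀ F : Finset Γ, F.Nonempty →
          ε * (F.card : ℝ) ≤
            (((F.biUnion (fun x => S.image (fun s => x * s) ∪ S.image (fun s => x * s⁻¹))) \ F).card : ℝ)) →
      (∃ φ : V → Γ, ∃ C K : ℝ, 0 < C ∧ 0 ≤ K ∧
          (∀ x y : V, (G.dist x y : ℝ) ≤
              C * ((SimpleGraph.fromRel (fun a b : Γ => a⁻¹ * b ∈ S)).dist (φ x) (φ y) : ℝ) + K) ∧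
          (∀ x y : V, ((SimpleGraph.fromRel (fun a b : Γ => a⁻¹ * b ∈ S)).dist (φ x) (φ y) : ℝ) ≤
              C * (G.dist x y : ℝ) + K) ∧
          (∀ γ : Γ, ∃ x : V,
              ((SimpleGraph.fromRel (fun a b : Γ => a⁻¹ * b ∈ S)).dist γ (φ x) : ℝ) ≤ K)) →
      ∃ h : V → ℝ,
        (∀ v : V, (G.degree v : ℝ) * h v = ∑ w ∈ G.neighborFinset v, h w) ∧
        (∃ M : ℝ, ∀ v : V, |h v| ≤ M) ∧
        (∃ a b : V, h a ≠ h b)) := by
  intro H
  obtain ⟨h, hharm, ⟨M, hM⟩, a, b, hab⟩ := H LiouvilleQI.Gam LiouvilleQI.GG LiouvilleQI.Gam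
    LiouvilleQI.SS LiouvilleQI.gconn
    ⟨60, fun v => by
      have h1 : LiouvilleQI.GG.degree v = (LiouvilleQI.FR.nbr LiouvilleQI.bd v).card := by
        rw [← SimpleGraph.card_neighborFinset_eq_degree, LiouvilleQI.nbrFinset]
      rw [h1]
      have := LiouvilleQI.FR.card_nbr_le LiouvilleQI.bd v
      exact_mod_cast this⟩
    LiouvilleQI.closure_SS
    ⟨1, one_pos, LiouvilleQI.nonam⟩
    ⟨fun x => x⁻¹, 3, 0, by norm_num, le_refl _, fun x y => by
        have h1 := LiouvilleQI.dist1 x y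
        have h2 : (LiouvilleQI.GG.dist x y : ℝ) ≤ (LiouvilleQI.KK.dist x⁻¹ y⁻¹ : ℝ) := by
          exact_mod_cast h1
        have h3 : (0 : ℝ) ≤ (LiouvilleQI.KK.dist x⁻¹ y⁻¹ : ℝ) := Nat.cast_nonneg _
        show (LiouvilleQI.GG.dist x y : ℝ) ≤ 3 * (LiouvilleQI.KK.dist x⁻¹ y⁻¹ : ℝ) + 0
        linarith,
      fun x y => by
        have h1 := LiouvilleQI.dist2 x y
        have h2 : (LiouvilleQI.KK.dist x⁻¹ y⁻¹ : ℝ) ≤ 3 * (LiouvilleQI.GG.dist x y : ℝ) := by
          exact_mod_cast h1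
        show (LiouvilleQI.KK.dist x⁻¹ y⁻¹ : ℝ) ≤ 3 * (LiouvilleQI.GG.dist x y : ℝ) + 0
        linarith,
      fun γ => ⟨γ⁻¹, by
        show (LiouvilleQI.KK.dist γ (γ⁻¹)⁻¹ : ℝ) ≤ 0
        rw [inv_inv]
        simp⟩⟩
  apply hab
  apply LiouvilleQI.RT.liouville LiouvilleQI.bd_true LiouvilleQI.bd_false
    (R := LiouvilleQI.FR) (h := h) _ M hM
  intro x
  have h1 := hharm x
  rw [LiouvilleQI.nbrFinset] at h1
  rw [← h1]
  congr 2
  rw [← SimpleGraph.card_neighborFinset_eq_degree, LiouvilleQI.nbrFinset]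

end Pool.Agent.S19492
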